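import Mathlib

/-! # PFS: basic arithmetic definitions (MP_c63e80_an) -/

open MeasureTheory Topology Filter
open scoped ENNReal

namespace PFS

/-- distance to the nearest integer -/
noncomputable def nrm (x : ℝ) : ℝ := |x - round x|

/-- the parity sign `(-1)^⌊x⌋` -/
noncomputable def eps (x : ℝ) : ℝ := if Even ⌊x⌋ then 1 else -1

/-- least `q ≥ 1` with `‖q α‖ < 1/X` -/
noncomputable def qstar (α : ℝ) (X : ℕ) : ℕ := sInf {q : ℕ | 1 ≤ q ∧ nrm (q * α) < 1 / (X : ℝ)}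

/-- the parameter `A` -/
def AA : ℕ := 2 ^ 20
/-- the parameter `B` -/
def BB : ℕ := 2 ^ 100

/-- `q_b = q^*(α, B^b)` -/
noncomputable def qq (α : ℝ) (b : ℕ) : ℕ := qstar α (BB ^ b)

/-- level `b` is regular for `α`: `q_b ≥ B^b / A` -/
def Reg (α : ℝ) (b : ℕ) : Prop := BB ^ b ≤ AA * qq α b

/-- `c` is within `1/(B q_b)` of `-jα` mod 1, for some `|j| < q_b` -/
def Bad (α : ℝ) (b : ℕ) (c : ℝ) : Prop :=
  ∃ j : ℤ, |j| < (qq α b : ℤ) ∧ nrm (c + j * α) < 1 / ((BB : ℝ) * qq α b)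

/-- level `b` is good for the pair `(n, w)` -/
def Good (α : ℝ) (b n : ℕ) (w : ℝ) : Prop :=
  ¬ Bad α b (n * α) ∧ ¬ Bad α b w ∧ ¬ Bad α b (w + n * α) ∧ ¬ Bad α b (w - n * α)

/-- the sign function of `s` -/
noncomputable def ff (α w : ℝ) (n : ℕ) (s : ℝ) : ℝ :=
  ∏ k ∈ Finset.range n, (eps (s + (k + 1 : ℕ) * α) * eps (s + w + (k + 1 : ℕ) * α))

noncomputable def DD (α : ℝ) (n : ℕ) (w : ℝ) : ℝ := ∫ s in (0:ℝ)..1, ff α w n s

/-- `E |c_n(α)|²` as an explicit integral -/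
noncomputable def KK (M n : ℕ) (α : ℝ) : ℝ := ∫ w in (0:ℝ)..1, (DD α n w) ^ M

/-- the sign function of the circle with sign changes at the points `e j` -/
noncomputable def chi {M : ℕ} (e : Fin M → ℝ) (x : ℝ) : ℝ :=
  ∏ j, if e j ≤ Int.fract x then (-1 : ℝ) else 1

/-- signed products along the orbit `u + kα`: for `m ≥ 0` the product over `1 ≤ k ≤ m`, for
`m < 0` the product over `m < k ≤ 0` -/
noncomputable def Pz {M : ℕ} (e : Fin M → ℝ) (α u : ℝ) (m : ℤ) : ℝ :=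
  (∏ k ∈ Finset.Ioc 0 m, chi e (u + k * α)) * ∏ k ∈ Finset.Ioc m 0, chi e (u + k * α)

noncomputable def cc {M : ℕ} (e : Fin M → ℝ) (α : ℝ) (m : ℤ) : ℝ := ∫ u in (0:ℝ)..1, Pz e α u m

/-- the correlation function of the suspension: `∫∫ P(u, ⌊τ + h⌋) du dτ` -/
noncomputable def CC {M : ℕ} (e : Fin M → ℝ) (α h : ℝ) : ℝ := ∫ τ in (0:ℝ)..1, cc e α ⌊τ + h⌋

/-- the law of the endpoints -/
noncomputable def EM (M : ℕ) : Measure (Fin M → ℝ) :=
  Measure.pi (fun _ => volume.restrict (Set.Icc (0:ℝ) 1))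

/-! ### elementary lemmas -/

lemma nrm_nonneg (x : ℝ) : 0 ≤ nrm x := abs_nonneg _

lemma nrm_le_half (x : ℝ) : nrm x ≤ 1 / 2 := abs_sub_round x

lemma nrm_le_abs_sub_int (x : ℝ) (m : ℤ) : nrm x ≤ |x - m| := round_le x m

lemma nrm_eq (x : ℝ) : ∃ m : ℤ, nrm x = |x - m| := ⟨round x, rfl⟩

lemma nrm_le_abs (x : ℝ) : nrm x ≤ |x| := by simpa using nrm_le_abs_sub_int x 0

lemma nrm_neg (x : ℝ) : nrm (-x) = nrm x := by
  apply le_antisymm
  · have := nrm_le_abs_sub_int (-x) (-(round x))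
    refine this.trans (le_of_eq ?_)
    unfold nrm
    push_cast
    rw [← abs_neg]; ring_nf
  · have := nrm_le_abs_sub_int x (-(round (-x)))
    refine this.trans (le_of_eq ?_)
    unfold nrm
    push_cast
    rw [← abs_neg]; ring_nf

lemma nrm_add_le (x y : ℝ) : nrm (x + y) ≤ nrm x + nrm y := by
  have := nrm_le_abs_sub_int (x + y) (round x + round y)
  refine this.trans ?_
  unfold nrm
  push_cast
  calc |x + y - (round x + round y)| = |(x - round x) + (y - round y)| := by ring_nf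
    _ ≤ _ := abs_add_le _ _

lemma nrm_sub_comm (x y : ℝ) : nrm (x - y) = nrm (y - x) := by
  rw [← nrm_neg]; ring_nf

lemma nrm_sub_le (x y : ℝ) : nrm (x - y) ≤ nrm x + nrm y := by
  have := nrm_add_le x (-y)
  rwa [nrm_neg, ← sub_eq_add_neg] at this

lemma nrm_add_int (x : ℝ) (m : ℤ) : nrm (x + m) = nrm x := by
  unfold nrm; rw [round_add_intCast]; push_cast; ring_nf

lemma nrm_sub_int (x : ℝ) (m : ℤ) : nrm (x - m) = nrm x := by
  have := nrm_add_int x (-m); push_cast at this; rwa [← sub_eq_add_neg] at this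

lemma nrm_add_one (x : ℝ) : nrm (x + 1) = nrm x := by simpa using nrm_add_int x 1

lemma nrm_int (m : ℤ) : nrm (m : ℝ) = 0 := by simp [nrm]

lemma nrm_eq_zero_iff {x : ℝ} : nrm x = 0 ↔ ∃ m : ℤ, x = m := by
  constructor
  · intro h
    exact ⟨round x, by unfold nrm at h; linarith [abs_eq_zero.mp h]⟩
  · rintro ⟨m, rfl⟩; exact nrm_int m

lemma eps_sq (x : ℝ) : eps x * eps x = 1 := by unfold eps; split_ifs <;> norm_num

lemma eps_eq (x : ℝ) : eps x = 1 ∨ eps x = -1 := by unfold eps; split_ifs <;> simp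

lemma abs_eps (x : ℝ) : |eps x| = 1 := by rcases eps_eq x with h | h <;> simp [h]

lemma eps_add_one (x : ℝ) : eps (x + 1) = - eps x := by
  unfold eps
  rw [Int.floor_add_one]
  by_cases h : Even ⌊x⌋
  · have : ¬ Even (⌊x⌋ + 1) := by simpa [Int.even_add_one] using h
    simp [h, this]
  · have : Even (⌊x⌋ + 1) := by simpa [Int.even_add_one] using h
    simp [h, this]

lemma eps_sub_one (x : ℝ) : eps (x - 1) = - eps x := by
  have := eps_add_one (x - 1); rw [sub_add_cancel] at this; linarith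

lemma measurable_eps : Measurable eps := by
  unfold eps
  have h1 : Measurable (fun x : ℝ => ⌊x⌋) := Int.measurable_floor
  have h2 : MeasurableSet {x : ℝ | Even ⌊x⌋} := by
    have : {x : ℝ | Even ⌊x⌋} = (fun x : ℝ => ⌊x⌋) ⁻¹' {n : ℤ | Even n} := rfl
    rw [this]
    exact h1 (MeasurableSet.of_discrete)
  exact Measurable.ite h2 measurable_const measurable_const

lemma one_le_BB : 1 ≤ BB := by unfold BB; exact Nat.one_le_two_pow

lemma BB_pos : 0 < BB := one_le_BB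

lemma one_le_BB_pow (b : ℕ) : 1 ≤ BB ^ b := Nat.one_le_pow _ _ BB_pos

end PFS
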