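import Mathlib

/-! # PFS module CSqrt: an explicit complex square root, cut along the negative real axis -/

open MeasureTheory Topology Filter
open scoped ENNReal

namespace PFS

/-- the square root with non-negative real part (and, on the negative real axis, positive
imaginary part) -/
noncomputable def csqrt (z : ℂ) : ℂ :=
  ⟨√((‖z‖ + z.re) / 2), (if 0 ≤ z.im then 1 else -1) * √((‖z‖ - z.re) / 2)⟩

theorem csqrt_re (z : ℂ) : (csqrt z).re = √((‖z‖ + z.re) / 2) := rfl

theorem csqrt_im (z : ℂ) :
    (csqrt z).im = (if 0 ≤ z.im then 1 else -1) * √((‖z‖ - z.re) / 2) := rfl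

theorem csqrt_eq (z : ℂ) : csqrt z = ((√((‖z‖ + z.re) / 2) : ℝ) : ℂ) +
    (((if 0 ≤ z.im then 1 else -1) * √((‖z‖ - z.re) / 2) : ℝ) : ℂ) * Complex.I := by
  unfold csqrt
  rw [Complex.mk_eq_add_mul_I]

theorem csqrt_nn1 (z : ℂ) : 0 ≤ (‖z‖ + z.re) / 2 := by
  have := (abs_le.mp (Complex.abs_re_le_norm z)).1
  linarith

theorem csqrt_nn2 (z : ℂ) : 0 ≤ (‖z‖ - z.re) / 2 := by
  have := (abs_le.mp (Complex.abs_re_le_norm z)).2
  linarith

theorem csqrt_sq (z : ℂ) : csqrt z ^ 2 = z := by
  have h1 := Real.mul_self_sqrt (csqrt_nn1 z)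
  have h2 := Real.mul_self_sqrt (csqrt_nn2 z)
  have h3 : √((‖z‖ + z.re) / 2) * √((‖z‖ - z.re) / 2) = |z.im| / 2 := by
    rw [← Real.sqrt_mul (csqrt_nn1 z)]
    have h4 : (‖z‖ + z.re) / 2 * ((‖z‖ - z.re) / 2) = (|z.im| / 2) ^ 2 := by
      have h5 : ‖z‖ ^ 2 = z.re ^ 2 + z.im ^ 2 := by
        rw [← Complex.normSq_eq_norm_sq, Complex.normSq_apply]
        ring
      have h6 : |z.im| ^ 2 = z.im ^ 2 := sq_abs _
      nlinarith
    rw [h4, Real.sqrt_sq (by positivity)]
  apply Complex.ext
  · rw [sq, Complex.mul_re, csqrt_re, csqrt_im]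
    split_ifs <;> nlinarith
  · rw [sq, Complex.mul_im, csqrt_re, csqrt_im]
    split_ifs with h
    · rw [abs_of_nonneg h] at h3
      nlinarith
    · rw [abs_of_neg (not_le.mp h)] at h3
      nlinarith

theorem csqrt_eq_zero_iff (z : ℂ) : csqrt z = 0 ↔ z = 0 := by
  constructor
  · intro h
    rw [← csqrt_sq z, h]
    ring
  · intro h
    have h1 := csqrt_sq z
    rw [h] at h1 ⊢
    exact pow_eq_zero_iff (two_ne_zero) |>.mp h1

/-- for `Re w > 0` one has `csqrt (w^2) = w` -/
theorem csqrt_sq_of_re_pos {w : ℂ} (hw : 0 < w.re) : csqrt (w ^ 2) = w := by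
  have h1 := csqrt_sq (w ^ 2)
  rcases sq_eq_sq_iff_eq_or_eq_neg.mp h1 with h | h
  · exact h
  · exfalso
    have h2 : (csqrt (w ^ 2)).re = -w.re := by
      rw [h, Complex.neg_re]
    rw [csqrt_re] at h2
    have h3 := Real.sqrt_nonneg ((‖w ^ 2‖ + (w ^ 2).re) / 2)
    linarith

theorem measurable_csqrt : Measurable csqrt := by
  have h0 : csqrt = fun z : ℂ => ((√((‖z‖ + z.re) / 2) : ℝ) : ℂ) +
    (((if 0 ≤ z.im then 1 else -1) * √((‖z‖ - z.re) / 2) : ℝ) : ℂ) * Complex.I :=
    funext csqrt_eq
  rw [h0]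
  have h1 : Measurable fun z : ℂ => √((‖z‖ + z.re) / 2) := by
    have : Continuous fun z : ℂ => √((‖z‖ + z.re) / 2) := by
      have := Complex.continuous_re
      fun_prop
    exact this.measurable
  have h2 : Measurable fun z : ℂ => √((‖z‖ - z.re) / 2) := by
    have : Continuous fun z : ℂ => √((‖z‖ - z.re) / 2) := by
      have := Complex.continuous_re
      fun_prop
    exact this.measurable
  have h3 : Measurable fun z : ℂ => (if 0 ≤ z.im then (1 : ℝ) else -1) :=
    Measurable.ite (measurableSet_le measurable_const Complex.measurable_im) measurable_const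
      measurable_const
  exact (Complex.measurable_ofReal.comp h1).add
    ((Complex.measurable_ofReal.comp (h3.mul h2)).mul_const _)

theorem continuous_csqrt_a : Continuous fun z : ℂ => √((‖z‖ + z.re) / 2) := by
  have := Complex.continuous_re
  fun_prop

theorem continuous_csqrt_b : Continuous fun z : ℂ => √((‖z‖ - z.re) / 2) := by
  have := Complex.continuous_re
  fun_prop

/-- sign times a continuous function vanishing at the point -/
theorem continuousAt_sign_mul {g : ℂ → ℝ} {z : ℂ} (hg : ContinuousAt g z) (h0 : g z = 0) :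
    ContinuousAt (fun w : ℂ => (if 0 ≤ w.im then (1 : ℝ) else -1) * g w) z := by
  have h1 : Tendsto (fun w => |g w|) (𝓝 z) (𝓝 0) := by
    have := hg.tendsto.abs
    rwa [h0, abs_zero] at this
  have h2 : (if 0 ≤ z.im then (1 : ℝ) else -1) * g z = 0 := by rw [h0, mul_zero]
  unfold ContinuousAt
  simp only [h2]
  apply squeeze_zero_norm _ h1
  intro w
  rw [Real.norm_eq_abs, abs_mul]
  split_ifs <;> simp

theorem continuousAt_csqrt {z : ℂ} (hz : z ∈ Complex.slitPlane) : ContinuousAt csqrt z := by
  have h0 : csqrt = fun z : ℂ => ((√((‖z‖ + z.re) / 2) : ℝ) : ℂ) +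
    (((if 0 ≤ z.im then 1 else -1) * √((‖z‖ - z.re) / 2) : ℝ) : ℂ) * Complex.I :=
    funext csqrt_eq
  rw [h0]
  have h3 : ContinuousAt (fun z : ℂ => (if 0 ≤ z.im then (1 : ℝ) else -1) *
      √((‖z‖ - z.re) / 2)) z := by
    by_cases him : z.im = 0
    · apply continuousAt_sign_mul continuous_csqrt_b.continuousAt
      have hre : 0 < z.re := by
        rcases hz with h | h
        · exact h
        · exact absurd him h
      have hn : ‖z‖ = z.re := by
        have h5 : z = (z.re : ℂ) := Complex.ext (by simp) (by simp [him])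
        rw [h5, Complex.norm_real, Real.norm_of_nonneg hre.le]
        simp
      rw [hn, sub_self, zero_div, Real.sqrt_zero]
    · rcases lt_or_gt_of_ne him with h | h
      · have h5 : ∀ᶠ w : ℂ in 𝓝 z, w.im < 0 :=
          Complex.continuous_im.continuousAt.eventually (gt_mem_nhds h)
        refine (ContinuousAt.congr (f := fun w : ℂ => (-1 : ℝ) * √((‖w‖ - w.re) / 2)) ?_ ?_)
        · exact continuousAt_const.mul continuous_csqrt_b.continuousAt
        · filter_upwards [h5] with w hw
          rw [if_neg (not_le.mpr hw)]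
      · have h5 : ∀ᶠ w : ℂ in 𝓝 z, 0 < w.im :=
          Complex.continuous_im.continuousAt.eventually (lt_mem_nhds h)
        refine (ContinuousAt.congr (f := fun w : ℂ => (1 : ℝ) * √((‖w‖ - w.re) / 2)) ?_ ?_)
        · exact continuousAt_const.mul continuous_csqrt_b.continuousAt
        · filter_upwards [h5] with w hw
          rw [if_pos hw.le]
  exact (Complex.continuous_ofReal.continuousAt.comp continuous_csqrt_a.continuousAt).add
    ((Complex.continuous_ofReal.continuousAt.comp h3).mul continuousAt_const)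

/-- continuous on the closed upper half plane -/
theorem continuousOn_csqrt_upper : ContinuousOn csqrt {z : ℂ | 0 ≤ z.im} := by
  have h1 : ContinuousOn (fun z : ℂ => ((√((‖z‖ + z.re) / 2) : ℝ) : ℂ) +
    ((√((‖z‖ - z.re) / 2) : ℝ) : ℂ) * Complex.I) {z : ℂ | 0 ≤ z.im} := by
    apply Continuous.continuousOn
    exact (Complex.continuous_ofReal.comp continuous_csqrt_a).add
      ((Complex.continuous_ofReal.comp continuous_csqrt_b).mul continuous_const)
  refine h1.congr fun z hz => ?_
  have hz' : 0 ≤ z.im := hz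
  rw [csqrt_eq, if_pos hz', one_mul]

/-- after the sign flip in the lower half plane it is continuous across the negative real axis -/
theorem continuousAt_csqrt_flip {z : ℂ} (h : z.im = 0) (h' : z.re < 0) :
    ContinuousAt (fun w : ℂ => (if 0 ≤ w.im then (1:ℂ) else -1) * csqrt w) z := by
  have h0 : (fun w : ℂ => (if 0 ≤ w.im then (1:ℂ) else -1) * csqrt w) =
      fun w : ℂ => (((if 0 ≤ w.im then (1 : ℝ) else -1) * √((‖w‖ + w.re) / 2) : ℝ) : ℂ) +
    ((√((‖w‖ - w.re) / 2) : ℝ) : ℂ) * Complex.I := by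
    funext w
    rw [csqrt_eq]
    split_ifs
    · push_cast
      ring
    · push_cast
      ring
  rw [h0]
  have h3 : ContinuousAt (fun w : ℂ => (if 0 ≤ w.im then (1 : ℝ) else -1) *
      √((‖w‖ + w.re) / 2)) z := by
    apply continuousAt_sign_mul continuous_csqrt_a.continuousAt
    have hn : ‖z‖ = -z.re := by
      have h5 : z = (z.re : ℂ) := Complex.ext (by simp) (by simp [h])
      rw [h5, Complex.norm_real, Real.norm_of_nonpos h'.le]
      simp
    rw [hn, neg_add_cancel, zero_div, Real.sqrt_zero]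
  exact (Complex.continuous_ofReal.continuousAt.comp h3).add
    ((Complex.continuous_ofReal.continuousAt.comp continuous_csqrt_b.continuousAt).mul
      continuousAt_const)

end PFS
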