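import Pool.Agent.PFS.QStar

/-! # PFS module ChainIrr: almost every `α` has few irregular levels -/

open MeasureTheory Topology Filter
open scoped ENNReal

namespace PFS

private lemma notReg_iff (α : ℝ) (b : ℕ) :
    ¬ Reg α b ↔ ∃ q : ℕ, 1 ≤ q ∧ AA * q < BB ^ b ∧ nrm (q * α) < 1 / ((BB ^ b : ℕ) : ℝ) := by
  unfold Reg
  rw [not_le]
  constructor
  · intro h
    exact ⟨qq α b, qq_pos α b, h, qstar_nrm α (one_le_BB_pow b)⟩
  · rintro ⟨q, h1, h2, h3⟩
    have h4 : qq α b ≤ q := Nat.sInf_le ⟨h1, h3⟩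
    exact (Nat.mul_le_mul_left _ h4).trans_lt h2

private lemma measurableSet_nrm (q : ℕ) (r : ℝ) : MeasurableSet {α : ℝ | nrm (q * α) < r} := by
  have h : {α : ℝ | nrm (q * α) < r} = ⋃ m : ℤ, {α : ℝ | |q * α - m| < r} := by
    ext α
    simp only [Set.mem_ofPred_eq, Set.mem_iUnion]
    constructor
    · intro h
      exact ⟨round (q * α), h⟩
    · rintro ⟨m, hm⟩
      exact (nrm_le_abs_sub_int _ m).trans_lt hm
  rw [h]
  refine MeasurableSet.iUnion fun m => ?_
  exact (isOpen_lt (by fun_prop) continuous_const).measurableSet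

theorem measurableSet_reg (b : ℕ) : MeasurableSet {α : ℝ | Reg α b} := by
  have h : {α : ℝ | Reg α b} = (⋃ q : ℕ, {α : ℝ | 1 ≤ q ∧ AA * q < BB ^ b ∧
      nrm (q * α) < 1 / ((BB ^ b : ℕ) : ℝ)})ᶜ := by
    ext α
    simp only [Set.mem_compl_iff, Set.mem_iUnion, Set.mem_ofPred_eq]
    rw [← notReg_iff, not_not]
  rw [h]
  refine MeasurableSet.compl (MeasurableSet.iUnion fun q => ?_)
  by_cases hq : 1 ≤ q ∧ AA * q < BB ^ b
  · have : {α : ℝ | 1 ≤ q ∧ AA * q < BB ^ b ∧ nrm (q * α) < 1 / ((BB ^ b : ℕ) : ℝ)} =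
        {α : ℝ | nrm (q * α) < 1 / ((BB ^ b : ℕ) : ℝ)} := by
      ext α; simp only [Set.mem_ofPred_eq]; tauto
    rw [this]
    exact measurableSet_nrm q _
  · have : {α : ℝ | 1 ≤ q ∧ AA * q < BB ^ b ∧ nrm (q * α) < 1 / ((BB ^ b : ℕ) : ℝ)} = ∅ := by
      ext α; simp only [Set.mem_ofPred_eq, Set.mem_empty_iff_false, iff_false]; tauto
    rw [this]
    exact MeasurableSet.empty

/-- the fraction `x.1 / x.2` is reduced and `A x.2 < B^b` -/
private def Ad (b : ℕ) (x : ℤ × ℕ) : Prop :=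
  1 ≤ x.2 ∧ IsCoprime x.1 (x.2 : ℤ) ∧ AA * x.2 < BB ^ b

/-- the neighbourhood of `x.1 / x.2` -/
private def UU (b : ℕ) (x : ℤ × ℕ) : Set ℝ :=
  Metric.ball ((x.1 : ℝ) / x.2) (1 / (x.2 * ((BB ^ b : ℕ) : ℝ)))

private lemma notReg_mem {α : ℝ} {b : ℕ} (h : ¬ Reg α b) : ∃ x, Ad b x ∧ α ∈ UU b x := by
  obtain ⟨q, h1, h2, h3⟩ := (notReg_iff α b).1 h
  set p := round ((q : ℝ) * α) with hp
  have h4 : |(q : ℝ) * α - p| < 1 / ((BB ^ b : ℕ) : ℝ) := h3
  have hX : (0:ℝ) < ((BB ^ b : ℕ) : ℝ) := by exact_mod_cast one_le_BB_pow b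
  have hq0 : (q : ℤ) ≠ 0 := by positivity
  set d : ℕ := Int.gcd p (q : ℤ) with hd
  have hdpos : 0 < d := Int.gcd_pos_of_ne_zero_right _ hq0
  obtain ⟨p', hp'⟩ : (d : ℤ) ∣ p := Int.gcd_dvd_left _ _
  obtain ⟨q', hq'⟩ : d ∣ q := by
    have : (d : ℤ) ∣ (q : ℤ) := Int.gcd_dvd_right _ _
    exact_mod_cast this
  have hq'pos : 1 ≤ q' := by
    rcases Nat.eq_zero_or_pos q' with h0 | h0
    · rw [h0, mul_zero] at hq'; omega
    · exact h0
  have hcop : IsCoprime p' (q' : ℤ) := by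
    rw [Int.isCoprime_iff_gcd_eq_one]
    have h5 : Int.gcd ((d : ℤ) * p') ((d : ℤ) * q') = d * Int.gcd p' q' := by
      rw [Int.gcd_mul_left]; simp
    have h6 : Int.gcd ((d : ℤ) * p') ((d : ℤ) * q') = d := by
      have e1 : (d : ℤ) * (q' : ℤ) = (q : ℤ) := by rw [hq']; push_cast; ring
      rw [← hp', e1]
    rw [h6] at h5
    exact (Nat.eq_of_mul_eq_mul_left hdpos (by rw [mul_one]; exact h5)).symm
  refine ⟨(p', q'), ⟨hq'pos, hcop, ?_⟩, ?_⟩
  · have : q' ≤ q := by rw [hq']; exact Nat.le_mul_of_pos_left _ hdpos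
    exact (Nat.mul_le_mul_left _ this).trans_lt h2
  · have hdr : (0:ℝ) < d := by exact_mod_cast hdpos
    have hq'r : (0:ℝ) < q' := by exact_mod_cast hq'pos
    have hpr : (p : ℝ) = d * p' := by exact_mod_cast hp'
    have hqr : (q : ℝ) = d * q' := by exact_mod_cast hq'
    simp only [UU, Metric.mem_ball, Real.dist_eq]
    rw [lt_div_iff₀ (by positivity)]
    have e1 : |α - (p' : ℝ) / q'| * (q' * ((BB ^ b : ℕ) : ℝ)) =
        |q' * α - p'| * ((BB ^ b : ℕ) : ℝ) := by
      rw [← mul_assoc]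
      congr 1
      have e2 : q' * α - p' = (α - (p' : ℝ) / q') * q' := by field_simp
      rw [e2, abs_mul, abs_of_pos hq'r]
    rw [e1]
    rw [lt_div_iff₀ hX, hpr, hqr] at h4
    have e3 : (d : ℝ) * q' * α - d * p' = d * (q' * α - p') := by ring
    rw [e3, abs_mul, abs_of_pos hdr] at h4
    have hd1 : (1:ℝ) ≤ d := by exact_mod_cast hdpos
    have h7 : |q' * α - p'| ≤ d * |q' * α - p'| := by
      have := abs_nonneg ((q':ℝ) * α - p')
      nlinarith
    exact lt_of_le_of_lt (mul_le_mul_of_nonneg_right h7 hX.le) h4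

/-- distinct reduced fractions -/
private lemma frac_sep {x y : ℤ × ℕ} (hx : 1 ≤ x.2) (hy : 1 ≤ y.2)
    (cx : IsCoprime x.1 (x.2 : ℤ)) (cy : IsCoprime y.1 (y.2 : ℤ)) (h : x ≠ y) :
    1 / ((x.2 : ℝ) * y.2) ≤ |(x.1 : ℝ) / x.2 - (y.1 : ℝ) / y.2| := by
  have hx' : (0:ℝ) < x.2 := by exact_mod_cast hx
  have hy' : (0:ℝ) < y.2 := by exact_mod_cast hy
  have hne : x.1 * (y.2 : ℤ) - y.1 * (x.2 : ℤ) ≠ 0 := by
    intro h0
    have e : x.1 * (y.2 : ℤ) = y.1 * (x.2 : ℤ) := by linarith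
    have d1 : (x.2 : ℤ) ∣ (y.2 : ℤ) := by
      have : (x.2 : ℤ) ∣ x.1 * (y.2 : ℤ) := by rw [e]; exact dvd_mul_left _ _
      exact cx.symm.dvd_of_dvd_mul_left this
    have d2 : (y.2 : ℤ) ∣ (x.2 : ℤ) := by
      have : (y.2 : ℤ) ∣ y.1 * (x.2 : ℤ) := by rw [← e]; exact dvd_mul_left _ _
      exact cy.symm.dvd_of_dvd_mul_left this
    have e2 : x.2 = y.2 := Nat.dvd_antisymm (by exact_mod_cast d1) (by exact_mod_cast d2)
    apply h
    have hy0 : (y.2 : ℤ) ≠ 0 := by positivity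
    have e3 : x.1 = y.1 := by
      rw [e2] at e
      exact mul_right_cancel₀ hy0 e
    exact Prod.ext e3 e2
  have h1 : (1:ℝ) ≤ |((x.1 * (y.2 : ℤ) - y.1 * (x.2 : ℤ) : ℤ) : ℝ)| := by
    rw [← Int.cast_abs]
    exact_mod_cast Int.one_le_abs hne
  have e4 : (x.1 : ℝ) / x.2 - (y.1 : ℝ) / y.2 =
      ((x.1 * (y.2 : ℤ) - y.1 * (x.2 : ℤ) : ℤ) : ℝ) / (x.2 * y.2) := by
    push_cast
    field_simp
  rw [e4, abs_div, abs_of_pos (by positivity : (0:ℝ) < (x.2 : ℝ) * y.2)]
  gcongr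

/-- Farey disjointness -/
private lemma farey {Q : ℝ} (hQ : 0 < Q) (F : Finset (ℤ × ℕ))
    (hF : ∀ x ∈ F, 1 ≤ x.2 ∧ IsCoprime x.1 (x.2 : ℤ) ∧ (x.2 : ℝ) < Q) (c W : ℝ) (hW0 : 0 ≤ W)
    (hW : ∀ x ∈ F, |(x.1 : ℝ) / x.2 - c| + 1 / (2 * x.2 * Q) ≤ W) :
    ∑ x ∈ F, 1 / ((x.2 : ℝ) * Q) ≤ 2 * W := by
  have h1 : volume (⋃ x ∈ F, Metric.ball ((x.1 : ℝ) / x.2) (1 / (2 * x.2 * Q))) =
      ∑ x ∈ F, volume (Metric.ball ((x.1 : ℝ) / x.2) (1 / (2 * x.2 * Q))) := by
    refine measure_biUnion_finset ?_ fun x _ => measurableSet_ball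
    intro x hx y hy hxy
    apply Metric.ball_disjoint_ball
    obtain ⟨x1, x2, x3⟩ := hF x hx
    obtain ⟨y1, y2, y3⟩ := hF y hy
    rw [Real.dist_eq]
    refine le_trans ?_ (frac_sep x1 y1 x2 y2 hxy)
    have hx' : (0:ℝ) < x.2 := by exact_mod_cast x1
    have hy' : (0:ℝ) < y.2 := by exact_mod_cast y1
    have a1 : 1 / ((x.2 : ℝ) * Q) ≤ 1 / ((x.2 : ℝ) * y.2) := by gcongr
    have a2 : 1 / ((y.2 : ℝ) * Q) ≤ 1 / ((x.2 : ℝ) * y.2) := by
      rw [mul_comm (x.2 : ℝ) y.2]
      gcongr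
    have b1 : 1 / (2 * (x.2 : ℝ) * Q) = 1 / ((x.2 : ℝ) * Q) / 2 := by field_simp
    have b2 : 1 / (2 * (y.2 : ℝ) * Q) = 1 / ((y.2 : ℝ) * Q) / 2 := by field_simp
    rw [b1, b2]
    linarith
  have h2 : (⋃ x ∈ F, Metric.ball ((x.1 : ℝ) / x.2) (1 / (2 * x.2 * Q))) ⊆ Metric.ball c W := by
    refine Set.iUnion₂_subset fun x hx => ?_
    apply Metric.ball_subset_ball'
    rw [Real.dist_eq]
    linarith [hW x hx]
  have h3 := measure_mono (μ := volume) h2
  rw [h1, Real.volume_ball] at h3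
  simp only [Real.volume_ball] at h3
  rw [← ENNReal.ofReal_sum_of_nonneg (fun x _ => by positivity),
    ENNReal.ofReal_le_ofReal_iff (by positivity)] at h3
  refine le_trans (le_of_eq ?_) h3
  refine Finset.sum_congr rfl fun x hx => ?_
  have hx' : (0:ℝ) < x.2 := by exact_mod_cast (hF x hx).1
  field_simp

private lemma BB_real : (BB : ℝ) = 2 ^ 100 := by norm_num [BB]
private lemma AA_real : (AA : ℝ) = 2 ^ 20 := by norm_num [AA]

/-- the measure of a union over fractions -/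
private lemma union_bound {V : Set ℝ} {s : Finset ℕ} {a : ℕ} {K D : ℝ} (hK : 0 ≤ K)
    (P : ℤ × ℕ → Prop)
    (hV : V ⊆ ⋃ x : {x : ℤ × ℕ // P x}, (UU a x.1 ∩ {α : ℝ | ∀ b' ∈ s, ¬ Reg α b'}))
    (hi : ∀ x, P x → volume (UU a x ∩ {α : ℝ | ∀ b' ∈ s, ¬ Reg α b'}) ≤
      ENNReal.ofReal (K * (2 / (x.2 * ((BB ^ a : ℕ) : ℝ)))))
    (hD : ∀ F : Finset (ℤ × ℕ), (∀ x ∈ F, P x) →
      ∑ x ∈ F, 2 / ((x.2 : ℝ) * ((BB ^ a : ℕ) : ℝ)) ≤ D) :
    volume V ≤ ENNReal.ofReal (K * D) := by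
  classical
  have h1 : volume V ≤ volume (⋃ x : {x : ℤ × ℕ // P x},
      (UU a x.1 ∩ {α : ℝ | ∀ b' ∈ s, ¬ Reg α b'})) := measure_mono hV
  have h2 : volume (⋃ x : {x : ℤ × ℕ // P x}, (UU a x.1 ∩ {α : ℝ | ∀ b' ∈ s, ¬ Reg α b'})) ≤
      ∑' x : {x : ℤ × ℕ // P x}, volume (UU a x.1 ∩ {α : ℝ | ∀ b' ∈ s, ¬ Reg α b'}) :=
    measure_iUnion_le (fun x : {x : ℤ × ℕ // P x} =>
      (UU a x.1 ∩ {α : ℝ | ∀ b' ∈ s, ¬ Reg α b'}))
  have h3 : ∑' x : {x : ℤ × ℕ // P x}, volume (UU a x.1 ∩ {α : ℝ | ∀ b' ∈ s, ¬ Reg α b'}) ≤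
      ∑' x : {x : ℤ × ℕ // P x},
        ENNReal.ofReal (K * (2 / (x.1.2 * ((BB ^ a : ℕ) : ℝ)))) :=
    ENNReal.tsum_le_tsum fun x => hi x.1 x.2
  refine (h1.trans (h2.trans h3)).trans ?_
  rw [ENNReal.tsum_eq_iSup_sum]
  refine iSup_le fun F => ?_
  rw [← ENNReal.ofReal_sum_of_nonneg (fun x _ => by positivity)]
  apply ENNReal.ofReal_le_ofReal
  rw [← Finset.mul_sum]
  refine mul_le_mul_of_nonneg_left ?_ hK
  have h := hD (F.map (Function.Embedding.subtype _)) (by
    intro x hx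
    rw [Finset.mem_map] at hx
    obtain ⟨y, _, rfl⟩ := hx
    exact y.2)
  rw [Finset.sum_map] at h
  exact h

private lemma claim (S : Finset ℕ) : ∀ b : ℕ, (∀ b' ∈ S, b < b') → ∀ x : ℤ × ℕ, Ad b x →
    volume (UU b x ∩ {α : ℝ | ∀ b' ∈ S, ¬ Reg α b'}) ≤
      ENNReal.ofReal ((1 / 2 ^ 17) ^ S.card * (2 / (x.2 * ((BB ^ b : ℕ) : ℝ)))) := by
  classical
  induction S using Finset.induction_on_min with
  | empty =>
    intro b _ x hx
    refine (measure_mono Set.inter_subset_left).trans ?_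
    rw [UU, Real.volume_ball]
    apply ENNReal.ofReal_le_ofReal
    rw [Finset.card_empty, pow_zero, one_mul]
    apply le_of_eq
    ring
  | insert a s hmin ih =>
    intro b hb x hx
    have has : a ∉ s := fun h => lt_irrefl _ (hmin a h)
    have hba : b < a := hb a (Finset.mem_insert_self _ _)
    set X : ℝ := ((BB ^ b : ℕ) : ℝ) with hX
    set X' : ℝ := ((BB ^ a : ℕ) : ℝ) with hX'
    have hXpos : 1 ≤ X := Nat.one_le_cast.2 (one_le_BB_pow b)
    have hX'pos : 1 ≤ X' := Nat.one_le_cast.2 (one_le_BB_pow a)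
    have hXX' : (2:ℝ) ^ 100 * X ≤ X' := by
      have h1 : BB * BB ^ b ≤ BB ^ a := by
        rw [← pow_succ']
        exact Nat.pow_le_pow_right BB_pos hba
      have h2 : (BB : ℝ) * ((BB ^ b : ℕ) : ℝ) ≤ ((BB ^ a : ℕ) : ℝ) := by exact_mod_cast h1
      rwa [BB_real] at h2
    obtain ⟨hx1, hx2, hx3⟩ := hx
    have hqx : (0:ℝ) < x.2 := by exact_mod_cast hx1
    have hqx1 : (1:ℝ) ≤ x.2 := by exact_mod_cast hx1
    have hx3' : (2:ℝ) ^ 20 * x.2 < X := by
      have : ((AA * x.2 : ℕ) : ℝ) < ((BB ^ b : ℕ) : ℝ) := by exact_mod_cast hx3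
      push_cast at this
      rw [AA_real] at this
      rw [hX]; push_cast; exact this
    set P : ℤ × ℕ → Prop := fun y => Ad a y ∧ (UU a y ∩ UU b x).Nonempty with hP
    have hmain := union_bound (V := UU b x ∩ {α : ℝ | ∀ b' ∈ insert a s, ¬ Reg α b'}) (s := s)
      (a := a) (K := (1 / 2 ^ 17) ^ s.card) (D := 1 / 2 ^ 17 * (2 / (x.2 * X))) (by positivity) P
      (by
        rintro α ⟨h1, h2⟩
        simp only [Set.mem_ofPred_eq, Finset.mem_insert, forall_eq_or_imp] at h2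
        obtain ⟨y, hy, hy'⟩ := notReg_mem h2.1
        exact Set.mem_iUnion.2 ⟨⟨y, hy, ⟨α, hy', h1⟩⟩, hy', h2.2⟩)
      (fun y hy => ih a hmin y hy.1)
      (by
        intro F hF
        -- split off the fraction `x`
        have hA : (0:ℝ) < 2 ^ 20 := by positivity
        set Q : ℝ := X' / 2 ^ 20 with hQ
        have hQpos : 0 < Q := by positivity
        have hfar := farey hQpos (F.erase x) (fun y hy => by
            have := hF y (Finset.mem_of_mem_erase hy)
            refine ⟨this.1.1, this.1.2.1, ?_⟩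
            rw [hQ, lt_div_iff₀ hA]
            have h3 : ((AA * y.2 : ℕ) : ℝ) < ((BB ^ a : ℕ) : ℝ) := by exact_mod_cast this.1.2.2
            push_cast at h3
            rw [AA_real] at h3
            rw [hX']; push_cast; linarith)
          ((x.1 : ℝ) / x.2) (2 / (x.2 * X)) (by positivity) (fun y hy => by
            have hyF := hF y (Finset.mem_of_mem_erase hy)
            have hne : y ≠ x := Finset.ne_of_mem_erase hy
            obtain ⟨⟨y1, y2, y3⟩, ⟨α, ha1, ha2⟩⟩ := hyF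
            have hqy : (0:ℝ) < y.2 := by exact_mod_cast y1
            have hsep := frac_sep y1 hx1 y2 hx2 hne
            simp only [UU, Metric.mem_ball, Real.dist_eq] at ha1 ha2
            have htri : |(y.1 : ℝ) / y.2 - (x.1 : ℝ) / x.2| < 1 / (y.2 * X') + 1 / (x.2 * X) := by
              have e : (y.1 : ℝ) / y.2 - (x.1 : ℝ) / x.2 =
                  -(α - (y.1 : ℝ) / y.2) + (α - (x.1 : ℝ) / x.2) := by ring
              rw [e]
              refine (abs_add_le _ _).trans_lt ?_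
              rw [abs_neg]
              linarith
            -- `y.2 > X / 2`
            have hbig : X < 2 * y.2 := by
              have h4 : 1 / ((y.2 : ℝ) * x.2) < 1 / (y.2 * X') + 1 / (x.2 * X) :=
                hsep.trans_lt htri
              have h5 : (1:ℝ) < x.2 / X' + y.2 / X := by
                have := mul_lt_mul_of_pos_left h4 (mul_pos hqy hqx)
                have e1 : (y.2 : ℝ) * x.2 * (1 / (y.2 * x.2)) = 1 := by field_simp
                have e2 : (y.2 : ℝ) * x.2 * (1 / (y.2 * X') + 1 / (x.2 * X)) =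
                    x.2 / X' + y.2 / X := by field_simp
                rwa [e1, e2] at this
              have h6 : (x.2 : ℝ) / X' ≤ 1 / 2 := by
                rw [div_le_iff₀ (by positivity)]
                nlinarith
              have h7 : 1 / 2 < (y.2 : ℝ) / X := by linarith
              rw [lt_div_iff₀ (by positivity)] at h7
              linarith
            -- the window
            have hw1 : 1 / ((y.2 : ℝ) * X') ≤ 1 / (2 * y.2 * Q) := by
              apply one_div_le_one_div_of_le (by positivity)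
              rw [hQ]
              have : X' / 2 ^ 20 * 2 ≤ X' := by
                rw [div_mul_eq_mul_div, div_le_iff₀ (by positivity)]
                nlinarith
              nlinarith
            have hw2 : 1 / (2 * (y.2 : ℝ) * Q) + 1 / (2 * (y.2 : ℝ) * Q) ≤ 1 / (x.2 * X) := by
              have e3 : 1 / (2 * (y.2 : ℝ) * Q) + 1 / (2 * (y.2 : ℝ) * Q) = 1 / (y.2 * Q) := by
                field_simp; norm_num
              rw [e3]
              apply one_div_le_one_div_of_le (by positivity)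
              have h8 : X ≤ 2 * y.2 := hbig.le
              have h9 : (2:ℝ) ^ 80 * X ≤ Q := by
                rw [hQ, le_div_iff₀ hA]
                calc (2:ℝ) ^ 80 * X * 2 ^ 20 = 2 ^ 100 * X := by ring
                  _ ≤ X' := hXX'
              have h10 : (x.2 : ℝ) ≤ X := by nlinarith
              calc (x.2 : ℝ) * X ≤ X * X := by gcongr
                _ ≤ (2 * y.2) * X := by gcongr
                _ = y.2 * (2 * X) := by ring
                _ ≤ y.2 * (2 ^ 80 * X) := by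
                    gcongr
                    norm_num
                _ ≤ y.2 * Q := by gcongr
            have e4 : 2 / ((x.2 : ℝ) * X) = 1 / (x.2 * X) + 1 / (x.2 * X) := by ring
            rw [e4]
            linarith)
        -- conclude
        have h11 : ∑ y ∈ F, 2 / ((y.2 : ℝ) * X') ≤
            2 / (x.2 * X') + ∑ y ∈ F.erase x, 2 / ((y.2 : ℝ) * X') := by
          by_cases hxF : x ∈ F
          · rw [← Finset.add_sum_erase F _ hxF]
          · rw [Finset.erase_eq_of_notMem hxF]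
            have : 0 ≤ 2 / ((x.2 : ℝ) * X') := by positivity
            linarith
        have h12 : ∑ y ∈ F.erase x, 2 / ((y.2 : ℝ) * X') =
            2 / 2 ^ 20 * ∑ y ∈ F.erase x, 1 / ((y.2 : ℝ) * Q) := by
          rw [Finset.mul_sum]
          refine Finset.sum_congr rfl fun y hy => ?_
          have hy1 := (hF y (Finset.mem_of_mem_erase hy)).1.1
          have hqy : (0:ℝ) < y.2 := by exact_mod_cast hy1
          rw [hQ]
          field_simp
        have h13 : 2 / ((x.2 : ℝ) * X') ≤ 1 / 2 ^ 100 * (2 / (x.2 * X)) := by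
          have e5 : 1 / 2 ^ 100 * (2 / ((x.2 : ℝ) * X)) = 2 / (x.2 * (2 ^ 100 * X)) := by
            field_simp
          rw [e5]
          gcongr
        rw [← hX']
        calc ∑ y ∈ F, 2 / ((y.2 : ℝ) * X')
            ≤ 2 / (x.2 * X') + ∑ y ∈ F.erase x, 2 / ((y.2 : ℝ) * X') := h11
          _ ≤ 1 / 2 ^ 100 * (2 / (x.2 * X)) + 2 / 2 ^ 20 * (2 * (2 / (x.2 * X))) := by
              rw [h12]
              gcongr
          _ = (1 / 2 ^ 100 + 4 / 2 ^ 20) * (2 / (x.2 * X)) := by ring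
          _ ≤ 1 / 2 ^ 17 * (2 / (x.2 * X)) := by
              gcongr
              norm_num)
    refine hmain.trans (le_of_eq ?_)
    rw [Finset.card_insert_of_notMem has]
    congr 1
    ring

theorem chainIrr (S : Finset ℕ) (hS : ∀ b ∈ S, 1 ≤ b) :
    volume {α : ℝ | α ∈ Set.Icc (0:ℝ) 1 ∧ ∀ b ∈ S, ¬ Reg α b}
      ≤ ENNReal.ofReal ((1 / 2 ^ 16) ^ S.card) := by
  classical
  induction S using Finset.induction_on_min with
  | empty =>
    refine (measure_mono (fun α h => h.1)).trans ?_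
    rw [Real.volume_Icc]
    simp
  | insert a s hmin _ =>
    have has : a ∉ s := fun h => lt_irrefl _ (hmin a h)
    have ha1 : 1 ≤ a := hS a (Finset.mem_insert_self _ _)
    set X' : ℝ := ((BB ^ a : ℕ) : ℝ) with hX'
    have hX'big : (2:ℝ) ^ 100 ≤ X' := by
      have h1 : BB ^ 1 ≤ BB ^ a := Nat.pow_le_pow_right BB_pos ha1
      rw [pow_one] at h1
      have h2 : (BB : ℝ) ≤ ((BB ^ a : ℕ) : ℝ) := by exact_mod_cast h1
      rwa [BB_real] at h2
    have hX'pos : 0 < X' := lt_of_lt_of_le (by positivity) hX'big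
    set P : ℤ × ℕ → Prop := fun y => Ad a y ∧ (UU a y ∩ Set.Icc (0:ℝ) 1).Nonempty with hP
    have hmain := union_bound (V := {α : ℝ | α ∈ Set.Icc (0:ℝ) 1 ∧ ∀ b ∈ insert a s, ¬ Reg α b})
      (s := s) (a := a) (K := (1 / 2 ^ 17) ^ s.card) (D := 4 / 2 ^ 20) (by positivity) P
      (by
        rintro α ⟨h1, h2⟩
        simp only [Finset.mem_insert, forall_eq_or_imp] at h2
        obtain ⟨y, hy, hy'⟩ := notReg_mem h2.1
        exact Set.mem_iUnion.2 ⟨⟨y, hy, ⟨α, hy', h1⟩⟩, hy', h2.2⟩)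
      (fun y hy => claim s a hmin y hy.1)
      (by
        intro F hF
        have hA : (0:ℝ) < 2 ^ 20 := by positivity
        set Q : ℝ := X' / 2 ^ 20 with hQ
        have hQpos : 0 < Q := by positivity
        have hQbig : (2:ℝ) ^ 80 ≤ Q := by
          rw [hQ, le_div_iff₀ hA]
          calc (2:ℝ) ^ 80 * 2 ^ 20 = 2 ^ 100 := by norm_num
            _ ≤ X' := hX'big
        have hfar := farey hQpos F (fun y hy => by
            have := hF y hy
            refine ⟨this.1.1, this.1.2.1, ?_⟩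
            rw [hQ, lt_div_iff₀ hA]
            have h3 : ((AA * y.2 : ℕ) : ℝ) < ((BB ^ a : ℕ) : ℝ) := by exact_mod_cast this.1.2.2
            push_cast at h3
            rw [AA_real] at h3
            rw [hX']; push_cast; linarith)
          (1 / 2) 1 (by norm_num) (fun y hy => by
            obtain ⟨⟨y1, y2, y3⟩, ⟨α, ha1, ha2⟩⟩ := hF y hy
            have hqy : (1:ℝ) ≤ y.2 := by exact_mod_cast y1
            simp only [UU, Metric.mem_ball, Real.dist_eq] at ha1
            have h4 : 1 / ((y.2 : ℝ) * X') ≤ 1 / 4 := by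
              apply one_div_le_one_div_of_le (by norm_num)
              have : (4:ℝ) ≤ X' := le_trans (by norm_num) hX'big
              nlinarith
            have h5 : 1 / (2 * (y.2 : ℝ) * Q) ≤ 1 / 4 := by
              apply one_div_le_one_div_of_le (by norm_num)
              have : (4:ℝ) ≤ Q := le_trans (by norm_num) hQbig
              nlinarith
            have h6 : |α - 1 / 2| ≤ 1 / 2 := by
              rw [abs_le]; constructor <;> linarith [ha2.1, ha2.2]
            have h7 : |(y.1 : ℝ) / y.2 - 1 / 2| ≤ |α - (y.1 : ℝ) / y.2| + |α - 1 / 2| := by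
              have e : (y.1 : ℝ) / y.2 - 1 / 2 =
                  -(α - (y.1 : ℝ) / y.2) + (α - 1 / 2) := by ring
              rw [e]
              refine (abs_add_le _ _).trans_eq ?_
              rw [abs_neg]
            linarith)
        rw [← hX']
        have h12 : ∑ y ∈ F, 2 / ((y.2 : ℝ) * X') =
            2 / 2 ^ 20 * ∑ y ∈ F, 1 / ((y.2 : ℝ) * Q) := by
          rw [Finset.mul_sum]
          refine Finset.sum_congr rfl fun y hy => ?_
          have hy1 := (hF y hy).1.1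
          have hqy : (0:ℝ) < y.2 := by exact_mod_cast hy1
          rw [hQ]
          field_simp
        rw [h12]
        calc 2 / 2 ^ 20 * ∑ y ∈ F, 1 / ((y.2 : ℝ) * Q) ≤ 2 / 2 ^ 20 * (2 * 1) := by gcongr
          _ = 4 / 2 ^ 20 := by norm_num)
    refine hmain.trans (ENNReal.ofReal_le_ofReal ?_)
    rw [Finset.card_insert_of_notMem has]
    have e1 : ((1:ℝ) / 2 ^ 17) ^ s.card ≤ (1 / 2 ^ 16) ^ s.card := by
      gcongr
      · norm_num
      · norm_num
    calc ((1:ℝ) / 2 ^ 17) ^ s.card * (4 / 2 ^ 20) ≤ (1 / 2 ^ 16) ^ s.card * (1 / 2 ^ 16) :=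
          mul_le_mul e1 (by norm_num) (by norm_num) (by positivity)
      _ = (1 / 2 ^ 16) ^ (s.card + 1) := (pow_succ _ _).symm

open Classical in
/-- the number of irregular levels among `1, …, L` -/
noncomputable def irr (α : ℝ) (L : ℕ) : ℕ := ((Finset.Icc 1 L).filter (fun b => ¬ Reg α b)).card

private lemma pow_half_le (L : ℕ) : ((1:ℝ) / 2) ^ (L / 2) ≤ 2 * (3 / 4) ^ L := by
  rcases Nat.even_or_odd' L with ⟨k, hk | hk⟩
  · have h1 : L / 2 = k := by omega
    rw [h1, hk, pow_mul]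
    have h2 : ((1:ℝ) / 2) ^ k ≤ ((3 / 4) ^ 2) ^ k := by gcongr; norm_num
    have h3 : (0:ℝ) < ((3 / 4) ^ 2) ^ k := by positivity
    linarith
  · have h1 : L / 2 = k := by omega
    rw [h1, hk, pow_succ, pow_mul]
    have h2 : ((1:ℝ) / 2) ^ k ≤ ((3 / 4) ^ 2) ^ k := by gcongr; norm_num
    have h3 : (0:ℝ) < ((3 / 4) ^ 2) ^ k := by positivity
    linarith

theorem irr_ae : ∀ᵐ α ∂(volume.restrict (Set.Icc (0:ℝ) 1)), ∃ L0 : ℕ, ∀ L ≥ L0, 10 * irr α L < L := by
  classical
  set s : ℕ → Set ℝ := fun L => {α | L ≤ 10 * irr α L} with hs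
  have hμ : ∀ L, (volume.restrict (Set.Icc (0:ℝ) 1)) (s L) ≤
      ENNReal.ofReal (2 * (3 / 4) ^ L) := by
    intro L
    rw [Measure.restrict_apply' measurableSet_Icc]
    have h1 : s L ∩ Set.Icc (0:ℝ) 1 ⊆ ⋃ T ∈ ((Finset.Icc 1 L).powerset.filter
        fun T => L ≤ 10 * T.card), {α : ℝ | α ∈ Set.Icc (0:ℝ) 1 ∧ ∀ b ∈ T, ¬ Reg α b} := by
      rintro α ⟨h2, h3⟩
      simp only [Set.mem_iUnion]
      refine ⟨(Finset.Icc 1 L).filter (fun b => ¬ Reg α b), ?_, h3, ?_⟩
      · rw [Finset.mem_filter, Finset.mem_powerset]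
        refine ⟨Finset.filter_subset _ _, ?_⟩
        have h2' : L ≤ 10 * irr α L := h2
        unfold irr at h2'
        convert h2'
      · intro b hb
        exact (Finset.mem_filter.1 hb).2
    refine (measure_mono h1).trans ((measure_biUnion_finset_le _ _).trans ?_)
    have h4 : ∀ T ∈ ((Finset.Icc 1 L).powerset.filter fun T => L ≤ 10 * T.card),
        volume {α : ℝ | α ∈ Set.Icc (0:ℝ) 1 ∧ ∀ b ∈ T, ¬ Reg α b} ≤
        ENNReal.ofReal ((1 / 2) ^ (L + L / 2)) := by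
      intro T hT
      rw [Finset.mem_filter, Finset.mem_powerset] at hT
      refine (chainIrr T fun b hb => (Finset.mem_Icc.1 (hT.1 hb)).1).trans ?_
      apply ENNReal.ofReal_le_ofReal
      have e1 : ((1:ℝ) / 2 ^ 16) ^ T.card = (1 / 2) ^ (16 * T.card) := by
        rw [pow_mul]; congr 1; norm_num
      rw [e1]
      apply pow_le_pow_of_le_one (by norm_num) (by norm_num)
      omega
    refine (Finset.sum_le_sum h4).trans ?_
    rw [Finset.sum_const, nsmul_eq_mul]
    have h5 : (((Finset.Icc 1 L).powerset.filter fun T => L ≤ 10 * T.card).card : ℝ≥0∞) ≤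
        ENNReal.ofReal (2 ^ L) := by
      have h6 : ((Finset.Icc 1 L).powerset.filter fun T => L ≤ 10 * T.card).card ≤ 2 ^ L := by
        refine (Finset.card_filter_le _ _).trans ?_
        rw [Finset.card_powerset, Nat.card_Icc]
        simp
      have h7 : ENNReal.ofReal (2 ^ L) = ((2 ^ L : ℕ) : ℝ≥0∞) := by
        rw [← ENNReal.ofReal_natCast]
        push_cast
        rfl
      rw [h7]
      exact_mod_cast h6
    refine (mul_le_mul_left h5 _).trans ?_
    rw [← ENNReal.ofReal_mul (by positivity)]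
    apply ENNReal.ofReal_le_ofReal
    refine le_trans (le_of_eq ?_) (pow_half_le L)
    rw [pow_add, ← mul_assoc, ← mul_pow]
    norm_num
  have hsum : (∑' L, (volume.restrict (Set.Icc (0:ℝ) 1)) (s L)) ≠ ⊤ := by
    refine ne_top_of_le_ne_top ?_ (ENNReal.tsum_le_tsum hμ)
    have hsm : Summable fun L : ℕ => (2:ℝ) * (3 / 4) ^ L :=
      (summable_geometric_of_lt_one (by norm_num) (by norm_num)).mul_left 2
    rw [← ENNReal.ofReal_tsum_of_nonneg (fun L => by positivity) hsm]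
    exact ENNReal.ofReal_ne_top
  filter_upwards [ae_eventually_notMem hsum] with α hα
  obtain ⟨L0, hL0⟩ := eventually_atTop.1 hα
  refine ⟨L0, fun L hL => ?_⟩
  have := hL0 L hL
  simp only [hs, Set.mem_ofPred_eq, not_le] at this
  exact this

end PFS
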