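import Pool.Agent.PFS.QStar

/-! # PFS module ChainN: few `n` are bad at many levels -/

open MeasureTheory Topology Filter
open scoped ENNReal

namespace PFS

/-- counting over `k` consecutive blocks -/
private lemma blocks_count {p : ℤ → Prop} [DecidablePred p] (Q : ℕ) (C : ℝ)
    (h : ∀ a : ℤ, (((Finset.Ico a (a + (Q : ℤ))).filter p).card : ℝ) ≤ C) (a : ℤ) (k : ℕ) :
    (((Finset.Ico a (a + (k * Q : ℕ))).filter p).card : ℝ) ≤ k * C := by
  induction k with
  | zero => simp
  | succ k ih =>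
    have h1 : (Finset.Ico a (a + ((k + 1) * Q : ℕ))).filter p ⊆
        (Finset.Ico a (a + (k * Q : ℕ))).filter p ∪
        (Finset.Ico (a + (k * Q : ℕ)) (a + (k * Q : ℕ) + (Q : ℤ))).filter p := by
      intro x hx
      simp only [Finset.mem_filter, Finset.mem_Ico, Finset.mem_union] at hx ⊢
      rcases lt_or_ge x (a + (k * Q : ℕ)) with h2 | h2
      · exact Or.inl ⟨⟨hx.1.1, h2⟩, hx.2⟩
      · refine Or.inr ⟨⟨h2, ?_⟩, hx.2⟩
        have h3 := hx.1.2
        push_cast at h3 ⊢
        linarith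
    have h2 : (((Finset.Ico a (a + ((k + 1) * Q : ℕ))).filter p).card : ℝ) ≤
        (((Finset.Ico a (a + (k * Q : ℕ))).filter p).card : ℝ) +
        (((Finset.Ico (a + (k * Q : ℕ)) (a + (k * Q : ℕ) + (Q : ℤ))).filter p).card : ℝ) := by
      exact_mod_cast (Finset.card_le_card h1).trans (Finset.card_union_le _ _)
    refine h2.trans ?_
    push_cast at ih ⊢
    have h3 := h (a + (k * Q : ℕ))
    push_cast at h3
    linarith

open Classical in
/-- the covering step: integers close to a point of `R` -/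
private lemma cover_count (α : ℝ) (a : ℕ) (s : Finset ℕ) (F R : Finset ℤ) (C : ℝ)
    (hF : ∀ n ∈ F, (∀ b ∈ s, Bad α b (n * α)) ∧ ∃ m ∈ R, |n - m| < (qq α a : ℤ))
    (hC : ∀ m : ℤ, (((Finset.Ioo (m - (qq α a : ℤ)) (m + (qq α a : ℤ))).filter
      (fun n : ℤ => ∀ b ∈ s, Bad α b (n * α))).card : ℝ) ≤ C) :
    (F.card : ℝ) ≤ R.card * C := by
  have h1 : F ⊆ R.biUnion fun m => (Finset.Ioo (m - (qq α a : ℤ)) (m + (qq α a : ℤ))).filter
      (fun n : ℤ => ∀ b ∈ s, Bad α b (n * α)) := by
    intro n hn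
    obtain ⟨h2, m, hm, h3⟩ := hF n hn
    rw [Finset.mem_biUnion]
    refine ⟨m, hm, ?_⟩
    rw [abs_lt] at h3
    simp only [Finset.mem_filter, Finset.mem_Ioo]
    exact ⟨⟨by linarith [h3.1], by linarith [h3.2]⟩, h2⟩
  calc (F.card : ℝ) ≤ ((R.biUnion fun m =>
        (Finset.Ioo (m - (qq α a : ℤ)) (m + (qq α a : ℤ))).filter
        (fun n : ℤ => ∀ b ∈ s, Bad α b (n * α))).card : ℝ) := by
        exact_mod_cast Finset.card_le_card h1
    _ ≤ ∑ m ∈ R, (((Finset.Ioo (m - (qq α a : ℤ)) (m + (qq α a : ℤ))).filter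
        (fun n : ℤ => ∀ b ∈ s, Bad α b (n * α))).card : ℝ) := by
        exact_mod_cast Finset.card_biUnion_le
    _ ≤ ∑ _m ∈ R, C := Finset.sum_le_sum fun m _ => hC m
    _ = R.card * C := by rw [Finset.sum_const, nsmul_eq_mul]

private lemma bad_iff {α : ℝ} {b : ℕ} {n : ℤ} (h : Bad α b (n * α)) :
    ∃ m : ℤ, nrm (0 + m * α) < 1 / ((BB : ℝ) * qq α b) ∧ |n - m| < (qq α b : ℤ) := by
  obtain ⟨j, hj, h1⟩ := h
  refine ⟨n + j, ?_, ?_⟩
  · have : (0 : ℝ) + ((n + j : ℤ) : ℝ) * α = n * α + j * α := by push_cast; ring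
    rwa [this]
  · have : n - (n + j) = -j := by ring
    rwa [this, abs_neg]

open Classical in
private lemma claim (α : ℝ) (S : Finset ℕ) : (∀ b' ∈ S, Reg α b') → ∀ b : ℕ,
    (∀ b' ∈ S, b' < b) → Reg α b → ∀ m₀ : ℤ,
    (((Finset.Ioo (m₀ - (qq α b : ℤ)) (m₀ + (qq α b : ℤ))).filter
      (fun n : ℤ => ∀ b' ∈ S, Bad α b' (n * α))).card : ℝ) ≤
      2 * qq α b * (1 / 2 ^ 76) ^ S.card := by
  induction S using Finset.induction_on_max with
  | empty =>
    intro _ b _ _ m₀
    have h1 : (((Finset.Ioo (m₀ - (qq α b : ℤ)) (m₀ + (qq α b : ℤ))).filter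
      (fun n : ℤ => ∀ b' ∈ (∅ : Finset ℕ), Bad α b' (n * α))).card) ≤ 2 * qq α b := by
      refine (Finset.card_filter_le _ _).trans ?_
      rw [Int.card_Ioo]
      omega
    simp only [Finset.card_empty, pow_zero, mul_one]
    exact_mod_cast h1
  | insert a s hmax ih =>
    intro hreg b hb hbreg m₀
    have has : a ∉ s := fun h => lt_irrefl _ (hmax a h)
    have hareg : Reg α a := hreg a (Finset.mem_insert_self _ _)
    have hab : a < b := hb a (Finset.mem_insert_self _ _)
    have ih' := ih (fun b' hb' => hreg b' (Finset.mem_insert_of_mem hb')) a hmax hareg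
    have hratio := qq_ratio α hab hbreg
    have hqa := qq_pos α a
    set q := qq α a with hq
    set Q := qq α b with hQ
    have hqQ : q ≤ Q := le_trans (Nat.le_mul_of_pos_left _ (by positivity)) hratio
    set r : ℝ := 1 / ((BB : ℝ) * q) with hr
    have hBpos : (0:ℝ) < BB := by exact_mod_cast BB_pos
    have hqpos : (0:ℝ) < q := by exact_mod_cast hqa
    have hr0 : 0 ≤ r := by positivity
    set R : Finset ℤ := (Finset.Ico (m₀ - 2 * Q) (m₀ - 2 * Q + (4 * Q : ℕ))).filter
      (fun m : ℤ => nrm (0 + m * α) < r) with hR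
    have hRcard : (R.card : ℝ) ≤ 4 * (2 * r * Q + 3) := by
      have := blocks_count (p := fun m : ℤ => nrm (0 + m * α) < r) Q (2 * r * Q + 3)
        (fun a' => grid_count α (one_le_BB_pow b) a' 0 r hr0) (m₀ - 2 * Q) 4
      exact_mod_cast this
    rw [Finset.card_insert_of_notMem has]
    have hmain := cover_count α a s ((Finset.Ioo (m₀ - (Q : ℤ)) (m₀ + (Q : ℤ))).filter
      (fun n : ℤ => ∀ b' ∈ insert a s, Bad α b' (n * α))) R (2 * q * (1 / 2 ^ 76) ^ s.card)
      (by
        intro n hn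
        simp only [Finset.mem_filter, Finset.mem_Ioo, Finset.mem_insert, forall_eq_or_imp] at hn
        refine ⟨hn.2.2, ?_⟩
        obtain ⟨m, hm1, hm2⟩ := bad_iff hn.2.1
        refine ⟨m, ?_, hm2⟩
        rw [hR, Finset.mem_filter, Finset.mem_Ico]
        rw [abs_lt] at hm2
        refine ⟨⟨?_, ?_⟩, hm1⟩
        · have : (q : ℤ) ≤ Q := by exact_mod_cast hqQ
          linarith [hn.1.1, hm2.2]
        · have : (q : ℤ) ≤ Q := by exact_mod_cast hqQ
          push_cast
          linarith [hn.1.2, hm2.1])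
      ih'
    refine hmain.trans ?_
    have hρ : (0:ℝ) < (1 / 2 ^ 76) ^ s.card := by positivity
    have hrq : r * q = 1 / BB := by
      rw [hr]; field_simp
    have hB : (BB : ℝ) = 2 ^ 100 := by norm_num [BB]
    have hratio' : (2:ℝ) ^ 80 * q ≤ Q := by exact_mod_cast hratio
    have hQpos : (0:ℝ) < Q := by linarith [hqpos, show (0:ℝ) < 2 ^ 80 * q by positivity]
    calc (R.card : ℝ) * (2 * q * (1 / 2 ^ 76) ^ s.card)
        ≤ (4 * (2 * r * Q + 3)) * (2 * q * (1 / 2 ^ 76) ^ s.card) := by gcongr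
      _ = (8 * (r * q) * Q + 12 * q) * (2 * (1 / 2 ^ 76) ^ s.card) := by ring
      _ ≤ (Q * (1 / 2 ^ 76)) * (2 * (1 / 2 ^ 76) ^ s.card) := by
          gcongr
          rw [hrq, hB]
          have : (12:ℝ) * q ≤ 12 / 2 ^ 80 * Q := by
            rw [div_mul_eq_mul_div, le_div_iff₀ (by positivity)]
            linarith
          have h2 : (8 * (1 / 2 ^ 100) * Q + 12 / 2 ^ 80 * Q : ℝ) ≤ Q * (1 / 2 ^ 76) := by
            have : (8 * (1 / 2 ^ 100) + 12 / 2 ^ 80 : ℝ) ≤ 1 / 2 ^ 76 := by norm_num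
            nlinarith
          linarith
      _ = 2 * Q * (1 / 2 ^ 76) ^ (s.card + 1) := by ring

open Classical in
theorem chainN (α : ℝ) (L : ℕ) (S : Finset ℕ) (hS : ∀ b ∈ S, b ≤ L ∧ Reg α b) :
    (((Finset.range (BB ^ (L + 1))).filter (fun n : ℕ => ∀ b ∈ S, Bad α b (n * α))).card : ℝ)
      ≤ 2 ^ 80 * (BB : ℝ) ^ (L + 1) * (1 / 2 ^ 76) ^ S.card := by
  have hBpos : (0:ℝ) < BB := by exact_mod_cast BB_pos
  have hB : (BB : ℝ) = 2 ^ 100 := by norm_num [BB]
  induction S using Finset.induction_on_max with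
  | empty =>
    have h1 : (((Finset.range (BB ^ (L + 1))).filter
      (fun n : ℕ => ∀ b ∈ (∅ : Finset ℕ), Bad α b (n * α))).card) ≤ BB ^ (L + 1) := by
      refine (Finset.card_filter_le _ _).trans ?_
      rw [Finset.card_range]
    have h2 : (((Finset.range (BB ^ (L + 1))).filter
      (fun n : ℕ => ∀ b ∈ (∅ : Finset ℕ), Bad α b (n * α))).card : ℝ) ≤ (BB : ℝ) ^ (L + 1) := by
      exact_mod_cast h1
    simp only [Finset.card_empty, pow_zero, mul_one]
    refine h2.trans ?_
    have : (0:ℝ) < (BB : ℝ) ^ (L + 1) := by positivity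
    nlinarith
  | insert a s hmax _ =>
    have has : a ∉ s := fun h => lt_irrefl _ (hmax a h)
    have haL := (hS a (Finset.mem_insert_self _ _)).1
    have hareg := (hS a (Finset.mem_insert_self _ _)).2
    have hcl := claim α s (fun b' hb' => (hS b' (Finset.mem_insert_of_mem hb')).2) a hmax hareg
    have hqa := qq_pos α a
    have hqle := qq_le α a
    set q := qq α a with hq
    set H : ℕ := BB ^ (L + 1) with hH
    have hqH : q ≤ H := hqle.trans (Nat.pow_le_pow_right BB_pos (by omega))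
    have hqpos : (0:ℝ) < q := by exact_mod_cast hqa
    set r : ℝ := 1 / ((BB : ℝ) * q) with hr
    set k : ℕ := H / q + 3 with hk
    set R : Finset ℤ := (Finset.Ico (-(q : ℤ)) (-(q : ℤ) + (k * q : ℕ))).filter
      (fun m : ℤ => nrm (0 + m * α) < r) with hR
    have hblock : ∀ a' : ℤ, (((Finset.Ico a' (a' + (q : ℤ))).filter
        (fun m : ℤ => nrm (0 + m * α) < r)).card : ℝ) ≤ 1 := by
      intro a'
      have h1 : ((Finset.Ico a' (a' + (q : ℤ))).filter
        (fun m : ℤ => nrm (0 + m * α) < r)).card ≤ 1 := by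
        rw [Finset.card_le_one]
        intro x hx y hy
        by_contra hxy
        simp only [Finset.mem_filter, Finset.mem_Ico] at hx hy
        have hd : x - y ≠ 0 := sub_ne_zero.2 hxy
        have hd' : |x - y| < (q : ℤ) := by
          rw [abs_lt]
          constructor <;> linarith [hx.1.1, hx.1.2, hy.1.1, hy.1.2]
        have h2 := reg_sep α hareg hd hd'
        have h3 : nrm (((x - y : ℤ) : ℝ) * α) < 2 * r := by
          have e : ((x - y : ℤ) : ℝ) * α = (0 + x * α) - (0 + y * α) := by push_cast; ring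
          rw [e]
          have := nrm_sub_le (0 + x * α) (0 + y * α)
          linarith [hx.2, hy.2]
        have h4 : 2 * r ≤ 1 / ((AA : ℝ) * q) := by
          rw [hr, hB]
          have hA : (AA : ℝ) = 2 ^ 20 := by norm_num [AA]
          rw [hA, mul_one_div, div_le_div_iff₀ (by positivity) (by positivity)]
          nlinarith
        rw [← hq] at h2
        linarith
      exact_mod_cast h1
    have hRcard : (R.card : ℝ) ≤ k := by
      have := blocks_count (p := fun m : ℤ => nrm (0 + m * α) < r) q 1 hblock (-(q : ℤ)) k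
      rw [mul_one] at this
      exact_mod_cast this
    have hkq : (k : ℝ) * q ≤ 4 * H := by
      have h1 : H / q * q ≤ H := Nat.div_mul_le_self H q
      have h2 : k * q ≤ 4 * H := by
        rw [hk, add_mul]; omega
      exact_mod_cast h2
    have hcover : (H : ℤ) + q < -(q : ℤ) + (k * q : ℕ) + 1 := by
      have h1 : H < (H / q + 1) * q := by
        have := Nat.lt_mul_div_succ H hqa
        rw [mul_comm]; exact this
      have h2 : H + 2 * q ≤ k * q := by
        rw [hk]
        have : (H / q + 3) * q = (H / q + 1) * q + 2 * q := by ring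
        rw [this]; omega
      have h3 : ((H + 2 * q : ℕ) : ℤ) ≤ ((k * q : ℕ) : ℤ) := by exact_mod_cast h2
      push_cast at h3 ⊢
      linarith
    -- pass to integers
    have hinj : (((Finset.range H).filter (fun n : ℕ => ∀ b ∈ insert a s, Bad α b (n * α))).card)
        = ((((Finset.range H).filter (fun n : ℕ => ∀ b ∈ insert a s, Bad α b (n * α))).image
          (fun n : ℕ => (n : ℤ))).card) := by
      rw [Finset.card_image_of_injective _ Nat.cast_injective]
    rw [hinj]
    have hmain := cover_count α a s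
      ((((Finset.range H).filter (fun n : ℕ => ∀ b ∈ insert a s, Bad α b (n * α))).image
          (fun n : ℕ => (n : ℤ)))) R (2 * q * (1 / 2 ^ 76) ^ s.card)
      (by
        intro n hn
        rw [Finset.mem_image] at hn
        obtain ⟨n', hn', rfl⟩ := hn
        simp only [Finset.mem_filter, Finset.mem_range, Finset.mem_insert,
          forall_eq_or_imp] at hn'
        refine ⟨fun b hb => by
          have := hn'.2.2 b hb
          exact_mod_cast this, ?_⟩
        have hbad : Bad α a (((n' : ℤ) : ℝ) * α) := by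
          have := hn'.2.1
          exact_mod_cast this
        obtain ⟨m, hm1, hm2⟩ := bad_iff hbad
        refine ⟨m, ?_, hm2⟩
        rw [hR, Finset.mem_filter, Finset.mem_Ico]
        rw [abs_lt] at hm2
        have hn0 : (0 : ℤ) ≤ (n' : ℤ) := by positivity
        have hnH : (n' : ℤ) < H := by exact_mod_cast hn'.1
        exact ⟨⟨by linarith [hm2.2], by linarith [hm2.1]⟩, hm1⟩)
      hcl
    refine hmain.trans ?_
    rw [Finset.card_insert_of_notMem has]
    have hρ : (0:ℝ) < (1 / 2 ^ 76) ^ s.card := by positivity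
    have hHB : ((H : ℕ) : ℝ) = (BB : ℝ) ^ (L + 1) := by rw [hH]; push_cast; rfl
    rw [← hHB]
    calc (R.card : ℝ) * (2 * q * (1 / 2 ^ 76) ^ s.card)
        ≤ (k : ℝ) * (2 * (q : ℝ) * (1 / 2 ^ 76) ^ s.card) := by gcongr
      _ = ((k : ℝ) * q) * (2 * (1 / 2 ^ 76) ^ s.card) := by ring
      _ ≤ (4 * (H : ℝ)) * (2 * (1 / 2 ^ 76) ^ s.card) := by gcongr
      _ = (2 ^ 79 * (H : ℝ)) * ((1 / 2 ^ 76) ^ s.card * (1 / 2 ^ 76)) := by ring
      _ ≤ (2 ^ 80 * (H : ℝ)) * ((1 / 2 ^ 76) ^ s.card * (1 / 2 ^ 76)) := by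
          gcongr
          · norm_num
          · norm_num
      _ = 2 ^ 80 * (H : ℝ) * (1 / 2 ^ 76) ^ (s.card + 1) := by ring

end PFS
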