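import Pool.Agent.PFS.QStar

/-! # PFS module ChainW: few `w` are bad at many levels -/

open MeasureTheory Topology Filter
open scoped ENNReal

namespace PFS

lemma chainW_lip : LipschitzWith 1 nrm := by
  apply LipschitzWith.of_le_add
  intro x y
  have h1 := nrm_add_le y (x - y)
  have h2 := nrm_le_abs (x - y)
  rw [add_sub_cancel] at h1
  rw [Real.dist_eq]
  linarith

lemma chainW_meas : Measurable nrm := chainW_lip.continuous.measurable

theorem measurableSet_bad (α : ℝ) (b : ℕ) (c : ℝ) : MeasurableSet {w : ℝ | Bad α b (w + c)} := by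
  have h1 : {w : ℝ | Bad α b (w + c)} = ⋃ j : ℤ, {w : ℝ | |j| < (qq α b : ℤ) ∧
      nrm (w + c + j * α) < 1 / ((BB : ℝ) * qq α b)} := by
    ext w
    simp only [Set.mem_iUnion, Set.mem_ofPred_eq]
    exact Iff.rfl
  rw [h1]
  apply MeasurableSet.iUnion
  intro j
  apply MeasurableSet.inter (MeasurableSet.const _)
  have h2 : Measurable fun w : ℝ => nrm (w + c + j * α) :=
    chainW_meas.comp ((measurable_id.add_const c).add_const _)
  exact measurableSet_lt h2 measurable_const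

lemma chainW_near (c r : ℝ) (hr : 0 ≤ r) :
    volume {w : ℝ | w ∈ Set.Icc (0:ℝ) 1 ∧ nrm (w + c) < r} ≤ ENNReal.ofReal (2 * r) := by
  by_cases hr2 : 1 / 2 < r
  · calc volume {w : ℝ | w ∈ Set.Icc (0:ℝ) 1 ∧ nrm (w + c) < r}
        ≤ volume (Set.Icc (0:ℝ) 1) := measure_mono fun w hw => hw.1
      _ = ENNReal.ofReal (1 - 0) := Real.volume_Icc
      _ ≤ _ := ENNReal.ofReal_le_ofReal (by linarith)
  push Not at hr2
  obtain ⟨x, hx⟩ : ∃ x : ℝ, x = Int.fract c := ⟨_, rfl⟩
  have hx0 : 0 ≤ x := by rw [hx]; exact Int.fract_nonneg c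
  have hx1 : x < 1 := by rw [hx]; exact Int.fract_lt_one c
  have hc : c = x + ⌊c⌋ := by rw [hx]; exact (Int.fract_add_floor c).symm
  have hsub : {w : ℝ | w ∈ Set.Icc (0:ℝ) 1 ∧ nrm (w + c) < r} ⊆
      (Set.Icc 0 (r - x) ∪ Set.Icc (max 0 (1 - x - r)) (min 1 (1 - x + r))) ∪
        Set.Icc (2 - x - r) 1 := by
    rintro w ⟨⟨hw0, hw1⟩, hw⟩
    rw [hc, ← add_assoc, nrm_add_int] at hw
    obtain ⟨m, hm⟩ := nrm_eq (w + x)
    rw [hm, abs_lt] at hw
    have h1 : (-1 : ℝ) < m := by linarith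
    have h2 : (m : ℝ) < 3 := by linarith
    have h1' : -1 < m := by exact_mod_cast h1
    have h2' : m < 3 := by exact_mod_cast h2
    have h3 : m = 0 ∨ m = 1 ∨ m = 2 := by omega
    rcases h3 with rfl | rfl | rfl
    · left; left
      push_cast at hw
      exact ⟨hw0, by linarith⟩
    · left; right
      push_cast at hw
      exact ⟨max_le hw0 (by linarith), le_min hw1 (by linarith)⟩
    · right
      push_cast at hw
      exact ⟨by linarith, hw1⟩
  refine (measure_mono hsub).trans ?_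
  refine (measure_union_le _ _).trans ?_
  refine (add_le_add (measure_union_le _ _) le_rfl).trans ?_
  rw [Real.volume_Icc, Real.volume_Icc, Real.volume_Icc]
  rcases le_total r x with h1 | h1
  · rw [ENNReal.ofReal_of_nonpos (show r - x - 0 ≤ 0 by linarith), zero_add]
    rcases le_total r (1 - x) with h2 | h2
    · rw [ENNReal.ofReal_of_nonpos (show 1 - (2 - x - r) ≤ 0 by linarith), add_zero]
      apply ENNReal.ofReal_le_ofReal
      have h3 := min_le_right (1:ℝ) (1 - x + r)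
      have h4 := le_max_right (0:ℝ) (1 - x - r)
      linarith
    · have h3 := min_le_right (1:ℝ) (1 - x + r)
      have h4 := le_max_left (0:ℝ) (1 - x - r)
      calc ENNReal.ofReal (min 1 (1 - x + r) - max 0 (1 - x - r)) +
            ENNReal.ofReal (1 - (2 - x - r))
          ≤ ENNReal.ofReal (1 - x + r) + ENNReal.ofReal (1 - (2 - x - r)) :=
            add_le_add (ENNReal.ofReal_le_ofReal (by linarith)) le_rfl
        _ = ENNReal.ofReal ((1 - x + r) + (1 - (2 - x - r))) :=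
            (ENNReal.ofReal_add (by linarith) (by linarith)).symm
        _ ≤ _ := ENNReal.ofReal_le_ofReal (by linarith)
  · rw [ENNReal.ofReal_of_nonpos (show 1 - (2 - x - r) ≤ 0 by linarith), add_zero]
    have h3 := min_le_left (1:ℝ) (1 - x + r)
    have h4 := le_max_right (0:ℝ) (1 - x - r)
    calc ENNReal.ofReal (r - x - 0) +
          ENNReal.ofReal (min 1 (1 - x + r) - max 0 (1 - x - r))
        ≤ ENNReal.ofReal (r - x) + ENNReal.ofReal (x + r) :=
          add_le_add (ENNReal.ofReal_le_ofReal (by linarith))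
            (ENNReal.ofReal_le_ofReal (by linarith))
      _ = ENNReal.ofReal ((r - x) + (x + r)) :=
          (ENNReal.ofReal_add (by linarith) (by linarith)).symm
      _ ≤ _ := ENNReal.ofReal_le_ofReal (by linarith)

/-- union bound over a finite set of indices -/
lemma chainW_union (E : Set ℝ) (J : Finset ℤ) (F : ℤ → Set ℝ) (x : ℝ) (_hx : 0 ≤ x)
    (hE : ∀ w ∈ E, ∃ j ∈ J, w ∈ F j) (hF : ∀ j ∈ J, volume (F j) ≤ ENNReal.ofReal x) :
    volume E ≤ ENNReal.ofReal (J.card * x) := by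
  have h1 : E ⊆ ⋃ j ∈ J, F j := by
    intro w hw
    obtain ⟨j, hj, hwj⟩ := hE w hw
    exact Set.mem_iUnion₂.2 ⟨j, hj, hwj⟩
  calc volume E ≤ volume (⋃ j ∈ J, F j) := measure_mono h1
    _ ≤ ∑ j ∈ J, volume (F j) := measure_biUnion_finset_le _ _
    _ ≤ ∑ j ∈ J, ENNReal.ofReal x := Finset.sum_le_sum hF
    _ = ENNReal.ofReal (J.card * x) := by
      rw [Finset.sum_const, nsmul_eq_mul, ENNReal.ofReal_mul (by positivity),
        ENNReal.ofReal_natCast]

lemma chainW_claim (α : ℝ) (c : ℕ → ℝ) (S : Finset ℕ) :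
    (∀ b ∈ S, Reg α b) → ∀ b : ℕ, (∀ b' ∈ S, b < b') → ∀ c0 : ℝ,
    volume {w : ℝ | w ∈ Set.Icc (0:ℝ) 1 ∧ nrm (w + c0) < 1 / ((BB : ℝ) * qq α b) ∧
      ∀ b' ∈ S, Bad α b' (w + c b')}
      ≤ ENNReal.ofReal (2 * (1 / ((BB : ℝ) * qq α b)) * (1 / 2 ^ 76) ^ S.card) := by
  have hB : (BB : ℝ) = 2 ^ 100 := by norm_num [BB]
  induction S using Finset.induction_on_min with
  | empty =>
    intro _ b _ c0
    have hq : (0 : ℝ) ≤ 1 / ((BB : ℝ) * qq α b) := by positivity
    have h1 := chainW_near c0 _ hq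
    simp only [Finset.notMem_empty, false_imp_iff, implies_true, and_true, Finset.card_empty,
      pow_zero, mul_one]
    exact h1
  | insert b' s hb's ih =>
    intro hreg b hb c0
    have hb'n : b' ∉ s := fun h => lt_irrefl _ (hb's b' h)
    have hbb' : b < b' := hb b' (Finset.mem_insert_self _ _)
    have hratio := qq_ratio α hbb' (hreg b' (Finset.mem_insert_self _ _))
    have hqpos := qq_pos α b
    have hqpos' := qq_pos α b'
    obtain ⟨q, hq⟩ : ∃ q : ℕ, q = qq α b := ⟨_, rfl⟩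
    obtain ⟨q', hq'⟩ : ∃ q' : ℕ, q' = qq α b' := ⟨_, rfl⟩
    rw [← hq, ← hq'] at hratio
    rw [← hq] at hqpos
    rw [← hq'] at hqpos'
    have hqr : (1 : ℝ) ≤ q := by exact_mod_cast hqpos
    have hqr' : (1 : ℝ) ≤ q' := by exact_mod_cast hqpos'
    have hrat : (2 : ℝ) ^ 80 * q ≤ q' := by exact_mod_cast hratio
    obtain ⟨r, hr⟩ : ∃ r : ℝ, r = 1 / ((BB : ℝ) * q) := ⟨_, rfl⟩
    obtain ⟨r', hr'⟩ : ∃ r' : ℝ, r' = 1 / ((BB : ℝ) * q') := ⟨_, rfl⟩
    have hr0 : 0 < r := by rw [hr, hB]; positivity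
    have hr0' : 0 < r' := by rw [hr', hB]; positivity
    have ih' := ih (fun x hx => hreg x (Finset.mem_insert_of_mem hx)) b' hb's
    rw [← hq', ← hr'] at ih'
    rw [← hq, ← hr]
    -- the indices
    let J : Finset ℤ := (Finset.Ico (-(q' : ℤ)) (q' : ℤ)).filter
      (fun j : ℤ => nrm ((c b' - c0) + j * α) < r + r')
    have hJcard : (J.card : ℝ) ≤ 4 * (r + r') * q' + 6 := by
      have hg1 := grid_count α (one_le_BB_pow b') (-(q' : ℤ)) (c b' - c0) (r + r')
        (by linarith)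
      have hg2 := grid_count α (one_le_BB_pow b') 0 (c b' - c0) (r + r') (by linarith)
      have hqe : qstar α (BB ^ b') = q' := hq'.symm
      rw [hqe] at hg1 hg2
      have hJsub : J ⊆ ((Finset.Ico (-(q' : ℤ)) (-(q' : ℤ) + (q' : ℤ))).filter
          (fun j : ℤ => nrm ((c b' - c0) + j * α) < r + r')) ∪
          ((Finset.Ico (0 : ℤ) (0 + (q' : ℤ))).filter
          (fun j : ℤ => nrm ((c b' - c0) + j * α) < r + r')) := by
        intro j hj
        rw [Finset.mem_filter, Finset.mem_Ico] at hj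
        rw [Finset.mem_union, Finset.mem_filter, Finset.mem_filter, Finset.mem_Ico,
          Finset.mem_Ico]
        rcases lt_or_ge j 0 with h | h
        · left
          exact ⟨⟨hj.1.1, by omega⟩, hj.2⟩
        · right
          exact ⟨⟨h, by omega⟩, hj.2⟩
      have h1 := (Finset.card_le_card hJsub).trans (Finset.card_union_le _ _)
      have h2 : (J.card : ℝ) ≤ ((((Finset.Ico (-(q' : ℤ)) (-(q' : ℤ) + (q' : ℤ))).filter
          (fun j : ℤ => nrm ((c b' - c0) + j * α) < r + r')).card : ℕ) : ℝ) +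
          ((((Finset.Ico (0 : ℤ) (0 + (q' : ℤ))).filter
          (fun j : ℤ => nrm ((c b' - c0) + j * α) < r + r')).card : ℕ) : ℝ) := by
        exact_mod_cast h1
      linarith
    have hun := chainW_union
      {w : ℝ | w ∈ Set.Icc (0:ℝ) 1 ∧ nrm (w + c0) < r ∧
        ∀ x ∈ insert b' s, Bad α x (w + c x)} J
      (fun j => {w : ℝ | w ∈ Set.Icc (0:ℝ) 1 ∧ nrm (w + (c b' + j * α)) < r' ∧
        ∀ x ∈ s, Bad α x (w + c x)}) (2 * r' * (1 / 2 ^ 76) ^ s.card) (by positivity)
      (by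
        rintro w ⟨hw1, hw2, hw3⟩
        obtain ⟨j, hj1, hj2⟩ := hw3 b' (Finset.mem_insert_self _ _)
        rw [← hq'] at hj1 hj2
        rw [← hr'] at hj2
        refine ⟨j, ?_, hw1, ?_, fun x hx => hw3 x (Finset.mem_insert_of_mem hx)⟩
        · rw [abs_lt] at hj1
          rw [Finset.mem_filter, Finset.mem_Ico]
          refine ⟨⟨by omega, hj1.2⟩, ?_⟩
          have e1 : c b' - c0 + j * α = (w + c b' + j * α) - (w + c0) := by ring
          rw [e1]
          refine (nrm_sub_le _ _).trans_lt ?_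
          linarith
        · have e1 : w + (c b' + j * α) = w + c b' + j * α := by ring
          rw [e1]
          exact hj2)
      (fun j _ => ih' _)
    refine hun.trans (ENNReal.ofReal_le_ofReal ?_)
    rw [Finset.card_insert_of_notMem hb'n, pow_succ _ s.card]
    have hkey : (4 * (r + r') * q' + 6) * r' ≤ r * (1 / 2 ^ 76) := by
      have hrq' : r' * q' = 1 / 2 ^ 100 := by
        rw [hr', hB]
        field_simp
      have hrr : r' ≤ r / 2 ^ 80 := by
        rw [hr', hr, div_div]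
        apply one_div_le_one_div_of_le
        · rw [hB]; positivity
        · rw [hB]
          nlinarith
      have e1 : (4 * (r + r') * q' + 6) * r' = 4 * (r + r') * (r' * q') + 6 * r' := by ring
      rw [e1, hrq']
      have h1 : 4 * (r + r') * (1 / 2 ^ 100) ≤ 4 * (r + r / 2 ^ 80) * (1 / 2 ^ 100) := by
        gcongr
      have h2 : 6 * r' ≤ 6 * (r / 2 ^ 80) := by linarith
      have h3 : 4 * (r + r / 2 ^ 80) * (1 / 2 ^ 100) + 6 * (r / 2 ^ 80) ≤ r * (1 / 2 ^ 76) := by
        nlinarith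
      linarith
    calc (J.card : ℝ) * (2 * r' * (1 / 2 ^ 76) ^ s.card)
        = (J.card : ℝ) * r' * (2 * (1 / 2 ^ 76) ^ s.card) := by ring
      _ ≤ (4 * (r + r') * q' + 6) * r' * (2 * (1 / 2 ^ 76) ^ s.card) := by
          gcongr
      _ ≤ r * (1 / 2 ^ 76) * (2 * (1 / 2 ^ 76) ^ s.card) := by
          gcongr
      _ = _ := by ring

theorem chainW (α : ℝ) (S : Finset ℕ) (hS : ∀ b ∈ S, Reg α b) (c : ℕ → ℝ) :
    volume {w : ℝ | w ∈ Set.Icc (0:ℝ) 1 ∧ ∀ b ∈ S, Bad α b (w + c b)}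
      ≤ ENNReal.ofReal ((1 / 2 ^ 76) ^ S.card) := by
  have hB : (BB : ℝ) = 2 ^ 100 := by norm_num [BB]
  induction S using Finset.induction_on_min with
  | empty =>
    simp only [Finset.notMem_empty, false_imp_iff, implies_true, and_true, Finset.card_empty,
      pow_zero]
    calc volume {w : ℝ | w ∈ Set.Icc (0:ℝ) 1} = volume (Set.Icc (0:ℝ) 1) := rfl
      _ = ENNReal.ofReal (1 - 0) := Real.volume_Icc
      _ ≤ _ := ENNReal.ofReal_le_ofReal (by norm_num)
  | insert b s hbs _ =>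
    have hbn : b ∉ s := fun h => lt_irrefl _ (hbs b h)
    have hcl := chainW_claim α c s (fun x hx => hS x (Finset.mem_insert_of_mem hx)) b hbs
    have hqpos := qq_pos α b
    obtain ⟨q, hq⟩ : ∃ q : ℕ, q = qq α b := ⟨_, rfl⟩
    rw [← hq] at hqpos hcl
    have hqr : (1 : ℝ) ≤ q := by exact_mod_cast hqpos
    have hun := chainW_union
      {w : ℝ | w ∈ Set.Icc (0:ℝ) 1 ∧ ∀ x ∈ insert b s, Bad α x (w + c x)}
      (Finset.Ico (-(q : ℤ)) (q : ℤ))
      (fun j => {w : ℝ | w ∈ Set.Icc (0:ℝ) 1 ∧ nrm (w + (c b + j * α)) < 1 / ((BB : ℝ) * q) ∧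
        ∀ x ∈ s, Bad α x (w + c x)}) (2 * (1 / ((BB : ℝ) * q)) * (1 / 2 ^ 76) ^ s.card)
      (by positivity)
      (by
        rintro w ⟨hw1, hw3⟩
        obtain ⟨j, hj1, hj2⟩ := hw3 b (Finset.mem_insert_self _ _)
        rw [← hq] at hj1 hj2
        refine ⟨j, ?_, hw1, ?_, fun x hx => hw3 x (Finset.mem_insert_of_mem hx)⟩
        · rw [abs_lt] at hj1
          rw [Finset.mem_Ico]
          omega
        · have e1 : w + (c b + j * α) = w + c b + j * α := by ring
          rw [e1]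
          exact hj2)
      (fun j _ => hcl _)
    refine hun.trans (ENNReal.ofReal_le_ofReal ?_)
    rw [Finset.card_insert_of_notMem hbn, pow_succ _ s.card, Int.card_Ico]
    have e1 : ((((q : ℤ) - -(q : ℤ)).toNat : ℕ) : ℝ) = 2 * q := by
      have : ((q : ℤ) - -(q : ℤ)).toNat = 2 * q := by omega
      rw [this]
      push_cast
      ring
    rw [e1, hB]
    have e2 : 2 * (q : ℝ) * (2 * (1 / (2 ^ 100 * (q : ℝ))) * (1 / 2 ^ 76) ^ s.card) =
        (1 / 2 ^ 76) ^ s.card * (4 / 2 ^ 100) := by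
      field_simp
      ring
    rw [e2]
    apply mul_le_mul_of_nonneg_left _ (by positivity)
    norm_num

end PFS
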