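import Pool.Agent.PFS.Surface

/-! # PFS module Conn: the surface is connected

The strip `ℝ × [1/2, 3/2)` maps onto the torus; on it the square roots `csqrt (GG ..)` are
continuous (at height `1/2` from above).  So for each pair of signs there is a continuous section of
the surface over the strip; the four images are connected, cover the surface, and meet over the
branch points. -/

open MeasureTheory Topology Filter
open scoped ENNReal

namespace PFS

/-- the half open strip -/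
def cnStrip : Set (ℝ × ℝ) := Set.univ ×ˢ Set.Ico (1 / 2 : ℝ) (3 / 2)

/-- the point of the torus below a point of the strip -/
def cnP (z : ℝ × ℝ) : Tor := ((z.1 : UnitAddCircle), (z.2 : UnitAddCircle))

theorem continuous_cnP : Continuous cnP := by
  unfold cnP
  exact ((AddCircle.continuous_mk' 1).comp continuous_fst).prodMk
    ((AddCircle.continuous_mk' 1).comp continuous_snd)

theorem cn_continuousOn {M : ℕ} (hM0 : 0 < M) (hM : Even M) (e : Fin M → ℝ)
    (he : ∀ j, e j ∈ Set.Ioo (0:ℝ) 1) {lam : ℝ} (hlam : 0 < lam) :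
    ContinuousOn (fun z => csqrt (GG lam e (cnP z))) cnStrip := by
  have hF : Continuous fun z => GG lam e (cnP z) := (continuous_GG hM e he lam).comp continuous_cnP
  intro z hz
  have hz2 : z.2 ∈ Set.Ico (1 / 2 : ℝ) (3 / 2) := hz.2
  by_cases h : z.2 = 1 / 2
  · -- from above
    have hS : (cnStrip ∩ {w : ℝ × ℝ | |w.2 - 1 / 2| ≤ 1 / 4}) ∈ 𝓝[cnStrip] z := by
      refine inter_mem_nhdsWithin _ ?_
      have h1 : Continuous fun w : ℝ × ℝ => |w.2 - 1 / 2| :=
        (continuous_snd.sub continuous_const).abs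
      refine Filter.mem_of_superset
        ((isOpen_lt h1 continuous_const).mem_nhds (show |z.2 - 1 / 2| < 1 / 4 by
          rw [h]; norm_num)) ?_
      intro w (hw : |w.2 - 1 / 2| < 1 / 4)
      exact le_of_lt hw
    refine ContinuousWithinAt.mono_of_mem_nhdsWithin ?_ hS
    have hmaps : Set.MapsTo (fun z => GG lam e (cnP z))
        (cnStrip ∩ {w : ℝ × ℝ | |w.2 - 1 / 2| ≤ 1 / 4}) {w : ℂ | 0 ≤ w.im} := by
      intro w hw
      have h1 := GG_im e lam ((w.1 : ℝ) : UnitAddCircle) (b := w.2 - 1 / 2) hw.2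
      have h2 : (1 / 2 + (w.2 - 1 / 2) : ℝ) = w.2 := by ring
      rw [h2] at h1
      change 0 ≤ (GG lam e (((w.1 : ℝ) : UnitAddCircle), ((w.2 : ℝ) : UnitAddCircle))).im
      rw [h1]
      have h3 : w.2 ∈ Set.Ico (1 / 2 : ℝ) (3 / 2) := hw.1.2
      exact mul_nonneg hlam.le (by linarith [h3.1])
    have hzm : GG lam e (cnP z) ∈ {w : ℂ | 0 ≤ w.im} :=
      hmaps ⟨hz, by change |z.2 - 1 / 2| ≤ 1 / 4; rw [h]; norm_num⟩
    exact (continuousOn_csqrt_upper _ hzm).comp (f := fun z => GG lam e (cnP z))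
      hF.continuousWithinAt hmaps
  · have hne : (cnP z).2 ≠ ((1 / 2 : ℝ) : UnitAddCircle) := by
      intro h1
      have h2 : ((z.2 : ℝ) : UnitAddCircle) = ((1 / 2 : ℝ) : UnitAddCircle) := h1
      rw [AddCircle.coe_eq_coe_iff_of_mem_Ico (a := 1 / 2) (by
        constructor
        · exact hz2.1
        · have := hz2.2; norm_num; linarith) (by norm_num)] at h2
      exact h h2
    have h3 := (continuousAt_csqrt (GG_slit hM0 e hlam (cnP z) hne)).comp
      (f := fun z => GG lam e (cnP z)) hF.continuousAt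
    exact h3.continuousWithinAt

/-- the section with signs `s`, `s'` -/
noncomputable def Par.cnSec (Q : Par) {s s' : ℂ} (hs : s ^ 2 = 1) (hs' : s' ^ 2 = 1)
    (z : cnStrip) : Q.X2 :=
  ⟨(⟨(cnP z.1, s * csqrt (GG Q.lam Q.e (cnP z.1))), by
      change (s * csqrt (GG Q.lam Q.e (cnP z.1))) ^ 2 = GG Q.lam Q.e (cnP z.1)
      rw [mul_pow, hs, one_mul, csqrt_sq]⟩, s' * csqrt (GG Q.lam Q.e' (cnP z.1))), by
      change (s' * csqrt (GG Q.lam Q.e' (cnP z.1))) ^ 2 = GG Q.lam Q.e' (cnP z.1)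
      rw [mul_pow, hs', one_mul, csqrt_sq]⟩

theorem Par.continuous_cnSec (Q : Par) {s s' : ℂ} (hs : s ^ 2 = 1) (hs' : s' ^ 2 = 1) :
    Continuous (Q.cnSec hs hs') := by
  have h1 : Continuous fun z : cnStrip => csqrt (GG Q.lam Q.e (cnP z.1)) :=
    continuousOn_iff_continuous_domRestrict.1 (cn_continuousOn Q.hM0 Q.hM Q.e Q.he Q.hlam)
  have h2 : Continuous fun z : cnStrip => csqrt (GG Q.lam Q.e' (cnP z.1)) :=
    continuousOn_iff_continuous_domRestrict.1 (cn_continuousOn Q.hM0 Q.hM Q.e' Q.he' Q.hlam)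
  have h3 : Continuous fun z : cnStrip => cnP z.1 := continuous_cnP.comp continuous_subtype_val
  unfold Par.cnSec
  refine Continuous.subtype_mk (Continuous.prodMk (Continuous.subtype_mk (h3.prodMk
    (continuous_const.mul h1)) _) (continuous_const.mul h2)) _

theorem isPreconnected_cnStrip : IsPreconnected cnStrip :=
  isPreconnected_univ.prod isPreconnected_Ico

theorem Par.isPreconnected_range_cnSec (Q : Par) {s s' : ℂ} (hs : s ^ 2 = 1) (hs' : s' ^ 2 = 1) :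
    IsPreconnected (Set.range (Q.cnSec hs hs')) := by
  have : PreconnectedSpace cnStrip := Subtype.preconnectedSpace isPreconnected_cnStrip
  exact isPreconnected_range (Q.continuous_cnSec hs hs')

theorem cn_one : (1 : ℂ) ^ 2 = 1 := one_pow 2
theorem cn_neg_one : (-1 : ℂ) ^ 2 = 1 := by norm_num

theorem Par.connected (Q : Par) : ConnectedSpace Q.X2 := by
  have hmem : ∀ x : ℝ, (x, (1 / 2 : ℝ)) ∈ cnStrip := fun x => ⟨trivial, by norm_num, by norm_num⟩
  -- branch points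
  let j0 : Fin Q.M := ⟨0, Q.hM0⟩
  have hz1 : csqrt (GG Q.lam Q.e (cnP (Q.e j0, 1 / 2))) = 0 := by
    rw [csqrt_eq_zero_iff, GG_eq_zero_iff Q.hM0 Q.e Q.hlam]
    exact ⟨rfl, j0, rfl⟩
  have hz2 : csqrt (GG Q.lam Q.e' (cnP (Q.e' j0, 1 / 2))) = 0 := by
    rw [csqrt_eq_zero_iff, GG_eq_zero_iff Q.hM0 Q.e' Q.hlam]
    exact ⟨rfl, j0, rfl⟩
  have hmeet1 : ∀ {s' : ℂ} (hs' : s' ^ 2 = 1),
      Q.cnSec cn_one hs' ⟨_, hmem (Q.e j0)⟩ = Q.cnSec cn_neg_one hs' ⟨_, hmem (Q.e j0)⟩ := by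
    intro s' hs'
    simp only [Par.cnSec, hz1, mul_zero]
  have hmeet2 : ∀ {s : ℂ} (hs : s ^ 2 = 1),
      Q.cnSec hs cn_one ⟨_, hmem (Q.e' j0)⟩ = Q.cnSec hs cn_neg_one ⟨_, hmem (Q.e' j0)⟩ := by
    intro s hs
    simp only [Par.cnSec, hz2, mul_zero]
  have hU1 : IsPreconnected (Set.range (Q.cnSec cn_one cn_one) ∪
      Set.range (Q.cnSec cn_neg_one cn_one)) :=
    IsPreconnected.union _ ⟨_, rfl⟩ ⟨_, (hmeet1 cn_one).symm⟩
      (Q.isPreconnected_range_cnSec _ _) (Q.isPreconnected_range_cnSec _ _)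
  have hU2 : IsPreconnected (Set.range (Q.cnSec cn_one cn_neg_one) ∪
      Set.range (Q.cnSec cn_neg_one cn_neg_one)) :=
    IsPreconnected.union _ ⟨_, rfl⟩ ⟨_, (hmeet1 cn_neg_one).symm⟩
      (Q.isPreconnected_range_cnSec _ _) (Q.isPreconnected_range_cnSec _ _)
  have hU : IsPreconnected ((Set.range (Q.cnSec cn_one cn_one) ∪
      Set.range (Q.cnSec cn_neg_one cn_one)) ∪ (Set.range (Q.cnSec cn_one cn_neg_one) ∪
      Set.range (Q.cnSec cn_neg_one cn_neg_one))) :=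
    IsPreconnected.union _ (Or.inl ⟨⟨_, hmem (Q.e' j0)⟩, rfl⟩)
      (Or.inl ⟨⟨_, hmem (Q.e' j0)⟩, (hmeet2 cn_one).symm⟩) hU1 hU2
  have huniv : ((Set.range (Q.cnSec cn_one cn_one) ∪
      Set.range (Q.cnSec cn_neg_one cn_one)) ∪ (Set.range (Q.cnSec cn_one cn_neg_one) ∪
      Set.range (Q.cnSec cn_neg_one cn_neg_one))) = Set.univ := by
    apply Set.eq_univ_of_forall
    rintro ⟨⟨⟨⟨p, y⟩, hy⟩, y'⟩, hy'⟩
    obtain ⟨x, hx⟩ := QuotientAddGroup.mk_surjective p.1
    have h2 : p.2 ∈ ((↑) : ℝ → UnitAddCircle) '' Set.Ico (1 / 2 : ℝ) (1 / 2 + 1) := by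
      rw [AddCircle.coe_image_Ico_eq]
      trivial
    obtain ⟨h, hh, hhp⟩ := h2
    have hp : cnP (x, h) = p := Prod.ext hx hhp
    have hz : (x, h) ∈ cnStrip := ⟨trivial, hh.1, by have := hh.2; norm_num at this; exact this⟩
    have hy1 : y ^ 2 = csqrt (GG Q.lam Q.e (cnP (x, h))) ^ 2 := by
      rw [csqrt_sq, hp]; exact hy
    have hy2 : y' ^ 2 = csqrt (GG Q.lam Q.e' (cnP (x, h))) ^ 2 := by
      rw [csqrt_sq, hp]; exact hy'
    subst hp
    rcases sq_eq_sq_iff_eq_or_eq_neg.1 hy1 with e1 | e1 <;>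
      rcases sq_eq_sq_iff_eq_or_eq_neg.1 hy2 with e2 | e2
    · refine Or.inl (Or.inl ⟨⟨_, hz⟩, ?_⟩)
      simp only [Par.cnSec, one_mul, e1, e2]
    · refine Or.inr (Or.inl ⟨⟨_, hz⟩, ?_⟩)
      simp only [Par.cnSec, one_mul, neg_mul, e1, e2]
    · refine Or.inl (Or.inr ⟨⟨_, hz⟩, ?_⟩)
      simp only [Par.cnSec, one_mul, neg_mul, e1, e2]
    · refine Or.inr (Or.inr ⟨⟨_, hz⟩, ?_⟩)
      simp only [Par.cnSec, one_mul, neg_mul, e1, e2]
  rw [huniv] at hU
  have : PreconnectedSpace Q.X2 := ⟨hU⟩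
  have : Nonempty Q.X2 := ⟨Q.cnSec cn_one cn_one ⟨_, hmem 0⟩⟩
  exact ConnectedSpace.mk this

end PFS
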