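import Pool.Agent.PFS.Basic

/-! # PFS module Contract: one step of the contraction -/

open MeasureTheory Topology Filter
open scoped ENNReal

namespace PFS

section ContractAux

variable {ι : Type} [Fintype ι]

/-- the jump set -/
def ctrJ (P : ι → ℝ) : Set ℝ := {x | ∃ i, ∃ m : ℤ, x + P i = m}

/-- the sign function -/
noncomputable def ctrH (P : ι → ℝ) (s : ℝ) : ℝ := ∏ i, eps (s + P i)

lemma ctrH_eq (P : ι → ℝ) (s : ℝ) : ctrH P s = 1 ∨ ctrH P s = -1 := by
  unfold ctrH
  refine Finset.prod_induction (fun i => eps (s + P i)) (fun x => x = 1 ∨ x = -1) ?_ ?_ ?_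
  · rintro a b (rfl | rfl) (rfl | rfl) <;> simp
  · left; rfl
  · intro i _
    exact eps_eq _

lemma ctrJ_sep {P : ι → ℝ} {q δ : ℝ} (hq : 1 ≤ q) (_hδ : 0 < δ) (hδ' : δ ≤ 1 / 10)
    (hsep : ∀ i j, i ≠ j → δ / q ≤ nrm (P i - P j)) {x y : ℝ} (hx : x ∈ ctrJ P) (hy : y ∈ ctrJ P)
    (hxy : x ≠ y) : δ / q ≤ |x - y| := by
  obtain ⟨i, m, hm⟩ := hx
  obtain ⟨j, n, hn⟩ := hy
  by_cases hij : i = j
  · subst hij
    have h1 : x - y = ((m - n : ℤ) : ℝ) := by push_cast; linarith
    have h2 : (m - n : ℤ) ≠ 0 := by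
      intro h
      rw [h] at h1
      apply hxy
      have : x - y = 0 := by simpa using h1
      linarith
    have h3 : (1 : ℝ) ≤ |x - y| := by
      rw [h1, ← Int.cast_abs]
      exact_mod_cast Int.one_le_abs h2
    refine le_trans ?_ h3
    rw [div_le_one (by linarith)]
    linarith
  · refine (hsep i j hij).trans ?_
    refine (nrm_le_abs_sub_int _ (m - n)).trans (le_of_eq ?_)
    push_cast
    rw [← abs_neg]
    congr 1
    linarith

lemma ctr_floor_eq {s t p : ℝ} (hst : s ≤ t)
    (h : ∀ m : ℤ, ¬ (s + p < m ∧ (m : ℝ) ≤ t + p)) : ⌊t + p⌋ = ⌊s + p⌋ := by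
  refine le_antisymm ?_ (Int.floor_mono (by linarith))
  by_contra hlt
  push Not at hlt
  exact h ⌊t + p⌋ ⟨Int.floor_lt.1 hlt, Int.floor_le _⟩

lemma ctrH_const {P : ι → ℝ} {s t t' : ℝ} (hno : ∀ u, s < u → u < t' → u ∉ ctrJ P)
    (hst : s ≤ t) (htt' : t < t') : ctrH P t = ctrH P s := by
  unfold ctrH
  refine Finset.prod_congr rfl fun i _ => ?_
  have : ⌊t + P i⌋ = ⌊s + P i⌋ := by
    refine ctr_floor_eq hst fun m hm => ?_
    refine hno (m - P i) (by linarith [hm.1]) (by linarith [hm.2]) ⟨i, m, by ring⟩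
  unfold eps
  rw [this]

lemma ctrH_flip [DecidableEq ι] {P : ι → ℝ} (huniq : ∀ i j, i ≠ j → 0 < nrm (P i - P j))
    {s z : ℝ} (hno : ∀ u, s < u → u < z → u ∉ ctrJ P) (hsz : s < z) (hz : z ∈ ctrJ P) :
    ctrH P z = - ctrH P s := by
  obtain ⟨i₀, m, hm⟩ := hz
  unfold ctrH
  rw [← Finset.mul_prod_erase Finset.univ (fun i => eps (z + P i)) (Finset.mem_univ i₀),
    ← Finset.mul_prod_erase Finset.univ (fun i => eps (s + P i)) (Finset.mem_univ i₀)]
  have h1 : ∀ i ∈ Finset.univ.erase i₀, eps (z + P i) = eps (s + P i) := by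
    intro i hi
    have hne : i ≠ i₀ := Finset.ne_of_mem_erase hi
    have : ⌊z + P i⌋ = ⌊s + P i⌋ := by
      refine ctr_floor_eq hsz.le fun k hk => ?_
      rcases lt_or_eq_of_le hk.2 with h2 | h2
      · exact hno (k - P i) (by linarith [hk.1]) (by linarith) ⟨i, k, by ring⟩
      · have h3 : nrm (P i - P i₀) = 0 := by
          rw [nrm_eq_zero_iff]
          exact ⟨k - m, by push_cast; linarith⟩
        exact (huniq i i₀ hne).ne' h3
    unfold eps
    rw [this]
  rw [Finset.prod_congr rfl h1]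
  have h2 : eps (z + P i₀) = - eps (s + P i₀) := by
    have h3 : ⌊z + P i₀⌋ = m := by rw [hm]; exact Int.floor_intCast m
    have h4 : ⌊s + P i₀⌋ = m - 1 := by
      rw [Int.floor_eq_iff]
      push_cast
      constructor
      · by_contra hlt
        push Not at hlt
        exact hno ((m - 1 : ℤ) - P i₀) (by push_cast; linarith) (by push_cast; linarith)
          ⟨i₀, m - 1, by ring⟩
      · linarith
    unfold eps
    rw [h3, h4]
    by_cases hev : Even m
    · have : ¬ Even (m - 1) := by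
        rw [Int.not_even_iff_odd]
        exact hev.sub_odd odd_one
      simp [hev, this]
    · have : Even (m - 1) := by
        rw [Int.not_even_iff_odd] at hev
        exact hev.sub_odd odd_one
      simp [hev, this]
  rw [h2]
  ring

lemma ctrJ_next {P : ι → ℝ} {q δ : ℝ} (hq : 1 ≤ q) (hδ : 0 < δ) (hδ' : δ ≤ 1 / 10)
    (hsep : ∀ i j, i ≠ j → δ / q ≤ nrm (P i - P j))
    (hgap : ∀ x : ℝ, ∃ i, nrm (x + P i) ≤ 3 / (2 * q)) (x : ℝ) :
    ∃ z ∈ ctrJ P, x < z ∧ z ≤ x + 3 / q ∧ ∀ u, x < u → u < z → u ∉ ctrJ P := by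
  have hq0 : 0 < q := by linarith
  have hsp := @ctrJ_sep ι _ P q δ hq hδ hδ' hsep
  -- points of `J` in closed intervals
  have hpt : ∀ ε : ℝ, 0 < ε → ∃ z ∈ ctrJ P, x < z ∧ z ≤ x + ε + 3 / q := by
    intro ε hε
    obtain ⟨i, hi⟩ := hgap (x + ε + 3 / (2 * q))
    obtain ⟨m, hm⟩ := nrm_eq (x + ε + 3 / (2 * q) + P i)
    rw [hm, abs_le] at hi
    have h3 : 3 / q = 3 / (2 * q) + 3 / (2 * q) := by field_simp; norm_num
    refine ⟨m - P i, ⟨i, m, by ring⟩, by linarith [hi.2], by linarith [hi.1]⟩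
  set S : Set ℝ := {z | z ∈ ctrJ P ∧ x < z} with hS
  have hne : S.Nonempty := by
    obtain ⟨z, hz, hxz, -⟩ := hpt 1 one_pos
    exact ⟨z, hz, hxz⟩
  have hbdd : BddBelow S := ⟨x, fun z hz => hz.2.le⟩
  have hd : 0 < δ / q := by positivity
  obtain ⟨z₁, hz₁S, hz₁⟩ : ∃ z₁ ∈ S, z₁ < sInf S + δ / q :=
    exists_lt_of_csInf_lt hne (by linarith)
  have hmin : ∀ z ∈ S, z₁ ≤ z := by
    intro z hz
    by_contra hlt
    push Not at hlt
    have h1 := hsp hz₁S.1 hz.1 (ne_of_gt hlt)
    rw [abs_of_pos (by linarith)] at h1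
    have h2 := csInf_le hbdd hz
    linarith
  refine ⟨z₁, hz₁S.1, hz₁S.2, ?_, fun u hu1 hu2 huJ => ?_⟩
  · refine le_of_forall_pos_le_add fun ε hε => ?_
    obtain ⟨z, hz, hxz, hz2⟩ := hpt ε hε
    have := hmin z ⟨hz, hxz⟩
    linarith
  · have := hmin u ⟨huJ, hu1⟩
    linarith

end ContractAux

/-- The contraction lemma.  `f` is a bounded measurable 1-periodic function with
`f (s + β) = h(s) f(s)`, where `h(s) = ∏ i, eps (s + P i)` is a sign function whose sign changes (the
points `-P i` mod 1) are `δ/q`-separated and `3/q`-dense.  If all averages of `f` over intervals of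
length `≥ δ/q` are at most `a`, then all averages over intervals of length `≥ 100/(δ q)` are at most
`(1 - δ/20) a`. -/
theorem contract {ι : Type} [Fintype ι] [DecidableEq ι] (P : ι → ℝ) (q δ β a : ℝ) (f : ℝ → ℝ)
    (hq : 1 ≤ q) (hδ : 0 < δ) (hδ' : δ ≤ 1 / 10) (ha0 : 0 ≤ a)
    (hf1 : ∀ s, f (s + 1) = f s) (hfm : Measurable f) (hfb : ∀ s, |f s| ≤ 1)
    (hsh : ∀ s, f (s + β) = (∏ i, eps (s + P i)) * f s)
    (hβ : nrm β ≤ 1 / q)
    (hsep : ∀ i j, i ≠ j → δ / q ≤ nrm (P i - P j))
    (hgap : ∀ x : ℝ, ∃ i, nrm (x + P i) ≤ 3 / (2 * q))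
    (ha : ∀ x y : ℝ, x + δ / q ≤ y → |∫ s in x..y, f s| ≤ a * (y - x)) :
    ∀ x y : ℝ, x + 100 / (δ * q) ≤ y → |∫ s in x..y, f s| ≤ (1 - δ / 20) * a * (y - x) := by
  have hq0 : 0 < q := by linarith
  have hdq : 0 < δ / q := by positivity
  have hadq : 0 ≤ a * (δ / q) := by positivity
  have huniq : ∀ i j, i ≠ j → 0 < nrm (P i - P j) := fun i j hij => hdq.trans_le (hsep i j hij)
  have hsp := @ctrJ_sep ι _ P q δ hq hδ hδ' hsep
  have hnx := ctrJ_next hq hδ hδ' hsep hgap
  -- integrability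
  have hfi : ∀ x y : ℝ, IntervalIntegrable f volume x y := by
    intro x y
    rw [intervalIntegrable_iff]
    refine Measure.integrableOn_of_bounded (M := 1) ?_ hfm.aestronglyMeasurable ?_
    · simp
    · exact Eventually.of_forall fun s => hfb s
  set g : ℝ → ℝ := fun s => f (s + β) with hg
  have hgi : ∀ x y : ℝ, IntervalIntegrable g volume x y := by
    intro x y
    rw [intervalIntegrable_iff]
    refine Measure.integrableOn_of_bounded (M := 1) ?_
      (hfm.comp (measurable_id.add_const β)).aestronglyMeasurable ?_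
    · simp
    · exact Eventually.of_forall fun s => hfb _
  have hgh : ∀ s, g s = ctrH P s * f s := fun s => hsh s
  -- short intervals
  have hS : ∀ x y : ℝ, x ≤ y → |∫ s in x..y, f s| ≤ a * (y - x + 2 * (δ / q)) := by
    intro x y hxy
    have h1 : ∫ s in x..y, f s = (∫ s in x..(y + δ / q), f s) - ∫ s in y..(y + δ / q), f s := by
      rw [← intervalIntegral.integral_add_adjacent_intervals (hfi x y) (hfi y (y + δ / q))]
      ring
    rw [h1]
    have h2 := ha x (y + δ / q) (by linarith)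
    have h3 := ha y (y + δ / q) le_rfl
    calc |(∫ s in x..(y + δ / q), f s) - ∫ s in y..(y + δ / q), f s|
        ≤ |∫ s in x..(y + δ / q), f s| + |∫ s in y..(y + δ / q), f s| := abs_sub _ _
      _ ≤ a * (y + δ / q - x) + a * (y + δ / q - y) := add_le_add h2 h3
      _ = a * (y - x + 2 * (δ / q)) := by ring
  have hS' : ∀ x y : ℝ, |∫ s in x..y, f s| ≤ a * (|y - x| + 2 * (δ / q)) := by
    intro x y
    rcases le_total x y with h | h
    · rw [abs_of_nonneg (by linarith : 0 ≤ y - x)]
      exact hS x y h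
    · rw [intervalIntegral.integral_symm, abs_neg, abs_of_nonpos (by linarith : y - x ≤ 0)]
      have := hS y x h
      simpa using this
  -- arcs
  have harc : ∀ s t : ℝ, s ≤ t → (∀ u, s < u → u < t → u ∉ ctrJ P) →
      ∫ u in s..t, g u = ctrH P s * ∫ u in s..t, f u := by
    intro s t hst hno
    rw [← intervalIntegral.integral_const_mul, intervalIntegral.integral_of_le hst,
      intervalIntegral.integral_of_le hst, integral_Ioc_eq_integral_Ioo,
      integral_Ioc_eq_integral_Ioo]
    refine setIntegral_congr_fun measurableSet_Ioo fun u hu => ?_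
    simp only [hgh]
    rw [ctrH_const hno hu.1.le hu.2]
  set G : ℝ → ℝ → ℝ := fun x y => ((∫ s in x..y, f s) + ∫ s in x..y, g s) / 2 with hG
  have hGadd : ∀ x y z, G x z = G x y + G y z := by
    intro x y z
    simp only [hG]
    rw [← intervalIntegral.integral_add_adjacent_intervals (hfi x y) (hfi y z),
      ← intervalIntegral.integral_add_adjacent_intervals (hgi x y) (hgi y z)]
    ring
  have hGarc : ∀ s t : ℝ, s ≤ t → (∀ u, s < u → u < t → u ∉ ctrJ P) →
      (ctrH P s = 1 ∧ G s t = ∫ u in s..t, f u) ∨ (ctrH P s = -1 ∧ G s t = 0) := by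
    intro s t hst hno
    have h1 := harc s t hst hno
    rcases ctrH_eq P s with h | h
    · left
      refine ⟨h, ?_⟩
      simp only [hG, h1, h]
      ring
    · right
      refine ⟨h, ?_⟩
      simp only [hG, h1, h]
      ring
  -- a pair of arcs
  have hpair : ∀ z ∈ ctrJ P, ∃ z'' ∈ ctrJ P, z + 2 * (δ / q) ≤ z'' ∧ z'' ≤ z + 6 / q ∧
      |G z z''| ≤ a * (z'' - z - δ / q) ∧
      ∀ y, z ≤ y → y < z'' → |G z y| ≤ a * (y - z + 2 * (δ / q)) := by
    intro z hz
    obtain ⟨z', hz', hzz', hz'3, hno⟩ := hnx z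
    obtain ⟨z'', hz'', hzz'', hz''3, hno'⟩ := hnx z'
    have hd1 : δ / q ≤ z' - z := by
      have := hsp hz' hz (ne_of_gt hzz')
      rwa [abs_of_pos (by linarith)] at this
    have hd2 : δ / q ≤ z'' - z' := by
      have := hsp hz'' hz' (ne_of_gt hzz'')
      rwa [abs_of_pos (by linarith)] at this
    have h6 : 6 / q = 3 / q + 3 / q := by ring
    have hflip : ctrH P z' = - ctrH P z := ctrH_flip huniq hno hzz' hz'
    refine ⟨z'', hz'', by linarith, by linarith, ?_, ?_⟩
    · rw [hGadd z z' z'']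
      have e1 := ha z z' (by linarith)
      have e2 := ha z' z'' (by linarith)
      rcases hGarc z z' hzz'.le hno with ⟨h1, h2⟩ | ⟨h1, h2⟩
      · rcases hGarc z' z'' hzz''.le hno' with ⟨h3, h4⟩ | ⟨h3, h4⟩
        · rw [h3, h1] at hflip; norm_num at hflip
        · rw [h2, h4, add_zero]
          exact e1.trans (mul_le_mul_of_nonneg_left (by linarith) ha0)
      · rcases hGarc z' z'' hzz''.le hno' with ⟨h3, h4⟩ | ⟨h3, h4⟩
        · rw [h2, h4, zero_add]
          exact e2.trans (mul_le_mul_of_nonneg_left (by linarith) ha0)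
        · rw [h3, h1] at hflip; norm_num at hflip
    · intro y hzy hyz
      rcases le_total y z' with hy | hy
      · rcases hGarc z y hzy (fun u hu1 hu2 => hno u hu1 (by linarith)) with ⟨h1, h2⟩ | ⟨h1, h2⟩
        · rw [h2]
          exact hS z y hzy
        · rw [h2, abs_zero]
          have : 0 ≤ y - z := by linarith
          positivity
      · rw [hGadd z z' y]
        rcases hGarc z z' hzz'.le hno with ⟨h1, h2⟩ | ⟨h1, h2⟩
        · rcases hGarc z' y hy (fun u hu1 hu2 => hno' u hu1 (by linarith)) with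
            ⟨h3, h4⟩ | ⟨h3, h4⟩
          · rw [h3, h1] at hflip; norm_num at hflip
          · rw [h2, h4, add_zero]
            refine (hS z z' hzz'.le).trans ?_
            gcongr
        · rcases hGarc z' y hy (fun u hu1 hu2 => hno' u hu1 (by linarith)) with
            ⟨h3, h4⟩ | ⟨h3, h4⟩
          · rw [h2, h4, zero_add]
            refine (hS z' y hy).trans ?_
            gcongr
          · rw [h3, h1] at hflip; norm_num at hflip
  -- induction
  have hind : ∀ n : ℕ, ∀ z ∈ ctrJ P, ∀ y, z ≤ y → y ≤ z + n * (2 * (δ / q)) →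
      |G z y| ≤ a * ((1 - δ / 6) * (y - z) + 3 * (δ / q)) := by
    intro n
    induction n with
    | zero =>
      intro z _ y hzy hy
      have : y = z := by
        simp only [Nat.cast_zero, zero_mul, add_zero] at hy
        exact le_antisymm hy hzy
      subst this
      have h0 : G y y = 0 := by simp [hG]
      rw [h0, abs_zero, sub_self, mul_zero, zero_add]
      positivity
    | succ n ih =>
      intro z hz y hzy hy
      obtain ⟨z'', hz'', h1, h2, h3, h4⟩ := hpair z hz
      have h6 : δ / 6 * (6 / q) = δ / q := by field_simp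
      rcases lt_or_ge y z'' with hlt | hge
      · refine (h4 y hzy hlt).trans ?_
        have h5 : δ / 6 * (y - z) ≤ δ / 6 * (6 / q) := by
          apply mul_le_mul_of_nonneg_left _ (by positivity)
          linarith
        apply mul_le_mul_of_nonneg_left _ ha0
        nlinarith
      · have h7 := ih z'' hz'' y hge (by push_cast at hy; linarith)
        rw [hGadd z z'' y]
        have h5 : δ / 6 * (z'' - z) ≤ δ / 6 * (6 / q) := by
          apply mul_le_mul_of_nonneg_left _ (by positivity)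
          linarith
        have h8 : |G z z''| ≤ a * ((1 - δ / 6) * (z'' - z)) := by
          refine h3.trans ?_
          apply mul_le_mul_of_nonneg_left _ ha0
          nlinarith
        calc |G z z'' + G z'' y| ≤ |G z z''| + |G z'' y| := abs_add_le _ _
          _ ≤ a * ((1 - δ / 6) * (z'' - z)) + a * ((1 - δ / 6) * (y - z'') + 3 * (δ / q)) :=
            add_le_add h8 h7
          _ = a * ((1 - δ / 6) * (y - z) + 3 * (δ / q)) := by ring
  have hJ : ∀ z ∈ ctrJ P, ∀ y, z ≤ y → |G z y| ≤ a * ((1 - δ / 6) * (y - z) + 3 * (δ / q)) := by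
    intro z hz y hzy
    obtain ⟨n, hn⟩ := exists_nat_ge ((y - z) / (2 * (δ / q)))
    refine hind n z hz y hzy ?_
    rw [div_le_iff₀ (by positivity)] at hn
    linarith
  -- conclusion
  intro x y hxy
  have hL : 100 / (δ * q) ≤ y - x := by linarith
  have hL' : 100 / q ≤ δ * (y - x) := by
    have : δ * (100 / (δ * q)) = 100 / q := by field_simp
    rw [← this]
    exact mul_le_mul_of_nonneg_left hL hδ.le
  have hq1 : 0 < 1 / q := by positivity
  obtain ⟨z, hz, hxz, hz3, hno⟩ := hnx x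
  have hzy : z ≤ y := by
    have h1 : 3 / q ≤ 100 / (δ * q) := by
      rw [div_le_div_iff₀ hq0 (by positivity)]
      nlinarith
    linarith
  have hG1 : |G x z| ≤ a * (z - x + 2 * (δ / q)) := by
    rcases hGarc x z hxz.le hno with ⟨h1, h2⟩ | ⟨h1, h2⟩
    · rw [h2]
      exact hS x z hxz.le
    · rw [h2, abs_zero]
      have : 0 ≤ z - x := by linarith
      positivity
  have hG2 := hJ z hz y hzy
  have hGt : |G x y| ≤ a * ((1 - δ / 6) * (y - x) + 11 / 2 * (δ / q)) := by
    rw [hGadd x z y]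
    have h5 : δ / 6 * (z - x) ≤ δ / 6 * (3 / q) := by
      apply mul_le_mul_of_nonneg_left _ (by positivity)
      linarith
    have h6 : δ / 6 * (3 / q) = 1 / 2 * (δ / q) := by field_simp; norm_num
    have h8 : a * (z - x + 2 * (δ / q)) ≤ a * ((1 - δ / 6) * (z - x) + 5 / 2 * (δ / q)) := by
      apply mul_le_mul_of_nonneg_left _ ha0
      nlinarith
    calc |G x z + G z y| ≤ |G x z| + |G z y| := abs_add_le _ _
      _ ≤ a * ((1 - δ / 6) * (z - x) + 5 / 2 * (δ / q)) +
          a * ((1 - δ / 6) * (y - z) + 3 * (δ / q)) := add_le_add (hG1.trans h8) hG2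
      _ = a * ((1 - δ / 6) * (y - x) + 11 / 2 * (δ / q)) := by ring
  -- the shift
  have hper : Function.Periodic f 1 := hf1
  have hgβ : ∀ s, g s = f (s + (β - round β)) := by
    intro s
    have h1 : f (s + (β - round β) + round β * 1) = f (s + (β - round β)) :=
      (hper.int_mul (round β)) _
    rw [← h1]
    simp only [hg]
    congr 1
    ring
  set β' : ℝ := β - round β with hβ'
  have hβ'q : |β'| ≤ 1 / q := hβ
  have hgint : ∫ s in x..y, g s = ∫ s in (x + β')..(y + β'), f s := by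
    rw [← intervalIntegral.integral_comp_add_right]
    exact intervalIntegral.integral_congr fun s _ => hgβ s
  have hshift : |(∫ s in x..y, f s) - ∫ s in x..y, g s| ≤ 2 * (a * (1 / q + 2 * (δ / q))) := by
    rw [hgint]
    have h1 : (∫ s in x..y, f s) - ∫ s in (x + β')..(y + β'), f s =
        (∫ s in x..(x + β'), f s) - ∫ s in y..(y + β'), f s := by
      have e1 := intervalIntegral.integral_add_adjacent_intervals (hfi x y) (hfi y (y + β'))
      have e2 := intervalIntegral.integral_add_adjacent_intervals (hfi x (x + β'))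
        (hfi (x + β') (y + β'))
      linarith
    rw [h1]
    have h2 := hS' x (x + β')
    have h3 := hS' y (y + β')
    rw [add_sub_cancel_left] at h2 h3
    have h4 : a * (|β'| + 2 * (δ / q)) ≤ a * (1 / q + 2 * (δ / q)) := by gcongr
    calc |(∫ s in x..(x + β'), f s) - ∫ s in y..(y + β'), f s|
        ≤ |∫ s in x..(x + β'), f s| + |∫ s in y..(y + β'), f s| := abs_sub _ _
      _ ≤ 2 * (a * (1 / q + 2 * (δ / q))) := by linarith
  have hfG : ∫ s in x..y, f s = G x y + ((∫ s in x..y, f s) - ∫ s in x..y, g s) / 2 := by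
    simp only [hG]; ring
  rw [hfG]
  have hfin : |G x y + ((∫ s in x..y, f s) - ∫ s in x..y, g s) / 2| ≤
      a * ((1 - δ / 6) * (y - x) + 11 / 2 * (δ / q)) + a * (1 / q + 2 * (δ / q)) := by
    refine (abs_add_le _ _).trans (add_le_add hGt ?_)
    rw [abs_div, abs_two, div_le_iff₀ two_pos]
    linarith
  refine hfin.trans ?_
  have h9 : δ / q ≤ 1 / 10 * (1 / q) := by
    rw [div_eq_mul_one_div]
    gcongr
  have h10 : 100 * (1 / q) ≤ δ * (y - x) := by
    have : 100 * (1 / q) = 100 / q := by ring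
    rw [this]; exact hL'
  have h11 : (1 - δ / 6) * (y - x) + 11 / 2 * (δ / q) + (1 / q + 2 * (δ / q)) ≤
      (1 - δ / 20) * (y - x) := by nlinarith
  calc a * ((1 - δ / 6) * (y - x) + 11 / 2 * (δ / q)) + a * (1 / q + 2 * (δ / q))
      = a * ((1 - δ / 6) * (y - x) + 11 / 2 * (δ / q) + (1 / q + 2 * (δ / q))) := by ring
    _ ≤ a * ((1 - δ / 20) * (y - x)) := mul_le_mul_of_nonneg_left h11 ha0
    _ = (1 - δ / 20) * a * (y - x) := by ring

end PFS
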