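import Pool.Agent.PFS.Expect

/-! # PFS module Model: the correlation function `CC` of the suspension flow -/

open MeasureTheory Topology Filter
open scoped ENNReal

namespace PFS

/-! ### the cocycle -/

theorem chi_sq_mod {M : ℕ} (e : Fin M → ℝ) (x : ℝ) : chi e x * chi e x = 1 := by
  unfold chi
  rw [← Finset.prod_mul_distrib]
  apply Finset.prod_eq_one
  intro j _
  split_ifs <;> norm_num

theorem chi_add_one_mod {M : ℕ} (e : Fin M → ℝ) (x : ℝ) : chi e (x + 1) = chi e x := by
  unfold chi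
  rw [Int.fract_add_one]

theorem Pz_zero_mod {M : ℕ} (e : Fin M → ℝ) (α u : ℝ) : Pz e α u 0 = 1 := by
  unfold Pz
  simp

theorem Pz_sq_mod {M : ℕ} (e : Fin M → ℝ) (α u : ℝ) (m : ℤ) : Pz e α u m * Pz e α u m = 1 := by
  have h := abs_Pz e α u m
  rw [← abs_mul_abs_self, h, one_mul]

theorem Pz_succ_mod {M : ℕ} (e : Fin M → ℝ) (α u : ℝ) (m : ℤ) :
    Pz e α u (m + 1) = chi e (u + (m + 1 : ℤ) * α) * Pz e α u m := by
  unfold Pz
  rcases le_or_gt 0 m with hm | hm
  · have h1 : Finset.Ioc (0 : ℤ) (m + 1) = insert (m + 1) (Finset.Ioc 0 m) := by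
      ext k
      simp only [Finset.mem_Ioc, Finset.mem_insert]
      omega
    have h2 : Finset.Ioc (m + 1) (0 : ℤ) = ∅ := Finset.Ioc_eq_empty (by omega)
    have h3 : Finset.Ioc m (0 : ℤ) = ∅ := Finset.Ioc_eq_empty (by omega)
    rw [h1, h2, h3, Finset.prod_insert (by simp), mul_assoc]
  · have h1 : Finset.Ioc m (0 : ℤ) = insert (m + 1) (Finset.Ioc (m + 1) 0) := by
      ext k
      simp only [Finset.mem_Ioc, Finset.mem_insert]
      omega
    have h2 : Finset.Ioc (0 : ℤ) (m + 1) = ∅ := Finset.Ioc_eq_empty (by omega)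
    have h3 : Finset.Ioc (0 : ℤ) m = ∅ := Finset.Ioc_eq_empty (by omega)
    rw [h1, h2, h3, Finset.prod_insert (by simp), Finset.prod_empty, one_mul, one_mul, ← mul_assoc,
      chi_sq_mod, one_mul]

theorem Pz_pred {M : ℕ} (e : Fin M → ℝ) (α u : ℝ) (m : ℤ) :
    Pz e α u m = chi e (u + (m + 1 : ℤ) * α) * Pz e α u (m + 1) := by
  rw [Pz_succ_mod, ← mul_assoc, chi_sq_mod, one_mul]

theorem Pz_cocycle_aux {M : ℕ} (e : Fin M → ℝ) (α u : ℝ) (b n : ℤ) :
    Pz e α u (b + n) * Pz e α u b = Pz e α (u + b * α) n := by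
  induction n using Int.induction_on with
  | zero => rw [add_zero, Pz_sq_mod, Pz_zero_mod]
  | succ i ih =>
    rw [← add_assoc, Pz_succ_mod, mul_assoc, ih, Pz_succ_mod]
    congr 2
    push_cast
    ring
  | pred i ih =>
    have h1 := Pz_pred e α u (b + (-(i : ℤ) - 1))
    have h2 := Pz_pred e α (u + b * α) (-(i : ℤ) - 1)
    have e1 : b + (-(i : ℤ) - 1) + 1 = b + -(i : ℤ) := by ring
    have e2 : -(i : ℤ) - 1 + 1 = -(i : ℤ) := by ring
    rw [e1] at h1
    rw [e2] at h2
    rw [h1, h2, mul_assoc, ih]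
    congr 2
    push_cast
    ring

theorem Pz_cocycle {M : ℕ} (e : Fin M → ℝ) (α u : ℝ) (a b : ℤ) :
    Pz e α u a * Pz e α u b = Pz e α (u + b * α) (a - b) := by
  rw [← Pz_cocycle_aux, add_sub_cancel]

theorem Pz_periodic {M : ℕ} (e : Fin M → ℝ) (α : ℝ) (m : ℤ) :
    Function.Periodic (fun u => Pz e α u m) 1 := by
  intro u
  unfold Pz
  have h : ∀ k : ℤ, chi e (u + 1 + k * α) = chi e (u + k * α) := by
    intro k
    rw [add_right_comm, chi_add_one_mod]
  simp only [h]

theorem integral_Pz_shift {M : ℕ} (e : Fin M → ℝ) (α c : ℝ) (m : ℤ) :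
    ∫ u in (0:ℝ)..1, Pz e α (u + c) m = cc e α m := by
  rw [intervalIntegral.integral_comp_add_right (fun u => Pz e α u m)]
  have h := (Pz_periodic e α m).intervalIntegral_add_eq (0 + c) 0
  rw [zero_add] at h ⊢
  rw [add_comm 1 c, h, zero_add]
  rfl

theorem integral_Pz_mul {M : ℕ} (e : Fin M → ℝ) (α : ℝ) (a b : ℤ) :
    ∫ u in (0:ℝ)..1, Pz e α u a * Pz e α u b = cc e α (a - b) := by
  simp_rw [Pz_cocycle]
  exact integral_Pz_shift e α (b * α) (a - b)

/-! ### integrals of `cc ∘ floor` -/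

theorem measurable_cc_floor {M : ℕ} (e : Fin M → ℝ) (α : ℝ) :
    Measurable (fun x : ℝ => cc e α ⌊x⌋) :=
  (measurable_of_countable (fun m : ℤ => cc e α m)).comp Int.measurable_floor

theorem intervalIntegrable_of_bdd {g : ℝ → ℝ} (hg : Measurable g) {C : ℝ} (hC : ∀ x, |g x| ≤ C)
    (a b : ℝ) : IntervalIntegrable g volume a b := by
  rw [intervalIntegrable_iff]
  apply Measure.integrableOn_of_bounded (M := C)
  · rw [Set.uIoc, Real.volume_Ioc]
    exact ENNReal.ofReal_ne_top
  · exact hg.aestronglyMeasurable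
  · exact Filter.Eventually.of_forall fun x => hC x

theorem ii_cc_floor {M : ℕ} (e : Fin M → ℝ) (α h : ℝ) (a b : ℝ) :
    IntervalIntegrable (fun x : ℝ => cc e α ⌊x + h⌋) volume a b :=
  intervalIntegrable_of_bdd ((measurable_cc_floor e α).comp (by fun_prop))
    (fun x => abs_cc_le_one e α _) a b

/-- `CC` interpolates linearly between the values `cc` at integers -/
theorem CC_eq {M : ℕ} (e : Fin M → ℝ) (α h : ℝ) :
    CC e α h = (1 - Int.fract h) * cc e α ⌊h⌋ + Int.fract h * cc e α (⌊h⌋ + 1) := by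
  unfold CC
  have hf0 := Int.fract_nonneg h
  have hf1 := Int.fract_lt_one h
  have hh := Int.floor_add_fract h
  rw [← intervalIntegral.integral_add_adjacent_intervals (ii_cc_floor e α h 0 (1 - Int.fract h))
    (ii_cc_floor e α h (1 - Int.fract h) 1)]
  congr 1
  · rw [intervalIntegral.integral_of_le (by linarith), integral_Ioc_eq_integral_Ioo,
      setIntegral_congr_fun (g := fun _ => cc e α ⌊h⌋) measurableSet_Ioo]
    · rw [← integral_Ioc_eq_integral_Ioo, ← intervalIntegral.integral_of_le (by linarith),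
        intervalIntegral.integral_const, smul_eq_mul, sub_zero]
    · intro τ hτ
      have : ⌊τ + h⌋ = ⌊h⌋ := by
        rw [Int.floor_eq_iff]
        constructor
        · linarith [hτ.1]
        · linarith [hτ.2]
      simp only [this]
  · rw [intervalIntegral.integral_of_le (by linarith), integral_Ioc_eq_integral_Ioo,
      setIntegral_congr_fun (g := fun _ => cc e α (⌊h⌋ + 1)) measurableSet_Ioo]
    · rw [← integral_Ioc_eq_integral_Ioo, ← intervalIntegral.integral_of_le (by linarith),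
        intervalIntegral.integral_const, smul_eq_mul, sub_sub_cancel]
    · intro τ hτ
      have : ⌊τ + h⌋ = ⌊h⌋ + 1 := by
        rw [Int.floor_eq_iff]
        push_cast
        constructor
        · linarith [hτ.1]
        · linarith [hτ.2]
      simp only [this]

theorem CC_zero {M : ℕ} (e : Fin M → ℝ) (α : ℝ) : CC e α 0 = 1 := by
  rw [CC_eq]
  simp only [Int.fract_zero, Int.floor_zero, sub_zero, one_mul, zero_mul, add_zero]
  unfold cc
  simp only [Pz_zero_mod]
  simp

theorem abs_CC_le_one {M : ℕ} (e : Fin M → ℝ) (α h : ℝ) : |CC e α h| ≤ 1 := by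
  unfold CC
  have h1 := intervalIntegral.norm_integral_le_of_norm_le_const (a := (0:ℝ)) (b := 1) (C := 1)
    (f := fun τ => cc e α ⌊τ + h⌋) (fun τ _ => abs_cc_le_one e α _)
  simpa using h1

theorem continuous_CC {M : ℕ} (e : Fin M → ℝ) (α : ℝ) : Continuous (CC e α) := by
  have hint : ∀ a b, IntervalIntegrable (fun x : ℝ => cc e α ⌊x⌋) volume a b := fun a b =>
    intervalIntegrable_of_bdd (measurable_cc_floor e α) (fun x => abs_cc_le_one e α _) a b
  have hp := intervalIntegral.continuous_primitive hint 0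
  have h1 : CC e α = fun h => (∫ x in (0:ℝ)..(1 + h), cc e α ⌊x⌋) - ∫ x in (0:ℝ)..h, cc e α ⌊x⌋ := by
    funext h
    unfold CC
    rw [intervalIntegral.integral_comp_add_right (fun x => cc e α ⌊x⌋), zero_add,
      intervalIntegral.integral_interval_sub_left (hint _ _) (hint _ _)]
  rw [h1]
  exact (hp.comp (by fun_prop)).sub hp

theorem measurable_cc_prod (M : ℕ) :
    Measurable (fun p : ((Fin M → ℝ) × ℝ) × ℤ => cc p.1.1 p.1.2 p.2) := by
  apply measurable_from_prod_countable_left
  intro m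
  exact measurable_cc M m

theorem measurable_trip_floor (M : ℕ) :
    Measurable (fun p : (Fin M → ℝ) × ℝ × ℝ => ((p.1, p.2.1), ⌊p.2.2⌋)) := by
  have hφ : Measurable (fun p : (Fin M → ℝ) × ℝ × ℝ => (p.1, p.2.1)) :=
    measurable_fst.prodMk (measurable_fst.comp measurable_snd)
  exact hφ.prodMk (Int.measurable_floor.comp (measurable_snd.comp measurable_snd))

theorem measurable_trip_floor' (M : ℕ) :
    Measurable (fun p : (Fin M → ℝ) × ℝ × ℝ => ((p.1, p.2.1), ⌊p.2.2⌋ + 1)) := by
  have hφ : Measurable (fun p : (Fin M → ℝ) × ℝ × ℝ => (p.1, p.2.1)) :=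
    measurable_fst.prodMk (measurable_fst.comp measurable_snd)
  exact hφ.prodMk ((Int.measurable_floor.comp (measurable_snd.comp measurable_snd)).add_const 1)

theorem measurable_cc_trip (M : ℕ) :
    Measurable (fun p : (Fin M → ℝ) × ℝ × ℝ => cc p.1 p.2.1 ⌊p.2.2⌋) := by
  have h := (measurable_cc_prod M).comp (measurable_trip_floor M)
  simp only [Function.comp_def] at h
  exact h

theorem measurable_cc_trip' (M : ℕ) :
    Measurable (fun p : (Fin M → ℝ) × ℝ × ℝ => cc p.1 p.2.1 (⌊p.2.2⌋ + 1)) := by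
  have h := (measurable_cc_prod M).comp (measurable_trip_floor' M)
  simp only [Function.comp_def] at h
  exact h

theorem measurable_fract_trip (M : ℕ) :
    Measurable (fun p : (Fin M → ℝ) × ℝ × ℝ => Int.fract p.2.2) :=
  measurable_fract.comp (measurable_snd.comp measurable_snd)

theorem measurable_CC (M : ℕ) :
    Measurable (fun p : (Fin M → ℝ) × ℝ × ℝ => CC p.1 p.2.1 p.2.2) := by
  have h0 : (fun p : (Fin M → ℝ) × ℝ × ℝ => CC p.1 p.2.1 p.2.2) = fun p =>
      (1 - Int.fract p.2.2) * cc p.1 p.2.1 ⌊p.2.2⌋ +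
        Int.fract p.2.2 * cc p.1 p.2.1 (⌊p.2.2⌋ + 1) := by
    funext p
    exact CC_eq _ _ _
  rw [h0]
  exact ((measurable_const.sub (measurable_fract_trip M)).mul (measurable_cc_trip M)).add
    ((measurable_fract_trip M).mul (measurable_cc_trip' M))

theorem measurable_trip_mk {M : ℕ} (e : Fin M → ℝ) (α : ℝ) :
    Measurable (fun u : ℝ => ((e, α, u) : (Fin M → ℝ) × ℝ × ℝ)) :=
  measurable_const.prodMk (measurable_const.prodMk measurable_id)

theorem measurable_Pz_u {M : ℕ} (e : Fin M → ℝ) (α : ℝ) (m : ℤ) :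
    Measurable (fun u : ℝ => Pz e α u m) := by
  have h := (measurable_Pz M m).comp (measurable_trip_mk e α)
  simp only [Function.comp_def] at h
  exact h

theorem measurable_Pz_um {M : ℕ} (e : Fin M → ℝ) (α : ℝ) :
    Measurable (fun p : ℝ × ℤ => Pz e α p.1 p.2) := by
  apply measurable_from_prod_countable_left
  exact measurable_Pz_u e α

theorem measurable_rrr : Measurable (fun p : ℝ × ℝ × ℝ => (p.2.1, ⌊p.2.2 + p.1⌋)) :=
  (measurable_fst.comp measurable_snd).prodMk
    (Int.measurable_floor.comp ((measurable_snd.comp measurable_snd).add measurable_fst))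

/-- measurability of the integrand -/
theorem measurable_Pz_floor {M : ℕ} (e : Fin M → ℝ) (α : ℝ) :
    Measurable (fun p : ℝ × ℝ × ℝ => Pz e α p.2.1 ⌊p.2.2 + p.1⌋) := by
  have h := (measurable_Pz_um e α).comp measurable_rrr
  simp only [Function.comp_def] at h
  exact h

/-- stationarity: the correlation of the process at times `t` and `s` depends on `t - s` only -/
theorem CC_stationary {M : ℕ} (e : Fin M → ℝ) (α t s : ℝ) :
    ∫ τ in (0:ℝ)..1, ∫ u in (0:ℝ)..1, Pz e α u ⌊τ + t⌋ * Pz e α u ⌊τ + s⌋ = CC e α (t - s) := by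
  simp_rw [integral_Pz_mul]
  have h1 : ∀ τ : ℝ, ⌊τ + t⌋ - ⌊τ + s⌋ = ⌊Int.fract (τ + s) + (t - s)⌋ := by
    intro τ
    rw [← Int.floor_sub_intCast]
    congr 1
    have := Int.floor_add_fract (τ + s)
    linarith
  simp_rw [h1]
  have h2 := intervalIntegral.integral_comp_add_right (a := (0:ℝ)) (b := 1)
    (fun x => cc e α ⌊Int.fract x + (t - s)⌋) s
  rw [h2]
  have hper : Function.Periodic (fun x : ℝ => cc e α ⌊Int.fract x + (t - s)⌋) 1 := by
    intro x
    simp only [Int.fract_add_one]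
  have h3 := hper.intervalIntegral_add_eq (0 + s) 0
  rw [zero_add] at h3 ⊢
  rw [add_comm 1 s, h3, zero_add]
  unfold CC
  rw [intervalIntegral.integral_of_le zero_le_one, intervalIntegral.integral_of_le zero_le_one,
    integral_Ioc_eq_integral_Ioo, integral_Ioc_eq_integral_Ioo]
  apply setIntegral_congr_fun measurableSet_Ioo
  intro x hx
  have : Int.fract x = x := Int.fract_eq_self.mpr ⟨hx.1.le, hx.2⟩
  simp only [this]

theorem CC_neg {M : ℕ} (e : Fin M → ℝ) (α h : ℝ) : CC e α (-h) = CC e α h := by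
  have h1 := CC_stationary e α 0 h
  have h2 := CC_stationary e α h 0
  rw [zero_sub] at h1
  rw [sub_zero] at h2
  rw [← h1, ← h2]
  simp_rw [mul_comm]

end PFS
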