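import Pool.Agent.PFS.FlowX
import Pool.Agent.PFS.Model

/-! # PFS module Corr: the correlation functions on the surface -/

open MeasureTheory Topology Filter
open scoped ENNReal

namespace PFS

private theorem circle_singleton (x : UnitAddCircle) :
    (volume : Measure UnitAddCircle) {x} = 0 := by
  rw [← Metric.closedBall_zero, AddCircle.volume_closedBall]
  simp

private theorem circle_countable {E : Set UnitAddCircle} (hE : E.Countable) :
    (volume : Measure UnitAddCircle) E = 0 := by
  rw [← Set.biUnion_of_singleton E]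
  exact (measure_biUnion_null_iff hE).2 (fun x _ => circle_singleton x)

/-- change of variables `(u, τ) ↦ line α u τ` on the torus -/
theorem integral_tor_line (α : ℝ) (g : Tor → ℝ) (hg : Measurable g) (C : ℝ) (hb : ∀ p, |g p| ≤ C) :
    ∫ p, g p ∂(volume : Measure Tor) = ∫ τ in (0:ℝ)..1, ∫ u in (0:ℝ)..1, g (line α u τ) := by
  have hint : Integrable g ((volume : Measure UnitAddCircle).prod (volume : Measure UnitAddCircle)) :=
    Integrable.of_bound hg.aestronglyMeasurable C (Eventually.of_forall fun p => by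
      rw [Real.norm_eq_abs]; exact hb p)
  have h1 : ∫ p, g p ∂(volume : Measure Tor)
      = ∫ y : UnitAddCircle, ∫ x : UnitAddCircle, g (x, y) := by
    have := integral_prod_symm g hint
    exact this
  rw [h1]
  have h2 : ∫ y : UnitAddCircle, ∫ x : UnitAddCircle, g (x, y)
      = ∫ y : UnitAddCircle, ∫ x : UnitAddCircle, g (x, ((1 / 2 : ℝ) : UnitAddCircle) + y) :=
    (integral_add_left_eq_self (μ := (volume : Measure UnitAddCircle))
      (fun y => ∫ x : UnitAddCircle, g (x, y)) ((1 / 2 : ℝ) : UnitAddCircle)).symm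
  rw [h2, ← UnitAddCircle.intervalIntegral_preimage 0, zero_add]
  refine intervalIntegral.integral_congr fun τ _ => ?_
  have h3 : ∫ x : UnitAddCircle, g (x, ((1 / 2 : ℝ) : UnitAddCircle) + (τ : UnitAddCircle))
      = ∫ x : UnitAddCircle, g (x + ((τ * α : ℝ) : UnitAddCircle),
          ((1 / 2 : ℝ) : UnitAddCircle) + (τ : UnitAddCircle)) :=
    (integral_add_right_eq_self (μ := (volume : Measure UnitAddCircle))
      (fun x => g (x, ((1 / 2 : ℝ) : UnitAddCircle) + (τ : UnitAddCircle)))
      ((τ * α : ℝ) : UnitAddCircle)).symm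
  refine h3.trans ?_
  rw [← UnitAddCircle.intervalIntegral_preimage 0, zero_add]
  refine intervalIntegral.integral_congr fun u _ => ?_
  simp only [line, AddCircle.coe_add]

/-- the height coordinate of a point of the torus -/
private noncomputable def ht (p : Tor) : ℝ :=
  (AddCircle.equivIco 1 0 (p.2 - ((1 / 2 : ℝ) : UnitAddCircle)) : ℝ)

/-- the base coordinate of a point of the torus -/
private noncomputable def bs (α : ℝ) (p : Tor) : ℝ :=
  (AddCircle.equivIco 1 0 p.1 : ℝ) - ht p * α

private theorem measurable_ico :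
    Measurable (fun x : UnitAddCircle => (AddCircle.equivIco 1 0 x : ℝ)) :=
  measurable_subtype_coe.comp (AddCircle.measurableEquivIco 1 0).measurable

private theorem measurable_ht : Measurable ht := by
  have h : Measurable (fun p : Tor => p.2 - ((1 / 2 : ℝ) : UnitAddCircle)) :=
    measurable_snd.sub_const _
  exact measurable_ico.comp h

private theorem measurable_bs (α : ℝ) : Measurable (bs α) := by
  have h : Measurable (fun p : Tor => (AddCircle.equivIco 1 0 p.1 : ℝ)) :=
    measurable_ico.comp measurable_fst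
  exact h.sub (measurable_ht.mul_const α)

private theorem coe_ico (x : UnitAddCircle) :
    (((AddCircle.equivIco 1 0 x : ℝ)) : UnitAddCircle) = x :=
  (AddCircle.equivIco 1 0).symm_apply_apply x

private theorem ico_coe {x : ℝ} (h0 : 0 ≤ x) (h1 : x < 1) :
    (AddCircle.equivIco 1 0 (x : UnitAddCircle) : ℝ) = x := by
  have hx : x ∈ Set.Ico (0:ℝ) (0 + 1) := ⟨h0, by linarith⟩
  have h := AddCircle.equivIco_coe_eq (p := (1:ℝ)) (a := 0) hx
  rw [h]

private theorem ht_mem (p : Tor) : 0 ≤ ht p ∧ ht p < 1 := by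
  have h := (AddCircle.equivIco 1 0 (p.2 - ((1 / 2 : ℝ) : UnitAddCircle))).2
  exact ⟨h.1, lt_of_lt_of_eq h.2 (zero_add 1)⟩

private theorem line_bs (α : ℝ) (p : Tor) : line α (bs α p) (ht p) = p := by
  unfold line
  apply Prod.ext
  · have : bs α p + ht p * α = (AddCircle.equivIco 1 0 p.1 : ℝ) := by unfold bs; ring
    simp only [this]
    exact coe_ico _
  · simp only [AddCircle.coe_add]
    have h2 : ((ht p : ℝ) : UnitAddCircle) = p.2 - ((1 / 2 : ℝ) : UnitAddCircle) := coe_ico _
    rw [h2]
    abel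

private theorem ht_line (α u τ : ℝ) (h0 : 0 ≤ τ) (h1 : τ < 1) : ht (line α u τ) = τ := by
  have h : (line α u τ).2 - ((1 / 2 : ℝ) : UnitAddCircle) = (τ : UnitAddCircle) := by
    simp only [line, AddCircle.coe_add]
    abel
  unfold ht
  rw [h]
  exact ico_coe h0 h1

private theorem bs_line (α u τ : ℝ) (h0 : 0 ≤ τ) (h1 : τ < 1) :
    ((bs α (line α u τ) : ℝ) : UnitAddCircle) = (u : UnitAddCircle) := by
  unfold bs
  rw [ht_line α u τ h0 h1, AddCircle.coe_sub, coe_ico]
  simp only [line, AddCircle.coe_add]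
  abel

/-- a.e. point of the torus is `line α u τ` with `0 ≤ τ < 1` and `u + kα` avoiding a given countable
set of points of the circle -/
theorem ae_tor_line (α : ℝ) (E : Set UnitAddCircle) (hE : E.Countable) :
    ∀ᵐ p : Tor, ∃ u τ : ℝ, 0 ≤ τ ∧ τ < 1 ∧ p = line α u τ ∧
      ∀ k : ℤ, ((u + k * α : ℝ) : UnitAddCircle) ∉ E := by
  have hk : ∀ k : ℤ, ∀ᵐ p : Tor, ((bs α p + k * α : ℝ) : UnitAddCircle) ∉ E := by
    intro k
    have hmeas : MeasurableSet {p : Tor | ((bs α p + k * α : ℝ) : UnitAddCircle) ∈ E} := by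
      have h1 : Measurable (fun p : Tor => ((bs α p + k * α : ℝ) : UnitAddCircle)) :=
        AddCircle.measurable_mk'.comp ((measurable_bs α).add_const _)
      exact h1 hE.measurableSet
    have hnull : (volume : Measure Tor) {p : Tor | ((bs α p + k * α : ℝ) : UnitAddCircle) ∈ E}
        = 0 := by
      have h2 : (volume : Measure Tor) {p : Tor | ((bs α p + k * α : ℝ) : UnitAddCircle) ∈ E}
          = ∫⁻ y : UnitAddCircle, (volume : Measure UnitAddCircle)
            ((fun x => (x, y)) ⁻¹' {p : Tor | ((bs α p + k * α : ℝ) : UnitAddCircle) ∈ E}) :=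
        Measure.prod_apply_symm hmeas
      rw [h2]
      refine (lintegral_congr fun y => ?_).trans lintegral_zero
      have h3 : ((fun x => (x, y)) ⁻¹' {p : Tor | ((bs α p + k * α : ℝ) : UnitAddCircle) ∈ E})
          = (fun x : UnitAddCircle => x +
              ((-(AddCircle.equivIco 1 0 (y - ((1 / 2 : ℝ) : UnitAddCircle)) : ℝ) * α
                + k * α : ℝ) : UnitAddCircle)) ⁻¹' E := by
        ext x
        simp only [Set.mem_preimage, Set.mem_setOf_eq]
        have h4 : ((bs α (x, y) + k * α : ℝ) : UnitAddCircle) = x +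
              ((-(AddCircle.equivIco 1 0 (y - ((1 / 2 : ℝ) : UnitAddCircle)) : ℝ) * α
                + k * α : ℝ) : UnitAddCircle) := by
          have h5 : bs α (x, y) + k * α = (AddCircle.equivIco 1 0 x : ℝ) +
              (-(AddCircle.equivIco 1 0 (y - ((1 / 2 : ℝ) : UnitAddCircle)) : ℝ) * α + k * α) := by
            unfold bs ht
            ring
          rw [h5, AddCircle.coe_add, coe_ico]
        rw [h4]
      rw [h3, measure_preimage_add_right]
      exact circle_countable hE
    exact measure_eq_zero_iff_ae_notMem.1 hnull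
  filter_upwards [ae_all_iff.2 hk] with p hp
  exact ⟨bs α p, ht p, (ht_mem p).1, (ht_mem p).2, (line_bs α p).symm, hp⟩

private theorem Pz_congr {M : ℕ} (e : Fin M → ℝ) (α : ℝ) {u u' : ℝ}
    (h : (u : UnitAddCircle) = (u' : UnitAddCircle)) (m : ℤ) : Pz e α u m = Pz e α u' m := by
  have hc : ∀ k : ℤ, chi e (u + k * α) = chi e (u' + k * α) := by
    intro k
    rw [← chiC_coe, ← chiC_coe, AddCircle.coe_add, AddCircle.coe_add, h]
  unfold Pz
  simp only [hc]

/-- the integrand on the torus -/
private noncomputable def Phi {M : ℕ} (e : Fin M → ℝ) (α h : ℝ) (p : Tor) : ℝ :=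
  Pz e α (bs α p) ⌊h + ht p⌋

private theorem measurable_Phi {M : ℕ} (e : Fin M → ℝ) (α h : ℝ) : Measurable (Phi e α h) := by
  have h1 : Measurable (fun p : Tor => (ht p, bs α p, h)) :=
    measurable_ht.prodMk ((measurable_bs α).prodMk measurable_const)
  have h2 := (measurable_Pz_floor e α).comp h1
  simp only [Function.comp_def] at h2
  unfold Phi
  exact h2

private theorem abs_Phi {M : ℕ} (e : Fin M → ℝ) (α h : ℝ) (p : Tor) : |Phi e α h p| ≤ 1 :=
  (abs_Pz _ _ _ _).le

private theorem Phi_line {M : ℕ} (e : Fin M → ℝ) (α h u τ : ℝ) (h0 : 0 ≤ τ) (h1 : τ < 1) :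
    Phi e α h (line α u τ) = Pz e α u ⌊τ + h⌋ := by
  unfold Phi
  rw [ht_line α u τ h0 h1, add_comm h τ]
  exact Pz_congr e α (bs_line α u τ h0 h1) _

private theorem integral_Phi {M : ℕ} (e : Fin M → ℝ) (α h : ℝ) :
    ∫ p, Phi e α h p ∂(volume : Measure Tor) = CC e α h := by
  rw [integral_tor_line α _ (measurable_Phi e α h) 1 (abs_Phi e α h)]
  unfold CC cc
  refine intervalIntegral.integral_congr_ae ?_
  have hne : ∀ᵐ τ : ℝ, τ ≠ 1 := by
    have := measure_eq_zero_iff_ae_notMem.1 (Real.volume_singleton (a := (1:ℝ)))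
    filter_upwards [this] with τ hτ
    simpa using hτ
  filter_upwards [hne] with τ hτ hτ2
  rw [Set.uIoc_of_le zero_le_one] at hτ2
  refine intervalIntegral.integral_congr fun u _ => ?_
  exact Phi_line e α h u τ hτ2.1.le (lt_of_le_of_ne hτ2.2 hτ)

namespace Par

variable (Q : Par)

private theorem measurable_GG1 : Measurable (GG Q.lam Q.e) :=
  (continuous_GG Q.hM Q.e Q.he Q.lam).measurable

private theorem measurable_G2' : Measurable Q.G2 := Q.continuous_G2.measurable

private theorem prob_circle : IsProbabilityMeasure (volume : Measure UnitAddCircle) :=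
  ⟨UnitAddCircle.measure_univ⟩

private theorem prob_tor : IsProbabilityMeasure (volume : Measure Tor) := by
  have := prob_circle
  exact inferInstanceAs (IsProbabilityMeasure
    ((volume : Measure UnitAddCircle).prod (volume : Measure UnitAddCircle)))

private theorem prob1 : IsProbabilityMeasure Q.mu1 := by
  have := prob_tor
  exact coverMeasure_prob Q.measurable_GG1 volume

private theorem ae_base {R : Tor → Prop} (h : ∀ᵐ p : Tor, R p) :
    ∀ᵐ q ∂Q.mu2, R (Q.base q) := by
  have h1 : ∀ᵐ x ∂Q.mu1, R x.1.1 := by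
    refine ae_cover Q.measurable_GG1 volume ?_
    filter_upwards [h] with p hp q hq
    rw [hq]
    exact hp
  refine ae_cover Q.measurable_G2' Q.mu1 ?_
  filter_upwards [h1] with x hx q hq
  unfold base
  rw [hq]
  exact hx

private theorem integral_base (g : Tor → ℝ) (hg : Measurable g) (C : ℝ) (hb : ∀ p, |g p| ≤ C) :
    ∫ q, g (Q.base q) ∂Q.mu2 = ∫ p, g p ∂(volume : Measure Tor) := by
  have := Q.prob1
  have := prob_tor
  have hm1 : Measurable (fun x : Q.X1 => x.1.1) := measurable_fst.comp measurable_subtype_coe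
  have hm2 : Measurable (fun x : Q.X2 => x.1.1) := measurable_fst.comp measurable_subtype_coe
  have h1 := integral_cover Q.measurable_G2' Q.mu1 (fun q : Q.X2 => g (Q.base q))
    (hg.comp (hm1.comp hm2)) C (fun q => hb _)
  have h2 := integral_cover Q.measurable_GG1 volume (fun x : Q.X1 => g x.1.1)
    (hg.comp hm1) C (fun q => hb _)
  have h3 : ∫ q, g (Q.base q) ∂Q.mu2 = ∫ x, g x.1.1 ∂Q.mu1 := by
    refine h1.trans (integral_congr_ae (Eventually.of_forall fun x => ?_))
    simp only [base, sec]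
    ring
  rw [h3]
  refine h2.trans (integral_congr_ae (Eventually.of_forall fun p => ?_))
  simp only [sec]
  ring

/-- the set of endpoints -/
private def Ends : Set UnitAddCircle :=
  (Set.range fun j : Fin Q.M => ((Q.e j : ℝ) : UnitAddCircle)) ∪
    (Set.range fun j : Fin Q.M => ((Q.e' j : ℝ) : UnitAddCircle))

private theorem countable_Ends : Q.Ends.Countable :=
  (Set.countable_range _).union (Set.countable_range _)

private theorem ae_flow {θ : ℝ} (hθ : 0 < Real.cos θ) (t : ℝ) :
    ∀ᵐ q ∂Q.mu2,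
      Q.sg1 (Q.S2.flow θ t q) * Q.sg1 q
        = Phi Q.e (Q.lam * Real.tan θ) (t * Real.cos θ / Q.lam) (Q.base q) ∧
      Q.sg2 (Q.S2.flow θ t q) * Q.sg2 q
        = Phi Q.e' (Q.lam * Real.tan θ) (t * Real.cos θ / Q.lam) (Q.base q) := by
  have h := Q.ae_base (ae_tor_line (Q.lam * Real.tan θ) Q.Ends Q.countable_Ends)
  filter_upwards [h] with q hq
  obtain ⟨u, τ, h0, h1, hp, hk⟩ := hq
  have hf := Q.flow_formula hθ q u τ h0 h1 hp
    (fun k j hj => hk k (Or.inl ⟨j, hj.symm⟩)) (fun k j hj => hk k (Or.inr ⟨j, hj.symm⟩)) t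
  rw [hp, Phi_line _ _ _ _ _ h0 h1, Phi_line _ _ _ _ _ h0 h1]
  exact hf

theorem corr1 {θ : ℝ} (hθ : 0 < Real.cos θ) (t : ℝ) :
    ∫ q, Q.sg1 (Q.S2.flow θ t q) * Q.sg1 q ∂Q.mu2
      = CC Q.e (Q.lam * Real.tan θ) (t * Real.cos θ / Q.lam) := by
  rw [← integral_Phi, ← Q.integral_base _ (measurable_Phi _ _ _) 1 (abs_Phi _ _ _)]
  exact integral_congr_ae ((Q.ae_flow hθ t).mono fun q hq => hq.1)

theorem corr2 {θ : ℝ} (hθ : 0 < Real.cos θ) (t : ℝ) :
    ∫ q, Q.sg2 (Q.S2.flow θ t q) * Q.sg2 q ∂Q.mu2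
      = CC Q.e' (Q.lam * Real.tan θ) (t * Real.cos θ / Q.lam) := by
  rw [← integral_Phi, ← Q.integral_base _ (measurable_Phi _ _ _) 1 (abs_Phi _ _ _)]
  exact integral_congr_ae ((Q.ae_flow hθ t).mono fun q hq => hq.2)

/-- the sheet sign has mean zero -/
theorem integral_sg1 : ∫ q, Q.sg1 q ∂Q.mu2 = 0 := by
  have := Q.prob1
  have := prob_tor
  have hm1 : Measurable (fun x : Q.X1 => x.1.1) := measurable_fst.comp measurable_subtype_coe
  have hm1' : Measurable (fun x : Q.X1 => x.1.2) := measurable_snd.comp measurable_subtype_coe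
  have hb : ∀ q, |Q.sg1 q| ≤ 1 := by
    intro q
    unfold sg1
    split_ifs <;> simp
  let s : Q.X1 → ℝ := fun x => if x.1.2 = csqrt (GG Q.lam Q.e x.1.1) then 1 else -1
  have hsb : ∀ q, |s q| ≤ 1 := by
    intro q
    simp only [s]
    split_ifs <;> simp
  have hs : Measurable s := by
    refine Measurable.ite ?_ measurable_const measurable_const
    exact measurableSet_eq_fun hm1' (measurable_csqrt.comp (Q.measurable_GG1.comp hm1))
  have h1 := integral_cover Q.measurable_G2' Q.mu1 (fun q : Q.X2 => Q.sg1 q) Q.measurable_sg1 1 hb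
  have h3 : ∫ q, Q.sg1 q ∂Q.mu2 = ∫ x, s x ∂Q.mu1 := by
    refine h1.trans (integral_congr_ae (Eventually.of_forall fun x => ?_))
    have e1 : Q.sg1 (sec Q.G2 1 (by norm_num) x) = s x := rfl
    have e2 : Q.sg1 (sec Q.G2 (-1) (by norm_num) x) = s x := rfl
    simp only [e1, e2]
    ring
  rw [h3]
  refine (integral_cover Q.measurable_GG1 volume s hs 1 hsb).trans ?_
  rw [← integral_zero Tor ℝ (μ := volume)]
  refine integral_congr_ae ?_
  have h0 := measure_eq_zero_iff_ae_notMem.1 (volume_GG_zero Q.hM0 Q.e Q.hlam)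
  filter_upwards [h0] with p hp
  have hp' : GG Q.lam Q.e p ≠ 0 := hp
  have hc : csqrt (GG Q.lam Q.e p) ≠ 0 := fun h => hp' ((csqrt_eq_zero_iff _).1 h)
  have e1 : s (sec (GG Q.lam Q.e) 1 (by norm_num) p) = 1 := by
    simp [s, sec]
  have e2 : s (sec (GG Q.lam Q.e) (-1) (by norm_num) p) = -1 := by
    simp only [s, sec]
    rw [if_neg]
    intro h
    apply hc
    have h' : (2:ℂ) * csqrt (GG Q.lam Q.e p) = 0 := by
      push_cast at h
      linear_combination -h
    simpa using h'
  rw [e1, e2]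
  norm_num

end Par

end PFS
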