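import Pool.Agent.PFS.Decay
import Pool.Agent.PFS.ChainW
import Pool.Agent.PFS.ChainN
import Pool.Agent.PFS.ChainIrr

/-! # PFS module Count: the averages of `K_n(α)` -/

open MeasureTheory Topology Filter
open scoped ENNReal

namespace PFS

theorem KK_nonneg {M : ℕ} (hM : Even M) (n : ℕ) (α : ℝ) : 0 ≤ KK M n α := by
  unfold KK
  exact intervalIntegral.integral_nonneg zero_le_one fun w _ => hM.pow_nonneg _

theorem KK_le_one (M n : ℕ) (α : ℝ) : KK M n α ≤ 1 := by
  unfold KK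
  have h := intervalIntegral.norm_integral_le_of_norm_le_const (a := (0:ℝ)) (b := 1) (C := 1)
    (f := fun w => (DD α n w) ^ M) (fun w _ => by
      rw [norm_pow]
      exact pow_le_one₀ (norm_nonneg _) (abs_DD_le_one α n w))
  have h2 : |∫ w in (0:ℝ)..1, (DD α n w) ^ M| ≤ 1 := by simpa using h
  exact (le_abs_self _).trans h2

open Classical in
/-- the pair `(n, w)` is very bad at the levels up to `L` -/
def VBad (α : ℝ) (L n : ℕ) (w : ℝ) : Prop :=
  4 * L ≤ 5 * ((Finset.Icc 1 L).filter fun b => Reg α b ∧ ¬ Good α b n w).card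

private theorem kap_pos : (0 : ℝ) < 1 - 1 / (20 * (BB : ℝ)) := by
  norm_num [BB]

private theorem kap_lt : (1 : ℝ) - 1 / (20 * (BB : ℝ)) < 1 := by
  norm_num [BB]

theorem DD_small (α : ℝ) (M' L n : ℕ) (w : ℝ) (hL : 40 ≤ L) (hirr : 10 * irr α L < L)
    (hM' : (1 - 1 / (20 * (BB : ℝ))) ^ M' ≤ 1 / 2 ^ 100) (hw : ¬ VBad α L n w) :
    (DD α n w) ^ (60 * M') ≤ (1 / 2 ^ 100) ^ L := by
  classical
  set κ : ℝ := 1 - 1 / (20 * (BB : ℝ)) with hκ
  have hκ0 : 0 < κ := kap_pos
  have hκ1 : κ < 1 := kap_lt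
  set S := (Finset.Icc 3 L).filter (fun b => Reg α b ∧ Good α b n w) with hS
  have hdec := decay α n w S (by
    intro b hb
    rw [hS, Finset.mem_filter, Finset.mem_Icc] at hb
    exact ⟨hb.1.1, hb.2⟩)
  rw [← hκ] at hdec
  have hcard : L ≤ 20 * S.card := by
    have h1 := Finset.card_filter_add_card_filter_not (s := Finset.Icc 1 L) (fun b => Reg α b)
    have h2 := Finset.card_filter_add_card_filter_not
      (s := (Finset.Icc 1 L).filter (fun b => Reg α b)) (fun b => Good α b n w)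
    rw [Finset.filter_filter, Finset.filter_filter] at h2
    rw [Nat.card_Icc] at h1
    have h3 : ((Finset.Icc 1 L).filter (fun b => ¬ Reg α b)).card = irr α L := by
      unfold irr
      congr
    have h4 : ((Finset.Icc 1 L).filter (fun b => Reg α b ∧ Good α b n w)).card ≤ S.card + 2 := by
      have h5 : (Finset.Icc 1 L).filter (fun b => Reg α b ∧ Good α b n w) ⊆ S ∪ {1, 2} := by
        intro b hb
        rw [Finset.mem_filter, Finset.mem_Icc] at hb
        rw [Finset.mem_union, hS, Finset.mem_filter, Finset.mem_Icc]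
        by_cases h : 3 ≤ b
        · exact Or.inl ⟨⟨h, hb.1.2⟩, hb.2⟩
        · right
          have : b = 1 ∨ b = 2 := by omega
          simpa using this
      refine (Finset.card_le_card h5).trans ((Finset.card_union_le _ _).trans ?_)
      have : ({1, 2} : Finset ℕ).card ≤ 2 := Finset.card_le_two
      omega
    have h6 : ¬ (4 * L ≤ 5 * ((Finset.Icc 1 L).filter fun b => Reg α b ∧ ¬ Good α b n w).card) := by
      intro h
      apply hw
      unfold VBad
      convert h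
    omega
  calc (DD α n w) ^ (60 * M') = |DD α n w| ^ (60 * M') := by
        rw [Even.pow_abs]
        exact ⟨30 * M', by ring⟩
    _ = (|DD α n w| ^ 3) ^ (20 * M') := by rw [← pow_mul]; congr 1; ring
    _ ≤ (κ ^ S.card) ^ (20 * M') := pow_le_pow_left₀ (by positivity) hdec _
    _ = κ ^ (M' * (20 * S.card)) := by rw [← pow_mul]; congr 1; ring
    _ ≤ κ ^ (M' * L) := pow_le_pow_of_le_one hκ0.le hκ1.le (Nat.mul_le_mul_left _ hcard)
    _ = (κ ^ M') ^ L := by rw [pow_mul]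
    _ ≤ (1 / 2 ^ 100) ^ L := pow_le_pow_left₀ (by positivity) hM' _

/-- the mode of a level -/
def md {L : ℕ} (g : Fin (L + 1) → Fin 5) (b : ℕ) : Fin 5 := g (Fin.ofNat (L + 1) b)

/-- the levels in mode `1` -/
def SN {L : ℕ} (g : Fin (L + 1) → Fin 5) : Finset ℕ := (Finset.Icc 1 L).filter (fun b => md g b = 1)

/-- the levels in mode `2, 3, 4` -/
def SW {L : ℕ} (g : Fin (L + 1) → Fin 5) : Finset ℕ :=
  (Finset.Icc 1 L).filter (fun b => md g b ≠ 0 ∧ md g b ≠ 1)

/-- the shifts -/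
noncomputable def sh {L : ℕ} (g : Fin (L + 1) → Fin 5) (x : ℝ) (b : ℕ) : ℝ :=
  if md g b = 3 then x else if md g b = 4 then -x else 0

/-- admissible mode functions -/
def Adm (α : ℝ) {L : ℕ} (g : Fin (L + 1) → Fin 5) : Prop :=
  (∀ b ∈ SN g, Reg α b) ∧ (∀ b ∈ SW g, Reg α b) ∧ 4 * L ≤ 5 * ((SN g).card + (SW g).card)

theorem vbad_cover (α : ℝ) (L n : ℕ) (w : ℝ) (h : VBad α L n w) :
    ∃ g : Fin (L + 1) → Fin 5, Adm α g ∧ (∀ b ∈ SN g, Bad α b (n * α)) ∧
      ∀ b ∈ SW g, Bad α b (w + sh g (n * α) b) := by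
  classical
  let m : ℕ → Fin 5 := fun b => if Reg α b ∧ ¬ Good α b n w then
    (if Bad α b (n * α) then 1 else if Bad α b w then 2 else if Bad α b (w + n * α) then 3 else 4)
    else 0
  let g : Fin (L + 1) → Fin 5 := fun i => m i.val
  have hm : ∀ b ∈ Finset.Icc 1 L, md g b = m b := by
    intro b hb
    rw [Finset.mem_Icc] at hb
    have h1 : (Fin.ofNat (L + 1) b).val = b := by
      rw [Fin.val_ofNat]
      exact Nat.mod_eq_of_lt (by omega)
    change m (Fin.ofNat (L + 1) b).val = m b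
    rw [h1]
  have hSN : ∀ b, b ∈ SN g ↔ b ∈ Finset.Icc 1 L ∧ m b = 1 := by
    intro b
    unfold SN
    rw [Finset.mem_filter]
    constructor
    · rintro ⟨h1, h2⟩
      exact ⟨h1, (hm b h1) ▸ h2⟩
    · rintro ⟨h1, h2⟩
      exact ⟨h1, (hm b h1).symm ▸ h2⟩
  have hSW : ∀ b, b ∈ SW g ↔ b ∈ Finset.Icc 1 L ∧ m b ≠ 0 ∧ m b ≠ 1 := by
    intro b
    unfold SW
    rw [Finset.mem_filter]
    constructor
    · rintro ⟨h1, h2⟩
      exact ⟨h1, (hm b h1) ▸ h2⟩
    · rintro ⟨h1, h2⟩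
      exact ⟨h1, (hm b h1).symm ▸ h2⟩
  have hm1 : ∀ b, m b = 1 → (Reg α b ∧ ¬ Good α b n w) ∧ Bad α b (n * α) := by
    intro b hb
    by_cases h1 : Reg α b ∧ ¬ Good α b n w
    · refine ⟨h1, ?_⟩
      by_contra h2
      simp only [m, if_pos h1, if_neg h2] at hb
      split_ifs at hb <;> exact absurd hb (by decide)
    · simp only [m, if_neg h1] at hb
      exact absurd hb (by decide)
  have hm2 : ∀ b, m b ≠ 0 → m b ≠ 1 → (Reg α b ∧ ¬ Good α b n w) ∧
      ((m b = 2 ∧ Bad α b w) ∨ (m b = 3 ∧ Bad α b (w + n * α)) ∨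
        (m b = 4 ∧ Bad α b (w - n * α))) := by
    intro b hb0 hb1
    by_cases h1 : Reg α b ∧ ¬ Good α b n w
    · refine ⟨h1, ?_⟩
      by_cases h2 : Bad α b (n * α)
      · exact absurd (show m b = 1 by simp only [m, if_pos h1, if_pos h2]) hb1
      by_cases h3 : Bad α b w
      · exact Or.inl ⟨by simp only [m, if_pos h1, if_neg h2, if_pos h3], h3⟩
      by_cases h4 : Bad α b (w + n * α)
      · exact Or.inr (Or.inl ⟨by simp only [m, if_pos h1, if_neg h2, if_neg h3, if_pos h4], h4⟩)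
      · refine Or.inr (Or.inr ⟨by simp only [m, if_pos h1, if_neg h2, if_neg h3, if_neg h4], ?_⟩)
        by_contra h5
        exact h1.2 ⟨h2, h3, h4, h5⟩
    · exact absurd (show m b = 0 by simp only [m, if_neg h1]) hb0
  have hm3 : ∀ b, Reg α b ∧ ¬ Good α b n w → m b ≠ 0 := by
    intro b h1 hb
    simp only [m, if_pos h1] at hb
    split_ifs at hb <;> exact absurd hb (by decide)
  refine ⟨g, ⟨?_, ?_, ?_⟩, ?_, ?_⟩
  · intro b hb
    exact (hm1 b ((hSN b).1 hb).2).1.1
  · intro b hb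
    obtain ⟨-, h1, h2⟩ := (hSW b).1 hb
    exact (hm2 b h1 h2).1.1
  · have h1 : (Finset.Icc 1 L).filter (fun b => Reg α b ∧ ¬ Good α b n w) ⊆ SN g ∪ SW g := by
      intro b hb
      rw [Finset.mem_filter] at hb
      rw [Finset.mem_union, hSN, hSW]
      by_cases h2 : m b = 1
      · exact Or.inl ⟨hb.1, h2⟩
      · exact Or.inr ⟨hb.1, hm3 b hb.2, h2⟩
    have h2 := (Finset.card_le_card h1).trans (Finset.card_union_le _ _)
    have h3 : 4 * L ≤ 5 * ((Finset.Icc 1 L).filter fun b => Reg α b ∧ ¬ Good α b n w).card := by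
      unfold VBad at h
      convert h
    omega
  · intro b hb
    exact (hm1 b ((hSN b).1 hb).2).2
  · intro b hb
    obtain ⟨h0, h1, h2⟩ := (hSW b).1 hb
    have hmd : md g b = m b := hm b h0
    unfold sh
    rw [hmd]
    rcases (hm2 b h1 h2).2 with ⟨h3, h4⟩ | ⟨h3, h4⟩ | ⟨h3, h4⟩
    · rw [h3, if_neg (by decide), if_neg (by decide), add_zero]
      exact h4
    · rw [h3, if_pos rfl]
      exact h4
    · rw [h3, if_neg (by decide), if_pos rfl, ← sub_eq_add_neg]
      exact h4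

open Classical in
/-- the measure of the very bad `w`, plus the contribution of the others -/
theorem KK_le (α : ℝ) (M' L n : ℕ) (hL : 40 ≤ L) (hirr : 10 * irr α L < L)
    (hM' : (1 - 1 / (20 * (BB : ℝ))) ^ M' ≤ 1 / 2 ^ 100) :
    KK (60 * M') n α ≤ ∑ g ∈ (Finset.univ : Finset (Fin (L + 1) → Fin 5)).filter (fun g => Adm α g),
      (if ∀ b ∈ SN g, Bad α b (n * α) then ((1 : ℝ) / 2 ^ 76) ^ (SW g).card else 0) +
        (1 / 2 ^ 100) ^ L := by
  set E : Set ℝ := {w | VBad α L n w} with hE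
  set δ : ℝ := (1 / 2 ^ 100) ^ L with hδ
  have hδ0 : 0 ≤ δ := by positivity
  have heven : Even (60 * M') := ⟨30 * M', by ring⟩
  have hD1 : ∀ w, (DD α n w) ^ (60 * M') ≤ 1 := by
    intro w
    rw [← Even.pow_abs heven]
    exact pow_le_one₀ (abs_nonneg _) (abs_DD_le_one α n w)
  -- the measure of the very bad set
  have hvol : volume ({w : ℝ | w ∈ Set.Icc (0:ℝ) 1 ∧ VBad α L n w}) ≤
      ENNReal.ofReal (∑ g ∈ (Finset.univ : Finset (Fin (L + 1) → Fin 5)).filter (fun g => Adm α g),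
      (if ∀ b ∈ SN g, Bad α b (n * α) then ((1 : ℝ) / 2 ^ 76) ^ (SW g).card else 0)) := by
    rw [ENNReal.ofReal_sum_of_nonneg (fun g _ => by split_ifs <;> positivity)]
    have hsub : {w : ℝ | w ∈ Set.Icc (0:ℝ) 1 ∧ VBad α L n w} ⊆
        ⋃ g ∈ (Finset.univ : Finset (Fin (L + 1) → Fin 5)).filter (fun g => Adm α g),
          {w : ℝ | (∀ b ∈ SN g, Bad α b (n * α)) ∧ (w ∈ Set.Icc (0:ℝ) 1 ∧
            ∀ b ∈ SW g, Bad α b (w + sh g (n * α) b))} := by
      intro w hw
      obtain ⟨g, hg1, hg2, hg3⟩ := vbad_cover α L n w hw.2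
      rw [Set.mem_iUnion₂]
      exact ⟨g, Finset.mem_filter.2 ⟨Finset.mem_univ _, hg1⟩, hg2, hw.1, hg3⟩
    refine (measure_mono hsub).trans ((measure_biUnion_finset_le _ _).trans ?_)
    refine Finset.sum_le_sum fun g hg => ?_
    obtain ⟨-, hg1, hg2, hg3⟩ := Finset.mem_filter.1 hg
    split_ifs with h
    · refine (measure_mono ?_).trans (chainW α (SW g) hg2 (fun b => sh g (n * α) b))
      intro w hw
      exact hw.2
    · have : {w : ℝ | (∀ b ∈ SN g, Bad α b (n * α)) ∧ (w ∈ Set.Icc (0:ℝ) 1 ∧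
            ∀ b ∈ SW g, Bad α b (w + sh g (n * α) b))} = ∅ := by
        ext w
        simp only [Set.mem_ofPred_eq, Set.mem_empty_iff_false, iff_false]
        exact fun hw => h hw.1
      rw [this]
      simp
  have hsum0 : 0 ≤ ∑ g ∈ (Finset.univ : Finset (Fin (L + 1) → Fin 5)).filter (fun g => Adm α g),
      (if ∀ b ∈ SN g, Bad α b (n * α) then ((1 : ℝ) / 2 ^ 76) ^ (SW g).card else 0) :=
    Finset.sum_nonneg fun g _ => by split_ifs <;> positivity
  set Tg : ℝ := ∑ g ∈ (Finset.univ : Finset (Fin (L + 1) → Fin 5)).filter (fun g => Adm α g),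
      (if ∀ b ∈ SN g, Bad α b (n * α) then ((1 : ℝ) / 2 ^ 76) ^ (SW g).card else 0) with hTg
  unfold KK
  rw [intervalIntegral.integral_of_le zero_le_one]
  by_cases hint : Integrable (fun w => (DD α n w) ^ (60 * M')) (volume.restrict (Set.Ioc 0 1))
  swap
  · rw [integral_undef hint]
    positivity
  rw [← ENNReal.ofReal_le_ofReal_iff (by positivity)]
  rw [ofReal_integral_eq_lintegral_ofReal hint (Filter.Eventually.of_forall fun w =>
    heven.pow_nonneg _)]
  calc ∫⁻ w in Set.Ioc (0:ℝ) 1, ENNReal.ofReal ((DD α n w) ^ (60 * M'))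
      ≤ ∫⁻ w in Set.Ioc (0:ℝ) 1, (E.indicator 1 w + ENNReal.ofReal δ) := by
        refine lintegral_mono fun w => ?_
        by_cases hw : VBad α L n w
        · have h1 : E.indicator (1 : ℝ → ℝ≥0∞) w = 1 := by
            rw [Set.indicator_of_mem (show w ∈ E from hw)]
            rfl
          refine le_trans ?_ (le_add_of_nonneg_right zero_le)
          rw [h1, ← ENNReal.ofReal_one]
          exact ENNReal.ofReal_le_ofReal (hD1 w)
        · refine le_trans ?_ (le_add_of_nonneg_left zero_le)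
          exact ENNReal.ofReal_le_ofReal (DD_small α M' L n w hL hirr hM' hw)
    _ = (∫⁻ w in Set.Ioc (0:ℝ) 1, E.indicator 1 w) + ∫⁻ _ in Set.Ioc (0:ℝ) 1, ENNReal.ofReal δ :=
        lintegral_add_right _ measurable_const
    _ ≤ (volume.restrict (Set.Ioc (0:ℝ) 1)) E + ENNReal.ofReal δ := by
        refine add_le_add (lintegral_indicator_one_le _) ?_
        simp
    _ ≤ ENNReal.ofReal Tg + ENNReal.ofReal δ := by
        refine add_le_add ?_ le_rfl
        rw [Measure.restrict_apply' measurableSet_Ioc]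
        refine (measure_mono ?_).trans hvol
        rintro w ⟨h1, h2⟩
        exact ⟨⟨h2.1.le, h2.2⟩, h1⟩
    _ = ENNReal.ofReal (Tg + δ) := (ENNReal.ofReal_add hsum0 hδ0).symm

open Classical in
/-- the sum over `n` -/
theorem sum_bound (α : ℝ) (L : ℕ) :
    ∑ n ∈ Finset.range (BB ^ L),
      ∑ g ∈ (Finset.univ : Finset (Fin (L + 1) → Fin 5)).filter (fun g => Adm α g),
      (if ∀ b ∈ SN g, Bad α b (n * α) then ((1 : ℝ) / 2 ^ 76) ^ (SW g).card else 0) ≤
      2 ^ 183 * 2 ^ (43 * L) := by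
  rw [Finset.sum_comm]
  have hg : ∀ g ∈ (Finset.univ : Finset (Fin (L + 1) → Fin 5)).filter (fun g => Adm α g),
      ∑ n ∈ Finset.range (BB ^ L),
        (if ∀ b ∈ SN g, Bad α b (n * α) then ((1 : ℝ) / 2 ^ 76) ^ (SW g).card else 0) ≤
        2 ^ 180 * 2 ^ (40 * L) := by
    intro g hg
    obtain ⟨-, hg1, hg2, hg3⟩ := Finset.mem_filter.1 hg
    have hchain := chainN α L (SN g) (fun b hb => ⟨by
      unfold SN at hb
      rw [Finset.mem_filter, Finset.mem_Icc] at hb
      exact hb.1.2, hg1 b hb⟩)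
    calc ∑ n ∈ Finset.range (BB ^ L),
        (if ∀ b ∈ SN g, Bad α b (n * α) then ((1 : ℝ) / 2 ^ 76) ^ (SW g).card else 0)
        ≤ ∑ n ∈ Finset.range (BB ^ (L + 1)),
        (if ∀ b ∈ SN g, Bad α b (n * α) then ((1 : ℝ) / 2 ^ 76) ^ (SW g).card else 0) := by
          refine Finset.sum_le_sum_of_subset_of_nonneg ?_ fun n _ _ => by
            split_ifs <;> positivity
          refine Finset.range_subset_range.2 ?_
          exact Nat.pow_le_pow_right BB_pos (Nat.le_succ L)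
      _ = (((Finset.range (BB ^ (L + 1))).filter (fun n : ℕ => ∀ b ∈ SN g, Bad α b (n * α))).card : ℝ)
          * ((1 : ℝ) / 2 ^ 76) ^ (SW g).card := by
          rw [← Finset.sum_filter, Finset.sum_const, nsmul_eq_mul]
      _ ≤ (2 ^ 80 * (BB : ℝ) ^ (L + 1) * (1 / 2 ^ 76) ^ (SN g).card) *
          ((1 : ℝ) / 2 ^ 76) ^ (SW g).card :=
          mul_le_mul_of_nonneg_right hchain (by positivity)
      _ = 2 ^ 80 * (BB : ℝ) ^ (L + 1) * (1 / 2 ^ 76) ^ ((SN g).card + (SW g).card) := by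
          rw [pow_add _ (SN g).card, mul_assoc]
      _ = 2 ^ 180 * 2 ^ (100 * L) * (1 / 2) ^ (76 * ((SN g).card + (SW g).card)) := by
          have h1 : (BB : ℝ) = 2 ^ 100 := by norm_num [BB]
          rw [h1, pow_mul (1 / 2 : ℝ) 76, ← pow_mul, pow_mul (2 : ℝ) 100 L, mul_add, pow_add,
            pow_mul (2 : ℝ) 100 L]
          norm_num
          ring
      _ ≤ 2 ^ 180 * 2 ^ (100 * L) * (1 / 2) ^ (60 * L) := by
          refine mul_le_mul_of_nonneg_left ?_ (by positivity)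
          exact pow_le_pow_of_le_one (by norm_num) (by norm_num) (by omega)
      _ = 2 ^ 180 * 2 ^ (40 * L) := by
          rw [show 100 * L = 40 * L + 60 * L by ring, pow_add, mul_assoc, mul_assoc, ← mul_pow]
          norm_num
  refine (Finset.sum_le_sum hg).trans ?_
  rw [Finset.sum_const, nsmul_eq_mul]
  have hcard : ((((Finset.univ : Finset (Fin (L + 1) → Fin 5)).filter (fun g => Adm α g)).card : ℕ) : ℝ)
      ≤ 2 ^ (3 * L + 3) := by
    have h1 : ((Finset.univ : Finset (Fin (L + 1) → Fin 5)).filter (fun g => Adm α g)).card ≤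
        5 ^ (L + 1) := by
      refine (Finset.card_filter_le _ _).trans ?_
      rw [Finset.card_univ, Fintype.card_fun, Fintype.card_fin, Fintype.card_fin]
    have h2 : 5 ^ (L + 1) ≤ 2 ^ (3 * L + 3) := by
      rw [show 3 * L + 3 = 3 * (L + 1) by ring, pow_mul]
      exact Nat.pow_le_pow_left (by norm_num) _
    exact_mod_cast h1.trans h2
  calc ((((Finset.univ : Finset (Fin (L + 1) → Fin 5)).filter (fun g => Adm α g)).card : ℕ) : ℝ) *
        (2 ^ 180 * 2 ^ (40 * L)) ≤ 2 ^ (3 * L + 3) * (2 ^ 180 * 2 ^ (40 * L)) :=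
        mul_le_mul_of_nonneg_right hcard (by positivity)
    _ = 2 ^ 183 * 2 ^ (43 * L) := by
        rw [show 43 * L = 3 * L + 40 * L by ring, pow_add, pow_add]
        ring

theorem count : ∃ M : ℕ, 0 < M ∧ Even M ∧ ∀ α : ℝ, (∃ L0 : ℕ, ∀ L ≥ L0, 10 * irr α L < L) →
    ∃ C : ℝ, 0 ≤ C ∧ ∀ L : ℕ, ∑ n ∈ Finset.range (BB ^ L), KK M n α ≤ C * 2 ^ (45 * L) := by
  classical
  obtain ⟨M', hM'⟩ := exists_pow_lt_of_lt_one (show (0 : ℝ) < 1 / 2 ^ 100 by positivity) kap_lt
  have hM0 : 0 < M' := by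
    rcases Nat.eq_zero_or_pos M' with h | h
    · exfalso
      rw [h, pow_zero] at hM'
      norm_num at hM'
    · exact h
  refine ⟨60 * M', by omega, ⟨30 * M', by ring⟩, fun α hα => ?_⟩
  obtain ⟨L0, hL0⟩ := hα
  set L1 := max L0 40 with hL1
  refine ⟨(BB : ℝ) ^ L1 + 2 ^ 184, by positivity, fun L => ?_⟩
  by_cases hL : L1 ≤ L
  · have h40 : 40 ≤ L := (le_max_right _ _).trans hL
    have hirr := hL0 L ((le_max_left _ _).trans hL)
    calc ∑ n ∈ Finset.range (BB ^ L), KK (60 * M') n α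
        ≤ ∑ n ∈ Finset.range (BB ^ L),
          (∑ g ∈ (Finset.univ : Finset (Fin (L + 1) → Fin 5)).filter (fun g => Adm α g),
          (if ∀ b ∈ SN g, Bad α b (n * α) then ((1 : ℝ) / 2 ^ 76) ^ (SW g).card else 0) +
            (1 / 2 ^ 100) ^ L) :=
          Finset.sum_le_sum fun n _ => KK_le α M' L n h40 hirr hM'.le
      _ ≤ 2 ^ 183 * 2 ^ (43 * L) + 1 := by
          rw [Finset.sum_add_distrib]
          refine add_le_add (sum_bound α L) ?_
          rw [Finset.sum_const, Finset.card_range, nsmul_eq_mul]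
          push_cast
          have h1 : (BB : ℝ) = 2 ^ 100 := by norm_num [BB]
          rw [h1, ← mul_pow]
          norm_num
      _ ≤ 2 ^ 183 * 2 ^ (45 * L) + 2 ^ 183 * 2 ^ (45 * L) := by
          have h2 : (2 : ℝ) ^ (43 * L) ≤ 2 ^ (45 * L) :=
            pow_le_pow_right₀ (by norm_num) (by omega)
          have h3 : (1 : ℝ) ≤ 2 ^ (45 * L) := one_le_pow₀ (by norm_num)
          have h4 : (1 : ℝ) ≤ 2 ^ 183 := one_le_pow₀ (by norm_num)
          have h5 : (1 : ℝ) * 1 ≤ 2 ^ 183 * 2 ^ (45 * L) :=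
            mul_le_mul h4 h3 zero_le_one (by positivity)
          have h6 : (2 : ℝ) ^ 183 * 2 ^ (43 * L) ≤ 2 ^ 183 * 2 ^ (45 * L) :=
            mul_le_mul_of_nonneg_left h2 (by positivity)
          linarith
      _ = 2 ^ 184 * 2 ^ (45 * L) := by ring
      _ ≤ ((BB : ℝ) ^ L1 + 2 ^ 184) * 2 ^ (45 * L) := by
          refine mul_le_mul_of_nonneg_right ?_ (by positivity)
          have : (0 : ℝ) ≤ (BB : ℝ) ^ L1 := by positivity
          linarith
  · have hBB : (1 : ℝ) ≤ BB := by exact_mod_cast one_le_BB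
    calc ∑ n ∈ Finset.range (BB ^ L), KK (60 * M') n α
        ≤ ∑ n ∈ Finset.range (BB ^ L), (1 : ℝ) :=
          Finset.sum_le_sum fun n _ => KK_le_one _ _ _
      _ = (BB : ℝ) ^ L := by
          rw [Finset.sum_const, Finset.card_range, nsmul_eq_mul, mul_one]
          push_cast
          rfl
      _ ≤ (BB : ℝ) ^ L1 := pow_le_pow_right₀ hBB (by omega)
      _ ≤ ((BB : ℝ) ^ L1 + 2 ^ 184) * 1 := by
          rw [mul_one]
          have : (0 : ℝ) ≤ 2 ^ 184 := by positivity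
          linarith
      _ ≤ ((BB : ℝ) ^ L1 + 2 ^ 184) * 2 ^ (45 * L) := by
          refine mul_le_mul_of_nonneg_left ?_ (by positivity)
          exact one_le_pow₀ (by norm_num)

end PFS
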