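import Pool.Agent.PFS.Defs
import Pool.Agent.PFS.CSqrt

/-! # PFS module Cover: the double cover `y² = G(p)` of a translation surface -/

open MeasureTheory Topology Filter
open scoped ENNReal

namespace PFS

/-- the double cover `{(p, y) : y² = G p}` -/
abbrev Dbl {P : Type} (G : P → ℂ) : Type := {q : P × ℂ // q.2 ^ 2 = G q.1}

/-- near each zero `p`, `G` is the coordinate centred at `p`, or minus its conjugate; and `p` is not a
zero of `ω` -/
def NiceZeros {P : Type} [TopologicalSpace P] (S : TranslationSurface P) (G : P → ℂ) : Prop :=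
  ∀ p, G p = 0 → S.k p = 1 ∧ ((∀ᶠ x in 𝓝 p, G x = S.chart p x) ∨
    (∀ᶠ x in 𝓝 p, G x = -(starRingEnd ℂ) (S.chart p x)))

variable {P : Type} [TopologicalSpace P]

theorem compactSpace_dbl [CompactSpace P] {G : P → ℂ} (hG : Continuous G) :
    CompactSpace (Dbl G) := by
  obtain ⟨C, hC⟩ := (isCompact_univ (X := P)).exists_bound_of_continuousOn (f := G)
    hG.continuousOn
  have hK : IsCompact ((Set.univ : Set P) ×ˢ Metric.closedBall (0:ℂ) (|C| + 1)) :=
    isCompact_univ.prod (isCompact_closedBall _ _)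
  have hcl : IsClosed {q : P × ℂ | q.2 ^ 2 = G q.1} :=
    isClosed_eq (by fun_prop) (by fun_prop)
  have hsub : {q : P × ℂ | q.2 ^ 2 = G q.1} ⊆
      (Set.univ : Set P) ×ˢ Metric.closedBall (0:ℂ) (|C| + 1) := by
    rintro ⟨p, y⟩ h
    change y ^ 2 = G p at h
    refine ⟨trivial, ?_⟩
    simp only [Metric.mem_closedBall, dist_zero_right]
    have h1 : ‖y‖ ^ 2 ≤ |C| := by
      rw [← norm_pow, h]
      exact (hC p trivial).trans (le_abs_self C)
    nlinarith [norm_nonneg y, abs_nonneg C]
  exact isCompact_iff_compactSpace.1 (hK.of_isClosed_subset hcl hsub)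

theorem csqrt_re_pos {w : ℂ} (hw : 0 < w.re) : 0 < (csqrt w).re := by
  unfold csqrt
  simp only
  apply Real.sqrt_pos.2
  have := norm_nonneg w
  linarith

/-- the chart at a point of the cover not above a zero of `G` -/
noncomputable def chart1 (S : TranslationSurface P) {G : P → ℂ} (hG : Continuous G) (q : Dbl G)
    (h0 : G q.1.1 ≠ 0) : OpenPartialHomeomorph (Dbl G) ℂ where
  toFun q' := S.chart q.1.1 q'.1.1
  invFun z := ⟨((S.chart q.1.1).symm z,
    q.1.2 * csqrt (G ((S.chart q.1.1).symm z) / G q.1.1)), by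
      simp only
      rw [mul_pow, csqrt_sq, q.2, mul_div_cancel₀ _ h0]⟩
  source := {q' | q'.1.1 ∈ (S.chart q.1.1).source ∧ 0 < (G q'.1.1 / G q.1.1).re ∧
    0 < (q'.1.2 / q.1.2).re}
  target := {z | z ∈ (S.chart q.1.1).target ∧
    0 < (G ((S.chart q.1.1).symm z) / G q.1.1).re}
  map_source' q' hq' := by
    refine ⟨(S.chart q.1.1).map_source hq'.1, ?_⟩
    rw [(S.chart q.1.1).left_inv hq'.1]
    exact hq'.2.1
  map_target' z hz := by
    have hy : q.1.2 ≠ 0 := fun h => h0 (by rw [← q.2, h]; norm_num)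
    refine ⟨(S.chart q.1.1).map_target hz.1, hz.2, ?_⟩
    simp only
    rw [mul_div_cancel_left₀ _ hy]
    exact csqrt_re_pos hz.2
  left_inv' q' hq' := by
    have hy : q.1.2 ≠ 0 := fun h => h0 (by rw [← q.2, h]; norm_num)
    apply Subtype.ext
    apply Prod.ext
    · exact (S.chart q.1.1).left_inv hq'.1
    · simp only
      rw [(S.chart q.1.1).left_inv hq'.1, ← q.2, ← q'.2, ← div_pow, csqrt_sq_of_re_pos hq'.2.2,
        mul_div_cancel₀ _ hy]
  right_inv' z hz := (S.chart q.1.1).right_inv hz.1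
  open_source := by
    have h1 : IsOpen {q' : Dbl G | q'.1.1 ∈ (S.chart q.1.1).source} :=
      (S.chart q.1.1).open_source.preimage (by fun_prop)
    have h2 : IsOpen {q' : Dbl G | 0 < (G q'.1.1 / G q.1.1).re} :=
      isOpen_lt continuous_const (Complex.continuous_re.comp (by fun_prop))
    have h3 : IsOpen {q' : Dbl G | 0 < (q'.1.2 / q.1.2).re} :=
      isOpen_lt continuous_const (Complex.continuous_re.comp (by fun_prop))
    exact h1.inter (h2.inter h3)
  open_target := by
    have hc : ContinuousOn (fun z => (G ((S.chart q.1.1).symm z) / G q.1.1).re)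
        (S.chart q.1.1).target :=
      Complex.continuous_re.comp_continuousOn
        ((hG.comp_continuousOn (S.chart q.1.1).continuousOn_symm).div_const _)
    exact hc.isOpen_inter_preimage (S.chart q.1.1).open_target isOpen_Ioi
  continuousOn_toFun := by
    refine (S.chart q.1.1).continuousOn.comp (f := fun q' : Dbl G => q'.1.1)
      (by fun_prop) fun q' hq' => hq'.1
  continuousOn_invFun := by
    rw [Topology.IsInducing.subtypeVal.continuousOn_iff]
    have hs : ContinuousOn (S.chart q.1.1).symm {z | z ∈ (S.chart q.1.1).target ∧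
      0 < (G ((S.chart q.1.1).symm z) / G q.1.1).re} :=
      (S.chart q.1.1).continuousOn_symm.mono fun z hz => hz.1
    refine hs.prodMk (continuousOn_const.mul ?_)
    intro z hz
    have hw : G ((S.chart q.1.1).symm z) / G q.1.1 ∈ Complex.slitPlane := Or.inl hz.2
    exact ContinuousAt.comp_continuousWithinAt
      (f := fun z => G ((S.chart q.1.1).symm z) / G q.1.1) (continuousAt_csqrt hw)
      (((hG.comp_continuousOn hs).div_const _) z hz)

open Classical in
/-- the chart at a ramification point of the cover; `c` is the identity or `y ↦ i·conj y` -/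
noncomputable def chart2 (S : TranslationSurface P) (G : P → ℂ) (q : Dbl G)
    (V : Set P) (hV : IsOpen V) (hVs : V ⊆ (S.chart q.1.1).source) (c : ℂ ≃ₜ ℂ)
    (hc : ∀ x ∈ V, ∀ y, y ^ 2 = G x ↔ (c y) ^ 2 = S.chart q.1.1 x) :
    OpenPartialHomeomorph (Dbl G) ℂ where
  toFun q' := c q'.1.2
  invFun z := if h : (c.symm z) ^ 2 = G ((S.chart q.1.1).symm (z ^ 2)) then
    ⟨((S.chart q.1.1).symm (z ^ 2), c.symm z), h⟩ else q
  source := {q' | q'.1.1 ∈ V}
  target := {z | z ^ 2 ∈ (S.chart q.1.1) '' V}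
  map_source' q' hq' := ⟨q'.1.1, hq', ((hc _ hq' _).1 q'.2).symm⟩
  map_target' z hz := by
    obtain ⟨x, hx, hxz⟩ := hz
    have h1 : (S.chart q.1.1).symm (z ^ 2) = x := by
      rw [← hxz, (S.chart q.1.1).left_inv (hVs hx)]
    have h2 : (c.symm z) ^ 2 = G ((S.chart q.1.1).symm (z ^ 2)) := by
      rw [h1, hc x hx, c.apply_symm_apply, hxz]
    rw [dif_pos h2]
    change (S.chart q.1.1).symm (z ^ 2) ∈ V
    rw [h1]
    exact hx
  left_inv' q' hq' := by
    have h0 : (c q'.1.2) ^ 2 = S.chart q.1.1 q'.1.1 := (hc _ hq' _).1 q'.2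
    have h1 : (S.chart q.1.1).symm ((c q'.1.2) ^ 2) = q'.1.1 := by
      rw [h0, (S.chart q.1.1).left_inv (hVs hq')]
    have h2 : (c.symm (c q'.1.2)) ^ 2 = G ((S.chart q.1.1).symm ((c q'.1.2) ^ 2)) := by
      rw [h1, c.symm_apply_apply, q'.2]
    rw [dif_pos h2]
    apply Subtype.ext
    apply Prod.ext
    · exact h1
    · exact c.symm_apply_apply _
  right_inv' z hz := by
    obtain ⟨x, hx, hxz⟩ := hz
    have h1 : (S.chart q.1.1).symm (z ^ 2) = x := by
      rw [← hxz, (S.chart q.1.1).left_inv (hVs hx)]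
    have h2 : (c.symm z) ^ 2 = G ((S.chart q.1.1).symm (z ^ 2)) := by
      rw [h1, hc x hx, c.apply_symm_apply, hxz]
    rw [dif_pos h2]
    exact c.apply_symm_apply _
  open_source := hV.preimage (by fun_prop)
  open_target := ((S.chart q.1.1).isOpen_image_of_subset_source hV hVs).preimage
    (by fun_prop : Continuous fun z : ℂ => z ^ 2)
  continuousOn_toFun := (c.continuous.comp
    (by fun_prop : Continuous fun q' : Dbl G => q'.1.2)).continuousOn
  continuousOn_invFun := by
    rw [Topology.IsInducing.subtypeVal.continuousOn_iff]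
    have hs : ContinuousOn (fun z : ℂ => (S.chart q.1.1).symm (z ^ 2))
        {z : ℂ | z ^ 2 ∈ (S.chart q.1.1) '' V} := by
      refine (S.chart q.1.1).continuousOn_symm.comp (f := fun z : ℂ => z ^ 2)
        (by fun_prop : Continuous fun z : ℂ => z ^ 2).continuousOn ?_
      rintro z ⟨x, hx, hxz⟩
      change z ^ 2 ∈ _
      rw [← hxz]
      exact (S.chart q.1.1).map_source (hVs hx)
    refine (hs.prodMk c.symm.continuous.continuousOn).congr ?_
    rintro z ⟨x, hx, hxz⟩
    have h1 : (S.chart q.1.1).symm (z ^ 2) = x := by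
      rw [← hxz, (S.chart q.1.1).left_inv (hVs hx)]
    have h2 : (c.symm z) ^ 2 = G ((S.chart q.1.1).symm (z ^ 2)) := by
      rw [h1, hc x hx, c.apply_symm_apply, hxz]
    simp only [Function.comp]
    rw [dif_pos h2]

/-- `y ↦ i · conj y` -/
noncomputable def conjI : ℂ ≃ₜ ℂ where
  toFun y := Complex.I * (starRingEnd ℂ) y
  invFun y := Complex.I * (starRingEnd ℂ) y
  left_inv y := by
    change Complex.I * (starRingEnd ℂ) (Complex.I * (starRingEnd ℂ) y) = y
    rw [map_mul, Complex.conj_conj, Complex.conj_I]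
    linear_combination (-y) * Complex.I_sq
  right_inv y := by
    change Complex.I * (starRingEnd ℂ) (Complex.I * (starRingEnd ℂ) y) = y
    rw [map_mul, Complex.conj_conj, Complex.conj_I]
    linear_combination (-y) * Complex.I_sq
  continuous_toFun := continuous_const.mul Complex.continuous_conj
  continuous_invFun := continuous_const.mul Complex.continuous_conj

theorem exists_chart (S : TranslationSurface P) {G : P → ℂ} (hG : Continuous G)
    (hz : NiceZeros S G) (q : Dbl G) :
    ∃ φ : OpenPartialHomeomorph (Dbl G) ℂ, q ∈ φ.source ∧ φ q = 0 ∧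
      (∀ q' ∈ φ.source, q'.1.1 ∈ (S.chart q.1.1).source) ∧
      (G q.1.1 ≠ 0 → ∀ q' ∈ φ.source, G q'.1.1 ≠ 0 ∧ φ q' = S.chart q.1.1 q'.1.1) ∧
      (G q.1.1 = 0 → ∀ q' ∈ φ.source, (φ q') ^ 2 = S.chart q.1.1 q'.1.1) := by
  by_cases h0 : G q.1.1 = 0
  · have hy : q.1.2 = 0 := by
      have := q.2
      rw [h0] at this
      exact pow_eq_zero_iff (two_ne_zero) |>.1 this
    obtain ⟨-, hh⟩ := hz q.1.1 h0
    have key : ∃ c : ℂ ≃ₜ ℂ, c 0 = 0 ∧ ∀ᶠ x in 𝓝 q.1.1, ∀ y, y ^ 2 = G x ↔
        (c y) ^ 2 = S.chart q.1.1 x := by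
      rcases hh with hh | hh
      · refine ⟨Homeomorph.refl ℂ, rfl, ?_⟩
        filter_upwards [hh] with x hx y
        rw [hx]
        rfl
      · refine ⟨conjI, ?_, ?_⟩
        · change Complex.I * (starRingEnd ℂ) 0 = 0
          simp
        filter_upwards [hh] with x hx y
        have h1 : (conjI y) ^ 2 = -(starRingEnd ℂ) (y ^ 2) := by
          change (Complex.I * (starRingEnd ℂ) y) ^ 2 = _
          rw [mul_pow, Complex.I_sq, map_pow, neg_one_mul]
        rw [h1, hx]
        constructor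
        · intro h
          rw [h, map_neg, Complex.conj_conj, neg_neg]
        · intro h
          rw [← h, map_neg, Complex.conj_conj, neg_neg]
    obtain ⟨c, hc0, hc⟩ := key
    have hsrc : ∀ᶠ x in 𝓝 q.1.1, x ∈ (S.chart q.1.1).source :=
      (S.chart q.1.1).open_source.mem_nhds (S.mem_source _)
    obtain ⟨V, hVall, hV, hqV⟩ := eventually_nhds_iff.1 (hc.and hsrc)
    refine ⟨chart2 S G q V hV (fun x hx => (hVall x hx).2) c (fun x hx => (hVall x hx).1),
      hqV, ?_, fun q' hq' => (hVall _ hq').2, fun h => absurd h0 h, fun _ q' hq' => ?_⟩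
    · change c q.1.2 = 0
      rw [hy, hc0]
    · exact ((hVall _ hq').1 _).1 q'.2
  · have hy : q.1.2 ≠ 0 := fun h => h0 (by rw [← q.2, h]; norm_num)
    refine ⟨chart1 S hG q h0, ⟨S.mem_source _, ?_, ?_⟩, S.chart_self _, fun q' hq' => hq'.1,
      fun _ q' hq' => ⟨?_, rfl⟩, fun h => absurd h h0⟩
    · rw [div_self h0]; norm_num
    · rw [div_self hy]; norm_num
    · intro h
      have := hq'.2.1
      rw [h] at this
      simp at this

theorem chart_pow_eq (S : TranslationSurface P) {G : P → ℂ} (hG : Continuous G)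
    (hz : NiceZeros S G) (q q' : Dbl G) (hq' : q' ∈ (exists_chart S hG hz q).choose.source)
    (k : ℕ) (hk0 : G q.1.1 = 0 → k = 2) (hk1 : G q.1.1 ≠ 0 → k = S.k q.1.1) :
    ((exists_chart S hG hz q).choose q') ^ k = (S.chart q.1.1 q'.1.1) ^ (S.k q.1.1) := by
  have hs := (exists_chart S hG hz q).choose_spec
  by_cases h0 : G q.1.1 = 0
  · rw [hk0 h0, hs.2.2.2.2 h0 q' hq', (hz _ h0).1, pow_one]
  · rw [hk1 h0, (hs.2.2.2.1 h0 q' hq').2]

open Classical in
/-- the translation surface structure on the double cover -/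
noncomputable def coverTS (S : TranslationSurface P) (G : P → ℂ) (hG : Continuous G)
    (hz : NiceZeros S G) : TranslationSurface (Dbl G) where
  k q := if G q.1.1 = 0 then 2 else S.k q.1.1
  k_pos q := by
    split_ifs
    · norm_num
    · exact S.k_pos _
  chart q := (exists_chart S hG hz q).choose
  mem_source q := (exists_chart S hG hz q).choose_spec.1
  chart_self q := (exists_chart S hG hz q).choose_spec.2.1
  compat := by
    intro p q x hxp hxq
    have hp := (exists_chart S hG hz p).choose_spec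
    have hq := (exists_chart S hG hz q).choose_spec
    have h1 := S.compat p.1.1 q.1.1 x.1.1 (hp.2.2.1 x hxp) (hq.2.2.1 x hxq)
    have hcont : Tendsto (fun y : Dbl G => y.1.1) (𝓝 x) (𝓝 x.1.1) :=
      (by fun_prop : Continuous fun y : Dbl G => y.1.1).tendsto x
    have h2 := hcont.eventually h1
    have hsp : ∀ᶠ y in 𝓝 x, y ∈ (exists_chart S hG hz p).choose.source :=
      (exists_chart S hG hz p).choose.open_source.mem_nhds hxp
    have hsq : ∀ᶠ y in 𝓝 x, y ∈ (exists_chart S hG hz q).choose.source :=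
      (exists_chart S hG hz q).choose.open_source.mem_nhds hxq
    have hkk : ∀ r : Dbl G, (G r.1.1 = 0 → (if G r.1.1 = 0 then 2 else S.k r.1.1) = 2) ∧
        (G r.1.1 ≠ 0 → (if G r.1.1 = 0 then 2 else S.k r.1.1) = S.k r.1.1) := fun r =>
      ⟨fun h => if_pos h, fun h => if_neg h⟩
    filter_upwards [h2, hsp, hsq] with y hy hyp hyq
    rw [chart_pow_eq S hG hz q y hyq _ (hkk q).1 (hkk q).2,
      chart_pow_eq S hG hz p y hyp _ (hkk p).1 (hkk p).2,
      chart_pow_eq S hG hz q x hxq _ (hkk q).1 (hkk q).2,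
      chart_pow_eq S hG hz p x hxp _ (hkk p).1 (hkk p).2]
    exact hy

variable {S : TranslationSurface P} {G : P → ℂ} {hG : Continuous G} {hz : NiceZeros S G}

theorem coverTS_k_of_ne {q : Dbl G} (h : G q.1.1 ≠ 0) : (coverTS S G hG hz).k q = S.k q.1.1 := by
  simp [coverTS, h]

theorem coverTS_k_of_eq {q : Dbl G} (h : G q.1.1 = 0) : (coverTS S G hG hz).k q = 2 := by
  simp [coverTS, h]

theorem coverTS_source {q q' : Dbl G} (h : q' ∈ ((coverTS S G hG hz).chart q).source) :
    q'.1.1 ∈ (S.chart q.1.1).source :=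
  (exists_chart S hG hz q).choose_spec.2.2.1 q' h

theorem coverTS_ne {q q' : Dbl G} (h0 : G q.1.1 ≠ 0)
    (h : q' ∈ ((coverTS S G hG hz).chart q).source) :
    G q'.1.1 ≠ 0 ∧ (coverTS S G hG hz).chart q q' = S.chart q.1.1 q'.1.1 :=
  (exists_chart S hG hz q).choose_spec.2.2.2.1 h0 q' h

/-- lifting of orbits -/
theorem lift_orbit {θ : ℝ} {γ : ℝ → P} (h : S.IsOrbit θ γ) (y : ℝ → ℂ) (hy : Continuous y)
    (hsq : ∀ s, y s ^ 2 = G (γ s)) (hne : ∀ s, G (γ s) ≠ 0) :
    (coverTS S G hG hz).IsOrbit θ (fun s => (⟨(γ s, y s), hsq s⟩ : Dbl G)) := by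
  have hcont : Continuous (fun s => (⟨(γ s, y s), hsq s⟩ : Dbl G)) :=
    (h.cont.prodMk hy).subtype_mk _
  refine ⟨hcont, fun s => ?_, fun s => ?_⟩
  · rw [coverTS_k_of_ne (hne s)]
    exact h.regular s
  · have h1 := h.line s
    have h2 : ∀ᶠ s' in 𝓝 s, (⟨(γ s', y s'), hsq s'⟩ : Dbl G) ∈
        ((coverTS S G hG hz).chart ⟨(γ s, y s), hsq s⟩).source :=
      hcont.continuousAt.eventually
        (((coverTS S G hG hz).chart _).open_source.mem_nhds ((coverTS S G hG hz).mem_source _))
    filter_upwards [h1, h2] with s' hs' hs2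
    rw [(coverTS_ne (hne s) hs2).2]
    exact hs'

end PFS
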