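import Pool.Agent.PFS.Cover

/-! # PFS module CoverArea: the area measure of the double cover -/

open MeasureTheory Topology Filter
open scoped ENNReal

namespace PFS

variable {P : Type}

/-- the two sections of the double cover -/
noncomputable def sec (G : P → ℂ) (ε : ℝ) (hε : ε ^ 2 = 1) (p : P) : Dbl G :=
  ⟨(p, ε * csqrt (G p)), by
    rw [mul_pow, csqrt_sq]
    norm_cast
    simp [hε]⟩

/-- the average of the images of `μ` under the two sections -/
noncomputable def coverMeasure [MeasurableSpace P] (G : P → ℂ) (μ : Measure P) : Measure (Dbl G) :=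
  (2⁻¹ : ℝ≥0∞) • (μ.map (sec G 1 (by norm_num))) + (2⁻¹ : ℝ≥0∞) • (μ.map (sec G (-1) (by norm_num)))

variable [MeasurableSpace P]

theorem measurable_sec {G : P → ℂ} (hG : Measurable G) (ε : ℝ) (hε : ε ^ 2 = 1) :
    Measurable (sec G ε hε) := by
  unfold sec
  exact Measurable.subtype_mk
    (measurable_id.prodMk (measurable_const.mul (measurable_csqrt.comp hG)))

theorem coverMeasure_prob {G : P → ℂ} (hG : Measurable G) (μ : Measure P)
    [IsProbabilityMeasure μ] : IsProbabilityMeasure (coverMeasure G μ) := by
  have h1 : IsProbabilityMeasure (μ.map (sec G 1 (by norm_num))) :=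
    Measure.isProbabilityMeasure_map (measurable_sec hG 1 (by norm_num)).aemeasurable
  have h2 : IsProbabilityMeasure (μ.map (sec G (-1) (by norm_num))) :=
    Measure.isProbabilityMeasure_map (measurable_sec hG (-1) (by norm_num)).aemeasurable
  constructor
  rw [coverMeasure, Measure.add_apply, Measure.smul_apply, Measure.smul_apply, measure_univ,
    measure_univ, smul_eq_mul, mul_one]
  exact ENNReal.inv_two_add_inv_two

/-- integral over the cover of a bounded measurable function -/
theorem integral_cover {G : P → ℂ} (hG : Measurable G) (μ : Measure P) [IsProbabilityMeasure μ]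
    (F : Dbl G → ℝ) (hF : Measurable F) (C : ℝ) (hb : ∀ q, |F q| ≤ C) :
    ∫ q, F q ∂(coverMeasure G μ)
      = ∫ p, (F (sec G 1 (by norm_num) p) + F (sec G (-1) (by norm_num) p)) / 2 ∂μ := by
  have m1 := measurable_sec hG 1 (by norm_num)
  have m2 := measurable_sec hG (-1) (by norm_num)
  have h1 : IsProbabilityMeasure (μ.map (sec G 1 (by norm_num))) :=
    Measure.isProbabilityMeasure_map m1.aemeasurable
  have h2 : IsProbabilityMeasure (μ.map (sec G (-1) (by norm_num))) :=
    Measure.isProbabilityMeasure_map m2.aemeasurable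
  have i1 : Integrable F (μ.map (sec G 1 (by norm_num))) :=
    Integrable.of_bound hF.aestronglyMeasurable C (Filter.Eventually.of_forall hb)
  have i2 : Integrable F (μ.map (sec G (-1) (by norm_num))) :=
    Integrable.of_bound hF.aestronglyMeasurable C (Filter.Eventually.of_forall hb)
  have j1 : Integrable (fun p => F (sec G 1 (by norm_num) p)) μ :=
    Integrable.of_bound (hF.comp m1).aestronglyMeasurable C
      (Filter.Eventually.of_forall fun p => hb _)
  have j2 : Integrable (fun p => F (sec G (-1) (by norm_num) p)) μ :=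
    Integrable.of_bound (hF.comp m2).aestronglyMeasurable C
      (Filter.Eventually.of_forall fun p => hb _)
  have hne : (2⁻¹ : ℝ≥0∞) ≠ ∞ := by simp
  rw [coverMeasure, integral_add_measure (i1.smul_measure hne) (i2.smul_measure hne),
    integral_smul_measure, integral_smul_measure,
    integral_map m1.aemeasurable hF.aestronglyMeasurable,
    integral_map m2.aemeasurable hF.aestronglyMeasurable,
    integral_div, integral_add j1 j2]
  simp only [ENNReal.toReal_inv, ENNReal.toReal_ofNat, smul_eq_mul]
  ring

/-- a property holds a.e. on the cover as soon as, for a.e. `p`, it holds at all points above `p` -/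
theorem ae_cover {G : P → ℂ} (hG : Measurable G) (μ : Measure P) {Q : Dbl G → Prop}
    (h : ∀ᵐ p ∂μ, ∀ q : Dbl G, q.1.1 = p → Q q) : ∀ᵐ q ∂(coverMeasure G μ), Q q := by
  rw [ae_iff] at h
  obtain ⟨N, hN1, hN2, hN3⟩ := exists_measurable_superset_of_null h
  rw [ae_iff]
  have hfst : Measurable (fun q : Dbl G => q.1.1) := measurable_fst.comp measurable_subtype_coe
  have hsub : {q : Dbl G | ¬ Q q} ⊆ (fun q : Dbl G => q.1.1) ⁻¹' N := by
    intro q hq
    apply hN1
    intro hq'
    exact hq (hq' q rfl)
  refine measure_mono_null hsub ?_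
  have key : ∀ (ε : ℝ) (hε : ε ^ 2 = 1),
      (μ.map (sec G ε hε)) ((fun q : Dbl G => q.1.1) ⁻¹' N) = 0 := by
    intro ε hε
    rw [Measure.map_apply (measurable_sec hG ε hε) (hfst hN2)]
    exact hN3
  rw [coverMeasure, Measure.add_apply, Measure.smul_apply, Measure.smul_apply, key, key]
  simp

/-- the two points above `p` -/
theorem eq_sec {G : P → ℂ} (q : Dbl G) :
    q = sec G 1 (by norm_num) q.1.1 ∨ q = sec G (-1) (by norm_num) q.1.1 := by
  have h1 : q.1.2 ^ 2 = csqrt (G q.1.1) ^ 2 := by rw [csqrt_sq, q.2]
  rcases sq_eq_sq_iff_eq_or_eq_neg.mp h1 with h | h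
  · left
    apply Subtype.ext
    apply Prod.ext
    · rfl
    · simp only [sec, h]
      simp
  · right
    apply Subtype.ext
    apply Prod.ext
    · rfl
    · simp only [sec, h]
      simp

theorem cover_area [TopologicalSpace P] [BorelSpace P] {S : TranslationSurface P} {G : P → ℂ}
    {hG : Continuous G} {hz : NiceZeros S G} {μ : Measure P} (hμ : S.IsArea μ)
    (h0 : μ {p | G p = 0} = 0) : (coverTS S G hG hz).IsArea (coverMeasure G μ) := by
  have hprob := hμ.prob
  have m1 := measurable_sec hG.measurable 1 (by norm_num)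
  have m2 := measurable_sec hG.measurable (-1) (by norm_num)
  refine ⟨coverMeasure_prob hG.measurable μ, ?_, ?_⟩
  · have h1 : ∀ᵐ q ∂(coverMeasure G μ), (coverTS S G hG hz).k q = 1 := by
      apply ae_cover hG.measurable μ
      have hs : ∀ᵐ p ∂μ, S.k p = 1 := by
        rw [ae_iff]
        exact hμ.sing
      have hg : ∀ᵐ p ∂μ, G p ≠ 0 := by
        rw [ae_iff]
        simpa using h0
      filter_upwards [hs, hg] with p hp1 hp2 q hq
      subst hq
      rw [coverTS_k_of_ne hp2, hp1]
    rw [ae_iff] at h1
    exact h1
  · obtain ⟨c, hc0, hct, hc⟩ := hμ.lebesgue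
    refine ⟨2⁻¹ * c, ?_, ?_, ?_⟩
    · simp [hc0]
    · exact ENNReal.mul_ne_top (by simp) hct
    · intro q hq A hA hAm
      have hGq : G q.1.1 ≠ 0 := by
        intro h
        rw [coverTS_k_of_eq h] at hq
        norm_num at hq
      have hkq : S.k q.1.1 = 1 := by
        rw [← hq, coverTS_k_of_ne hGq]
      -- the projection is injective on the source
      have hinj : ∀ q1 ∈ A, ∀ q2 ∈ A, q1.1.1 = q2.1.1 → q1 = q2 := by
        intro q1 h1 q2 h2 h12
        apply ((coverTS S G hG hz).chart q).injOn (hA h1) (hA h2)
        rw [(coverTS_ne hGq (hA h1)).2, (coverTS_ne hGq (hA h2)).2, h12]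
      set A1 : Set P := sec G 1 (by norm_num) ⁻¹' A with hA1
      set A2 : Set P := sec G (-1) (by norm_num) ⁻¹' A with hA2
      have hA1m : MeasurableSet A1 := m1 hAm
      have hA2m : MeasurableSet A2 := m2 hAm
      have hdisj : Disjoint A1 A2 := by
        rw [Set.disjoint_left]
        intro p hp1 hp2
        have h3 : sec G 1 (by norm_num) p = sec G (-1) (by norm_num) p := hinj _ hp1 _ hp2 rfl
        have h4 : (sec G 1 (by norm_num) p).1.2 = (sec G (-1) (by norm_num) p).1.2 := by rw [h3]
        have h5 : csqrt (G p) = 0 := by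
          simp only [sec] at h4
          push_cast at h4
          linear_combination h4 / 2
        rw [csqrt_eq_zero_iff] at h5
        exact (coverTS_ne hGq (hA hp1)).1 h5
      have hunion : A1 ∪ A2 = (fun q : Dbl G => q.1.1) '' A := by
        ext p
        constructor
        · rintro (h | h)
          · exact ⟨_, h, rfl⟩
          · exact ⟨_, h, rfl⟩
        · rintro ⟨q', hq', rfl⟩
          rcases eq_sec q' with h | h
          · left
            rw [hA1, Set.mem_preimage, ← h]
            exact hq'
          · right
            rw [hA2, Set.mem_preimage, ← h]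
            exact hq'
      have himg : (coverTS S G hG hz).chart q '' A =
          S.chart q.1.1 '' ((fun q : Dbl G => q.1.1) '' A) := by
        rw [Set.image_image]
        apply Set.image_congr
        intro q' hq'
        exact (coverTS_ne hGq (hA hq')).2
      have hsrc : (fun q : Dbl G => q.1.1) '' A ⊆ (S.chart q.1.1).source := by
        rintro p ⟨q', hq', rfl⟩
        exact coverTS_source (hA hq')
      have hmeas : MeasurableSet ((fun q : Dbl G => q.1.1) '' A) := by
        rw [← hunion]
        exact hA1m.union hA2m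
      rw [himg, mul_assoc, ← hc q.1.1 hkq _ hsrc hmeas, ← hunion, measure_union hdisj hA2m,
        coverMeasure, Measure.add_apply, Measure.smul_apply, Measure.smul_apply,
        Measure.map_apply m1 hAm, Measure.map_apply m2 hAm, smul_eq_mul, smul_eq_mul, mul_add]

end PFS
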