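import Pool.Agent.PFS.QStar
import Pool.Agent.PFS.Contract

/-! # PFS module Decay: `D_n(α,w)` is exponentially small in the number of good levels -/

open MeasureTheory Topology Filter
open scoped ENNReal

namespace PFS

theorem ff_add_one (α w : ℝ) (n : ℕ) (s : ℝ) : ff α w n (s + 1) = ff α w n s := by
  unfold ff
  apply Finset.prod_congr rfl
  intro k _
  have e1 : s + 1 + (k + 1 : ℕ) * α = (s + (k + 1 : ℕ) * α) + 1 := by ring
  have e2 : s + 1 + w + (k + 1 : ℕ) * α = (s + w + (k + 1 : ℕ) * α) + 1 := by ring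
  rw [e1, e2, eps_add_one, eps_add_one, neg_mul_neg]

theorem measurable_ff (α w : ℝ) (n : ℕ) : Measurable (ff α w n) := by
  unfold ff
  apply Finset.measurable_fun_prod
  intro k _
  apply Measurable.mul
  · exact measurable_eps.comp (measurable_id.add_const _)
  · exact measurable_eps.comp ((measurable_id.add_const _).add_const _)

theorem abs_ff (α w : ℝ) (n : ℕ) (s : ℝ) : |ff α w n s| = 1 := by
  unfold ff
  rw [Finset.abs_prod]
  apply Finset.prod_eq_one
  intro k _
  rw [abs_mul, abs_eps, abs_eps, mul_one]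

/-- shift by `qα` -/
theorem ff_shift (α w : ℝ) (n q : ℕ) (s : ℝ) :
    ff α w n (s + q * α) =
      (∏ k ∈ Finset.range q, (eps (s + (k + 1 : ℕ) * α) * eps (s + (w + (k + 1 : ℕ) * α)) *
        (eps (s + (n + (k + 1) : ℕ) * α) * eps (s + (w + (n + (k + 1) : ℕ) * α))))) * ff α w n s := by
  obtain ⟨g, hg⟩ : ∃ g : ℕ → ℝ, ∀ k, g k = eps (s + (k + 1 : ℕ) * α) *
    eps (s + w + (k + 1 : ℕ) * α) := ⟨_, fun k => rfl⟩
  have hg2 : ∀ k, g k * g k = 1 := by
    intro k
    rw [hg]
    calc eps (s + (k + 1 : ℕ) * α) * eps (s + w + (k + 1 : ℕ) * α) *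
        (eps (s + (k + 1 : ℕ) * α) * eps (s + w + (k + 1 : ℕ) * α))
        = (eps (s + (k + 1 : ℕ) * α) * eps (s + (k + 1 : ℕ) * α)) *
          (eps (s + w + (k + 1 : ℕ) * α) * eps (s + w + (k + 1 : ℕ) * α)) := by ring
      _ = 1 := by rw [eps_sq, eps_sq, one_mul]
  have h1 : ff α w n s = ∏ k ∈ Finset.range n, g k := by
    unfold ff
    exact Finset.prod_congr rfl fun k _ => (hg k).symm
  have h2 : ff α w n (s + q * α) = ∏ k ∈ Finset.range n, g (q + k) := by
    unfold ff
    apply Finset.prod_congr rfl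
    intro k _
    rw [hg]
    have e1 : s + q * α + (k + 1 : ℕ) * α = s + (q + k + 1 : ℕ) * α := by push_cast; ring
    have e2 : s + q * α + w + (k + 1 : ℕ) * α = s + w + (q + k + 1 : ℕ) * α := by
      push_cast; ring
    rw [e1, e2]
  have h3 : ∏ k ∈ Finset.range q, (eps (s + (k + 1 : ℕ) * α) * eps (s + (w + (k + 1 : ℕ) * α)) *
        (eps (s + (n + (k + 1) : ℕ) * α) * eps (s + (w + (n + (k + 1) : ℕ) * α)))) =
        (∏ k ∈ Finset.range q, g k) * ∏ k ∈ Finset.range q, g (n + k) := by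
    rw [← Finset.prod_mul_distrib]
    apply Finset.prod_congr rfl
    intro k _
    rw [hg, hg]
    have e1 : s + (w + (k + 1 : ℕ) * α) = s + w + (k + 1 : ℕ) * α := by ring
    have e2 : s + (w + (n + (k + 1) : ℕ) * α) = s + w + (n + k + 1 : ℕ) * α := by
      push_cast; ring
    have e3 : s + (n + (k + 1) : ℕ) * α = s + (n + k + 1 : ℕ) * α := by push_cast; ring
    rw [e1, e2, e3]
  have h4 : (∏ k ∈ Finset.range q, g k) * ∏ k ∈ Finset.range n, g (q + k) =
      (∏ k ∈ Finset.range n, g k) * ∏ k ∈ Finset.range q, g (n + k) := by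
    rw [← Finset.prod_range_add, ← Finset.prod_range_add, add_comm q n]
  have h5 : (∏ k ∈ Finset.range q, g k) * ∏ k ∈ Finset.range q, g k = 1 := by
    rw [← Finset.prod_mul_distrib]
    exact Finset.prod_eq_one fun k _ => hg2 k
  rw [h1, h2, h3]
  calc ∏ k ∈ Finset.range n, g (q + k)
      = ((∏ k ∈ Finset.range q, g k) * ∏ k ∈ Finset.range q, g k) *
        ∏ k ∈ Finset.range n, g (q + k) := by rw [h5, one_mul]
    _ = (∏ k ∈ Finset.range q, g k) *
        ((∏ k ∈ Finset.range q, g k) * ∏ k ∈ Finset.range n, g (q + k)) := by ring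
    _ = _ := by rw [h4]; ring

theorem decay_int_le (α w : ℝ) (n : ℕ) (x y : ℝ) (hxy : x ≤ y) :
    |∫ s in x..y, ff α w n s| ≤ y - x := by
  have h1 := intervalIntegral.norm_integral_le_of_norm_le_const (a := x) (b := y) (C := 1)
    (f := ff α w n) (fun s _ => by rw [Real.norm_eq_abs, abs_ff])
  have h2 : |y - x| = y - x := abs_of_nonneg (by linarith)
  rw [Real.norm_eq_abs, one_mul, h2] at h1
  exact h1

theorem abs_DD_le_one (α : ℝ) (n : ℕ) (w : ℝ) : |DD α n w| ≤ 1 := by
  have h1 := decay_int_le α w n 0 1 zero_le_one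
  rw [sub_zero] at h1
  exact h1

/-- the jump points -/
noncomputable def decayP (α w : ℝ) (n q : ℕ) : Fin q × Fin 4 → ℝ := fun i =>
  ![((i.1 + 1 : ℕ) : ℝ) * α, w + ((i.1 + 1 : ℕ) : ℝ) * α,
    ((n + (i.1 + 1) : ℕ) : ℝ) * α, w + ((n + (i.1 + 1) : ℕ) : ℝ) * α] i.2

theorem decay_not_bad {α c : ℝ} {b : ℕ} (h : ¬ Bad α b c) (j : ℤ)
    (hj : |j| < (qq α b : ℤ)) : 1 / ((BB : ℝ) * qq α b) ≤ nrm (c + j * α) := by
  by_contra hc
  push Not at hc
  exact h ⟨j, hj, hc⟩

theorem decay_sep {α w : ℝ} {b n : ℕ} (hreg : Reg α b) (hgood : Good α b n w)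
    (i j : Fin (qq α b) × Fin 4) (hij : i ≠ j) :
    1 / ((BB : ℝ) * qq α b) ≤ nrm (decayP α w n (qq α b) i - decayP α w n (qq α b) j) := by
  obtain ⟨h1, h2, h3, h4⟩ := hgood
  obtain ⟨⟨k, hk⟩, t⟩ := i
  obtain ⟨⟨k', hk'⟩, t'⟩ := j
  have hAB : 1 / ((BB : ℝ) * qq α b) ≤ 1 / ((AA : ℝ) * qq α b) := by
    have hq : (1 : ℝ) ≤ qq α b := by exact_mod_cast qq_pos α b
    have hA : (AA : ℝ) = 2 ^ 20 := by norm_num [AA]
    have hB : (BB : ℝ) = 2 ^ 100 := by norm_num [BB]
    rw [hA, hB]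
    apply one_div_le_one_div_of_le (by positivity)
    have : (2 : ℝ) ^ 20 ≤ 2 ^ 100 := by norm_num
    exact mul_le_mul_of_nonneg_right this (by linarith)
  have hjj : |(k : ℤ) - k'| < (qq α b : ℤ) := by
    rw [abs_lt]
    constructor <;> omega
  have hjj' : |(k' : ℤ) - k| < (qq α b : ℤ) := by
    rw [abs_lt]
    constructor <;> omega
  -- same type
  have hsame : ∀ z : ℝ, (k ≠ k') → z = ((k : ℤ) - k' : ℤ) * α →
      1 / ((BB : ℝ) * qq α b) ≤ nrm z := by
    rintro z hne rfl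
    refine hAB.trans (reg_sep α hreg (j := (k : ℤ) - k') ?_ hjj)
    intro h
    apply hne
    omega
  have hpos : ∀ c z : ℝ, ¬ Bad α b c → z = c + ((k : ℤ) - k' : ℤ) * α →
      1 / ((BB : ℝ) * qq α b) ≤ nrm z := by
    rintro c z hc rfl
    exact decay_not_bad hc _ hjj
  have hneg : ∀ c z : ℝ, ¬ Bad α b c → -z = c + ((k' : ℤ) - k : ℤ) * α →
      1 / ((BB : ℝ) * qq α b) ≤ nrm z := by
    rintro c z hc hz
    rw [← nrm_neg, hz]
    exact decay_not_bad hc _ hjj'
  have hkk : ∀ t0 : Fin 4, ((⟨k, hk⟩, t0) : Fin (qq α b) × Fin 4) ≠ (⟨k', hk'⟩, t0) → k ≠ k' := by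
    rintro t0 hne rfl
    exact hne rfl
  fin_cases t <;> fin_cases t'
  · exact hsame _ (hkk _ hij) (by simp [decayP]; ring)
  · exact hneg w _ h2 (by simp [decayP]; ring)
  · exact hneg (n * α) _ h1 (by simp [decayP]; ring)
  · exact hneg (w + n * α) _ h3 (by simp [decayP]; ring)
  · exact hpos w _ h2 (by simp [decayP]; ring)
  · exact hsame _ (hkk _ hij) (by simp [decayP]; ring)
  · exact hpos (w - n * α) _ h4 (by simp [decayP]; ring)
  · exact hneg (n * α) _ h1 (by simp [decayP]; ring)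
  · exact hpos (n * α) _ h1 (by simp [decayP]; ring)
  · exact hneg (w - n * α) _ h4 (by simp [decayP]; ring)
  · exact hsame _ (hkk _ hij) (by simp [decayP]; ring)
  · exact hneg w _ h2 (by simp [decayP]; ring)
  · exact hpos (w + n * α) _ h3 (by simp [decayP]; ring)
  · exact hpos (n * α) _ h1 (by simp [decayP]; ring)
  · exact hpos w _ h2 (by simp [decayP]; ring)
  · exact hsame _ (hkk _ hij) (by simp [decayP]; ring)

theorem decay_prod (α w : ℝ) (n q : ℕ) (s : ℝ) :
    ∏ i, eps (s + decayP α w n q i) = ∏ k ∈ Finset.range q,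
      (eps (s + (k + 1 : ℕ) * α) * eps (s + (w + (k + 1 : ℕ) * α)) *
        (eps (s + (n + (k + 1) : ℕ) * α) * eps (s + (w + (n + (k + 1) : ℕ) * α)))) := by
  rw [Fintype.prod_prod_type, Finset.prod_range]
  apply Finset.prod_congr rfl
  intro k _
  rw [Fin.prod_univ_four]
  simp only [decayP, Matrix.cons_val]
  ring

/-- one level -/
theorem decay_level {α w : ℝ} {b n : ℕ} (hreg : Reg α b) (hgood : Good α b n w) (a : ℝ)
    (ha0 : 0 ≤ a)
    (ha : ∀ x y : ℝ, x + 1 / ((BB : ℝ) * qq α b) ≤ y → |∫ s in x..y, ff α w n s| ≤ a * (y - x)) :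
    ∀ x y : ℝ, x + 100 * BB / qq α b ≤ y →
      |∫ s in x..y, ff α w n s| ≤ (1 - 1 / (20 * (BB : ℝ))) * a * (y - x) := by
  have hB : (BB : ℝ) = 2 ^ 100 := by norm_num [BB]
  have hBpos : (0 : ℝ) < BB := by rw [hB]; positivity
  have hq1 : (1 : ℝ) ≤ qq α b := by exact_mod_cast qq_pos α b
  have hX := one_le_BB_pow b
  have hdq : 1 / (BB : ℝ) / qq α b = 1 / ((BB : ℝ) * qq α b) := by rw [div_div]
  have hc := contract (decayP α w n (qq α b)) (qq α b) (1 / (BB : ℝ)) (qq α b * α) a (ff α w n)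
    hq1 (by positivity) (by
      rw [hB]
      apply one_div_le_one_div_of_le (by norm_num)
      norm_num) ha0 (ff_add_one α w n) (measurable_ff α w n) (fun s => (abs_ff α w n s).le)
    (fun s => by rw [decay_prod]; exact ff_shift α w n (qq α b) s)
    (by
      have h1 := qstar_nrm α hX
      have h2 : (qq α b : ℝ) ≤ (BB ^ b : ℕ) := by exact_mod_cast qq_le α b
      have h3 : 1 / ((BB ^ b : ℕ) : ℝ) ≤ 1 / (qq α b : ℝ) :=
        one_div_le_one_div_of_le (by linarith) h2
      exact h1.le.trans h3)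
    (fun i j hij => by rw [hdq]; exact decay_sep hreg hgood i j hij)
    (fun x => by
      obtain ⟨k, hk, hk2⟩ := grid_cover α hX x
      rw [Finset.mem_Icc] at hk
      have hk3 : k ≤ qq α b := hk.2
      refine ⟨(⟨k - 1, by omega⟩, 0), ?_⟩
      have e1 : decayP α w n (qq α b) (⟨k - 1, by omega⟩, 0) = (k : ℝ) * α := by
        have e2 : k - 1 + 1 = k := by omega
        simp only [decayP, Matrix.cons_val]
        rw [e2]
      rw [e1]
      exact hk2)
    (fun x y hxy => ha x y (by rw [hdq] at hxy; exact hxy))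
  intro x y hxy
  have e1 : 100 / (1 / (BB : ℝ) * qq α b) = 100 * BB / qq α b := by
    field_simp
  have e2 : 1 - 1 / (BB : ℝ) / 20 = 1 - 1 / (20 * (BB : ℝ)) := by
    rw [div_div, mul_comm]
  have h := hc x y (by rw [e1]; exact hxy)
  rw [e2] at h
  exact h

/-- many levels with gaps -/
theorem decay_levels (α : ℝ) (n : ℕ) (w : ℝ) (T : Finset ℕ) :
    (∀ b ∈ T, Reg α b ∧ Good α b n w) → (∀ b ∈ T, ∀ b' ∈ T, b < b' → b + 3 ≤ b') →
    ∀ l : ℝ, 0 < l → (∀ b ∈ T, 100 * (BB : ℝ) / qq α b ≤ l) → ∀ x y : ℝ, x + l ≤ y →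
      |∫ s in x..y, ff α w n s| ≤ (1 - 1 / (20 * (BB : ℝ))) ^ T.card * (y - x) := by
  have hB : (BB : ℝ) = 2 ^ 100 := by norm_num [BB]
  have hBpos : (0 : ℝ) < BB := by rw [hB]; positivity
  have hk0 : (0 : ℝ) ≤ 1 - 1 / (20 * (BB : ℝ)) := by
    rw [hB, sub_nonneg, div_le_one (by positivity)]
    norm_num
  induction T using Finset.induction_on_min with
  | empty =>
    intro _ _ l hl _ x y hxy
    rw [Finset.card_empty, pow_zero, one_mul]
    exact decay_int_le α w n x y (by linarith)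
  | insert b s hbs ih =>
    intro hT hgap l hl hlen x y hxy
    have hbn : b ∉ s := fun h => lt_irrefl _ (hbs b h)
    have hqpos : (1 : ℝ) ≤ qq α b := by exact_mod_cast qq_pos α b
    have h1 := ih (fun x hx => hT x (Finset.mem_insert_of_mem hx))
      (fun x hx x' hx' => hgap x (Finset.mem_insert_of_mem hx) x' (Finset.mem_insert_of_mem hx'))
      (1 / ((BB : ℝ) * qq α b)) (by positivity) (by
        intro b' hb'
        have h2 := qq_ratio3 α (hgap b (Finset.mem_insert_self _ _) b'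
          (Finset.mem_insert_of_mem hb') (hbs b' hb')) (hT b' (Finset.mem_insert_of_mem hb')).1
        have h3 : 100 * (BB : ℝ) ^ 2 * qq α b ≤ qq α b' := by exact_mod_cast h2
        have hqpos' : (1 : ℝ) ≤ qq α b' := by exact_mod_cast qq_pos α b'
        rw [div_le_div_iff₀ (by linarith) (by positivity)]
        calc 100 * (BB : ℝ) * (BB * qq α b) = 100 * (BB : ℝ) ^ 2 * qq α b := by ring
          _ ≤ 1 * qq α b' := by rw [one_mul]; exact h3)
    have hb := hT b (Finset.mem_insert_self _ _)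
    have h2 := decay_level hb.1 hb.2 ((1 - 1 / (20 * (BB : ℝ))) ^ s.card) (by positivity) h1 x y
      (by
        have := hlen b (Finset.mem_insert_self _ _)
        linarith)
    rw [Finset.card_insert_of_notMem hbn, pow_succ']
    exact h2

theorem decay (α : ℝ) (n : ℕ) (w : ℝ) (S : Finset ℕ)
    (hS : ∀ b ∈ S, 3 ≤ b ∧ Reg α b ∧ Good α b n w) :
    |DD α n w| ^ 3 ≤ (1 - 1 / (20 * (BB : ℝ))) ^ S.card := by
  have hB : (BB : ℝ) = 2 ^ 100 := by norm_num [BB]
  have hBpos : (0 : ℝ) < BB := by rw [hB]; positivity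
  have hk0 : (0 : ℝ) ≤ 1 - 1 / (20 * (BB : ℝ)) := by
    rw [hB, sub_nonneg, div_le_one (by positivity)]
    norm_num
  have key : ∀ i : ℕ, |DD α n w| ≤
      (1 - 1 / (20 * (BB : ℝ))) ^ (S.filter fun b => b % 3 = i).card := by
    intro i
    have h1 := decay_levels α n w (S.filter fun b => b % 3 = i)
      (fun b hb => (hS b (Finset.mem_filter.1 hb).1).2)
      (fun b hb b' hb' hlt => by
        rw [Finset.mem_filter] at hb hb'
        omega) 1 one_pos
      (fun b hb => by
        have h2 := hS b (Finset.mem_filter.1 hb).1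
        have h3 := qq_large α h2.1 h2.2.1
        have h4 : 100 * (BB : ℝ) ≤ qq α b := by exact_mod_cast h3
        have hqpos : (1 : ℝ) ≤ qq α b := by exact_mod_cast qq_pos α b
        rw [div_le_one (by linarith)]
        exact h4) 0 1 (by norm_num)
    rw [sub_zero, mul_one] at h1
    exact h1
  have hcard : S.card = (S.filter fun b => b % 3 = 0).card + (S.filter fun b => b % 3 = 1).card +
      (S.filter fun b => b % 3 = 2).card := by
    have h1 := Finset.card_eq_sum_card_fiberwise (s := S) (t := Finset.range 3)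
      (f := fun b => b % 3) (fun b _ => by
        rw [Finset.mem_coe, Finset.mem_range]
        exact Nat.mod_lt _ (by norm_num))
    rw [h1, Finset.sum_range_succ, Finset.sum_range_succ, Finset.sum_range_succ,
      Finset.sum_range_zero, zero_add]
  rw [hcard, pow_add, pow_add]
  calc |DD α n w| ^ 3 = |DD α n w| * |DD α n w| * |DD α n w| := by ring
    _ ≤ _ := by
      apply mul_le_mul _ (key 2) (abs_nonneg _) (by positivity)
      exact mul_le_mul (key 0) (key 1) (abs_nonneg _) (by positivity)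

end PFS
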