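import Mathlib

/-!
# Translation surfaces, directional flows, spectral singularity

Definitions used by the hand-in on MP_c63e80_an (question Q2).
-/

open MeasureTheory Topology Filter
open scoped ENNReal

namespace PFS

/-- A translation surface `(X, ω)`: `X` is (in all uses) a compact connected Hausdorff space, and every
point `p` carries a complex coordinate `chart p`, centred at `p`, and an integer `k p ≥ 1`, such that
on the overlap of two coordinate patches the functions `(chart p) ^ (k p)` and `(chart q) ^ (k q)`
differ by a locally constant function.  So `ω = d ((chart p) ^ (k p))` is a well defined nonzero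
Abelian differential for the complex structure given by the charts; its zeros are the points with
`k p ≥ 2` (a zero of order `k p - 1`, cone angle `2 π k p`).  Every pair (compact Riemann surface,
nonzero Abelian differential) arises in this way, by the local normal form of Abelian differentials. -/
structure TranslationSurface (X : Type) [TopologicalSpace X] where
  /-- the order of the zero of `ω` at `p`, plus one -/
  k : X → ℕ
  k_pos : ∀ p, 1 ≤ k p
  /-- a complex coordinate centred at `p`, with `ω = d ((chart p) ^ (k p))` -/
  chart : X → OpenPartialHomeomorph X ℂ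
  mem_source : ∀ p, p ∈ (chart p).source
  chart_self : ∀ p, chart p p = 0
  compat : ∀ p q x, x ∈ (chart p).source → x ∈ (chart q).source →
    ∀ᶠ y in 𝓝 x, (chart q y) ^ (k q) - (chart p y) ^ (k p)
      = (chart q x) ^ (k q) - (chart p x) ^ (k p)

namespace TranslationSurface

variable {X : Type} [TopologicalSpace X] (S : TranslationSurface X)

/-- `γ` is a complete orbit of the vertical straight-line flow of `e^{iθ} ω`: it is continuous, never
meets a zero of `ω`, and in the natural coordinates of `ω` it moves with constant velocity
`i e^{-iθ}` (the vector `v` with `e^{iθ} ω(v) = i`). -/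
structure IsOrbit (θ : ℝ) (γ : ℝ → X) : Prop where
  cont : Continuous γ
  regular : ∀ s, S.k (γ s) = 1
  line : ∀ s, ∀ᶠ s' in 𝓝 s, S.chart (γ s) (γ s') =
    ((s' - s : ℝ) : ℂ) * (Complex.I * Complex.exp (-(θ : ℂ) * Complex.I))

open Classical in
/-- The directional flow `F^t_{r_θ ω}` (set to be the identity at points having no complete orbit). -/
noncomputable def flow (θ t : ℝ) (x : X) : X :=
  if h : ∃ γ : ℝ → X, S.IsOrbit θ γ ∧ γ 0 = x then h.choose t else x

/-- The product flow `G^t_{θ,φ} = F^t_{r_θ ω} × F^t_{r_φ ω}` on `X × X`. -/
noncomputable def prodFlow (θ φ t : ℝ) (z : X × X) : X × X := (S.flow θ t z.1, S.flow φ t z.2)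

/-- `μ` is the normalised (probability) area measure of `(X, ω)`: a constant multiple of Lebesgue
measure in the natural coordinates, giving mass `0` to the zeros of `ω`. -/
structure IsArea [MeasurableSpace X] (μ : Measure X) : Prop where
  prob : IsProbabilityMeasure μ
  sing : μ {p | S.k p ≠ 1} = 0
  lebesgue : ∃ c : ℝ≥0∞, c ≠ 0 ∧ c ≠ ∞ ∧ ∀ p, S.k p = 1 → ∀ A ⊆ (S.chart p).source,
    MeasurableSet A → μ A = c * volume (S.chart p '' A)

end TranslationSurface

/-- `σ` is the spectral measure of `f` for the Koopman flow `U^t f = f ∘ T^t`: a finite Borel measure on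
`ℝ` with `⟨U^t f, f⟩ = ∫ e^{i t ξ} dσ(ξ)` for every `t`. -/
def IsSpectralMeasure {Z : Type} [MeasurableSpace Z] (μ : Measure Z) (T : ℝ → Z → Z)
    (f : Z → ℂ) (σ : Measure ℝ) : Prop :=
  IsFiniteMeasure σ ∧ ∀ t : ℝ, ∫ z, f (T t z) * starRingEnd ℂ (f z) ∂μ
    = ∫ ξ, Complex.exp (Complex.I * t * ξ) ∂σ

/-- The flow `T` is spectrally singular modulo constants: the spectral measure of every `f ∈ L²_0` is
singular with respect to Lebesgue measure. -/
def SpectrallySingularModConst {Z : Type} [MeasurableSpace Z] (μ : Measure Z) (T : ℝ → Z → Z) :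
    Prop :=
  ∀ f : Z → ℂ, MemLp f 2 μ → ∫ z, f z ∂μ = 0 → ∀ σ : Measure ℝ, IsSpectralMeasure μ T f σ →
    Measure.MutuallySingular σ volume

end PFS
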