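import Pool.Agent.PFS.Basic

/-! # PFS module LamAvg: the average over `λ` decouples the two times -/

open MeasureTheory Topology Filter
open scoped ENNReal

namespace PFS

/-- the set of `λ` compatible with a pair of floors -/
private def KS (x y : ℝ) (p : ℕ × ℕ) : Set ℝ :=
  {lam | lam ∈ Set.Icc (1:ℝ) 2 ∧ ∃ t : ℝ, 0 < t ∧ ⌊t / √(lam ^ 2 + x ^ 2)⌋₊ = p.1 ∧
    ⌊t / √(lam ^ 2 + y ^ 2)⌋₊ = p.2}

private lemma sqrt_bounds {x lam : ℝ} (hx : x ∈ Set.Icc (0:ℝ) 1) (hl : lam ∈ Set.Icc (1:ℝ) 2) :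
    1 ≤ √(lam ^ 2 + x ^ 2) ∧ √(lam ^ 2 + x ^ 2) ≤ 3 := by
  obtain ⟨hx0, hx1⟩ := hx
  obtain ⟨hl1, hl2⟩ := hl
  constructor
  · rw [Real.one_le_sqrt]
    nlinarith
  · rw [Real.sqrt_le_left (by norm_num)]
    nlinarith

private lemma KS_ratio {x y : ℝ} (hx : x ∈ Set.Icc (0:ℝ) 1) (hy : y ∈ Set.Icc (0:ℝ) 1)
    {p : ℕ × ℕ} {lam : ℝ} (h : lam ∈ KS x y p) :
    ∃ κ : ℝ, 0 < κ ∧ κ ≤ 2 ∧ κ ^ 2 * (lam ^ 2 + x ^ 2) = lam ^ 2 + y ^ 2 ∧
      |κ * p.2 - p.1| ≤ 3 := by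
  obtain ⟨hl, t, ht, h1, h2⟩ := h
  obtain ⟨r1, r2⟩ := sqrt_bounds hx hl
  obtain ⟨s1, s2⟩ := sqrt_bounds hy hl
  set r := √(lam ^ 2 + x ^ 2) with hr
  set s := √(lam ^ 2 + y ^ 2) with hs
  have hr2 : r ^ 2 = lam ^ 2 + x ^ 2 := Real.sq_sqrt (by positivity)
  have hs2 : s ^ 2 = lam ^ 2 + y ^ 2 := Real.sq_sqrt (by positivity)
  have hrpos : 0 < r := by linarith
  have hspos : 0 < s := by linarith
  have hκpos : 0 < s / r := by positivity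
  have hκ2 : s / r ≤ 2 := by
    rw [div_le_iff₀ hrpos]
    have : s ^ 2 ≤ (2 * r) ^ 2 := by
      rw [mul_pow, hr2, hs2]
      nlinarith [hx.1, hx.2, hy.1, hy.2, hl.1, hl.2]
    exact (abs_le_of_sq_le_sq' this (by positivity)).2
  refine ⟨s / r, hκpos, hκ2, ?_, ?_⟩
  · rw [div_pow, hr2, hs2]
    have : (lam ^ 2 + x ^ 2) ≠ 0 := by rw [← hr2]; positivity
    field_simp
  · have hu0 : 0 ≤ t / r := by positivity
    have hv0 : 0 ≤ t / s := by positivity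
    have hu1 := Nat.floor_le hu0
    have hu2 := Nat.lt_floor_add_one (t / r)
    have hv1 := Nat.floor_le hv0
    have hv2 := Nat.lt_floor_add_one (t / s)
    rw [h1] at hu1 hu2
    rw [h2] at hv1 hv2
    have huv : s / r * (t / s) = t / r := by
      field_simp
    have e : s / r * p.2 - p.1 = s / r * (p.2 - t / s) + (t / r - p.1) := by
      rw [mul_sub, huv]; ring
    rw [e]
    have a1 : |s / r * (p.2 - t / s)| ≤ 2 * 1 := by
      rw [abs_mul, abs_of_pos hκpos]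
      exact mul_le_mul hκ2 (by rw [abs_le]; constructor <;> linarith) (abs_nonneg _) (by norm_num)
    have a2 : |t / r - p.1| ≤ 1 := by rw [abs_le]; constructor <;> linarith
    calc _ ≤ |s / r * (p.2 - t / s)| + |t / r - p.1| := abs_add_le _ _
      _ ≤ 3 := by linarith

private lemma KS_diam {x y : ℝ} (hx : x ∈ Set.Icc (0:ℝ) 1) (hy : y ∈ Set.Icc (0:ℝ) 1)
    {p : ℕ × ℕ} {l1 l2 : ℝ} (h1 : l1 ∈ KS x y p) (h2 : l2 ∈ KS x y p) :
    |l1 - l2| * |y ^ 2 - x ^ 2| * (((max p.1 p.2 : ℕ) : ℝ) + 1) ≤ 1000 := by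
  obtain ⟨k, hk0, hk2, hk, hkm⟩ := KS_ratio hx hy h1
  obtain ⟨j, hj0, hj2, hj, hjm⟩ := KS_ratio hx hy h2
  have hl1 := h1.1
  have hl2 := h2.1
  set m : ℝ := (p.1 : ℝ) with hm
  set m' : ℝ := (p.2 : ℝ) with hm'
  have hm0 : 0 ≤ m := Nat.cast_nonneg _
  have hm'0 : 0 ≤ m' := Nat.cast_nonneg _
  have hN : ((max p.1 p.2 : ℕ) : ℝ) ≤ 2 * m' + 3 := by
    rw [Nat.cast_max]
    apply max_le
    · have := (abs_le.1 hkm).1
      nlinarith
    · linarith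
  set N : ℝ := ((max p.1 p.2 : ℕ) : ℝ) with hNdef
  have hN0 : 0 ≤ N := Nat.cast_nonneg _
  have d1 : |k - j| * m' ≤ 6 := by
    have : (k - j) * m' = (k * m' - m) - (j * m' - m) := by ring
    rw [← abs_of_nonneg hm'0, ← abs_mul, this]
    calc _ ≤ |k * m' - m| + |j * m' - m| := abs_sub _ _
      _ ≤ 6 := by linarith
  have d2 : |k - j| ≤ 2 := by rw [abs_le]; constructor <;> linarith
  have d3 : |k - j| * (N + 1) ≤ 20 := by
    nlinarith [abs_nonneg (k - j)]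
  have d4 : |k ^ 2 - j ^ 2| * (N + 1) ≤ 80 := by
    have : k ^ 2 - j ^ 2 = (k - j) * (k + j) := by ring
    rw [this, abs_mul, abs_of_pos (by linarith : 0 < k + j)]
    have h4 : k + j ≤ 4 := by linarith
    calc |k - j| * (k + j) * (N + 1) = (|k - j| * (N + 1)) * (k + j) := by ring
      _ ≤ 20 * 4 := mul_le_mul d3 h4 (by linarith) (by norm_num)
      _ = 80 := by norm_num
  have key : (k ^ 2 - j ^ 2) * ((l1 ^ 2 + x ^ 2) * (l2 ^ 2 + x ^ 2)) =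
      (l2 - l1) * (y ^ 2 - x ^ 2) * (l1 + l2) := by
    have e1 : (k ^ 2 - j ^ 2) * ((l1 ^ 2 + x ^ 2) * (l2 ^ 2 + x ^ 2)) =
      (k ^ 2 * (l1 ^ 2 + x ^ 2)) * (l2 ^ 2 + x ^ 2) - (j ^ 2 * (l2 ^ 2 + x ^ 2)) * (l1 ^ 2 + x ^ 2) := by
      ring
    rw [e1, hk, hj]; ring
  have hP : 0 < (l1 ^ 2 + x ^ 2) * (l2 ^ 2 + x ^ 2) := by
    have := hl1.1; have := hl2.1; positivity
  have hP25 : (l1 ^ 2 + x ^ 2) * (l2 ^ 2 + x ^ 2) ≤ 25 := by
    have a1 : l1 ^ 2 + x ^ 2 ≤ 5 := by nlinarith [hl1.1, hl1.2, hx.1, hx.2]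
    have a2 : l2 ^ 2 + x ^ 2 ≤ 5 := by nlinarith [hl2.1, hl2.2, hx.1, hx.2]
    calc _ ≤ (5:ℝ) * 5 := mul_le_mul a1 a2 (by positivity) (by norm_num)
      _ = 25 := by norm_num
  have key2 : |k ^ 2 - j ^ 2| * ((l1 ^ 2 + x ^ 2) * (l2 ^ 2 + x ^ 2)) =
      |l1 - l2| * |y ^ 2 - x ^ 2| * (l1 + l2) := by
    calc |k ^ 2 - j ^ 2| * ((l1 ^ 2 + x ^ 2) * (l2 ^ 2 + x ^ 2))
        = |(k ^ 2 - j ^ 2) * ((l1 ^ 2 + x ^ 2) * (l2 ^ 2 + x ^ 2))| := by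
          rw [abs_mul (k ^ 2 - j ^ 2), abs_of_pos hP]
      _ = |(l2 - l1) * (y ^ 2 - x ^ 2) * (l1 + l2)| := by rw [key]
      _ = |l1 - l2| * |y ^ 2 - x ^ 2| * (l1 + l2) := by
          rw [abs_mul, abs_mul, abs_of_pos (by linarith [hl1.1, hl2.1] : 0 < l1 + l2),
            abs_sub_comm l2 l1]
  have hs : 2 ≤ l1 + l2 := by linarith [hl1.1, hl2.1]
  have hA : 0 ≤ |l1 - l2| * |y ^ 2 - x ^ 2| := by positivity
  have e2 : |l1 - l2| * |y ^ 2 - x ^ 2| * 2 ≤ |k ^ 2 - j ^ 2| * 25 := by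
    calc |l1 - l2| * |y ^ 2 - x ^ 2| * 2 ≤ |l1 - l2| * |y ^ 2 - x ^ 2| * (l1 + l2) :=
        mul_le_mul_of_nonneg_left hs hA
      _ = |k ^ 2 - j ^ 2| * ((l1 ^ 2 + x ^ 2) * (l2 ^ 2 + x ^ 2)) := key2.symm
      _ ≤ |k ^ 2 - j ^ 2| * 25 := mul_le_mul_of_nonneg_left hP25 (abs_nonneg _)
  have hN1 : 0 ≤ N + 1 := by linarith
  have e3 := mul_le_mul_of_nonneg_right e2 hN1
  nlinarith

private lemma KS_vol {x y : ℝ} (hx : x ∈ Set.Icc (0:ℝ) 1) (hy : y ∈ Set.Icc (0:ℝ) 1)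
    (hxy : x ≠ y) (p : ℕ × ℕ) :
    volume (KS x y p) ≤
      ENNReal.ofReal (1000 / |y ^ 2 - x ^ 2| / (((max p.1 p.2 : ℕ) : ℝ) + 1)) := by
  have hne : 0 < |y ^ 2 - x ^ 2| := by
    rw [abs_pos]
    intro h
    have h' : (y - x) * (y + x) = 0 := by linarith [h]
    rcases mul_eq_zero.1 h' with h' | h'
    · exact hxy (by linarith)
    · have := hx.1; have := hy.1
      exact hxy (by linarith)
  refine (Real.volume_le_diam _).trans ?_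
  apply Metric.ediam_le
  intro l1 h1 l2 h2
  rw [edist_dist, Real.dist_eq]
  apply ENNReal.ofReal_le_ofReal
  have := KS_diam hx hy h1 h2
  rw [le_div_iff₀ (by positivity), le_div_iff₀ hne]
  linarith

/-- summation over dyadic blocks -/
private lemma sum_fin (a b : ℕ → ℝ) (ha : ∀ n, 0 ≤ a n) (hb : ∀ n, 0 ≤ b n) (C : ℝ)
    (hA : ∀ L : ℕ, ∑ n ∈ Finset.range (BB ^ L), a n ≤ C * 2 ^ (45 * L))
    (hB : ∀ L : ℕ, ∑ n ∈ Finset.range (BB ^ L), b n ≤ C * 2 ^ (45 * L)) (c : ℝ) (hc : 0 ≤ c) :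
    ∑' p : ℕ × ℕ, ENNReal.ofReal (a p.1 * b p.2) *
      ENNReal.ofReal (c / (((max p.1 p.2 : ℕ) : ℝ) + 1)) < ∞ := by
  have hBB : (BB : ℝ) = 2 ^ 100 := by norm_num [BB]
  have hBB1 : 1 < BB := by unfold BB; exact Nat.one_lt_two_pow (by norm_num)
  have hC : 0 ≤ C := by
    have := hA 0
    simp at this
    linarith [ha 0]
  -- bound each term by a sum over levels
  have step : ∀ p : ℕ × ℕ, ENNReal.ofReal (a p.1 * b p.2) *
      ENNReal.ofReal (c / (((max p.1 p.2 : ℕ) : ℝ) + 1)) ≤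
      ∑' L : ℕ, (if p ∈ Finset.range (BB ^ (L + 1)) ×ˢ Finset.range (BB ^ (L + 1)) then
        ENNReal.ofReal (a p.1 * b p.2 * (c / (BB : ℝ) ^ L)) else 0) := by
    intro p
    set N := max p.1 p.2 with hN
    set L := Nat.log BB (N + 1) with hL
    have h1 : BB ^ L ≤ N + 1 := Nat.pow_log_le_self BB (by omega)
    have h2 : N + 1 < BB ^ (L + 1) := Nat.lt_pow_succ_log_self hBB1 _
    refine le_trans ?_ (ENNReal.le_tsum L)
    have hmem : p ∈ Finset.range (BB ^ (L + 1)) ×ˢ Finset.range (BB ^ (L + 1)) := by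
      rw [Finset.mem_product, Finset.mem_range, Finset.mem_range]
      have := le_max_left p.1 p.2
      have := le_max_right p.1 p.2
      omega
    rw [if_pos hmem, ← ENNReal.ofReal_mul (mul_nonneg (ha _) (hb _))]
    apply ENNReal.ofReal_le_ofReal
    apply mul_le_mul_of_nonneg_left _ (mul_nonneg (ha _) (hb _))
    apply div_le_div_of_nonneg_left hc
    · have : 0 < BB := BB_pos
      positivity
    · exact_mod_cast h1
  refine (ENNReal.tsum_le_tsum step).trans_lt ?_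
  rw [ENNReal.tsum_comm]
  have lev : ∀ L : ℕ, ∑' p : ℕ × ℕ, (if p ∈ Finset.range (BB ^ (L + 1)) ×ˢ
      Finset.range (BB ^ (L + 1)) then
        ENNReal.ofReal (a p.1 * b p.2 * (c / (BB : ℝ) ^ L)) else 0) ≤
      ENNReal.ofReal (c * C ^ 2 * 2 ^ 90 * (1 / 2 ^ 10) ^ L) := by
    intro L
    have hBpos : (0:ℝ) < (BB : ℝ) ^ L := by rw [hBB]; positivity
    rw [tsum_eq_sum (s := Finset.range (BB ^ (L + 1)) ×ˢ Finset.range (BB ^ (L + 1)))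
      (fun p hp => if_neg hp)]
    rw [Finset.sum_congr rfl (fun p hp => if_pos hp)]
    rw [← ENNReal.ofReal_sum_of_nonneg (fun p _ => mul_nonneg (mul_nonneg (ha _) (hb _))
      (div_nonneg hc hBpos.le))]
    apply ENNReal.ofReal_le_ofReal
    rw [← Finset.sum_mul, Finset.sum_product, ← Finset.sum_mul_sum]
    have h1 := hA (L + 1)
    have h2 := hB (L + 1)
    have h3 : (∑ i ∈ Finset.range (BB ^ (L + 1)), a i) * (∑ j ∈ Finset.range (BB ^ (L + 1)), b j) ≤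
        (C * 2 ^ (45 * (L + 1))) * (C * 2 ^ (45 * (L + 1))) :=
      mul_le_mul h1 h2 (Finset.sum_nonneg fun _ _ => hb _) (by positivity)
    calc _ ≤ (C * 2 ^ (45 * (L + 1))) * (C * 2 ^ (45 * (L + 1))) * (c / (BB : ℝ) ^ L) :=
          mul_le_mul_of_nonneg_right h3 (div_nonneg hc hBpos.le)
      _ = c * C ^ 2 * 2 ^ 90 * (1 / 2 ^ 10) ^ L := by
        rw [hBB]
        have e1 : ((2:ℝ) ^ (45 * (L + 1))) * (2 ^ (45 * (L + 1))) = 2 ^ 90 * 2 ^ (90 * L) := by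
          rw [← pow_add, ← pow_add]; congr 1; ring
        have e2 : ((2:ℝ) ^ 100) ^ L = 2 ^ (90 * L) * 2 ^ (10 * L) := by
          rw [← pow_mul, ← pow_add]; congr 1; ring
        have e3 : ((1:ℝ) / 2 ^ 10) ^ L = 1 / 2 ^ (10 * L) := by
          rw [div_pow, one_pow, ← pow_mul]
        have e4 : C * 2 ^ (45 * (L + 1)) * (C * 2 ^ (45 * (L + 1))) =
          C ^ 2 * (((2:ℝ) ^ (45 * (L + 1))) * (2 ^ (45 * (L + 1)))) := by ring
        rw [e2, e3, e4, e1]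
        have : (2:ℝ) ^ (90 * L) ≠ 0 := by positivity
        have : (2:ℝ) ^ (10 * L) ≠ 0 := by positivity
        field_simp
  refine (ENNReal.tsum_le_tsum lev).trans_lt ?_
  have hs : Summable (fun L : ℕ => c * C ^ 2 * 2 ^ 90 * ((1:ℝ) / 2 ^ 10) ^ L) :=
    (summable_geometric_of_lt_one (by norm_num) (by norm_num)).mul_left _
  rw [← ENNReal.ofReal_tsum_of_nonneg (fun L => by positivity) hs]
  exact ENNReal.ofReal_lt_top

theorem lamAvg (x y : ℝ) (hx : x ∈ Set.Icc (0:ℝ) 1) (hy : y ∈ Set.Icc (0:ℝ) 1) (hxy : x ≠ y)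
    (a b : ℕ → ℝ) (ha : ∀ n, 0 ≤ a n) (hb : ∀ n, 0 ≤ b n) (C : ℝ)
    (hA : ∀ L : ℕ, ∑ n ∈ Finset.range (BB ^ L), a n ≤ C * 2 ^ (45 * L))
    (hB : ∀ L : ℕ, ∑ n ∈ Finset.range (BB ^ L), b n ≤ C * 2 ^ (45 * L)) :
    ∫⁻ lam in Set.Icc (1:ℝ) 2, ∫⁻ t in Set.Ioi (0:ℝ),
      ENNReal.ofReal (a ⌊t / √(lam ^ 2 + x ^ 2)⌋₊ * b ⌊t / √(lam ^ 2 + y ^ 2)⌋₊) < ∞ := by
  set c : ℝ := 1000 / |y ^ 2 - x ^ 2| with hc
  have hc0 : 0 ≤ c := by positivity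
  have inner : ∀ lam ∈ Set.Icc (1:ℝ) 2, ∫⁻ t in Set.Ioi (0:ℝ),
      ENNReal.ofReal (a ⌊t / √(lam ^ 2 + x ^ 2)⌋₊ * b ⌊t / √(lam ^ 2 + y ^ 2)⌋₊) ≤
      ∑' p : ℕ × ℕ, (toMeasurable volume (KS x y p)).indicator
        (fun _ => ENNReal.ofReal (a p.1 * b p.2) * 3) lam := by
    intro lam hl
    obtain ⟨r1, r2⟩ := sqrt_bounds hx hl
    have hrpos : 0 < √(lam ^ 2 + x ^ 2) := by linarith
    have hb1 : ∀ t : ℝ, ENNReal.ofReal (a ⌊t / √(lam ^ 2 + x ^ 2)⌋₊ *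
        b ⌊t / √(lam ^ 2 + y ^ 2)⌋₊) ≤
        ∑' p : ℕ × ℕ, {t : ℝ | ⌊t / √(lam ^ 2 + x ^ 2)⌋₊ = p.1 ∧
          ⌊t / √(lam ^ 2 + y ^ 2)⌋₊ = p.2}.indicator
          (fun _ => ENNReal.ofReal (a p.1 * b p.2)) t := by
      intro t
      refine le_trans ?_ (ENNReal.le_tsum (⌊t / √(lam ^ 2 + x ^ 2)⌋₊, ⌊t / √(lam ^ 2 + y ^ 2)⌋₊))
      rw [Set.indicator_of_mem]
      exact ⟨rfl, rfl⟩
    have hmeas : ∀ p : ℕ × ℕ, MeasurableSet {t : ℝ | ⌊t / √(lam ^ 2 + x ^ 2)⌋₊ = p.1 ∧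
          ⌊t / √(lam ^ 2 + y ^ 2)⌋₊ = p.2} := by
      intro p
      have m1 : Measurable (fun t : ℝ => ⌊t / √(lam ^ 2 + x ^ 2)⌋₊) :=
        Nat.measurable_floor.comp (measurable_id.div_const _)
      have m2 : Measurable (fun t : ℝ => ⌊t / √(lam ^ 2 + y ^ 2)⌋₊) :=
        Nat.measurable_floor.comp (measurable_id.div_const _)
      exact (m1 (measurableSet_singleton p.1)).inter (m2 (measurableSet_singleton p.2))
    refine (lintegral_mono hb1).trans ?_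
    rw [lintegral_tsum (fun p => (measurable_const.indicator (hmeas p)).aemeasurable)]
    apply ENNReal.tsum_le_tsum
    intro p
    rw [lintegral_indicator_const (hmeas p), Measure.restrict_apply (hmeas p)]
    by_cases hK : lam ∈ KS x y p
    · rw [Set.indicator_of_mem (subset_toMeasurable _ _ hK)]
      gcongr
      have hsub : {t : ℝ | ⌊t / √(lam ^ 2 + x ^ 2)⌋₊ = p.1 ∧
          ⌊t / √(lam ^ 2 + y ^ 2)⌋₊ = p.2} ∩ Set.Ioi 0 ⊆
          Set.Icc (p.1 * √(lam ^ 2 + x ^ 2)) ((p.1 + 1) * √(lam ^ 2 + x ^ 2)) := by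
        rintro t ⟨⟨h1, h2⟩, ht⟩
        have ht : 0 < t := ht
        have hu1 := Nat.floor_le (show 0 ≤ t / √(lam ^ 2 + x ^ 2) by positivity)
        have hu2 := Nat.lt_floor_add_one (t / √(lam ^ 2 + x ^ 2))
        rw [h1] at hu1 hu2
        rw [le_div_iff₀ hrpos] at hu1
        rw [div_lt_iff₀ hrpos] at hu2
        exact ⟨hu1, hu2.le⟩
      refine (measure_mono hsub).trans ?_
      rw [Real.volume_Icc, show ((p.1 : ℝ) + 1) * √(lam ^ 2 + x ^ 2) - p.1 * √(lam ^ 2 + x ^ 2) =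
        √(lam ^ 2 + x ^ 2) by ring]
      calc ENNReal.ofReal (√(lam ^ 2 + x ^ 2)) ≤ ENNReal.ofReal 3 := ENNReal.ofReal_le_ofReal r2
        _ = 3 := by norm_num
    · have hemp : {t : ℝ | ⌊t / √(lam ^ 2 + x ^ 2)⌋₊ = p.1 ∧
          ⌊t / √(lam ^ 2 + y ^ 2)⌋₊ = p.2} ∩ Set.Ioi 0 = ∅ := by
        rw [Set.eq_empty_iff_forall_notMem]
        rintro t ⟨⟨h1, h2⟩, ht⟩
        exact hK ⟨hl, t, ht, h1, h2⟩
      rw [hemp, measure_empty, mul_zero]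
      exact bot_le
  calc ∫⁻ lam in Set.Icc (1:ℝ) 2, ∫⁻ t in Set.Ioi (0:ℝ),
      ENNReal.ofReal (a ⌊t / √(lam ^ 2 + x ^ 2)⌋₊ * b ⌊t / √(lam ^ 2 + y ^ 2)⌋₊)
      ≤ ∫⁻ lam in Set.Icc (1:ℝ) 2, ∑' p : ℕ × ℕ, (toMeasurable volume (KS x y p)).indicator
        (fun _ => ENNReal.ofReal (a p.1 * b p.2) * 3) lam :=
        setLIntegral_mono' measurableSet_Icc inner
    _ ≤ ∫⁻ lam, ∑' p : ℕ × ℕ, (toMeasurable volume (KS x y p)).indicator
        (fun _ => ENNReal.ofReal (a p.1 * b p.2) * 3) lam := setLIntegral_le_lintegral _ _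
    _ = ∑' p : ℕ × ℕ, ∫⁻ lam, (toMeasurable volume (KS x y p)).indicator
        (fun _ => ENNReal.ofReal (a p.1 * b p.2) * 3) lam :=
        lintegral_tsum (fun p => (measurable_const.indicator
          (measurableSet_toMeasurable _ _)).aemeasurable)
    _ ≤ ∑' p : ℕ × ℕ, ENNReal.ofReal (a p.1 * b p.2) *
      ENNReal.ofReal ((3 * c) / (((max p.1 p.2 : ℕ) : ℝ) + 1)) := by
        apply ENNReal.tsum_le_tsum
        intro p
        rw [lintegral_indicator_const (measurableSet_toMeasurable _ _), measure_toMeasurable,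
          mul_assoc]
        gcongr
        have h3 : ENNReal.ofReal ((3 * c) / (((max p.1 p.2 : ℕ) : ℝ) + 1)) =
            3 * ENNReal.ofReal (c / (((max p.1 p.2 : ℕ) : ℝ) + 1)) := by
          rw [mul_div_assoc, ENNReal.ofReal_mul (by norm_num)]
          norm_num
        rw [h3]
        gcongr
        exact KS_vol hx hy hxy p
    _ < ∞ := sum_fin a b ha hb C hA hB (3 * c) (by positivity)

end PFS
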