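import Pool.Agent.PFS.Count
import Pool.Agent.PFS.Model
import Pool.Agent.PFS.LamAvg

/-! # PFS module Exist: existence of good parameters `λ, E, E'` -/

open MeasureTheory Topology Filter
open scoped ENNReal

namespace PFS

namespace ExistAux

attribute [local irreducible] CC KK cc

/-- integrand -/
noncomputable def G {M : ℕ} (p : ℝ × (Fin M → ℝ) × (Fin M → ℝ)) (a : ℝ × ℝ) (t : ℝ) : ℝ≥0∞ :=
  ENNReal.ofReal ((CC p.2.1 a.1 (t / √(p.1 ^ 2 + a.1 ^ 2)) *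
    CC p.2.2 a.2 (t / √(p.1 ^ 2 + a.2 ^ 2))) ^ 2)

theorem measurable_G (M : ℕ) : Measurable
    (fun x : ((ℝ × (Fin M → ℝ) × (Fin M → ℝ)) × (ℝ × ℝ)) × ℝ => G x.1.1 x.1.2 x.2) := by
  unfold G
  refine ENNReal.measurable_ofReal.comp (Measurable.pow_const (Measurable.mul ?_ ?_) 2)
  · have h1 : Measurable (fun x : ((ℝ × (Fin M → ℝ) × (Fin M → ℝ)) × (ℝ × ℝ)) × ℝ =>
        (x.1.1.2.1, x.1.2.1, x.2 / √(x.1.1.1 ^ 2 + x.1.2.1 ^ 2))) := by fun_prop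
    exact (measurable_CC M).comp h1
  · have h1 : Measurable (fun x : ((ℝ × (Fin M → ℝ) × (Fin M → ℝ)) × (ℝ × ℝ)) × ℝ =>
        (x.1.1.2.2, x.1.2.2, x.2 / √(x.1.1.1 ^ 2 + x.1.2.2 ^ 2))) := by fun_prop
    exact (measurable_CC M).comp h1

theorem integrable_cc_sq (M : ℕ) (α : ℝ) (m : ℤ) :
    Integrable (fun e => cc e α m ^ 2) (EM M) := by
  have hP := isProbabilityMeasure_EM M
  have hm : Measurable (fun e : Fin M → ℝ => cc e α m) :=
    (measurable_cc M m).comp (by fun_prop : Measurable fun e : Fin M → ℝ => (e, α))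
  refine Integrable.of_bound (hm.pow_const 2).aestronglyMeasurable 1
    (Filter.Eventually.of_forall fun e => ?_)
  have h := abs_cc_le_one e α m
  rw [Real.norm_eq_abs, abs_pow]
  exact pow_le_one₀ (abs_nonneg _) h

theorem lint_CC {M : ℕ} (hM : Even M) (α h : ℝ) (hh : 0 ≤ h) :
    ∫⁻ e, ENNReal.ofReal (CC e α h ^ 2) ∂(EM M) ≤
      ENNReal.ofReal (KK M ⌊h⌋₊ α + KK M (⌊h⌋₊ + 1) α) := by
  have hfl : ((⌊h⌋₊ : ℕ) : ℤ) = ⌊h⌋ := Int.natCast_floor_eq_floor hh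
  have hpt : ∀ e : Fin M → ℝ, CC e α h ^ 2 ≤
      cc e α ((⌊h⌋₊ : ℕ) : ℤ) ^ 2 + cc e α ((⌊h⌋₊ + 1 : ℕ) : ℤ) ^ 2 := by
    intro e
    have e1 : ((⌊h⌋₊ + 1 : ℕ) : ℤ) = ⌊h⌋ + 1 := by push_cast; rw [hfl]
    rw [e1, hfl, CC_eq]
    have h0 := Int.fract_nonneg h
    have h1 := (Int.fract_lt_one h).le
    generalize Int.fract h = ρ at *
    generalize cc e α ⌊h⌋ = x
    generalize cc e α (⌊h⌋ + 1) = y
    nlinarith [mul_nonneg (mul_nonneg h0 (sub_nonneg.mpr h1)) (sq_nonneg (x - y)),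
      mul_nonneg h0 (sq_nonneg x), mul_nonneg (sub_nonneg.mpr h1) (sq_nonneg y)]
  have hi : Integrable (fun e => cc e α ((⌊h⌋₊ : ℕ) : ℤ) ^ 2 + cc e α ((⌊h⌋₊ + 1 : ℕ) : ℤ) ^ 2)
      (EM M) := (integrable_cc_sq M α ((⌊h⌋₊ : ℕ) : ℤ)).add
    (integrable_cc_sq M α ((⌊h⌋₊ + 1 : ℕ) : ℤ))
  calc ∫⁻ e, ENNReal.ofReal (CC e α h ^ 2) ∂(EM M)
      ≤ ∫⁻ e, ENNReal.ofReal (cc e α ((⌊h⌋₊ : ℕ) : ℤ) ^ 2 + cc e α ((⌊h⌋₊ + 1 : ℕ) : ℤ) ^ 2)
          ∂(EM M) := lintegral_mono fun e => ENNReal.ofReal_le_ofReal (hpt e)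
    _ = ENNReal.ofReal (∫ e, (cc e α ((⌊h⌋₊ : ℕ) : ℤ) ^ 2 + cc e α ((⌊h⌋₊ + 1 : ℕ) : ℤ) ^ 2)
          ∂(EM M)) := by
        rw [ofReal_integral_eq_lintegral_ofReal hi
          (Filter.Eventually.of_forall fun e => by positivity)]
    _ = _ := by
        rw [integral_add (integrable_cc_sq M α _) (integrable_cc_sq M α _), expect hM, expect hM]

theorem key {M : ℕ} (hM : Even M) (a : ℝ × ℝ) (h1 : a.1 ∈ Set.Icc (0:ℝ) 1)
    (h2 : a.2 ∈ Set.Icc (0:ℝ) 1) (h12 : a.1 ≠ a.2)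
    (hA : ∃ C : ℝ, 0 ≤ C ∧ ∀ L : ℕ, ∑ n ∈ Finset.range (BB ^ L), KK M n a.1 ≤ C * 2 ^ (45 * L))
    (hB : ∃ C : ℝ, 0 ≤ C ∧ ∀ L : ℕ, ∑ n ∈ Finset.range (BB ^ L), KK M n a.2 ≤ C * 2 ^ (45 * L)) :
    ∫⁻ p, (∫⁻ t in Set.Ioi (0:ℝ), G p a t)
      ∂((volume.restrict (Set.Icc (1:ℝ) 2)).prod ((EM M).prod (EM M))) < ∞ := by
  have hP := isProbabilityMeasure_EM M
  obtain ⟨C1, hC1, hA⟩ := hA
  obtain ⟨C2, hC2, hB⟩ := hB
  have hsum : ∀ (x C : ℝ), 0 ≤ C →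
      (∀ L : ℕ, ∑ n ∈ Finset.range (BB ^ L), KK M n x ≤ C * 2 ^ (45 * L)) →
      ∀ L : ℕ, ∑ n ∈ Finset.range (BB ^ L), (KK M n x + KK M (n + 1) x) ≤
        (C * (1 + 2 ^ 45)) * 2 ^ (45 * L) := by
    intro x C hC h L
    rw [Finset.sum_add_distrib]
    have e1 : ∑ n ∈ Finset.range (BB ^ L), KK M (n + 1) x ≤
        ∑ n ∈ Finset.range (BB ^ (L + 1)), KK M n x := by
      calc ∑ n ∈ Finset.range (BB ^ L), KK M (n + 1) x
          ≤ ∑ n ∈ Finset.range (BB ^ L), KK M (n + 1) x + KK M 0 x := by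
            linarith [KK_nonneg hM 0 x]
        _ = ∑ n ∈ Finset.range (BB ^ L + 1), KK M n x := (Finset.sum_range_succ' (fun n => KK M n x) _).symm
        _ ≤ _ := by
            apply Finset.sum_le_sum_of_subset_of_nonneg
            · apply Finset.range_mono
              have hb := one_le_BB_pow L
              have h2 : 2 ≤ BB := by
                unfold BB
                calc 2 = 2 ^ 1 := by norm_num
                  _ ≤ 2 ^ 100 := Nat.pow_le_pow_right (by norm_num) (by norm_num)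
              rw [pow_succ]
              nlinarith
            · intro i _ _
              exact KK_nonneg hM i x
    have e2 := h (L + 1)
    have e3 := h L
    have e4 : (2:ℝ) ^ (45 * (L + 1)) = 2 ^ (45 * L) * 2 ^ 45 := by rw [← pow_add]; ring_nf
    rw [e4] at e2
    have e5 : (0:ℝ) < 2 ^ (45 * L) := by positivity
    nlinarith
  have hA' : ∀ L : ℕ, ∑ n ∈ Finset.range (BB ^ L), (KK M n a.1 + KK M (n + 1) a.1) ≤
      (max (C1 * (1 + 2 ^ 45)) (C2 * (1 + 2 ^ 45))) * 2 ^ (45 * L) := fun L =>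
    (hsum _ C1 hC1 hA L).trans (by gcongr; exact le_max_left _ _)
  have hB' : ∀ L : ℕ, ∑ n ∈ Finset.range (BB ^ L), (KK M n a.2 + KK M (n + 1) a.2) ≤
      (max (C1 * (1 + 2 ^ 45)) (C2 * (1 + 2 ^ 45))) * 2 ^ (45 * L) := fun L =>
    (hsum _ C2 hC2 hB L).trans (by gcongr; exact le_max_right _ _)
  have hmain := lamAvg a.1 a.2 h1 h2 h12 (fun n => KK M n a.1 + KK M (n + 1) a.1)
    (fun n => KK M n a.2 + KK M (n + 1) a.2)
    (fun n => add_nonneg (KK_nonneg hM _ _) (KK_nonneg hM _ _))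
    (fun n => add_nonneg (KK_nonneg hM _ _) (KK_nonneg hM _ _)) _ hA' hB'
  refine lt_of_le_of_lt ?_ hmain
  have hmeas := measurable_G M
  rw [lintegral_prod]
  swap
  · have : Measurable (fun x : (ℝ × (Fin M → ℝ) × (Fin M → ℝ)) × ℝ => G x.1 a x.2) :=
      hmeas.comp (by fun_prop : Measurable fun x : (ℝ × (Fin M → ℝ) × (Fin M → ℝ)) × ℝ =>
        ((x.1, a), x.2))
    exact this.lintegral_prod_right'.aemeasurable
  refine lintegral_mono fun lam => ?_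
  rw [lintegral_lintegral_swap]
  swap
  · have : Measurable (fun x : ((Fin M → ℝ) × (Fin M → ℝ)) × ℝ => G (lam, x.1) a x.2) :=
      hmeas.comp (by fun_prop : Measurable fun x : ((Fin M → ℝ) × (Fin M → ℝ)) × ℝ =>
        (((lam, x.1), a), x.2))
    exact this.aemeasurable
  refine setLIntegral_mono' measurableSet_Ioi fun t ht => ?_
  have ht' : (0:ℝ) < t := ht
  have hs1 : 0 ≤ t / √(lam ^ 2 + a.1 ^ 2) := by positivity
  have hs2 : 0 ≤ t / √(lam ^ 2 + a.2 ^ 2) := by positivity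
  have hG : ∀ q : (Fin M → ℝ) × (Fin M → ℝ), G (lam, q) a t =
      ENNReal.ofReal (CC q.1 a.1 (t / √(lam ^ 2 + a.1 ^ 2)) ^ 2) *
      ENNReal.ofReal (CC q.2 a.2 (t / √(lam ^ 2 + a.2 ^ 2)) ^ 2) := by
    intro q
    unfold G
    rw [mul_pow, ENNReal.ofReal_mul (by positivity)]
  simp_rw [hG]
  have hm : ∀ x y : ℝ, Measurable (fun e : Fin M → ℝ => ENNReal.ofReal (CC e x y ^ 2)) := by
    intro x y
    refine ENNReal.measurable_ofReal.comp (Measurable.pow_const ?_ 2)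
    exact (measurable_CC M).comp (by fun_prop : Measurable fun e : Fin M → ℝ => (e, x, y))
  rw [lintegral_prod_mul (f := fun e : Fin M → ℝ =>
      ENNReal.ofReal (CC e a.1 (t / √(lam ^ 2 + a.1 ^ 2)) ^ 2))
    (g := fun e : Fin M → ℝ => ENNReal.ofReal (CC e a.2 (t / √(lam ^ 2 + a.2 ^ 2)) ^ 2))
    (hm _ _).aemeasurable (hm _ _).aemeasurable]
  rw [ENNReal.ofReal_mul (add_nonneg (KK_nonneg hM _ _) (KK_nonneg hM _ _))]
  exact mul_le_mul' (lint_CC hM _ _ hs1) (lint_CC hM _ _ hs2)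

theorem ae_ne (x : ℝ) : ∀ᵐ y ∂(volume.restrict (Set.Icc (0:ℝ) 1)), y ≠ x := by
  apply ae_restrict_of_ae
  have : (volume : Measure ℝ) {x} = 0 := by simp
  exact compl_mem_ae_iff.mpr this

theorem ae_Ioo : ∀ᵐ y ∂(volume.restrict (Set.Icc (0:ℝ) 1)), y ∈ Set.Ioo (0:ℝ) 1 := by
  filter_upwards [ae_ne 0, ae_ne 1, ae_restrict_mem measurableSet_Icc] with y h0 h1 h
  exact ⟨lt_of_le_of_ne h.1 (Ne.symm h0), lt_of_le_of_ne h.2 h1⟩

theorem ae_eval {M : ℕ} {q : ℝ → Prop} (h : ∀ᵐ y ∂(volume.restrict (Set.Icc (0:ℝ) 1)), q y) :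
    ∀ᵐ e ∂(EM M), ∀ j, q (e j) := by
  rw [ae_all_iff]
  intro j
  exact (Measure.tendsto_eval_ae_ae (μ := fun _ : Fin M => volume.restrict (Set.Icc (0:ℝ) 1))
    (i := j)).eventually h

theorem ae_inj (M : ℕ) : ∀ᵐ e ∂(EM M), Function.Injective e := by
  have h1 : ∀ i j : Fin M, i ≠ j → ∀ᵐ e ∂(EM M), e i ≠ e j := by
    intro i j hij
    have hac : EM M ≪ (volume : Measure (Fin M → ℝ)) := by
      unfold EM
      rw [← Measure.restrict_pi_pi]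
      exact Measure.restrict_le_self.absolutelyContinuous
    apply hac.ae_le
    have h2 : (volume : Measure (Fin M → ℝ))
        ((LinearMap.ker (LinearMap.proj (R := ℝ) (φ := fun _ : Fin M => ℝ) i -
          LinearMap.proj j) : Submodule ℝ (Fin M → ℝ)) : Set (Fin M → ℝ)) = 0 := by
      apply Measure.addHaar_submodule
      intro htop
      have h3 : (Pi.single i 1 : Fin M → ℝ) ∈ (⊤ : Submodule ℝ (Fin M → ℝ)) := trivial
      rw [← htop, LinearMap.mem_ker] at h3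
      simp [hij.symm] at h3
    filter_upwards [compl_mem_ae_iff.mpr h2] with e he heq
    apply he
    simp [LinearMap.mem_ker, heq]
  have h2 : ∀ᵐ e ∂(EM M), ∀ i j : Fin M, i ≠ j → e i ≠ e j := by
    rw [ae_all_iff]; intro i
    rw [ae_all_iff]; intro j
    by_cases hij : i = j
    · exact Filter.Eventually.of_forall fun e h => absurd hij h
    · filter_upwards [h1 i j hij] with e he _
      exact he
  filter_upwards [h2] with e he i j hij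
  by_contra hne
  exact he i j hne hij

end ExistAux

open ExistAux

attribute [local irreducible] CC KK cc

theorem exist : ∃ (M : ℕ) (lam : ℝ) (e e' : Fin M → ℝ), 0 < M ∧ Even M ∧ 1 ≤ lam ∧ lam ≤ 2 ∧
    Function.Injective e ∧ Function.Injective e' ∧ (∀ j, e j ∈ Set.Ioo (0:ℝ) 1) ∧
    (∀ j, e' j ∈ Set.Ioo (0:ℝ) 1) ∧ (∀ i j, e i ≠ e' j) ∧
    ∀ᵐ a : ℝ × ℝ ∂(volume.restrict (Set.Icc (0:ℝ) 1 ×ˢ Set.Icc (0:ℝ) 1)),
      ∫⁻ t in Set.Ioi (0:ℝ), ENNReal.ofReal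
        ((CC e a.1 (t / √(lam ^ 2 + a.1 ^ 2)) * CC e' a.2 (t / √(lam ^ 2 + a.2 ^ 2))) ^ 2) < ∞ := by
  obtain ⟨M, hM0, hMe, hcount⟩ := count
  have hP := isProbabilityMeasure_EM M
  set A : Measure (ℝ × ℝ) := volume.restrict (Set.Icc (0:ℝ) 1 ×ˢ Set.Icc (0:ℝ) 1) with hA
  have hA' : A = (volume.restrict (Set.Icc (0:ℝ) 1)).prod (volume.restrict (Set.Icc (0:ℝ) 1)) := by
    rw [hA, Measure.prod_restrict]
    rfl
  set Λ : Measure ℝ := volume.restrict (Set.Icc (1:ℝ) 2) with hΛ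
  -- the good pairs
  have hgood : ∀ᵐ a ∂A, ∫⁻ p, (∫⁻ t in Set.Ioi (0:ℝ), G p a t) ∂(Λ.prod ((EM M).prod (EM M))) < ∞ := by
    have g1 : ∀ᵐ a ∂A, ∃ L0 : ℕ, ∀ L ≥ L0, 10 * irr a.1 L < L := by
      rw [hA']
      exact Measure.quasiMeasurePreserving_fst.ae irr_ae
    have g2 : ∀ᵐ a ∂A, ∃ L0 : ℕ, ∀ L ≥ L0, 10 * irr a.2 L < L := by
      rw [hA']
      exact Measure.quasiMeasurePreserving_snd.ae irr_ae
    have g3 : ∀ᵐ a ∂A, a.1 ≠ a.2 := by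
      rw [hA', Measure.ae_prod_iff_ae_ae]
      · refine Filter.Eventually.of_forall fun x => ?_
        filter_upwards [ae_ne x] with y hy
        exact fun h => hy h.symm
      · exact (measurableSet_eq_fun measurable_fst measurable_snd).compl
    have g4 : ∀ᵐ a ∂A, a ∈ Set.Icc (0:ℝ) 1 ×ˢ Set.Icc (0:ℝ) 1 :=
      ae_restrict_mem (measurableSet_Icc.prod measurableSet_Icc)
    filter_upwards [g1, g2, g3, g4] with a h1 h2 h3 h4
    exact key hMe a h4.1 h4.2 h3 (hcount a.1 h1) (hcount a.2 h2)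
  have hmeas := measurable_G M
  have hmΦ : Measurable (fun x : (ℝ × (Fin M → ℝ) × (Fin M → ℝ)) × (ℝ × ℝ) =>
      ∫⁻ t in Set.Ioi (0:ℝ), G x.1 x.2 t) := hmeas.lintegral_prod_right'
  have h1 : ∀ᵐ a ∂A, ∀ᵐ p ∂(Λ.prod ((EM M).prod (EM M))), ∫⁻ t in Set.Ioi (0:ℝ), G p a t < ∞ := by
    filter_upwards [hgood] with a ha
    refine ae_lt_top ?_ ha.ne
    exact hmΦ.comp (by fun_prop : Measurable fun p : ℝ × (Fin M → ℝ) × (Fin M → ℝ) => (p, a))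
  have h2 : ∀ᵐ p ∂(Λ.prod ((EM M).prod (EM M))), ∀ᵐ a ∂A, ∫⁻ t in Set.Ioi (0:ℝ), G p a t < ∞ := by
    rw [Measure.ae_ae_comm] at h1
    · exact h1
    · have h3 : Measurable (fun x : (ℝ × ℝ) × (ℝ × (Fin M → ℝ) × (Fin M → ℝ)) =>
        ∫⁻ t in Set.Ioi (0:ℝ), G x.2 x.1 t) := hmΦ.comp measurable_swap
      exact measurableSet_lt h3 measurable_const
  have h3 : ∀ᵐ lam ∂Λ, ∀ᵐ q ∂((EM M).prod (EM M)), ∀ᵐ a ∂A,
      ∫⁻ t in Set.Ioi (0:ℝ), G (lam, q) a t < ∞ := Measure.ae_ae_of_ae_prod h2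
  have hΛ0 : (ae Λ).NeBot := by
    rw [ae_neBot, hΛ]
    intro h
    have h4 := congrArg (fun μ => μ Set.univ) h
    simp at h4
  obtain ⟨lam, hlam, hl⟩ := (h3.and (ae_restrict_mem measurableSet_Icc)).exists
  have h4 : ∀ᵐ e ∂(EM M), ∀ᵐ e' ∂(EM M), ∀ᵐ a ∂A,
      ∫⁻ t in Set.Ioi (0:ℝ), G (lam, e, e') a t < ∞ := Measure.ae_ae_of_ae_prod hlam
  obtain ⟨e, he, he1, he2⟩ := (h4.and ((ae_inj M).and (ae_eval (M := M) ae_Ioo))).exists
  have h5 : ∀ᵐ e' ∂(EM M), ∀ i j, e i ≠ e' j := by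
    rw [ae_all_iff]
    intro i
    filter_upwards [ae_eval (M := M) (ae_ne (e i))] with e' he' j
    exact (he' j).symm
  obtain ⟨e', he', he'1, he'2, he'3⟩ :=
    (he.and ((ae_inj M).and ((ae_eval (M := M) ae_Ioo).and h5))).exists
  exact ⟨M, lam, e, e', hM0, hMe, hl.1, hl.2, he1, he'1, he2, he'2, he'3, he'⟩

end PFS
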