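import Pool.Agent.PFS.Basic

/-! # PFS module Expect: the second moment of `c_n(α, E)` over random endpoints -/

open MeasureTheory Topology Filter
open scoped ENNReal

namespace PFS

namespace ExpectAux

/-- one factor of `chi` -/
noncomputable def g (ε x : ℝ) : ℝ := if ε ≤ Int.fract x then (-1 : ℝ) else 1

lemma abs_g (ε x : ℝ) : |g ε x| = 1 := by unfold g; split_ifs <;> simp

lemma chi_eq {M : ℕ} (e : Fin M → ℝ) (x : ℝ) : chi e x = ∏ j, g (e j) x := rfl

lemma abs_chi {M : ℕ} (e : Fin M → ℝ) (x : ℝ) : |chi e x| = 1 := by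
  rw [chi_eq, Finset.abs_prod]
  exact Finset.prod_eq_one fun j _ => abs_g _ _

lemma measurable_chi (M : ℕ) : Measurable (fun p : (Fin M → ℝ) × ℝ => chi p.1 p.2) := by
  unfold chi
  refine Finset.measurable_fun_prod _ fun j _ => ?_
  refine Measurable.ite ?_ measurable_const measurable_const
  exact measurableSet_le ((measurable_pi_apply j).comp measurable_fst)
    (measurable_fract.comp measurable_snd)

lemma measurable_g : Measurable (fun p : ℝ × ℝ => g p.1 p.2) := by
  unfold g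
  refine Measurable.ite ?_ measurable_const measurable_const
  exact measurableSet_le measurable_fst (measurable_fract.comp measurable_snd)

lemma g_eq {ε : ℝ} (h0 : 0 ≤ ε) (h1 : ε ≤ 1) (x : ℝ) : g ε x = -(eps x * eps (x - ε)) := by
  have hf0 := Int.fract_nonneg x
  have hf1 := Int.fract_lt_one x
  have hx : x = ⌊x⌋ + Int.fract x := (Int.floor_add_fract x).symm
  unfold g
  by_cases h : ε ≤ Int.fract x
  · have hfl : ⌊x - ε⌋ = ⌊x⌋ := by
      rw [Int.floor_eq_iff]
      constructor <;> linarith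
    rw [if_pos h]
    have : eps (x - ε) = eps x := by unfold eps; rw [hfl]
    rw [this, eps_sq]
  · push Not at h
    have hfl : ⌊x - ε⌋ = ⌊x⌋ - 1 := by
      rw [Int.floor_eq_iff]
      push_cast
      constructor <;> linarith
    rw [if_neg (not_le.2 h)]
    have : eps (x - ε) = - eps x := by
      rw [← eps_sub_one]
      unfold eps
      rw [hfl, Int.floor_sub_one]
    rw [this]
    have := eps_sq x
    linarith

end ExpectAux

open ExpectAux

/-- joint measurability of the signed products -/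
theorem measurable_Pz (M : ℕ) (m : ℤ) :
    Measurable (fun p : (Fin M → ℝ) × ℝ × ℝ => Pz p.1 p.2.1 p.2.2 m) := by
  unfold Pz
  have h : ∀ k : ℤ, Measurable (fun p : (Fin M → ℝ) × ℝ × ℝ => chi p.1 (p.2.2 + k * p.2.1)) := by
    intro k
    have := (measurable_chi M).comp (Measurable.prodMk
      (measurable_fst : Measurable (Prod.fst : (Fin M → ℝ) × ℝ × ℝ → _))
      ((measurable_snd.comp measurable_snd).add
        ((measurable_fst.comp measurable_snd).const_mul (k : ℝ)) :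
        Measurable (fun p : (Fin M → ℝ) × ℝ × ℝ => p.2.2 + k * p.2.1)))
    exact this
  exact (Finset.measurable_fun_prod _ fun k _ => h k).mul
    (Finset.measurable_fun_prod _ fun k _ => h k)

theorem ExpectAux.measurable_Pz' {γ : Type*} [MeasurableSpace γ] {M : ℕ} {E : γ → Fin M → ℝ}
    {A U : γ → ℝ} (hE : Measurable E) (hA : Measurable A) (hU : Measurable U) (m : ℤ) :
    Measurable (fun q => Pz (E q) (A q) (U q) m) := by
  have h := (measurable_Pz M m).comp (hE.prodMk (hA.prodMk hU))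
  simp only [Function.comp_def] at h
  exact h

theorem abs_Pz {M : ℕ} (e : Fin M → ℝ) (α u : ℝ) (m : ℤ) : |Pz e α u m| = 1 := by
  unfold Pz
  rw [abs_mul, Finset.abs_prod, Finset.abs_prod, Finset.prod_eq_one fun k _ => abs_chi _ _,
    Finset.prod_eq_one fun k _ => abs_chi _ _, one_mul]

theorem measurable_cc (M : ℕ) (m : ℤ) :
    Measurable (fun p : (Fin M → ℝ) × ℝ => cc p.1 p.2 m) := by
  unfold cc
  simp_rw [intervalIntegral.integral_of_le (zero_le_one (α := ℝ))]
  refine StronglyMeasurable.measurable ?_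
  refine StronglyMeasurable.integral_prod_right' (f := fun q : ((Fin M → ℝ) × ℝ) × ℝ =>
    Pz q.1.1 q.1.2 q.2 m) ?_
  exact (measurable_Pz' (measurable_fst.comp measurable_fst) (measurable_snd.comp measurable_fst)
    measurable_snd m).stronglyMeasurable

theorem abs_cc_le_one {M : ℕ} (e : Fin M → ℝ) (α : ℝ) (m : ℤ) : |cc e α m| ≤ 1 := by
  have h := intervalIntegral.norm_integral_le_of_norm_le_const (a := (0 : ℝ)) (b := 1)
    (f := fun u => Pz e α u m) (C := 1) (fun u _ => by rw [Real.norm_eq_abs, abs_Pz])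
  simpa [cc] using h

theorem isProbabilityMeasure_EM (M : ℕ) : IsProbabilityMeasure (EM M) := by
  have : IsProbabilityMeasure ((volume : Measure ℝ).restrict (Set.Icc (0:ℝ) 1)) :=
    ⟨by simp⟩
  unfold EM
  infer_instance

namespace ExpectAux

lemma abs_ff (α w : ℝ) (n : ℕ) (s : ℝ) : |ff α w n s| = 1 := by
  unfold ff
  rw [Finset.abs_prod]
  exact Finset.prod_eq_one fun j _ => by rw [abs_mul, abs_eps, abs_eps, one_mul]

lemma measurable_ff (n : ℕ) : Measurable (fun p : (ℝ × ℝ) × ℝ => ff p.1.1 p.1.2 n p.2) := by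
  unfold ff
  refine Finset.measurable_fun_prod _ fun k _ => ?_
  exact (measurable_eps.comp (by fun_prop)).mul (measurable_eps.comp (by fun_prop))

lemma measurable_DD (n : ℕ) : Measurable (fun p : ℝ × ℝ => DD p.1 n p.2) := by
  unfold DD
  simp_rw [intervalIntegral.integral_of_le (zero_le_one (α := ℝ))]
  exact (StronglyMeasurable.integral_prod_right' (measurable_ff n).stronglyMeasurable).measurable

lemma measurable_DD' {γ : Type*} [MeasurableSpace γ] {A V : γ → ℝ} (hA : Measurable A)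
    (hV : Measurable V) (n : ℕ) : Measurable (fun q => DD (A q) n (V q)) := by
  have h := (measurable_DD n).comp (hA.prodMk hV)
  simp only [Function.comp_def] at h
  exact h

lemma abs_DD_le (α : ℝ) (n : ℕ) (w : ℝ) : |DD α n w| ≤ 1 := by
  have h := intervalIntegral.norm_integral_le_of_norm_le_const (a := (0 : ℝ)) (b := 1)
    (f := fun s => ff α w n s) (C := 1) (fun u _ => by rw [Real.norm_eq_abs, abs_ff])
  simpa [DD] using h

lemma ff_periodic (α w : ℝ) (n : ℕ) : Function.Periodic (ff α w n) 1 := by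
  intro s
  unfold ff
  refine Finset.prod_congr rfl fun k _ => ?_
  have h1 : s + 1 + ((k + 1 : ℕ) : ℝ) * α = (s + ((k + 1 : ℕ) : ℝ) * α) + 1 := by ring
  have h2 : s + 1 + w + ((k + 1 : ℕ) : ℝ) * α = (s + w + ((k + 1 : ℕ) : ℝ) * α) + 1 := by ring
  rw [h1, h2, eps_add_one, eps_add_one]
  ring

lemma ff_add_one_w (α w : ℝ) (n : ℕ) (s : ℝ) : ff α (w + 1) n s = (-1) ^ n * ff α w n s := by
  unfold ff
  have : ∀ k ∈ Finset.range n, eps (s + ((k + 1 : ℕ) : ℝ) * α) *
      eps (s + (w + 1) + ((k + 1 : ℕ) : ℝ) * α) =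
      (-1) * (eps (s + ((k + 1 : ℕ) : ℝ) * α) * eps (s + w + ((k + 1 : ℕ) : ℝ) * α)) := by
    intro k _
    have h2 : s + (w + 1) + ((k + 1 : ℕ) : ℝ) * α = (s + w + ((k + 1 : ℕ) : ℝ) * α) + 1 := by ring
    rw [h2, eps_add_one]
    ring
  rw [Finset.prod_congr rfl this, Finset.prod_mul_distrib, Finset.prod_const, Finset.card_range]

lemma DD_add_one (α w : ℝ) (n : ℕ) : DD α n (w + 1) = (-1) ^ n * DD α n w := by
  unfold DD
  rw [← intervalIntegral.integral_const_mul]
  exact intervalIntegral.integral_congr fun s _ => ff_add_one_w α w n s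

lemma DDpow_periodic {M : ℕ} (hM : Even M) (α : ℝ) (n : ℕ) :
    Function.Periodic (fun w => (DD α n w) ^ M) 1 := by
  intro w
  show (DD α n (w + 1)) ^ M = (DD α n w) ^ M
  rw [DD_add_one, mul_pow, ← pow_mul, mul_comm n M, pow_mul, hM.neg_one_pow, one_pow, one_mul]

lemma KK_shift {M : ℕ} (hM : Even M) (α : ℝ) (n : ℕ) (u : ℝ) :
    ∫ v in (0:ℝ)..1, (DD α n (v - u)) ^ M = KK M n α := by
  rw [intervalIntegral.integral_comp_sub_right (fun w => (DD α n w) ^ M) u]
  have h := (DDpow_periodic hM α n).intervalIntegral_add_eq (0 - u) 0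
  rw [show (0 - u + 1 : ℝ) = 1 - u by ring, zero_add] at h
  exact h

/-- the product over the orbit -/
noncomputable def G (α : ℝ) (n : ℕ) (u v ε : ℝ) : ℝ :=
  ∏ k ∈ Finset.range n, (g ε (u + ((k + 1 : ℕ) : ℝ) * α) * g ε (v + ((k + 1 : ℕ) : ℝ) * α))

lemma Ioc_prod (f : ℤ → ℝ) (n : ℕ) :
    ∏ k ∈ Finset.Ioc (0 : ℤ) n, f k = ∏ k ∈ Finset.range n, f ((k + 1 : ℕ) : ℤ) := by
  induction n with
  | zero => simp
  | succ n ih =>
    rw [Finset.prod_range_succ, ← ih]
    have : Finset.Ioc (0 : ℤ) ((n + 1 : ℕ) : ℤ) =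
        insert (((n + 1 : ℕ) : ℤ)) (Finset.Ioc (0 : ℤ) n) := by
      ext z
      simp only [Finset.mem_Ioc, Finset.mem_insert]
      push_cast
      omega
    rw [this, Finset.prod_insert (by simp), mul_comm]

lemma Pz_eq {M : ℕ} (e : Fin M → ℝ) (α u : ℝ) (n : ℕ) :
    Pz e α u n = ∏ k ∈ Finset.range n, chi e (u + ((k + 1 : ℕ) : ℝ) * α) := by
  unfold Pz
  rw [Ioc_prod (fun k : ℤ => chi e (u + (k : ℝ) * α)) n]
  have : Finset.Ioc (n : ℤ) 0 = ∅ := by
    apply Finset.Ioc_eq_empty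
    omega
  rw [this, Finset.prod_empty, mul_one]
  exact Finset.prod_congr rfl fun k _ => by push_cast; rfl

lemma Pz_mul {M : ℕ} (e : Fin M → ℝ) (α u v : ℝ) (n : ℕ) :
    Pz e α u n * Pz e α v n = ∏ j, G α n u v (e j) := by
  rw [Pz_eq, Pz_eq, ← Finset.prod_mul_distrib]
  unfold G
  rw [Finset.prod_comm]
  refine Finset.prod_congr rfl fun k _ => ?_
  rw [chi_eq, chi_eq, ← Finset.prod_mul_distrib]

lemma G_eq (α : ℝ) (n : ℕ) (u v : ℝ) {ε : ℝ} (h0 : 0 ≤ ε) (h1 : ε ≤ 1) :
    G α n u v ε = (∏ k ∈ Finset.range n, (eps (u + ((k + 1 : ℕ) : ℝ) * α) *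
      eps (v + ((k + 1 : ℕ) : ℝ) * α))) * ff α (v - u) n (u - ε) := by
  unfold G ff
  rw [← Finset.prod_mul_distrib]
  refine Finset.prod_congr rfl fun k _ => ?_
  rw [g_eq h0 h1, g_eq h0 h1,
    show u - ε + ((k + 1 : ℕ) : ℝ) * α = u + ((k + 1 : ℕ) : ℝ) * α - ε by ring,
    show u - ε + (v - u) + ((k + 1 : ℕ) : ℝ) * α = v + ((k + 1 : ℕ) : ℝ) * α - ε by ring]
  ring

lemma integral_G {M : ℕ} (hM : Even M) (α : ℝ) (n : ℕ) (u v : ℝ) :
    (∫ ε, G α n u v ε ∂(volume.restrict (Set.Icc (0:ℝ) 1))) ^ M = (DD α n (v - u)) ^ M := by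
  obtain ⟨σ, hσ⟩ : ∃ σ : ℝ, σ = ∏ k ∈ Finset.range n, (eps (u + ((k + 1 : ℕ) : ℝ) * α) *
      eps (v + ((k + 1 : ℕ) : ℝ) * α)) := ⟨_, rfl⟩
  have hσ2 : σ ^ M = 1 := by
    have h1 : |σ| = 1 := by
      rw [hσ, Finset.abs_prod]
      exact Finset.prod_eq_one fun j _ => by rw [abs_mul, abs_eps, abs_eps, one_mul]
    rw [← hM.pow_abs, h1, one_pow]
  have h1 : ∫ ε, G α n u v ε ∂(volume.restrict (Set.Icc (0:ℝ) 1)) =
      ∫ ε in (0:ℝ)..1, σ * ff α (v - u) n (u - ε) := by
    rw [integral_Icc_eq_integral_Ioc, intervalIntegral.integral_of_le zero_le_one]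
    refine setIntegral_congr_fun measurableSet_Ioc fun ε hε => ?_
    show G α n u v ε = _
    rw [G_eq α n u v hε.1.le hε.2, hσ]
  have h2 : ∫ ε in (0:ℝ)..1, ff α (v - u) n (u - ε) = DD α n (v - u) := by
    rw [intervalIntegral.integral_comp_sub_left (fun s => ff α (v - u) n s) u]
    have h := (ff_periodic α (v - u) n).intervalIntegral_add_eq (u - 1) 0
    rw [show (u - 1 + 1 : ℝ) = u - 0 by ring, zero_add] at h
    exact h
  rw [h1, intervalIntegral.integral_const_mul, h2, mul_pow, hσ2, one_mul]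

end ExpectAux

theorem measurable_KK (M n : ℕ) : Measurable (fun α : ℝ => KK M n α) := by
  have hs : StronglyMeasurable (Function.uncurry fun (α w : ℝ) => (DD α n w) ^ M) :=
    ((measurable_DD n).pow_const M).stronglyMeasurable
  have h2 := hs.integral_prod_right (ν := volume.restrict (Set.Ioc (0:ℝ) 1))
  have h3 : (fun α : ℝ => KK M n α) = fun α => ∫ w in Set.Ioc (0:ℝ) 1, (DD α n w) ^ M := by
    funext α
    unfold KK
    rw [intervalIntegral.integral_of_le (zero_le_one (α := ℝ))]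
  rw [h3]
  exact h2.measurable

theorem expect {M : ℕ} (hM : Even M) (α : ℝ) (n : ℕ) :
    ∫ e, (cc e α n) ^ 2 ∂(EM M) = KK M n α := by
  have hprob := isProbabilityMeasure_EM M
  obtain ⟨μ, hμ⟩ : ∃ μ : Measure ℝ, μ = volume.restrict (Set.Ioc (0:ℝ) 1) := ⟨_, rfl⟩
  have hμp : IsProbabilityMeasure μ := ⟨by simp [hμ]⟩
  have hν : IsProbabilityMeasure ((volume : Measure ℝ).restrict (Set.Icc (0:ℝ) 1)) :=
    ⟨by simp⟩
  -- the square as a double integral
  have h1 : ∀ e : Fin M → ℝ, (cc e α n) ^ 2 =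
      ∫ p : ℝ × ℝ, Pz e α p.1 n * Pz e α p.2 n ∂(μ.prod μ) := by
    intro e
    rw [integral_prod_mul (fun u => Pz e α u n) (fun u => Pz e α u n)]
    unfold cc
    rw [intervalIntegral.integral_of_le zero_le_one, sq, hμ]
  have hmeas : Measurable (Function.uncurry fun (e : Fin M → ℝ) (p : ℝ × ℝ) =>
      Pz e α p.1 n * Pz e α p.2 n) := by
    have a1 : Measurable (fun q : (Fin M → ℝ) × (ℝ × ℝ) => Pz q.1 α q.2.1 (n : ℤ)) :=
      measurable_Pz' measurable_fst measurable_const (measurable_fst.comp measurable_snd) n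
    have a2 : Measurable (fun q : (Fin M → ℝ) × (ℝ × ℝ) => Pz q.1 α q.2.2 (n : ℤ)) :=
      measurable_Pz' measurable_fst measurable_const (measurable_snd.comp measurable_snd) n
    exact a1.mul a2
  have hint : Integrable (Function.uncurry fun (e : Fin M → ℝ) (p : ℝ × ℝ) =>
      Pz e α p.1 n * Pz e α p.2 n) ((EM M).prod (μ.prod μ)) := by
    have hb : ∀ q : (Fin M → ℝ) × (ℝ × ℝ), ‖(Function.uncurry fun (e : Fin M → ℝ) (p : ℝ × ℝ) =>
      Pz e α p.1 n * Pz e α p.2 n) q‖ ≤ 1 := by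
      intro q
      simp only [Function.uncurry]
      rw [Real.norm_eq_abs, abs_mul, abs_Pz, abs_Pz, one_mul]
    have h3 : AEStronglyMeasurable (Function.uncurry fun (e : Fin M → ℝ) (p : ℝ × ℝ) =>
      Pz e α p.1 n * Pz e α p.2 n) ((EM M).prod (μ.prod μ)) := hmeas.aestronglyMeasurable
    exact Integrable.of_bound h3 1 (Eventually.of_forall hb)
  simp_rw [h1]
  rw [integral_integral_swap hint]
  have h2 : ∀ p : ℝ × ℝ, ∫ e, Pz e α p.1 n * Pz e α p.2 n ∂(EM M) =
      (DD α n (p.2 - p.1)) ^ M := by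
    intro p
    simp_rw [Pz_mul]
    unfold EM
    rw [integral_fintype_prod_eq_pow (fun ε => G α n p.1 p.2 ε), Fintype.card_fin,
      integral_G hM]
  simp_rw [h2]
  have hm2 : Measurable (fun p : ℝ × ℝ => (DD α n (p.2 - p.1)) ^ M) := by
    have h4 : Measurable (fun p : ℝ × ℝ => DD α n (p.2 - p.1)) :=
      measurable_DD' measurable_const (measurable_snd.sub measurable_fst) n
    exact h4.pow_const M
  have hint2 : Integrable (fun p : ℝ × ℝ => (DD α n (p.2 - p.1)) ^ M) (μ.prod μ) := by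
    have hb : ∀ p : ℝ × ℝ, ‖(DD α n (p.2 - p.1)) ^ M‖ ≤ 1 := by
      intro p
      rw [Real.norm_eq_abs, abs_pow]
      exact pow_le_one₀ (abs_nonneg _) (abs_DD_le _ _ _)
    exact Integrable.of_bound hm2.aestronglyMeasurable 1 (Eventually.of_forall hb)
  rw [integral_prod _ hint2]
  have h3 : ∀ u : ℝ, ∫ v, (DD α n (v - u)) ^ M ∂μ = KK M n α := by
    intro u
    rw [← KK_shift hM α n u, intervalIntegral.integral_of_le zero_le_one, hμ]
  simp_rw [h3]
  simp

end PFS
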