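import Pool.Agent.PFS.Basic

/-! # PFS module Spectral: a square integrable correlation function has an absolutely continuous
representing measure -/

open MeasureTheory Topology Filter
open scoped ENNReal ContDiff

namespace PFS

section SpectralAux

open Complex FourierTransform SchwartzMap

/-- positivity of the Gaussian regularisations of the Fourier transform -/
theorem spec_pos {Z : Type} [MeasurableSpace Z] (μ : Measure Z) [IsProbabilityMeasure μ]
    (F : ℝ → Z → ℝ) (hF : Measurable (fun p : ℝ × Z => F p.1 p.2)) (hb : ∀ t z, |F t z| ≤ 1)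
    (C : ℝ → ℝ) (hC : ∀ t s, ∫ z, F t z * F s z ∂μ = C (t - s)) {a : ℝ} (ha : 0 < a) (ξ : ℝ) :
    ∃ r : ℝ, 0 ≤ r ∧
      ∫ t : ℝ, (C t : ℂ) * cexp (-(a / 2 : ℝ) * t ^ 2 - (2 * Real.pi * ξ : ℝ) * I * t) = r := by
  set φ : ℝ → ℂ := fun t => cexp (-(a : ℂ) * t ^ 2 + (-((2 * Real.pi * ξ : ℝ) : ℂ) * I) * t + 0)
    with hφ
  have hφi : Integrable φ := by
    refine integrable_cexp_quadratic (b := (a : ℂ)) (by simpa using ha) _ _
  have hφn : ∀ t, ‖φ t‖ = Real.exp (-a * t ^ 2) := by
    intro t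
    rw [hφ]
    simp only [Complex.norm_exp]
    congr 1
    simp [← Complex.ofReal_pow]
  have hφc : Continuous φ := by rw [hφ]; fun_prop
  have hFt : ∀ t, Measurable (F t) := fun t => hF.comp (measurable_const.prodMk measurable_id)
  -- the big integrand
  set H : ℝ × ℝ → Z → ℂ := fun x z =>
    (starRingEnd ℂ (φ x.1) * (F x.1 z : ℂ)) * (φ x.2 * (F x.2 z : ℂ)) with hH
  have hm1 : Measurable (fun q : (ℝ × ℝ) × Z => ((F q.1.1 q.2 : ℝ) : ℂ)) :=
    Complex.measurable_ofReal.comp (hF.comp ((measurable_fst.comp measurable_fst).prodMk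
      measurable_snd))
  have hm2 : Measurable (fun q : (ℝ × ℝ) × Z => ((F q.1.2 q.2 : ℝ) : ℂ)) :=
    Complex.measurable_ofReal.comp (hF.comp ((measurable_snd.comp measurable_fst).prodMk
      measurable_snd))
  have hHm : Measurable (Function.uncurry H) := by
    have e1 : Measurable (fun q : (ℝ × ℝ) × Z => starRingEnd ℂ (φ q.1.1)) :=
      (Complex.continuous_conj.measurable.comp hφc.measurable).comp
        (measurable_fst.comp measurable_fst)
    have e2 : Measurable (fun q : (ℝ × ℝ) × Z => φ q.1.2) :=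
      hφc.measurable.comp (measurable_snd.comp measurable_fst)
    exact (e1.mul hm1).mul (e2.mul hm2)
  have hHi : Integrable (Function.uncurry H) ((volume : Measure (ℝ × ℝ)).prod μ) := by
    have i1 : Integrable (fun x : ℝ × ℝ => ‖φ x.1‖ * ‖φ x.2‖) (volume : Measure (ℝ × ℝ)) :=
      hφi.norm.mul_prod hφi.norm
    refine (i1.comp_fst μ).mono' hHm.aestronglyMeasurable (Filter.Eventually.of_forall fun q => ?_)
    have b1 : ‖((F q.1.1 q.2 : ℝ) : ℂ)‖ ≤ 1 := by
      rw [Complex.norm_real]; exact hb _ _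
    have b2 : ‖((F q.1.2 q.2 : ℝ) : ℂ)‖ ≤ 1 := by
      rw [Complex.norm_real]; exact hb _ _
    simp only [Function.uncurry, hH, norm_mul, RCLike.norm_conj]
    exact mul_le_mul (mul_le_of_le_one_right (norm_nonneg _) b1)
      (mul_le_of_le_one_right (norm_nonneg _) b2) (by positivity) (norm_nonneg _)
  have hswap := integral_integral_swap hHi
  -- first evaluation
  have hL : ∀ x : ℝ × ℝ, ∫ z, H x z ∂μ = starRingEnd ℂ (φ x.1) * φ x.2 * (C (x.2 - x.1) : ℂ) := by
    intro x
    have e1 : ∀ z, H x z = (starRingEnd ℂ (φ x.1) * φ x.2) * ((F x.2 z * F x.1 z : ℝ) : ℂ) := by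
      intro z
      simp only [hH]
      push_cast
      ring
    simp only [e1]
    rw [integral_const_mul, integral_complex_ofReal, hC]
  set Y : Z → ℂ := fun z => ∫ t, φ t * (F t z : ℂ) with hY
  have hR : ∀ z, ∫ x : ℝ × ℝ, H x z = ((‖Y z‖ ^ 2 : ℝ) : ℂ) := by
    intro z
    have e1 : ∫ x : ℝ × ℝ, H x z = (∫ s, starRingEnd ℂ (φ s) * (F s z : ℂ)) *
        ∫ t, φ t * (F t z : ℂ) := by
      rw [← integral_prod_mul]
      rfl
    have e2 : (∫ s, starRingEnd ℂ (φ s) * (F s z : ℂ)) = starRingEnd ℂ (Y z) := by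
      rw [hY, ← integral_conj]
      refine integral_congr_ae (Filter.Eventually.of_forall fun s => ?_)
      simp
    rw [e1, e2, ← Complex.normSq_eq_conj_mul_self, Complex.normSq_eq_norm_sq]
  simp only [hL, hR] at hswap
  rw [integral_complex_ofReal] at hswap
  -- change of variables
  set G : ℝ × ℝ → ℂ := fun x => starRingEnd ℂ (φ x.1) * φ x.2 * (C (x.2 - x.1) : ℂ) with hG
  have hGi : Integrable G (volume : Measure (ℝ × ℝ)) := by
    have := hHi.integral_prod_left
    refine this.congr (Filter.Eventually.of_forall fun x => ?_)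
    simp only [Function.uncurry_apply_pair, hL, hG]
  have mp : MeasurePreserving (fun z : ℝ × ℝ => (z.1, z.1 + z.2)) (volume : Measure (ℝ × ℝ))
      volume := measurePreserving_prod_add volume volume
  have hGc : ∫ x, G x = ∫ x : ℝ × ℝ, G (x.1, x.1 + x.2) := by
    have h1 := mp.map_eq
    conv_lhs => rw [← h1]
    rw [integral_map mp.measurable.aemeasurable]
    rw [h1]
    exact hGi.aestronglyMeasurable
  have hGi2 : Integrable (fun x : ℝ × ℝ => G (x.1, x.1 + x.2)) (volume : Measure (ℝ × ℝ)) :=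
    mp.integrable_comp_of_integrable hGi
  set κ : ℝ := ∫ s : ℝ, Real.exp (-(2 * a) * s ^ 2) with hκ
  have hκ0 : 0 < κ := by
    rw [hκ, integral_gaussian]
    exact Real.sqrt_pos.2 (by positivity)
  have hpt : ∀ s r : ℝ, G (s, s + r) =
      ((Real.exp (-(2 * a) * (s + r / 2) ^ 2) : ℝ) : ℂ) *
      ((C r : ℂ) * cexp (-(a / 2 : ℝ) * r ^ 2 - (2 * Real.pi * ξ : ℝ) * I * r)) := by
    intro s r
    have e1 : s + r - s = r := by ring
    simp only [hG, hφ, e1]
    rw [← Complex.exp_conj, ← Complex.exp_add]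
    push_cast
    rw [mul_comm (C r : ℂ), ← mul_assoc, ← Complex.exp_add]
    congr 2
    simp only [map_add, map_mul, map_neg, map_pow, Complex.conj_ofReal, Complex.conj_I, map_zero,
      map_ofNat]
    ring
  have hinner : ∀ r : ℝ, ∫ s : ℝ, G (s, s + r) =
      (κ : ℂ) * ((C r : ℂ) * cexp (-(a / 2 : ℝ) * r ^ 2 - (2 * Real.pi * ξ : ℝ) * I * r)) := by
    intro r
    simp only [hpt]
    rw [integral_mul_const, integral_complex_ofReal]
    congr 2
    rw [hκ]
    exact integral_add_right_eq_self (fun s : ℝ => Real.exp (-(2 * a) * s ^ 2)) (r / 2)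
  have hfin : ∫ x, G x = (κ : ℂ) * ∫ r : ℝ, (C r : ℂ) *
      cexp (-(a / 2 : ℝ) * r ^ 2 - (2 * Real.pi * ξ : ℝ) * I * r) := by
    rw [hGc, ← integral_const_mul]
    have := integral_prod_symm (μ := (volume : Measure ℝ)) (ν := (volume : Measure ℝ))
      (fun x : ℝ × ℝ => G (x.1, x.1 + x.2)) hGi2
    rw [← Measure.volume_eq_prod] at this
    rw [this]
    exact integral_congr_ae (Filter.Eventually.of_forall fun r => hinner r)
  rw [hfin] at hswap
  refine ⟨κ⁻¹ * ∫ z, ‖Y z‖ ^ 2 ∂μ, mul_nonneg (inv_nonneg.2 hκ0.le)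
    (integral_nonneg fun z => by positivity), ?_⟩
  have hκc : (κ : ℂ) ≠ 0 := by exact_mod_cast hκ0.ne'
  rw [Complex.ofReal_mul κ⁻¹ _, Complex.ofReal_inv, ← hswap, ← mul_assoc, inv_mul_cancel₀ hκc,
    one_mul]


theorem spec_flip {f g : ℝ → ℂ} (hf : Integrable f) (hg : Integrable g) :
    ∫ ξ, 𝓕 f ξ * g ξ = ∫ x, f x * 𝓕 g x := by
  simpa using! VectorFourier.integral_fourierIntegral_smul_eq_flip (L := innerₗ ℝ)
    Real.continuous_fourierChar continuous_inner hf hg

theorem spec_flip_inv {f g : ℝ → ℂ} (hf : Integrable f) (hg : Integrable g) :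
    ∫ ξ, 𝓕⁻ f ξ * g ξ = ∫ x, f x * 𝓕⁻ g x := by
  have h1 : ∫ ξ, 𝓕⁻ f ξ * g ξ = ∫ ξ, 𝓕 f ξ * g (-ξ) := by
    rw [← integral_neg_eq_self]
    refine integral_congr_ae (Filter.Eventually.of_forall fun ξ => ?_)
    simp only
    rw [Real.fourierInv_eq_fourier_neg, neg_neg]
  rw [h1, spec_flip hf hg.comp_neg, Real.fourierInv_eq_fourier_comp_neg]

/-- the defining identity of the `L²` Fourier transform -/
theorem spec_key {f : ℝ → ℂ} (hf : MemLp f 2 (volume : Measure ℝ)) (g : 𝓢(ℝ, ℂ)) :
    ∫ x, g x * (𝓕 (hf.toLp f) : Lp ℂ 2 (volume : Measure ℝ)) x = ∫ t, (𝓕 g) t * f t := by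
  have h := congrArg (fun T : 𝓢'(ℝ, ℂ) => T g)
    (Lp.fourier_toTemperedDistribution_eq (hf.toLp f))
  simp only [TemperedDistribution.fourier_apply, Lp.toTemperedDistribution_apply,
    smul_eq_mul] at h
  rw [← h]
  refine integral_congr_ae ?_
  filter_upwards [hf.coeFn_toLp] with x hx
  rw [hx]

/-- real test functions -/
theorem spec_test {f f' : ℝ → ℂ} (hf : LocallyIntegrable f) (hf' : LocallyIntegrable f')
    (h : ∀ g : 𝓢(ℝ, ℂ), ∫ x, g x * f x = ∫ x, g x * f' x) : f =ᵐ[volume] f' := by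
  refine ae_eq_of_integral_contDiff_smul_eq hf hf' fun g hg hgc => ?_
  have hg1 : ContDiff ℝ ∞ (fun x => (g x : ℂ)) := Complex.ofRealCLM.contDiff.comp hg
  have hg2 : HasCompactSupport (fun x => (g x : ℂ)) := hgc.comp_left (g := fun t : ℝ => (t : ℂ))
    (by simp)
  have := h (hg2.toSchwartzMap hg1)
  simpa [HasCompactSupport.toSchwartzMap_toFun] using this

theorem spec_fourier_cont {f : ℝ → ℂ} (hf : Integrable f) : Continuous (𝓕 f) :=
  VectorFourier.fourierIntegral_continuous Real.continuous_fourierChar continuous_inner hf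

theorem spec_fourierInv_cont {f : ℝ → ℂ} (hf : Integrable f) : Continuous (𝓕⁻ f) :=
  VectorFourier.fourierIntegral_continuous (L := -innerₗ ℝ) Real.continuous_fourierChar
    continuous_inner.neg hf

/-- the `L²` transform agrees with the pointwise one for integrable functions -/
theorem spec_consistent {f : ℝ → ℂ} (hi : Integrable f) (hf : MemLp f 2 (volume : Measure ℝ)) :
    ((𝓕 (hf.toLp f) : Lp ℂ 2 (volume : Measure ℝ)) : ℝ → ℂ) =ᵐ[volume] 𝓕 f := by
  refine spec_test ((Lp.memLp _).locallyIntegrable (by norm_num))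
    (spec_fourier_cont hi).locallyIntegrable fun g => ?_
  rw [spec_key hf g]
  have h1 := spec_flip g.integrable hi
  have h2 : ∀ x, 𝓕 (g : ℝ → ℂ) x = (𝓕 g) x := fun x => by
    rw [SchwartzMap.fourier_coe]
  simp only [h2] at h1
  exact h1

theorem spec_fatou {g : ℕ → ℝ → ℝ} {g0 : ℝ → ℝ} (hm : ∀ n, AEMeasurable (g n) volume)
    (h : ∀ᵐ x, Tendsto (fun n => g n x) atTop (𝓝 (g0 x)))
    (hb : ∀ n, ∫⁻ x, ENNReal.ofReal (g n x) ≤ 1) : ∫⁻ x, ENNReal.ofReal (g0 x) ≤ 1 := by
  calc ∫⁻ x, ENNReal.ofReal (g0 x)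
      = ∫⁻ x, liminf (fun n => ENNReal.ofReal (g n x)) atTop :=
        lintegral_congr_ae (h.mono fun x hx =>
          (((ENNReal.continuous_ofReal.tendsto _).comp hx).liminf_eq).symm)
    _ ≤ liminf (fun n => ∫⁻ x, ENNReal.ofReal (g n x)) atTop :=
        lintegral_liminf_le' fun n => (hm n).ennreal_ofReal
    _ ≤ liminf (fun _ : ℕ => (1 : ℝ≥0∞)) atTop :=
        liminf_le_liminf (Filter.Eventually.of_forall hb)
    _ = 1 := liminf_const _

theorem spec_L1 {f : ℝ → ℂ} (hf : Integrable f) (hb : ∀ t, ‖f t‖ ≤ 1)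
    (hpos : ∀ ξ, 0 ≤ (𝓕 f ξ).re) : ∫⁻ ξ, ENNReal.ofReal (𝓕 f ξ).re ≤ 1 := by
  have hFc : Continuous (𝓕 f) := spec_fourier_cont hf
  have hFb : ∀ ξ, ‖𝓕 f ξ‖ ≤ ∫ t, ‖f t‖ := fun ξ =>
    VectorFourier.norm_fourierIntegral_le_integral_norm _ _ _ _ _
  set δ : ℕ → ℝ := fun k => 1 / ((k : ℝ) + 1) with hδ
  have hδ0 : ∀ k, 0 < δ k := fun k => by simp only [hδ]; positivity
  have hδlim : Tendsto δ atTop (𝓝 0) := tendsto_one_div_add_atTop_nhds_zero_nat
  refine spec_fatou (g := fun k ξ => (𝓕 f ξ).re * Real.exp (-(Real.pi * δ k) * ξ ^ 2)) (fun k => ?_)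
    (Filter.Eventually.of_forall fun ξ => ?_) (fun k => ?_)
  · exact ((Complex.continuous_re.comp hFc).mul (by fun_prop)).aemeasurable
  · have h1 : Tendsto (fun k => Real.exp (-(Real.pi * δ k) * ξ ^ 2)) atTop (𝓝 1) := by
      have h2 : Tendsto (fun k => -(Real.pi * δ k) * ξ ^ 2) atTop
          (𝓝 (-(Real.pi * 0) * ξ ^ 2)) := ((hδlim.const_mul Real.pi).neg).mul_const _
      have h3 := (Real.continuous_exp.tendsto _).comp h2
      simpa [Function.comp_def] using h3
    simpa using h1.const_mul (𝓕 f ξ).re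
  · set G : ℝ → ℂ := fun x => cexp (-Real.pi * (δ k : ℂ) * x ^ 2) with hG
    have hbre : 0 < (δ k : ℂ).re := by simpa using hδ0 k
    have hGi : Integrable G := by
      have := integrable_cexp_quadratic (b := (Real.pi : ℂ) * (δ k : ℂ))
        (by rw [← Complex.ofReal_mul, Complex.ofReal_re]; exact mul_pos Real.pi_pos (hδ0 k)) 0 0
      refine this.congr (Filter.Eventually.of_forall fun x => ?_)
      simp only [hG]
      congr 1
      ring
    have hGr : ∀ x, G x = ((Real.exp (-(Real.pi * δ k) * x ^ 2) : ℝ) : ℂ) := fun x => by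
      simp only [hG]
      push_cast
      congr 1
      ring
    have hprod : Integrable (fun ξ => 𝓕 f ξ * G ξ) :=
      hGi.bdd_mul (c := ∫ t, ‖f t‖) hFc.aestronglyMeasurable (Filter.Eventually.of_forall hFb)
    have hre : ∀ ξ, (𝓕 f ξ).re * Real.exp (-(Real.pi * δ k) * ξ ^ 2) = (𝓕 f ξ * G ξ).re := by
      intro ξ
      rw [hGr, Complex.re_mul_ofReal]
    have h1 : ∫ ξ, (𝓕 f ξ).re * Real.exp (-(Real.pi * δ k) * ξ ^ 2) =
        (∫ ξ, 𝓕 f ξ * G ξ).re := by
      simp only [hre]
      exact Complex.reCLM.integral_comp_comm hprod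
    have hi1 : Integrable (fun ξ => (𝓕 f ξ).re * Real.exp (-(Real.pi * δ k) * ξ ^ 2)) := by
      simp only [hre]
      exact Complex.reCLM.integrable_comp hprod
    rw [← ofReal_integral_eq_lintegral_ofReal hi1
      (Filter.Eventually.of_forall fun ξ => mul_nonneg (hpos ξ) (Real.exp_pos _).le), h1]
    rw [ENNReal.ofReal_le_one]
    refine (Complex.re_le_norm _).trans ?_
    rw [spec_flip hf hGi]
    have hFG : 𝓕 G = fun t : ℝ => 1 / (δ k : ℂ) ^ (1 / 2 : ℂ) * cexp (-Real.pi / (δ k : ℂ) * t ^ 2) :=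
      fourier_gaussian_pi hbre
    have hFGn : ∀ t, ‖𝓕 G t‖ = (Real.sqrt (δ k))⁻¹ * Real.exp (-(Real.pi / δ k) * t ^ 2) := by
      intro t
      rw [hFG]
      simp only
      rw [norm_mul, norm_div, norm_one, Complex.norm_exp]
      congr 1
      · rw [one_div]
        congr 1
        rw [Complex.norm_cpow_eq_rpow_re_of_pos (hδ0 k)]
        simp [Real.sqrt_eq_rpow]
      · congr 1
        have : -(Real.pi : ℂ) / (δ k : ℂ) * (t : ℂ) ^ 2 = ((-(Real.pi / δ k) * t ^ 2 : ℝ) : ℂ) := by
          push_cast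
          ring
        rw [this, Complex.ofReal_re]
    have hFGi : Integrable (fun t => ‖𝓕 G t‖) := by
      simp only [hFGn]
      exact (integrable_exp_neg_mul_sq (div_pos Real.pi_pos (hδ0 k))).const_mul _
    calc ‖∫ x, f x * 𝓕 G x‖ ≤ ∫ x, ‖f x * 𝓕 G x‖ := norm_integral_le_integral_norm _
      _ ≤ ∫ x, ‖𝓕 G x‖ := by
          refine integral_mono_of_nonneg (Filter.Eventually.of_forall fun x => norm_nonneg _) hFGi
            (Filter.Eventually.of_forall fun x => ?_)
          simp only [norm_mul]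
          exact mul_le_of_le_one_left (norm_nonneg _) (hb x)
      _ = 1 := by
          simp only [hFGn]
          rw [integral_const_mul, integral_gaussian]
          have h2 : Real.pi / (Real.pi / δ k) = δ k := by
            field_simp
          rw [h2, inv_mul_cancel₀ (Real.sqrt_pos.2 (hδ0 k)).ne']

/-- `C(t-s) = E[F_t F_s]` continuous and square integrable: then `C` is the Fourier transform of a
finite absolutely continuous measure. -/
theorem spectral {Z : Type} [MeasurableSpace Z] (μ : Measure Z) [IsProbabilityMeasure μ]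
    (F : ℝ → Z → ℝ) (hF : Measurable (fun p : ℝ × Z => F p.1 p.2)) (hb : ∀ t z, |F t z| ≤ 1)
    (C : ℝ → ℝ) (hC : ∀ t s, ∫ z, F t z * F s z ∂μ = C (t - s)) (hcont : Continuous C)
    (hC0 : C 0 = 1) (hL2 : MemLp C 2 volume) :
    ∃ σ : Measure ℝ, IsProbabilityMeasure σ ∧ σ ≪ volume ∧
      ∀ t : ℝ, (C t : ℂ) = ∫ ξ, Complex.exp (Complex.I * t * ξ) ∂σ := by
  classical
  -- bound
  have hCb : ∀ t, |C t| ≤ 1 := by
    intro t
    have h1 := hC t 0
    rw [sub_zero] at h1
    rw [← h1]
    have h2 := norm_integral_le_of_norm_le_const (μ := μ) (C := 1)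
      (f := fun z => F t z * F 0 z) (Filter.Eventually.of_forall fun z => by
        rw [norm_mul]
        exact mul_le_one₀ (hb t z) (norm_nonneg _) (hb 0 z))
    simpa using h2
  set c0 : ℝ → ℂ := fun t => (C t : ℂ) with hc0def
  have hc0c : Continuous c0 := Complex.continuous_ofReal.comp hcont
  have hc0 : MemLp c0 2 (volume : Measure ℝ) := hL2.ofReal
  have hc0n : ∀ t, ‖c0 t‖ ≤ 1 := fun t => by
    rw [hc0def, Complex.norm_real]; exact hCb t
  -- regularisations
  set ε : ℕ → ℝ := fun n => 1 / ((n : ℝ) + 1) with hε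
  have hε0 : ∀ n, 0 < ε n := fun n => by simp only [hε]; positivity
  have hεlim : Tendsto ε atTop (𝓝 0) := tendsto_one_div_add_atTop_nhds_zero_nat
  set f : ℕ → ℝ → ℂ := fun n t => c0 t * ((Real.exp (-(ε n) * t ^ 2) : ℝ) : ℂ) with hf
  have hfc : ∀ n, Continuous (f n) := fun n => hc0c.mul (Complex.continuous_ofReal.comp (by fun_prop))
  have hexp1 : ∀ n t, Real.exp (-(ε n) * t ^ 2) ≤ 1 := fun n t => by
    rw [Real.exp_le_one_iff]
    nlinarith [hε0 n, sq_nonneg t, mul_nonneg (hε0 n).le (sq_nonneg t)]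
  have hfle : ∀ n t, ‖f n t‖ ≤ ‖c0 t‖ := fun n t => by
    simp only [hf, norm_mul]
    rw [Complex.norm_real (Real.exp _), Real.norm_of_nonneg (Real.exp_pos _).le]
    exact mul_le_of_le_one_right (by positivity) (hexp1 n t)
  have hfi : ∀ n, Integrable (f n) := fun n => by
    refine (integrable_exp_neg_mul_sq (hε0 n)).mono' (hfc n).aestronglyMeasurable
      (Filter.Eventually.of_forall fun t => ?_)
    simp only [hf, norm_mul]
    rw [Complex.norm_real (Real.exp _), Real.norm_of_nonneg (Real.exp_pos _).le]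
    exact mul_le_of_le_one_left (Real.exp_pos _).le (hc0n t)
  have hf2 : ∀ n, MemLp (f n) 2 (volume : Measure ℝ) := fun n =>
    hc0.mono (hfc n).aestronglyMeasurable (Filter.Eventually.of_forall (hfle n))
  have hpos : ∀ n ξ, ∃ r : ℝ, 0 ≤ r ∧ 𝓕 (f n) ξ = r := by
    intro n ξ
    obtain ⟨r, hr0, hr⟩ := spec_pos μ F hF hb C hC (a := 2 * ε n) (by linarith [hε0 n]) ξ
    refine ⟨r, hr0, ?_⟩
    rw [← hr, Real.fourier_real_eq_integral_exp_smul]
    refine integral_congr_ae (Filter.Eventually.of_forall fun t => ?_)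
    simp only [hf, hc0def, smul_eq_mul]
    rw [Complex.ofReal_exp, mul_comm, mul_assoc, ← Complex.exp_add]
    congr 2
    push_cast
    ring
  -- the L² limit
  set P : Lp ℂ 2 (volume : Measure ℝ) := 𝓕 (hc0.toLp c0) with hP
  have hconv : Tendsto (fun n => eLpNorm (f n - c0) 2 (volume : Measure ℝ)) atTop (𝓝 0) := by
    have h1 : Tendsto (fun n => ∫⁻ t, ‖(f n - c0) t‖ₑ ^ (2 : ℝ)) atTop
        (𝓝 (∫⁻ _ : ℝ, (0 : ℝ≥0∞))) := by
      refine tendsto_lintegral_of_dominated_convergence (fun t => ‖c0 t‖ₑ ^ (2 : ℝ)) (fun n => ?_)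
        (fun n => Filter.Eventually.of_forall fun t => ?_) ?_
        (Filter.Eventually.of_forall fun t => ?_)
      · exact (((hfc n).sub hc0c).measurable.enorm).pow_const _
      · simp only
        refine ENNReal.rpow_le_rpow ?_ (by norm_num)
        rw [enorm_le_iff_norm_le]
        have e1 : (f n - c0) t = c0 t * (((Real.exp (-(ε n) * t ^ 2) - 1 : ℝ)) : ℂ) := by
          simp only [hf, Pi.sub_apply]
          push_cast
          ring
        rw [e1, norm_mul, Complex.norm_real (Real.exp _ - 1), Real.norm_eq_abs]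
        refine mul_le_of_le_one_right (norm_nonneg _) ?_
        rw [abs_le]
        constructor
        · linarith [Real.exp_pos (-(ε n) * t ^ 2)]
        · linarith [hexp1 n t]
      · have := hc0.eLpNorm_lt_top
        rw [eLpNorm_lt_top_iff_lintegral_rpow_enorm_lt_top (by norm_num) (by norm_num)] at this
        simpa using this.ne
      · have h2 : Tendsto (fun n => (f n - c0) t) atTop (𝓝 0) := by
          have h3 : Tendsto (fun n => Real.exp (-(ε n) * t ^ 2)) atTop (𝓝 1) := by
            have h4 : Tendsto (fun n => -(ε n) * t ^ 2) atTop (𝓝 (-0 * t ^ 2)) :=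
              hεlim.neg.mul_const _
            have h5 := (Real.continuous_exp.tendsto _).comp h4
            simpa [Function.comp_def] using h5
          have h4 : Tendsto (fun n => c0 t * ((Real.exp (-(ε n) * t ^ 2) : ℝ) : ℂ) - c0 t) atTop
              (𝓝 (c0 t * ((1 : ℝ) : ℂ) - c0 t)) :=
            (((Complex.continuous_ofReal.tendsto _).comp h3).const_mul _).sub_const _
          simpa [hf, Function.comp_def] using h4
        have h3 := (ENNReal.continuous_rpow_const (y := 2)).tendsto (0 : ℝ≥0∞)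
        have h4 := h3.comp (by simpa using h2.enorm)
        simpa [Function.comp_def] using h4
    rw [lintegral_zero] at h1
    have h2 : ∀ n, eLpNorm (f n - c0) 2 (volume : Measure ℝ) =
        (∫⁻ t, ‖(f n - c0) t‖ₑ ^ (2 : ℝ)) ^ (1 / 2 : ℝ) := fun n => by
      rw [eLpNorm_eq_lintegral_rpow_enorm_toReal (by norm_num) (by norm_num)]
      simp
    simp only [h2]
    have h3 := (ENNReal.continuous_rpow_const (y := (1 / 2 : ℝ))).tendsto (0 : ℝ≥0∞)
    have h4 := h3.comp h1
    simpa [Function.comp_def] using h4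
  have hconv2 : Tendsto (fun n => (hf2 n).toLp (f n)) atTop (𝓝 (hc0.toLp c0)) :=
    (Lp.tendsto_Lp_iff_tendsto_eLpNorm'' f hf2 c0 hc0).2 hconv
  have hconv3 : Tendsto (fun n => (𝓕 ((hf2 n).toLp (f n)) : Lp ℂ 2 (volume : Measure ℝ))) atTop
      (𝓝 P) := ((Lp.fourierTransformₗᵢ ℝ ℂ).continuous.tendsto _).comp hconv2
  obtain ⟨ns, -, hns⟩ := (tendstoInMeasure_of_tendsto_Lp hconv3).exists_seq_tendsto_ae
  have hall : ∀ᵐ x, ∀ n, (𝓕 ((hf2 n).toLp (f n)) : Lp ℂ 2 (volume : Measure ℝ)) x = 𝓕 (f n) x :=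
    ae_all_iff.2 fun n => spec_consistent (hfi n) (hf2 n)
  have hlim : ∀ᵐ x, Tendsto (fun i => 𝓕 (f (ns i)) x) atTop (𝓝 (P x)) := by
    filter_upwards [hns, hall] with x h1 h2
    simpa only [h2] using h1
  set q : ℝ → ℝ := fun x => (P x).re with hq
  have hPq : ∀ᵐ x, P x = (q x : ℂ) ∧ 0 ≤ q x := by
    filter_upwards [hlim] with x hx
    have him : (P x).im = 0 := by
      have h1 := (Complex.continuous_im.tendsto _).comp hx
      have h2 : (Complex.im ∘ fun i => 𝓕 (f (ns i)) x) = fun _ => 0 := by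
        funext i
        obtain ⟨r, -, hr⟩ := hpos (ns i) x
        simp [hr]
      rw [h2] at h1
      exact tendsto_nhds_unique h1 tendsto_const_nhds
    refine ⟨Complex.ext (by simp [hq]) (by simp [him]), ?_⟩
    have h1 := (Complex.continuous_re.tendsto _).comp hx
    refine ge_of_tendsto' h1 fun i => ?_
    obtain ⟨r, hr0, hr⟩ := hpos (ns i) x
    simp only [Function.comp_apply, hr, Complex.ofReal_re]
    exact hr0
  have hPm : AEStronglyMeasurable P (volume : Measure ℝ) := Lp.aestronglyMeasurable P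
  have hqm : AEMeasurable q (volume : Measure ℝ) :=
    Complex.measurable_re.comp_aemeasurable hPm.aemeasurable
  have hq1 : ∫⁻ x, ENNReal.ofReal (q x) ≤ 1 := by
    refine spec_fatou (g := fun i x => (𝓕 (f (ns i)) x).re) (fun i => ?_) ?_ fun i => ?_
    · exact (Complex.continuous_re.comp (spec_fourier_cont (hfi _))).aemeasurable
    · filter_upwards [hlim] with x hx
      exact (Complex.continuous_re.tendsto _).comp hx
    · refine spec_L1 (hfi _) (fun t => (hfle _ t).trans (hc0n t)) fun ξ => ?_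
      obtain ⟨r, hr0, hr⟩ := hpos (ns i) ξ
      rw [hr, Complex.ofReal_re]
      exact hr0
  have hqi : Integrable q := by
    refine ⟨hqm.aestronglyMeasurable, ?_⟩
    rw [hasFiniteIntegral_iff_enorm]
    have : ∫⁻ x, ‖q x‖ₑ = ∫⁻ x, ENNReal.ofReal (q x) := by
      refine lintegral_congr_ae ?_
      filter_upwards [hPq] with x hx
      rw [Real.enorm_of_nonneg hx.2]
    rw [this]
    exact hq1.trans_lt ENNReal.one_lt_top
  have hPi : Integrable (P : ℝ → ℂ) := by
    refine (hqi.ofReal (𝕜 := ℂ)).congr ?_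
    filter_upwards [hPq] with x hx
    exact hx.1.symm
  -- inversion
  have hDeq : 𝓕⁻ (P : ℝ → ℂ) = c0 := by
    have hDc : Continuous (𝓕⁻ (P : ℝ → ℂ)) := by
      rw [Real.fourierInv_eq_fourier_comp_neg]
      exact spec_fourier_cont hPi.comp_neg
    have hae : 𝓕⁻ (P : ℝ → ℂ) =ᵐ[volume] c0 := by
      refine spec_test hDc.locallyIntegrable hc0c.locallyIntegrable fun g => ?_
      have h1 := spec_flip_inv hPi g.integrable
      have h2 := spec_key hc0 (𝓕⁻ g)
      have h3 : ∀ x, 𝓕⁻ (g : ℝ → ℂ) x = (𝓕⁻ g) x := fun x => by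
        rw [SchwartzMap.fourierInv_coe]
      simp only [h3] at h1
      rw [fourier_fourierInv_eq] at h2
      rw [← h2]
      calc ∫ x, g x * 𝓕⁻ (P : ℝ → ℂ) x = ∫ x, 𝓕⁻ (P : ℝ → ℂ) x * g x := by simp only [mul_comm]
        _ = ∫ x, P x * (𝓕⁻ g) x := h1
        _ = _ := by simp only [mul_comm, hP]
    exact (Continuous.ae_eq_iff_eq volume hDc hc0c).1 hae
  have hform : ∀ t : ℝ, (C t : ℂ) = ∫ x, (q x : ℂ) * cexp (I * t * ((2 * Real.pi) * x)) := by
    intro t
    have h1 := congrFun hDeq t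
    rw [Real.fourierInv_eq'] at h1
    rw [show (C t : ℂ) = c0 t from rfl, ← h1]
    refine integral_congr_ae ?_
    filter_upwards [hPq] with x hx
    rw [hx.1, smul_eq_mul, mul_comm]
    congr 2
    have : (inner ℝ x t : ℝ) = t * x := by simp
    rw [this]
    push_cast
    ring
  -- the measure
  set σ0 : Measure ℝ := (volume : Measure ℝ).withDensity fun x => ENNReal.ofReal (q x) with hσ0
  have hsc : Measurable (fun x : ℝ => (2 * Real.pi) * x) := measurable_const.mul measurable_id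
  refine ⟨σ0.map (fun x => (2 * Real.pi) * x), ?_, ?_, ?_⟩
  · have h1 : IsProbabilityMeasure σ0 := by
      refine ⟨?_⟩
      rw [hσ0, withDensity_apply _ MeasurableSet.univ, Measure.restrict_univ,
        ← ofReal_integral_eq_lintegral_ofReal hqi (hPq.mono fun x hx => hx.2)]
      have h2 := hform 0
      rw [hC0] at h2
      simp only [Complex.ofReal_zero, mul_zero, zero_mul, Complex.exp_zero, mul_one] at h2
      rw [integral_complex_ofReal] at h2
      have h3 : (1 : ℝ) = ∫ x, q x := by exact_mod_cast h2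
      rw [← h3, ENNReal.ofReal_one]
    exact Measure.isProbabilityMeasure_map hsc.aemeasurable
  · have h1 : σ0 ≪ volume := withDensity_absolutelyContinuous _ _
    refine (h1.map hsc).trans ?_
    rw [Real.map_volume_mul_left (by positivity)]
    exact Measure.smul_absolutelyContinuous
  · intro t
    rw [integral_map hsc.aemeasurable (by fun_prop), hσ0,
      integral_withDensity_eq_integral_toReal_smul₀ hqm.ennreal_ofReal
        (Filter.Eventually.of_forall fun x => ENNReal.ofReal_lt_top), hform t]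
    refine integral_congr_ae ?_
    filter_upwards [hPq] with x hx
    rw [ENNReal.toReal_ofReal hx.2, Complex.real_smul]
    push_cast
    rfl

end SpectralAux

end PFS
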