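import Pool.Agent.PFS.Model
import Pool.Agent.PFS.Spectral

/-! # PFS module SpecModel: spectral measure for the product of the two suspensions -/

open MeasureTheory Topology Filter
open scoped ENNReal

namespace PFS

/-- Lebesgue measure on the unit interval -/
noncomputable def nuI : Measure ℝ := volume.restrict (Set.Ioc (0:ℝ) 1)

instance isProb_nuI : IsProbabilityMeasure nuI := ⟨by simp [nuI]⟩

/-- the process of one suspension -/
noncomputable def proc {M : ℕ} (e : Fin M → ℝ) (α r t : ℝ) (z : ℝ × ℝ) : ℝ :=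
  Pz e α z.2 ⌊z.1 + t / r⌋

lemma measurable_proc {M : ℕ} (e : Fin M → ℝ) (α r : ℝ) :
    Measurable (fun p : ℝ × (ℝ × ℝ) => proc e α r p.1 p.2) := by
  have h := measurable_Pz_floor e α
  have h2 : Measurable (fun p : ℝ × (ℝ × ℝ) => ((p.1 / r, (p.2.2, p.2.1)) : ℝ × ℝ × ℝ)) := by
    fun_prop
  have h3 := h.comp h2
  have h4 : (fun p : ℝ × ℝ × ℝ => Pz e α p.2.1 ⌊p.2.2 + p.1⌋) ∘
      (fun p : ℝ × (ℝ × ℝ) => ((p.1 / r, (p.2.2, p.2.1)) : ℝ × ℝ × ℝ))
      = (fun p : ℝ × (ℝ × ℝ) => proc e α r p.1 p.2) := by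
    funext p
    simp only [Function.comp_apply, proc]
  rw [← h4]
  exact h3

lemma abs_proc {M : ℕ} (e : Fin M → ℝ) (α r t : ℝ) (z : ℝ × ℝ) : |proc e α r t z| = 1 :=
  abs_Pz _ _ _ _

lemma proc_stationary {M : ℕ} (e : Fin M → ℝ) (α r t s : ℝ) :
    ∫ τ in (0:ℝ)..1, ∫ u in (0:ℝ)..1, proc e α r t (τ, u) * proc e α r s (τ, u)
      = CC e α (t / r - s / r) := by
  rw [← CC_stationary e α (t / r) (s / r)]
  simp only [proc]

attribute [irreducible] proc

lemma measurable_proc_right {M : ℕ} (e : Fin M → ℝ) (α r t : ℝ) : Measurable (proc e α r t) := by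
  have h := (measurable_proc e α r).comp (measurable_prodMk_left (x := t))
  have h4 : (fun p : ℝ × (ℝ × ℝ) => proc e α r p.1 p.2) ∘ (Prod.mk t) = proc e α r t := by
    funext z
    simp only [Function.comp_apply]
  rw [← h4]
  exact h

lemma integral_proc {M : ℕ} (e : Fin M → ℝ) (α r t s : ℝ) :
    ∫ z, proc e α r t z * proc e α r s z ∂(nuI.prod nuI) = CC e α (t / r - s / r) := by
  have hint : Integrable (fun z => proc e α r t z * proc e α r s z) (nuI.prod nuI) := by
    refine Integrable.mono' (integrable_const (1:ℝ))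
      ((measurable_proc_right e α r t).mul (measurable_proc_right e α r s)).aestronglyMeasurable ?_
    refine Eventually.of_forall fun z => ?_
    rw [Real.norm_eq_abs, abs_mul, abs_proc, abs_proc, one_mul]
  rw [integral_prod _ hint, ← proc_stationary]
  rw [intervalIntegral.integral_of_le zero_le_one]
  have hi : ∀ x : ℝ, ∫ y, proc e α r t (x, y) * proc e α r s (x, y) ∂nuI
      = ∫ u in (0:ℝ)..1, proc e α r t (x, u) * proc e α r s (x, u) := by
    intro x
    rw [intervalIntegral.integral_of_le zero_le_one, nuI]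
  simp_rw [hi]
  rw [nuI]

lemma memLp_of_even {C : ℝ → ℝ} (hcont : Continuous C) (heven : ∀ t, C (-t) = C t)
    (h : ∫⁻ t in Set.Ioi (0:ℝ), ENNReal.ofReal (C t ^ 2) < ∞) : MemLp C 2 volume := by
  have hI : IntegrableOn (fun t => C t ^ 2) (Set.Ioi 0) := by
    refine ⟨(hcont.pow 2).aestronglyMeasurable, ?_⟩
    rw [hasFiniteIntegral_iff_ofReal (Eventually.of_forall fun t => sq_nonneg _)]
    exact h
  have hI2 : IntegrableOn (fun t => C t ^ 2) (Set.Iio 0) := by
    have hmp : MeasurePreserving (fun x : ℝ => -x) volume volume := Measure.measurePreserving_neg _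
    have h1 := (hmp.integrableOn_comp_preimage (MeasurableEquiv.neg ℝ).measurableEmbedding
      (f := fun t => C t ^ 2) (s := Set.Ioi 0)).mpr hI
    have h2 : (fun x : ℝ => -x) ⁻¹' Set.Ioi 0 = Set.Iio 0 := by
      ext x; simp
    rw [h2] at h1
    refine h1.congr_fun ?_ measurableSet_Iio
    intro t _
    simp only [Function.comp, heven]
  have hI3 : Integrable (fun t => C t ^ 2) := by
    rw [← integrableOn_univ, ← Set.Iio_union_Ici (a := (0:ℝ))]
    exact hI2.union ((integrableOn_Ici_iff_integrableOn_Ioi (by simp)).mpr hI)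
  exact (memLp_two_iff_integrable_sq hcont.aestronglyMeasurable).mpr hI3

theorem specModel {M : ℕ} (e e' : Fin M → ℝ) (α α' r r' : ℝ)
    (h : ∫⁻ t in Set.Ioi (0:ℝ), ENNReal.ofReal ((CC e α (t / r) * CC e' α' (t / r')) ^ 2) < ∞) :
    ∃ σ : Measure ℝ, IsProbabilityMeasure σ ∧ σ ≪ volume ∧
      ∀ t : ℝ, ((CC e α (t / r) * CC e' α' (t / r') : ℝ) : ℂ)
        = ∫ ξ, Complex.exp (Complex.I * t * ξ) ∂σ := by
  have hcont : Continuous (fun t : ℝ => CC e α (t / r) * CC e' α' (t / r')) :=
    ((continuous_CC e α).comp (continuous_id.div_const r)).mul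
      ((continuous_CC e' α').comp (continuous_id.div_const r'))
  have heven : ∀ t : ℝ, CC e α (-t / r) * CC e' α' (-t / r')
      = CC e α (t / r) * CC e' α' (t / r') := by
    intro t
    rw [neg_div, neg_div, CC_neg, CC_neg]
  have hL2 : MemLp (fun t : ℝ => CC e α (t / r) * CC e' α' (t / r')) 2 volume :=
    memLp_of_even hcont heven h
  have hF1 : Measurable (fun p : ℝ × ((ℝ × ℝ) × (ℝ × ℝ)) => proc e α r p.1 p.2.1) :=
    (measurable_proc e α r).comp (measurable_fst.prodMk measurable_snd.fst)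
  have hF2 : Measurable (fun p : ℝ × ((ℝ × ℝ) × (ℝ × ℝ)) => proc e' α' r' p.1 p.2.2) :=
    (measurable_proc e' α' r').comp (measurable_fst.prodMk measurable_snd.snd)
  refine spectral ((nuI.prod nuI).prod (nuI.prod nuI))
    (fun t z => proc e α r t z.1 * proc e' α' r' t z.2) (hF1.mul hF2) ?_ _ ?_ hcont ?_ hL2
  · intro t z
    rw [abs_mul, abs_proc, abs_proc, one_mul]
  · intro t s
    have e1 : ∀ z : (ℝ × ℝ) × (ℝ × ℝ), proc e α r t z.1 * proc e' α' r' t z.2
        * (proc e α r s z.1 * proc e' α' r' s z.2)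
        = (proc e α r t z.1 * proc e α r s z.1) * (proc e' α' r' t z.2 * proc e' α' r' s z.2) := by
      intro z; ring
    simp_rw [e1]
    rw [integral_prod_mul (f := fun z : ℝ × ℝ => proc e α r t z * proc e α r s z)
      (g := fun z : ℝ × ℝ => proc e' α' r' t z * proc e' α' r' s z), integral_proc, integral_proc,
      sub_div, sub_div]
  · rw [zero_div, zero_div, CC_zero, CC_zero, one_mul]

end PFS
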