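import Pool.Agent.PFS.Exist
import Pool.Agent.PFS.SpecModel
import Pool.Agent.PFS.Corr
import Pool.Agent.PFS.Conn

/-! # PFS module Final: assembly -/

open MeasureTheory Topology Filter
open scoped ENNReal

namespace PFS

/-- If a null set of slopes is removed, the remaining pairs of directions still form a set of positive
measure. -/
theorem exists_directions (lam : ℝ) (h1 : 1 ≤ lam) (h2 : lam ≤ 2) (cond : ℝ × ℝ → Prop)
    (h : ∀ᵐ a : ℝ × ℝ ∂(volume.restrict (Set.Icc (0:ℝ) 1 ×ˢ Set.Icc (0:ℝ) 1)), cond a) :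
    ∃ A : Set (ℝ × ℝ), A ⊆ Set.Ico 0 (2 * Real.pi) ×ˢ Set.Ico 0 (2 * Real.pi) ∧ MeasurableSet A ∧
      0 < volume A ∧ ∀ z ∈ A, 0 < Real.cos z.1 ∧ 0 < Real.cos z.2 ∧
        cond (lam * Real.tan z.1, lam * Real.tan z.2) := by
  have hlam : 0 < lam := by linarith
  set I : Set (ℝ × ℝ) := Set.Icc (0:ℝ) 1 ×ˢ Set.Icc (0:ℝ) 1 with hI
  have hImeas : MeasurableSet I := measurableSet_Icc.prod measurableSet_Icc
  rw [ae_restrict_iff' hImeas] at h
  -- a measurable null set containing the bad slopes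
  have hnull : volume {a : ℝ × ℝ | ¬ (a ∈ I → cond a)} = 0 := h
  obtain ⟨N, hNsub, hNmeas, hN0⟩ := exists_measurable_superset_of_null hnull
  set θ0 : ℝ := Real.arctan (1 / 2) with hθ0
  have hθ0pos : 0 < θ0 := by
    have := Real.arctan_strictMono (show (0:ℝ) < 1 / 2 by norm_num)
    rwa [Real.arctan_zero] at this
  have hθ0lt : θ0 < Real.pi / 2 := Real.arctan_lt_pi_div_two _
  set R : Set (ℝ × ℝ) := Set.Ioo (0:ℝ) θ0 ×ˢ Set.Ioo (0:ℝ) θ0 with hR
  set ψ : ℝ × ℝ → ℝ × ℝ := fun z => (lam * Real.tan z.1, lam * Real.tan z.2) with hψ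
  have hψmeas : Measurable ψ := by
    have ht : Measurable Real.tan := by
      have : Real.tan = fun x => Real.sin x / Real.cos x := by
        funext x; exact Real.tan_eq_sin_div_cos x
      rw [this]
      exact Real.measurable_sin.div Real.measurable_cos
    exact (measurable_const.mul (ht.comp measurable_fst)).prodMk
      (measurable_const.mul (ht.comp measurable_snd))
  set Φ : ℝ × ℝ → ℝ × ℝ := fun a => (Real.arctan (a.1 / lam), Real.arctan (a.2 / lam)) with hΦ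
  have hΦdiff : Differentiable ℝ Φ := by
    apply Differentiable.prodMk
    · have h1 : Differentiable ℝ (fun a : ℝ × ℝ => a.1 / lam) := by fun_prop
      exact Real.differentiable_arctan.comp h1
    · have h1 : Differentiable ℝ (fun a : ℝ × ℝ => a.2 / lam) := by fun_prop
      exact Real.differentiable_arctan.comp h1
  have himg : volume (Φ '' N) = 0 :=
    addHaar_image_eq_zero_of_differentiableOn_of_addHaar_eq_zero volume hΦdiff.differentiableOn hN0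
  have hRmeas : MeasurableSet R := measurableSet_Ioo.prod measurableSet_Ioo
  have hsub : R ∩ ψ ⁻¹' N ⊆ Φ '' N := by
    rintro ⟨x, y⟩ ⟨⟨hx, hy⟩, hz⟩
    refine ⟨ψ (x, y), hz, ?_⟩
    simp only [hΦ, hψ]
    rw [mul_div_cancel_left₀ _ hlam.ne', mul_div_cancel_left₀ _ hlam.ne']
    rw [Real.arctan_tan (by linarith [hx.1, Real.pi_pos]) (by linarith [hx.2]),
      Real.arctan_tan (by linarith [hy.1, Real.pi_pos]) (by linarith [hy.2])]
  have h0 : volume (R ∩ ψ ⁻¹' N) = 0 := measure_mono_null hsub himg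
  have hRpos : 0 < volume R := by
    rw [hR, Measure.volume_eq_prod, Measure.prod_prod]
    simp only [Real.volume_Ioo, sub_zero]
    exact ENNReal.mul_pos (by simpa using hθ0pos) (by simpa using hθ0pos)
  refine ⟨R \ ψ ⁻¹' N, ?_, hRmeas.diff (hψmeas hNmeas), ?_, ?_⟩
  · rintro ⟨x, y⟩ ⟨⟨hx, hy⟩, -⟩
    have h2pi : θ0 < 2 * Real.pi := by linarith [Real.pi_pos]
    exact ⟨⟨hx.1.le, by linarith [hx.2]⟩, ⟨hy.1.le, by linarith [hy.2]⟩⟩
  · have hle : volume R ≤ volume (R \ ψ ⁻¹' N) + volume (R ∩ ψ ⁻¹' N) := by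
      refine (measure_mono ?_).trans (measure_union_le _ _)
      intro z hz
      by_cases hz' : z ∈ ψ ⁻¹' N
      · exact Or.inr ⟨hz, hz'⟩
      · exact Or.inl ⟨hz, hz'⟩
    rw [h0, add_zero] at hle
    exact lt_of_lt_of_le hRpos hle
  · rintro ⟨x, y⟩ ⟨⟨hx, hy⟩, hz⟩
    have key : ∀ s : ℝ, s ∈ Set.Ioo (0:ℝ) θ0 → 0 < Real.cos s ∧ 0 ≤ lam * Real.tan s ∧
        lam * Real.tan s ≤ 1 := by
      intro s hs
      have hs1 : s < Real.pi / 2 := by linarith [hs.2]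
      have hs0 : -(Real.pi / 2) < s := by linarith [hs.1, Real.pi_pos]
      refine ⟨Real.cos_pos_of_mem_Ioo ⟨hs0, hs1⟩,
        mul_nonneg hlam.le (Real.tan_nonneg_of_nonneg_of_le_pi_div_two hs.1.le hs1.le), ?_⟩
      have ht : Real.tan s ≤ 1 / 2 := by
        have : Real.tan s < Real.tan θ0 :=
          Real.tan_lt_tan_of_lt_of_lt_pi_div_two hs0 hθ0lt hs.2
        rw [hθ0, Real.tan_arctan] at this
        exact this.le
      calc lam * Real.tan s ≤ 2 * (1 / 2) := by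
            apply mul_le_mul h2 ht _ (by norm_num)
            exact Real.tan_nonneg_of_nonneg_of_le_pi_div_two hs.1.le hs1.le
        _ = 1 := by norm_num
    obtain ⟨c1, a1, b1⟩ := key x hx
    obtain ⟨c2, a2, b2⟩ := key y hy
    refine ⟨c1, c2, ?_⟩
    have hnot : ψ (x, y) ∉ N := hz
    by_contra hcond
    apply hnot
    apply hNsub
    intro himp
    exact hcond (himp ⟨⟨a1, b1⟩, ⟨a2, b2⟩⟩)

theorem sqrt_eq {lam θ : ℝ} (hlam : 0 < lam) (hc : 0 < Real.cos θ) :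
    √(lam ^ 2 + (lam * Real.tan θ) ^ 2) = lam / Real.cos θ := by
  have h : lam ^ 2 + (lam * Real.tan θ) ^ 2 = (lam / Real.cos θ) ^ 2 := by
    rw [Real.tan_eq_sin_div_cos]
    field_simp
    have := Real.sin_sq_add_cos_sq θ
    nlinarith
  rw [h, Real.sqrt_sq (by positivity)]

theorem main : ∃ (X : Type) (_ : TopologicalSpace X) (_ : CompactSpace X) (_ : T2Space X)
    (_ : ConnectedSpace X) (_ : MeasurableSpace X) (_ : BorelSpace X) (S : TranslationSurface X)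
    (μ : Measure X), S.IsArea μ ∧ ∃ A : Set (ℝ × ℝ),
      A ⊆ Set.Ico 0 (2 * Real.pi) ×ˢ Set.Ico 0 (2 * Real.pi) ∧ MeasurableSet A ∧ 0 < volume A ∧
      ∀ z ∈ A, ∃ f : X × X → ℂ, MemLp f 2 (μ.prod μ) ∧ ∫ w, f w ∂(μ.prod μ) = 0 ∧
        ∃ σ : Measure ℝ, IsSpectralMeasure (μ.prod μ) (S.prodFlow z.1 z.2) f σ ∧ σ ≠ 0 ∧
          σ ≪ volume := by
  obtain ⟨M, lam, e, e', hM0, hM, h1, h2, hinj, hinj', he, he', hne, hae⟩ := exist
  have hlam : 0 < lam := by linarith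
  let Q : Par := ⟨M, lam, e, e', hM0, hM, hlam, hinj, hinj', he, he', hne⟩
  have := Q.area2.prob
  refine ⟨Q.X2, inferInstance, Q.compact2, inferInstance, Q.connected, inferInstance, inferInstance,
    Q.S2, Q.mu2, Q.area2, ?_⟩
  obtain ⟨A, hAsub, hAmeas, hApos, hA⟩ := exists_directions lam h1 h2 _ hae
  refine ⟨A, hAsub, hAmeas, hApos, ?_⟩
  intro z hz
  obtain ⟨c1, c2, hcond⟩ := hA z hz
  obtain ⟨σ, hσp, hσac, hσ⟩ := specModel e e' _ _ _ _ hcond
  have := hσp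
  have hmeas : Measurable (fun w : Q.X2 × Q.X2 => Q.sg1 w.1 * Q.sg2 w.2) :=
    (Q.measurable_sg1.comp measurable_fst).mul (Q.measurable_sg2.comp measurable_snd)
  have habs : ∀ w : Q.X2 × Q.X2, |Q.sg1 w.1 * Q.sg2 w.2| = 1 := by
    intro w
    have h1 := Q.sg1_sq w.1
    have h2 := Q.sg2_sq w.2
    have h3 : (Q.sg1 w.1 * Q.sg2 w.2) * (Q.sg1 w.1 * Q.sg2 w.2) = 1 := by
      calc (Q.sg1 w.1 * Q.sg2 w.2) * (Q.sg1 w.1 * Q.sg2 w.2)
          = (Q.sg1 w.1 * Q.sg1 w.1) * (Q.sg2 w.2 * Q.sg2 w.2) := by ring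
        _ = 1 := by rw [h1, h2, one_mul]
    have h4 : |Q.sg1 w.1 * Q.sg2 w.2| * |Q.sg1 w.1 * Q.sg2 w.2| = 1 := by
      rw [abs_mul_abs_self, h3]
    nlinarith [abs_nonneg (Q.sg1 w.1 * Q.sg2 w.2)]
  refine ⟨fun w => ((Q.sg1 w.1 * Q.sg2 w.2 : ℝ) : ℂ), ?_, ?_, σ, ⟨inferInstance, ?_⟩, ?_, hσac⟩
  · refine MemLp.of_bound (Complex.measurable_ofReal.comp hmeas).aestronglyMeasurable 1 ?_
    refine Eventually.of_forall fun w => ?_
    simp only [Complex.norm_real, Real.norm_eq_abs]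
    exact (habs w).le
  · rw [integral_complex_ofReal]
    have : ∫ w : Q.X2 × Q.X2, Q.sg1 w.1 * Q.sg2 w.2 ∂(Q.mu2.prod Q.mu2)
        = (∫ q, Q.sg1 q ∂Q.mu2) * ∫ q, Q.sg2 q ∂Q.mu2 := integral_prod_mul _ _
    rw [this, Q.integral_sg1, zero_mul, Complex.ofReal_zero]
  · intro t
    have e1 : ∀ w : Q.X2 × Q.X2,
        ((Q.sg1 (Q.S2.prodFlow z.1 z.2 t w).1 * Q.sg2 (Q.S2.prodFlow z.1 z.2 t w).2 : ℝ) : ℂ)
          * (starRingEnd ℂ) ((Q.sg1 w.1 * Q.sg2 w.2 : ℝ) : ℂ)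
        = (((Q.sg1 (Q.S2.flow z.1 t w.1) * Q.sg1 w.1) * (Q.sg2 (Q.S2.flow z.2 t w.2) * Q.sg2 w.2) : ℝ)
            : ℂ) := by
      intro w
      rw [Complex.conj_ofReal]
      simp only [TranslationSurface.prodFlow]
      push_cast
      ring
    simp_rw [e1]
    rw [integral_complex_ofReal]
    have e2 : ∫ w : Q.X2 × Q.X2,
        (Q.sg1 (Q.S2.flow z.1 t w.1) * Q.sg1 w.1) * (Q.sg2 (Q.S2.flow z.2 t w.2) * Q.sg2 w.2)
          ∂(Q.mu2.prod Q.mu2)
        = (∫ q, Q.sg1 (Q.S2.flow z.1 t q) * Q.sg1 q ∂Q.mu2)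
          * ∫ q, Q.sg2 (Q.S2.flow z.2 t q) * Q.sg2 q ∂Q.mu2 :=
      integral_prod_mul (f := fun q => Q.sg1 (Q.S2.flow z.1 t q) * Q.sg1 q)
        (g := fun q => Q.sg2 (Q.S2.flow z.2 t q) * Q.sg2 q)
    rw [e2, Q.corr1 c1 t, Q.corr2 c2 t, ← hσ t]
    have r1 : √(lam ^ 2 + (lam * Real.tan z.1, lam * Real.tan z.2).1 ^ 2) = lam / Real.cos z.1 :=
      sqrt_eq hlam c1
    have r2 : √(lam ^ 2 + (lam * Real.tan z.1, lam * Real.tan z.2).2 ^ 2) = lam / Real.cos z.2 :=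
      sqrt_eq hlam c2
    rw [r1, r2]
    have t1 : t / (lam / Real.cos z.1) = t * Real.cos z.1 / lam := by
      field_simp
    have t2 : t / (lam / Real.cos z.2) = t * Real.cos z.2 / lam := by
      field_simp
    rw [t1, t2]
  · intro h0
    have : σ Set.univ = 1 := measure_univ
    rw [h0] at this
    simp at this

end PFS
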