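import Pool.Agent.PFS.GFun
import Pool.Agent.PFS.CSqrt

/-! # PFS module SqrtPath: the continuous square root of `G` along a line -/

open MeasureTheory Topology Filter
open scoped ENNReal

namespace PFS

/-- the line of slope `1/α` through `(u, 1/2)` -/
noncomputable def line (α u h : ℝ) : Tor :=
  (((u + h * α : ℝ) : UnitAddCircle), ((1 / 2 + h : ℝ) : UnitAddCircle))

/-- the square root of `G` along the line -/
noncomputable def yy (lam : ℝ) {M : ℕ} (e : Fin M → ℝ) (α u h : ℝ) : ℂ :=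
  (Pz e α u ⌊h⌋ : ℂ) * csqrt (GG lam e (line α u h))

private theorem chi_mul_self {M : ℕ} (e : Fin M → ℝ) (x : ℝ) : chi e x * chi e x = 1 := by
  rcases chi_eq e x with h | h <;> rw [h] <;> norm_num

theorem Pz_sq {M : ℕ} (e : Fin M → ℝ) (α u : ℝ) (m : ℤ) : Pz e α u m * Pz e α u m = 1 := by
  unfold Pz
  have h : ∀ s : Finset ℤ, (∏ k ∈ s, chi e (u + k * α)) * ∏ k ∈ s, chi e (u + k * α) = 1 := by
    intro s
    rw [← Finset.prod_mul_distrib]
    exact Finset.prod_eq_one fun k _ => chi_mul_self e _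
  calc _ = ((∏ k ∈ Finset.Ioc 0 m, chi e (u + k * α)) * ∏ k ∈ Finset.Ioc 0 m, chi e (u + k * α)) *
      ((∏ k ∈ Finset.Ioc m 0, chi e (u + k * α)) * ∏ k ∈ Finset.Ioc m 0, chi e (u + k * α)) := by
        ring
    _ = 1 := by rw [h, h, one_mul]

theorem Pz_succ {M : ℕ} (e : Fin M → ℝ) (α u : ℝ) (m : ℤ) :
    Pz e α u (m + 1) = Pz e α u m * chi e (u + (m + 1 : ℤ) * α) := by
  unfold Pz
  rcases le_or_gt 0 m with hm | hm
  · have h1 : Finset.Ioc (0:ℤ) (m + 1) = insert (m + 1) (Finset.Ioc 0 m) := by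
      ext x; simp only [Finset.mem_Ioc, Finset.mem_insert]; omega
    have h2 : Finset.Ioc (m + 1) (0:ℤ) = ∅ := by
      apply Finset.Ioc_eq_empty; omega
    have h3 : Finset.Ioc m (0:ℤ) = ∅ := by
      apply Finset.Ioc_eq_empty; omega
    have h4 : (m + 1) ∉ Finset.Ioc (0:ℤ) m := by simp
    rw [h1, h2, h3, Finset.prod_insert h4]
    simp only [Finset.prod_empty]
    ring
  · have h1 : Finset.Ioc m (0:ℤ) = insert (m + 1) (Finset.Ioc (m + 1) 0) := by
      ext x; simp only [Finset.mem_Ioc, Finset.mem_insert]; omega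
    have h2 : Finset.Ioc (0:ℤ) (m + 1) = ∅ := by
      apply Finset.Ioc_eq_empty; omega
    have h3 : Finset.Ioc (0:ℤ) m = ∅ := by
      apply Finset.Ioc_eq_empty; omega
    have h4 : (m + 1) ∉ Finset.Ioc (m + 1) (0:ℤ) := by simp
    rw [h1, h2, h3, Finset.prod_insert h4]
    simp only [Finset.prod_empty]
    have := chi_mul_self e (u + (m + 1 : ℤ) * α)
    rw [one_mul, one_mul, mul_comm (chi e _) (Finset.prod _ _), mul_assoc, this, mul_one]

private theorem continuous_coe_circle : Continuous (fun x : ℝ => (x : UnitAddCircle)) :=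
  AddCircle.continuous_mk' 1

theorem continuous_line (α u : ℝ) : Continuous (line α u) := by
  unfold line
  refine Continuous.prodMk ?_ ?_
  · exact continuous_coe_circle.comp (by fun_prop)
  · exact continuous_coe_circle.comp (by fun_prop)

theorem yy_sq (lam : ℝ) {M : ℕ} (e : Fin M → ℝ) (α u h : ℝ) :
    yy lam e α u h ^ 2 = GG lam e (line α u h) := by
  unfold yy
  rw [mul_pow, csqrt_sq]
  have : (Pz e α u ⌊h⌋ : ℂ) ^ 2 = 1 := by
    rw [sq]; norm_cast; exact Pz_sq e α u _
  rw [this, one_mul]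

theorem sp_coe_half_add_eq_iff (h : ℝ) :
    ((1 / 2 + h : ℝ) : UnitAddCircle) = ((1 / 2 : ℝ) : UnitAddCircle) ↔ ∃ k : ℤ, h = k := by
  have h1 : ((1 / 2 + h : ℝ) : UnitAddCircle) = ((1 / 2 : ℝ) : UnitAddCircle) + (h : UnitAddCircle) :=
    AddCircle.coe_add _ _ _
  rw [h1, add_eq_left, AddCircle.coe_eq_zero_iff]
  constructor
  · rintro ⟨n, hn⟩; exact ⟨n, by rw [← hn]; simp⟩
  · rintro ⟨n, hn⟩; exact ⟨n, by rw [hn]; simp⟩

theorem GG_line_ne_zero {lam : ℝ} (hlam : 0 < lam) {M : ℕ} (hM0 : 0 < M) (e : Fin M → ℝ) (α u : ℝ)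
    (hgen : ∀ (k : ℤ) (j : Fin M), ((u + k * α : ℝ) : UnitAddCircle) ≠ ((e j : ℝ) : UnitAddCircle))
    (h : ℝ) : GG lam e (line α u h) ≠ 0 := by
  rw [Ne, GG_eq_zero_iff hM0 e hlam]
  rintro ⟨h1, j, h2⟩
  obtain ⟨k, rfl⟩ := (sp_coe_half_add_eq_iff h).1 h1
  exact hgen k j h2

private theorem infDist_pos_of_gen {M : ℕ} (hM0 : 0 < M) (e : Fin M → ℝ) (x : UnitAddCircle)
    (hx : ∀ j, x ≠ ((e j : ℝ) : UnitAddCircle)) :
    0 < Metric.infDist x (Set.range fun j : Fin M => ((e j : ℝ) : UnitAddCircle)) := by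
  have hc : IsClosed (Set.range fun j : Fin M => ((e j : ℝ) : UnitAddCircle)) :=
    (Set.finite_range _).isClosed
  have hne : (Set.range fun j : Fin M => ((e j : ℝ) : UnitAddCircle)).Nonempty :=
    ⟨_, ⟨⟨0, hM0⟩, rfl⟩⟩
  rw [← hc.notMem_iff_infDist_pos hne]
  rintro ⟨j, hj⟩
  exact hx j hj.symm

private theorem line_int (α u : ℝ) (k : ℤ) :
    line α u k = (((u + k * α : ℝ) : UnitAddCircle), ((1 / 2 : ℝ) : UnitAddCircle)) := by
  unfold line
  rw [(sp_coe_half_add_eq_iff (k : ℝ)).2 ⟨k, rfl⟩]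

private theorem line_near (α u h : ℝ) (k : ℤ) :
    line α u h = (((u + h * α : ℝ) : UnitAddCircle), ((1 / 2 + (h - k) : ℝ) : UnitAddCircle)) := by
  unfold line
  congr 1
  have h1 : (1 / 2 + h : ℝ) = (1 / 2 + (h - k)) + (k : ℝ) := by ring
  have h2 : ((k : ℝ) : UnitAddCircle) = 0 := by
    rw [AddCircle.coe_eq_zero_iff]; exact ⟨k, by simp⟩
  rw [h1, AddCircle.coe_add, h2, add_zero]

private theorem floor_near (k : ℤ) : ∀ᶠ h : ℝ in 𝓝 (k : ℝ), ⌊h⌋ = if (k : ℝ) ≤ h then k else k - 1 := by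
  have : Set.Ioo ((k : ℝ) - 1) (k + 1) ∈ 𝓝 (k : ℝ) := Ioo_mem_nhds (by linarith) (by linarith)
  filter_upwards [this] with h hh
  split_ifs with hk
  · rw [Int.floor_eq_iff]; exact ⟨hk, hh.2⟩
  · rw [Int.floor_eq_iff]; push_cast; push Not at hk; exact ⟨hh.1.le, by linarith⟩

theorem continuous_yy {lam : ℝ} (hlam : 0 < lam) {M : ℕ} (hM0 : 0 < M) (hM : Even M)
    (e : Fin M → ℝ) (he : ∀ j, e j ∈ Set.Ioo (0:ℝ) 1) (α u : ℝ)
    (hgen : ∀ (k : ℤ) (j : Fin M), ((u + k * α : ℝ) : UnitAddCircle) ≠ ((e j : ℝ) : UnitAddCircle)) :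
    Continuous (yy lam e α u) := by
  have hG : Continuous (fun h => GG lam e (line α u h)) :=
    (continuous_GG hM e he lam).comp (continuous_line α u)
  rw [continuous_iff_continuousAt]
  intro h₀
  by_cases hint : ∃ k : ℤ, h₀ = k
  · obtain ⟨k, rfl⟩ := hint
    have hdist := infDist_pos_of_gen hM0 e _ (hgen k)
    have hval : GG lam e (line α u k) = (rr e ((u + k * α : ℝ) : UnitAddCircle) : ℂ) := by
      rw [line_int, GG_half]
    have hrr : rr e ((u + k * α : ℝ) : UnitAddCircle) = chi e (u + k * α) *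
        Metric.infDist ((u + k * α : ℝ) : UnitAddCircle)
          (Set.range fun j : Fin M => ((e j : ℝ) : UnitAddCircle)) := by
      unfold rr; rw [chiC_coe]
    have hsucc : Pz e α u k = Pz e α u (k - 1) * chi e (u + k * α) := by
      have := Pz_succ e α u (k - 1)
      rwa [sub_add_cancel] at this
    rcases chi_eq e (u + k * α) with hc | hc
    · -- `chi = 1`: `Pz` is locally constant
      have hslit : GG lam e (line α u k) ∈ Complex.slitPlane := by
        rw [hval, hrr, hc, one_mul]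
        exact Complex.ofReal_mem_slitPlane.2 hdist
      have hP : ∀ᶠ h : ℝ in 𝓝 (k : ℝ), yy lam e α u h =
          (Pz e α u k : ℂ) * csqrt (GG lam e (line α u h)) := by
        filter_upwards [floor_near k] with h hh
        unfold yy
        rw [hh]
        split_ifs
        · rfl
        · rw [hsucc, hc, mul_one]
      refine ContinuousAt.congr ?_ (hP.mono fun _ h => h.symm)
      exact continuousAt_const.mul (ContinuousAt.comp (f := fun h : ℝ => GG lam e (line α u h))
        (continuousAt_csqrt hslit) hG.continuousAt)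
    · -- `chi = -1`
      have him0 : (GG lam e (line α u k)).im = 0 := by rw [hval]; simp
      have hre0 : (GG lam e (line α u k)).re < 0 := by
        rw [hval, hrr, hc]; simpa using hdist
      have hP : ∀ᶠ h : ℝ in 𝓝 (k : ℝ), yy lam e α u h =
          (Pz e α u k : ℂ) * ((if 0 ≤ (GG lam e (line α u h)).im then (1:ℂ) else -1) *
            csqrt (GG lam e (line α u h))) := by
        have h4 : Set.Ioo ((k : ℝ) - 1 / 4) (k + 1 / 4) ∈ 𝓝 (k : ℝ) :=
          Ioo_mem_nhds (by linarith) (by linarith)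
        filter_upwards [floor_near k, h4] with h hh h4
        have him : (GG lam e (line α u h)).im = lam * (h - k) := by
          rw [line_near α u h k]
          exact GG_im e lam _ (by rw [abs_le]; constructor <;> linarith [h4.1, h4.2])
        have hiff : (0 ≤ (GG lam e (line α u h)).im) ↔ (k : ℝ) ≤ h := by
          rw [him]
          constructor
          · intro h5
            by_contra h6
            push Not at h6
            have : lam * (h - k) < 0 := mul_neg_of_pos_of_neg hlam (by linarith)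
            linarith
          · intro h5
            exact mul_nonneg hlam.le (by linarith)
        unfold yy
        rw [hh]
        by_cases hk : (k : ℝ) ≤ h
        · rw [if_pos hk, if_pos (hiff.2 hk)]; ring
        · rw [if_neg hk, if_neg (fun h7 => hk (hiff.1 h7)), hsucc, hc]
          push_cast; ring
      refine ContinuousAt.congr ?_ (hP.mono fun _ h => h.symm)
      exact continuousAt_const.mul (ContinuousAt.comp
        (f := fun h : ℝ => GG lam e (line α u h))
        (g := fun w : ℂ => (if 0 ≤ w.im then (1:ℂ) else -1) * csqrt w)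
        (continuousAt_csqrt_flip him0 hre0) hG.continuousAt)
  · -- not an integer
    have hslit : GG lam e (line α u h₀) ∈ Complex.slitPlane := by
      apply GG_slit hM0 e hlam
      intro h1
      exact hint ((sp_coe_half_add_eq_iff h₀).1 h1)
    have hfl : ∀ᶠ h : ℝ in 𝓝 h₀, ⌊h⌋ = ⌊h₀⌋ := by
      have h1 : (⌊h₀⌋ : ℝ) < h₀ := lt_of_le_of_ne (Int.floor_le _) (fun h2 => hint ⟨_, h2.symm⟩)
      have h2 : h₀ < ⌊h₀⌋ + 1 := Int.lt_floor_add_one _
      filter_upwards [Ioo_mem_nhds h1 h2] with h hh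
      rw [Int.floor_eq_iff]
      exact ⟨hh.1.le, hh.2⟩
    have hP : ∀ᶠ h : ℝ in 𝓝 h₀, yy lam e α u h =
        (Pz e α u ⌊h₀⌋ : ℂ) * csqrt (GG lam e (line α u h)) := by
      filter_upwards [hfl] with h hh
      unfold yy
      rw [hh]
    refine ContinuousAt.congr ?_ (hP.mono fun _ h => h.symm)
    exact continuousAt_const.mul (ContinuousAt.comp (f := fun h : ℝ => GG lam e (line α u h))
      (continuousAt_csqrt hslit) hG.continuousAt)

end PFS
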