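import Pool.Agent.PFS.Surface
import Pool.Agent.PFS.SqrtPath

/-! # PFS module FlowX: explicit orbits on the surface -/

open MeasureTheory Topology Filter
open scoped ENNReal

namespace PFS

namespace Par

variable (Q : Par)

/-- sheet sign of the first cover -/
noncomputable def sg1 (q : Q.X2) : ℝ := if q.1.1.1.2 = csqrt (GG Q.lam Q.e (Q.base q)) then 1 else -1

/-- sheet sign of the second cover -/
noncomputable def sg2 (q : Q.X2) : ℝ := if q.1.2 = csqrt (GG Q.lam Q.e' (Q.base q)) then 1 else -1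

private theorem measurable_base : Measurable Q.base := by
  unfold base
  exact measurable_fst.comp (measurable_subtype_coe.comp
    (measurable_fst.comp measurable_subtype_coe))

theorem measurable_sg1 : Measurable Q.sg1 := by
  unfold sg1
  refine Measurable.ite (measurableSet_eq_fun ?_ ?_) measurable_const measurable_const
  · exact measurable_snd.comp (measurable_subtype_coe.comp
      (measurable_fst.comp measurable_subtype_coe))
  · exact measurable_csqrt.comp ((continuous_GG Q.hM Q.e Q.he Q.lam).measurable.comp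
      Q.measurable_base)

theorem measurable_sg2 : Measurable Q.sg2 := by
  unfold sg2
  refine Measurable.ite (measurableSet_eq_fun ?_ ?_) measurable_const measurable_const
  · exact measurable_snd.comp measurable_subtype_coe
  · exact measurable_csqrt.comp ((continuous_GG Q.hM Q.e' Q.he' Q.lam).measurable.comp
      Q.measurable_base)

theorem sg1_sq (q : Q.X2) : Q.sg1 q * Q.sg1 q = 1 := by
  unfold sg1; split_ifs <;> norm_num

theorem sg2_sq (q : Q.X2) : Q.sg2 q * Q.sg2 q = 1 := by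
  unfold sg2; split_ifs <;> norm_num

private theorem Pz_zero {M : ℕ} (e : Fin M → ℝ) (α u : ℝ) : Pz e α u 0 = 1 := by
  unfold Pz; simp

private theorem yy_floor_zero {M : ℕ} (lam : ℝ) (e : Fin M → ℝ) (α u : ℝ) {τ : ℝ} (hτ : 0 ≤ τ)
    (hτ' : τ < 1) : yy lam e α u τ = csqrt (GG lam e (line α u τ)) := by
  unfold yy
  have : ⌊τ⌋ = 0 := by rw [Int.floor_eq_iff]; simp [hτ, hτ']
  rw [this, Pz_zero]; simp

/-- a square root of `z` is `csqrt z` or its negative -/
private theorem eq_sign_mul {y z : ℂ} (h : y ^ 2 = z) :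
    y = ((if y = csqrt z then (1:ℝ) else -1 : ℝ) : ℂ) * csqrt z := by
  by_cases h1 : y = csqrt z
  · rw [if_pos h1]; simpa using h1
  · rw [if_neg h1]
    have : y ^ 2 = csqrt z ^ 2 := by rw [h, csqrt_sq]
    rcases sq_eq_sq_iff_eq_or_eq_neg.1 this with h2 | h2
    · exact absurd h2 h1
    · rw [h2]; simp

/-- sheet sign of `c * csqrt z` -/
private theorem sign_of_mul {c : ℝ} (hc : c * c = 1) {y z : ℂ} (hz : z ≠ 0)
    (hy : y = (c : ℂ) * csqrt z) : (if y = csqrt z then (1:ℝ) else -1) = c := by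
  have hcs : csqrt z ≠ 0 := fun h => hz ((csqrt_eq_zero_iff z).1 h)
  have hc' : c = 1 ∨ c = -1 := by
    have : (c - 1) * (c + 1) = 0 := by ring_nf; nlinarith
    rcases mul_eq_zero.1 this with h | h
    · left; linarith
    · right; linarith
  rcases hc' with rfl | rfl
  · rw [if_pos]; simpa using hy
  · rw [if_neg]
    intro h
    rw [h] at hy
    have : (2:ℂ) * csqrt z = 0 := by
      push_cast at hy; linear_combination hy
    rcases mul_eq_zero.1 this with h3 | h3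
    · norm_num at h3
    · exact hcs h3

/-- the explicit flow formula: `q` lies above the point at height `τ` of the line through `(u, 1/2)`,
which avoids all branch points; `α = λ tan θ` -/
theorem flow_formula {θ : ℝ} (hθ : 0 < Real.cos θ) (q : Q.X2) (u τ : ℝ) (hτ : 0 ≤ τ) (hτ' : τ < 1)
    (hq : Q.base q = line (Q.lam * Real.tan θ) u τ)
    (hgen : ∀ (k : ℤ) (j : Fin Q.M),
      ((u + k * (Q.lam * Real.tan θ) : ℝ) : UnitAddCircle) ≠ ((Q.e j : ℝ) : UnitAddCircle))
    (hgen' : ∀ (k : ℤ) (j : Fin Q.M),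
      ((u + k * (Q.lam * Real.tan θ) : ℝ) : UnitAddCircle) ≠ ((Q.e' j : ℝ) : UnitAddCircle))
    (t : ℝ) :
    Q.sg1 (Q.S2.flow θ t q) * Q.sg1 q
        = Pz Q.e (Q.lam * Real.tan θ) u ⌊τ + t * Real.cos θ / Q.lam⌋ ∧
      Q.sg2 (Q.S2.flow θ t q) * Q.sg2 q
        = Pz Q.e' (Q.lam * Real.tan θ) u ⌊τ + t * Real.cos θ / Q.lam⌋ := by
  set α := Q.lam * Real.tan θ with hα
  have hlam := Q.hlam
  -- the height function
  set hh : ℝ → ℝ := fun s => τ + s * Real.cos θ / Q.lam with hhdef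
  have hhc : Continuous hh := by
    simp only [hhdef]
    fun_prop
  have hh0 : hh 0 = τ := by simp [hhdef]
  -- torus orbit
  have horb0 : (torusTS Q.lam Q.hlam).IsOrbit θ (fun s => line α u (hh s)) := by
    have h1 := torus_orbit (lam := Q.lam) (hlam := Q.hlam) θ (Q.base q)
    have h2 : (fun s : ℝ => ((Q.base q).1 + ((s * Real.sin θ : ℝ) : UnitAddCircle),
      (Q.base q).2 + ((s * Real.cos θ / Q.lam : ℝ) : UnitAddCircle))) =
        fun s => line α u (hh s) := by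
      funext s
      rw [hq]
      unfold line
      simp only [hhdef]
      rw [← AddCircle.coe_add, ← AddCircle.coe_add]
      have h3 : u + τ * α + s * Real.sin θ = u + (τ + s * Real.cos θ / Q.lam) * α := by
        have h4 : Real.tan θ * Real.cos θ = Real.sin θ := Real.tan_mul_cos hθ.ne'
        rw [hα, ← h4]
        field_simp
        ring
      have h5 : 1 / 2 + τ + s * Real.cos θ / Q.lam = 1 / 2 + (τ + s * Real.cos θ / Q.lam) := by ring
      rw [h3, h5]
    rw [h2] at h1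
    exact h1
  -- first lift
  set y1 : ℝ → ℂ := fun s => (Q.sg1 q : ℂ) * yy Q.lam Q.e α u (hh s) with hy1
  have hy1c : Continuous y1 :=
    continuous_const.mul ((continuous_yy hlam Q.hM0 Q.hM Q.e Q.he α u hgen).comp hhc)
  have hy1sq : ∀ s, y1 s ^ 2 = GG Q.lam Q.e (line α u (hh s)) := by
    intro s
    simp only [hy1]
    rw [mul_pow, yy_sq]
    have : (Q.sg1 q : ℂ) ^ 2 = 1 := by rw [sq]; norm_cast; exact Q.sg1_sq q
    rw [this, one_mul]
  have horb1 := lift_orbit (hG := continuous_GG Q.hM Q.e Q.he Q.lam)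
    (hz := niceZeros_GG Q.hM0 Q.hM Q.e Q.he Q.hinj Q.lam Q.hlam) horb0 y1 hy1c hy1sq
    (fun s => GG_line_ne_zero hlam Q.hM0 Q.e α u hgen _)
  set γ1 : ℝ → Q.X1 := fun s => (⟨(line α u (hh s), y1 s), hy1sq s⟩ : Dbl (GG Q.lam Q.e)) with hγ1
  -- second lift
  set y2 : ℝ → ℂ := fun s => (Q.sg2 q : ℂ) * yy Q.lam Q.e' α u (hh s) with hy2
  have hy2c : Continuous y2 :=
    continuous_const.mul ((continuous_yy hlam Q.hM0 Q.hM Q.e' Q.he' α u hgen').comp hhc)
  have hy2sq : ∀ s, y2 s ^ 2 = Q.G2 (γ1 s) := by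
    intro s
    simp only [hy2]
    rw [mul_pow, yy_sq]
    have : (Q.sg2 q : ℂ) ^ 2 = 1 := by rw [sq]; norm_cast; exact Q.sg2_sq q
    rw [this, one_mul]
    rfl
  have horb2 : Q.S2.IsOrbit θ (fun s => (⟨(γ1 s, y2 s), hy2sq s⟩ : Q.X2)) :=
    lift_orbit (S := Q.S1) (hG := Q.continuous_G2) (hz := Q.niceZeros_G2) horb1 y2 hy2c hy2sq
      (fun s => GG_line_ne_zero hlam Q.hM0 Q.e' α u hgen' _)
  -- the initial point
  have hq1 : q.1.1.1.2 = y1 0 := by
    have h1 : q.1.1.1.2 ^ 2 = GG Q.lam Q.e (Q.base q) := q.1.1.2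
    have h2 := eq_sign_mul h1
    rw [h2]
    simp only [hy1, hh0]
    rw [yy_floor_zero Q.lam Q.e α u hτ hτ', ← hq]
    rfl
  have hq2 : q.1.2 = y2 0 := by
    have h1 : q.1.2 ^ 2 = GG Q.lam Q.e' (Q.base q) := q.2
    have h2 := eq_sign_mul h1
    rw [h2]
    simp only [hy2, hh0]
    rw [yy_floor_zero Q.lam Q.e' α u hτ hτ', ← hq]
    rfl
  have hstart : (fun s => (⟨(γ1 s, y2 s), hy2sq s⟩ : Q.X2)) 0 = q := by
    apply Subtype.ext
    refine Prod.ext ?_ ?_
    · apply Subtype.ext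
      refine Prod.ext ?_ ?_
      · show line α u (hh 0) = q.1.1.1.1
        rw [hh0, ← hq]; rfl
      · show y1 0 = q.1.1.1.2
        exact hq1.symm
    · show y2 0 = q.1.2
      exact hq2.symm
  have hflow := horb2.flow_eq hstart t
  rw [hflow]
  have hne1 : GG Q.lam Q.e (line α u (hh t)) ≠ 0 := GG_line_ne_zero hlam Q.hM0 Q.e α u hgen _
  have hne2 : GG Q.lam Q.e' (line α u (hh t)) ≠ 0 := GG_line_ne_zero hlam Q.hM0 Q.e' α u hgen' _
  constructor
  · have h1 : Q.sg1 (⟨(γ1 t, y2 t), hy2sq t⟩ : Q.X2) = Q.sg1 q * Pz Q.e α u ⌊hh t⌋ := by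
      refine sign_of_mul (y := y1 t) (z := GG Q.lam Q.e (line α u (hh t))) ?_ hne1 ?_
      · have h2 := Q.sg1_sq q
        have h3 := Pz_sq Q.e α u ⌊hh t⌋
        calc _ = (Q.sg1 q * Q.sg1 q) * (Pz Q.e α u ⌊hh t⌋ * Pz Q.e α u ⌊hh t⌋) := by ring
          _ = 1 := by rw [h2, h3, one_mul]
      · simp only [hy1, yy]
        push_cast
        ring
    show Q.sg1 (⟨(γ1 t, y2 t), hy2sq t⟩ : Q.X2) * Q.sg1 q = Pz Q.e α u ⌊hh t⌋
    rw [h1]
    have h2 := Q.sg1_sq q
    calc _ = (Q.sg1 q * Q.sg1 q) * Pz Q.e α u ⌊hh t⌋ := by ring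
      _ = _ := by rw [h2, one_mul]
  · have h1 : Q.sg2 (⟨(γ1 t, y2 t), hy2sq t⟩ : Q.X2) = Q.sg2 q * Pz Q.e' α u ⌊hh t⌋ := by
      refine sign_of_mul (y := y2 t) (z := GG Q.lam Q.e' (line α u (hh t))) ?_ hne2 ?_
      · have h2 := Q.sg2_sq q
        have h3 := Pz_sq Q.e' α u ⌊hh t⌋
        calc _ = (Q.sg2 q * Q.sg2 q) * (Pz Q.e' α u ⌊hh t⌋ * Pz Q.e' α u ⌊hh t⌋) := by ring
          _ = 1 := by rw [h2, h3, one_mul]
      · simp only [hy2, yy]
        push_cast
        ring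
    show Q.sg2 (⟨(γ1 t, y2 t), hy2sq t⟩ : Q.X2) * Q.sg2 q = Pz Q.e' α u ⌊hh t⌋
    rw [h1]
    have h2 := Q.sg2_sq q
    calc _ = (Q.sg2 q * Q.sg2 q) * Pz Q.e' α u ⌊hh t⌋ := by ring
      _ = _ := by rw [h2, one_mul]

end Par

end PFS
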