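import Pool.Agent.PFS.Defs

/-! # PFS module Torus: the torus `ℝ²/(ℤ × λℤ)` as a translation surface -/

open MeasureTheory Topology Filter
open scoped ENNReal

namespace PFS

/-- the topological torus -/
abbrev Tor : Type := UnitAddCircle × UnitAddCircle

namespace TorusAux

/-- every point of the circle has a small representative -/
theorem exists_rep (z : UnitAddCircle) : ∃ s : ℝ, (s : UnitAddCircle) = z ∧ |s| = ‖z‖ := by
  induction z using QuotientAddGroup.induction_on with
  | H x =>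
    refine ⟨x - round x, ?_, ?_⟩
    · have h : ((round x : ℝ) : UnitAddCircle) = 0 := by
        rw [AddCircle.coe_eq_zero_iff]
        exact ⟨round x, by simp⟩
      rw [AddCircle.coe_sub, h, sub_zero]
    · exact (UnitAddCircle.norm_eq (x := x)).symm

theorem norm_coe {a : ℝ} (ha : |a| ≤ 1 / 2) : ‖(a : UnitAddCircle)‖ = |a| := by
  rw [AddCircle.norm_coe_eq_abs_iff (1 : ℝ) one_ne_zero]
  simpa using ha

/-- the centred coordinate on the circle -/
theorem exists_circle_chart (x₀ : UnitAddCircle) : ∃ ψ : OpenPartialHomeomorph UnitAddCircle ℝ,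
    ψ.source = {x | ‖x - x₀‖ < 1 / 4} ∧ ∀ a : ℝ, |a| < 1 / 4 → ψ (x₀ + (a : UnitAddCircle)) = a := by
  set e := (AddCircle.openPartialHomeomorphCoe (1 : ℝ) (-(1 / 2))) with he
  have hopen : IsOpen {x : UnitAddCircle | ‖x - x₀‖ < 1 / 4} :=
    isOpen_lt (continuous_id.sub continuous_const).norm continuous_const
  refine ⟨((Homeomorph.addRight (-x₀)).toOpenPartialHomeomorph.trans e.symm).restrOpen _ hopen,
    ?_, ?_⟩
  · ext x
    rw [OpenPartialHomeomorph.restrOpen_source, OpenPartialHomeomorph.trans_source]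
    simp only [Set.mem_inter_iff, Set.mem_preimage, OpenPartialHomeomorph.symm_source,
      Homeomorph.toOpenPartialHomeomorph_source, Set.mem_univ, true_and,
      Homeomorph.toOpenPartialHomeomorph_apply, Homeomorph.coe_addRight, Set.mem_ofPred_eq,
      and_iff_right_iff_imp]
    intro hx
    rw [he, AddCircle.openPartialHomeomorphCoe_target, Set.mem_compl_singleton_iff]
    intro h
    rw [← sub_eq_add_neg] at h
    rw [h, norm_coe (by rw [abs_neg]; norm_num)] at hx
    rw [abs_neg] at hx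
    norm_num at hx
  · intro a ha
    have hmem : a ∈ e.source := by
      rw [he, AddCircle.openPartialHomeomorphCoe_source]
      rw [abs_lt] at ha
      constructor
      · linarith
      · linarith
    change e.symm (x₀ + (a : UnitAddCircle) + -x₀) = a
    rw [add_comm x₀, add_neg_cancel_right]
    exact e.left_inv hmem

/-- `(a, b) ↦ a + iλb` -/
noncomputable def lin (lam : ℝ) (hlam : 0 < lam) : ℝ × ℝ ≃ₜ ℂ :=
  ((Homeomorph.refl ℝ).prodCongr (Homeomorph.mulLeft₀ lam hlam.ne')).trans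
    Complex.equivRealProdCLM.symm.toHomeomorph

theorem lin_apply (lam : ℝ) (hlam : 0 < lam) (z : ℝ × ℝ) : lin lam hlam z = ⟨z.1, lam * z.2⟩ := by
  apply Complex.ext
  · rfl
  · rfl

end TorusAux

open TorusAux

/-- centred coordinate at `p`: for `|a|, |b| < 1/4` it sends `p + (a, b)` to `a + i λ b` -/
theorem exists_torus_chart (lam : ℝ) (hlam : 0 < lam) (p : Tor) :
    ∃ φ : OpenPartialHomeomorph Tor ℂ,
      φ.source = {q : Tor | ‖q.1 - p.1‖ < 1 / 4 ∧ ‖q.2 - p.2‖ < 1 / 4} ∧
      ∀ a b : ℝ, |a| < 1 / 4 → |b| < 1 / 4 →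
        φ (p.1 + (a : UnitAddCircle), p.2 + (b : UnitAddCircle)) = ⟨a, lam * b⟩ := by
  obtain ⟨ψ₁, s₁, v₁⟩ := exists_circle_chart p.1
  obtain ⟨ψ₂, s₂, v₂⟩ := exists_circle_chart p.2
  refine ⟨(ψ₁.prod ψ₂).transHomeomorph (lin lam hlam), ?_, ?_⟩
  · rw [OpenPartialHomeomorph.transHomeomorph_source, OpenPartialHomeomorph.prod_source, s₁, s₂]
    rfl
  · intro a b ha hb
    change lin lam hlam (ψ₁ (p.1 + (a : UnitAddCircle)), ψ₂ (p.2 + (b : UnitAddCircle))) = _
    rw [v₁ a ha, v₂ b hb, lin_apply]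

namespace TorusAux

/-- all data at a point of the source -/
theorem rep_of_source {p q : Tor} (h : ‖q.1 - p.1‖ < 1 / 4 ∧ ‖q.2 - p.2‖ < 1 / 4) :
    ∃ a b : ℝ, |a| < 1 / 4 ∧ |b| < 1 / 4 ∧
      q = (p.1 + (a : UnitAddCircle), p.2 + (b : UnitAddCircle)) := by
  obtain ⟨a, ha, ha'⟩ := exists_rep (q.1 - p.1)
  obtain ⟨b, hb, hb'⟩ := exists_rep (q.2 - p.2)
  refine ⟨a, b, by rw [ha']; exact h.1, by rw [hb']; exact h.2, ?_⟩
  rw [ha, hb, add_sub_cancel, add_sub_cancel]

theorem eventually_rep (x : Tor) {δ : ℝ} (hδ : 0 < δ) : ∀ᶠ y in 𝓝 x, ∃ s t : ℝ, |s| < δ ∧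
    |t| < δ ∧ y = (x.1 + (s : UnitAddCircle), x.2 + (t : UnitAddCircle)) := by
  have h1 : ∀ᶠ y : Tor in 𝓝 x, ‖y.1 - x.1‖ < δ := by
    have hc : Continuous fun y : Tor => ‖y.1 - x.1‖ := (continuous_fst.sub continuous_const).norm
    have := hc.tendsto x
    rw [sub_self, norm_zero] at this
    exact this.eventually (gt_mem_nhds hδ)
  have h2 : ∀ᶠ y : Tor in 𝓝 x, ‖y.2 - x.2‖ < δ := by
    have hc : Continuous fun y : Tor => ‖y.2 - x.2‖ := (continuous_snd.sub continuous_const).norm
    have := hc.tendsto x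
    rw [sub_self, norm_zero] at this
    exact this.eventually (gt_mem_nhds hδ)
  filter_upwards [h1, h2] with y hy1 hy2
  obtain ⟨s, hs, hs'⟩ := exists_rep (y.1 - x.1)
  obtain ⟨t, ht, ht'⟩ := exists_rep (y.2 - x.2)
  refine ⟨s, t, by rwa [hs'], by rwa [ht'], ?_⟩
  rw [hs, ht, add_sub_cancel, add_sub_cancel]

end TorusAux

/-- the translation surface structure on the torus -/
noncomputable def torusTS (lam : ℝ) (hlam : 0 < lam) : TranslationSurface Tor where
  k _ := 1
  k_pos _ := le_refl _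
  chart p := (exists_torus_chart lam hlam p).choose
  mem_source p := by
    rw [(exists_torus_chart lam hlam p).choose_spec.1]
    simp
  chart_self p := by
    have h := (exists_torus_chart lam hlam p).choose_spec.2 0 0 (by norm_num) (by norm_num)
    simp only [AddCircle.coe_zero, add_zero, mul_zero] at h
    exact h
  compat := by
    intro p q x hp hq
    rw [(exists_torus_chart lam hlam p).choose_spec.1] at hp
    rw [(exists_torus_chart lam hlam q).choose_spec.1] at hq
    obtain ⟨a, b, ha, hb, hx⟩ := rep_of_source hp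
    obtain ⟨a', b', ha', hb', hx'⟩ := rep_of_source hq
    have hφ := (exists_torus_chart lam hlam p).choose_spec.2
    have hψ := (exists_torus_chart lam hlam q).choose_spec.2
    set φ := (exists_torus_chart lam hlam p).choose
    set ψ := (exists_torus_chart lam hlam q).choose
    obtain ⟨δ, hδ, h1, h2, h3, h4⟩ : ∃ δ : ℝ, 0 < δ ∧ |a| + δ ≤ 1 / 4 ∧ |b| + δ ≤ 1 / 4 ∧
        |a'| + δ ≤ 1 / 4 ∧ |b'| + δ ≤ 1 / 4 := by
      refine ⟨min (min (1 / 4 - |a|) (1 / 4 - |b|)) (min (1 / 4 - |a'|) (1 / 4 - |b'|)), ?_, ?_,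
        ?_, ?_, ?_⟩
      · simp only [lt_min_iff]
        refine ⟨⟨?_, ?_⟩, ?_, ?_⟩ <;> linarith
      · have := (min_le_left (min (1 / 4 - |a|) (1 / 4 - |b|))
          (min (1 / 4 - |a'|) (1 / 4 - |b'|))).trans (min_le_left _ _)
        linarith
      · have := (min_le_left (min (1 / 4 - |a|) (1 / 4 - |b|))
          (min (1 / 4 - |a'|) (1 / 4 - |b'|))).trans (min_le_right _ _)
        linarith
      · have := (min_le_right (min (1 / 4 - |a|) (1 / 4 - |b|))
          (min (1 / 4 - |a'|) (1 / 4 - |b'|))).trans (min_le_left _ _)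
        linarith
      · have := (min_le_right (min (1 / 4 - |a|) (1 / 4 - |b|))
          (min (1 / 4 - |a'|) (1 / 4 - |b'|))).trans (min_le_right _ _)
        linarith
    filter_upwards [eventually_rep x hδ] with y hy
    obtain ⟨s, t, hs, ht, rfl⟩ := hy
    have e1 : (x.1 + (s : UnitAddCircle), x.2 + (t : UnitAddCircle)) =
        (p.1 + ((a + s : ℝ) : UnitAddCircle), p.2 + ((b + t : ℝ) : UnitAddCircle)) := by
      rw [hx, AddCircle.coe_add, AddCircle.coe_add]
      simp only [add_assoc]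
    have e2 : (x.1 + (s : UnitAddCircle), x.2 + (t : UnitAddCircle)) =
        (q.1 + ((a' + s : ℝ) : UnitAddCircle), q.2 + ((b' + t : ℝ) : UnitAddCircle)) := by
      rw [hx', AddCircle.coe_add, AddCircle.coe_add]
      simp only [add_assoc]
    have f1 : φ (x.1 + (s : UnitAddCircle), x.2 + (t : UnitAddCircle)) = ⟨a + s, lam * (b + t)⟩ := by
      rw [e1]
      exact hφ _ _ (by linarith [abs_add_le a s]) (by linarith [abs_add_le b t])
    have f2 : ψ (x.1 + (s : UnitAddCircle), x.2 + (t : UnitAddCircle)) =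
        ⟨a' + s, lam * (b' + t)⟩ := by
      rw [e2]
      exact hψ _ _ (by linarith [abs_add_le a' s]) (by linarith [abs_add_le b' t])
    have f3 : φ x = ⟨a, lam * b⟩ := by
      rw [hx]
      exact hφ _ _ ha hb
    have f4 : ψ x = ⟨a', lam * b'⟩ := by
      rw [hx']
      exact hψ _ _ ha' hb'
    rw [pow_one, pow_one, pow_one, pow_one, f1, f2, f3, f4]
    apply Complex.ext
    · simp
    · simp
      ring

variable {lam : ℝ} {hlam : 0 < lam}

theorem torusTS_k (p : Tor) : (torusTS lam hlam).k p = 1 := rfl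

theorem torusTS_source (p : Tor) : ((torusTS lam hlam).chart p).source =
    {q : Tor | ‖q.1 - p.1‖ < 1 / 4 ∧ ‖q.2 - p.2‖ < 1 / 4} :=
  (exists_torus_chart lam hlam p).choose_spec.1

theorem torusTS_chart (p : Tor) {a b : ℝ} (ha : |a| < 1 / 4) (hb : |b| < 1 / 4) :
    (torusTS lam hlam).chart p (p.1 + (a : UnitAddCircle), p.2 + (b : UnitAddCircle))
      = ⟨a, lam * b⟩ :=
  (exists_torus_chart lam hlam p).choose_spec.2 a b ha hb

namespace TorusAux

theorem prob_circle : IsProbabilityMeasure (volume : Measure UnitAddCircle) :=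
  ⟨UnitAddCircle.measure_univ⟩

/-- the square `(-1/2, 1/2]²` -/
def Sq : Set (ℝ × ℝ) := Set.Ioc (-(1 / 2)) (1 / 2) ×ˢ Set.Ioc (-(1 / 2)) (1 / 2)

theorem mp_circle (x₀ : UnitAddCircle) : MeasurePreserving (fun a : ℝ => x₀ + (a : UnitAddCircle))
    (volume.restrict (Set.Ioc (-(1 / 2)) (1 / 2))) volume := by
  have h1 := AddCircle.measurePreserving_mk (1 : ℝ) (-(1 / 2))
  rw [show -(1 / 2) + (1 : ℝ) = 1 / 2 by norm_num] at h1
  exact (measurePreserving_add_left (volume : Measure UnitAddCircle) x₀).comp h1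

theorem vol_torus (p : Tor) {A : Set Tor} (hA : MeasurableSet A) :
    (volume : Measure Tor) A = volume ((fun z : ℝ × ℝ =>
      ((p.1 + (z.1 : UnitAddCircle), p.2 + (z.2 : UnitAddCircle)) : Tor)) ⁻¹' A ∩ Sq) := by
  have h1 := (mp_circle p.1).prod (mp_circle p.2)
  rw [Measure.prod_restrict] at h1
  have h2 := h1.measure_preimage hA.nullMeasurableSet
  have h3 : MeasurableSet Sq := measurableSet_Ioc.prod measurableSet_Ioc
  have h4 : (volume : Measure Tor) A = ((volume : Measure UnitAddCircle).prod volume) A := rfl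
  rw [h4, ← h2, Measure.restrict_apply (h1.measurable hA)]
  rfl

theorem vol_lin (lam : ℝ) (hlam : 0 < lam) (B : Set (ℝ × ℝ)) :
    (volume : Measure ℂ) ((fun z : ℝ × ℝ => (⟨z.1, lam * z.2⟩ : ℂ)) '' B) =
      ENNReal.ofReal lam * volume B := by
  have h1 : (fun z : ℝ × ℝ => (⟨z.1, lam * z.2⟩ : ℂ)) '' B =
      Complex.measurableEquivRealProd ⁻¹' ((LinearMap.prodMap (LinearMap.id : ℝ →ₗ[ℝ] ℝ)
        (lam • (LinearMap.id : ℝ →ₗ[ℝ] ℝ))) '' B) := by
    ext w
    simp only [Set.mem_image, Set.mem_preimage]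
    constructor
    · rintro ⟨z, hz, rfl⟩
      exact ⟨z, hz, by simp [Complex.measurableEquivRealProd]⟩
    · rintro ⟨z, hz, h⟩
      refine ⟨z, hz, ?_⟩
      apply Complex.ext
      · have := congrArg Prod.fst h
        simpa [Complex.measurableEquivRealProd] using this
      · have := congrArg Prod.snd h
        simpa [Complex.measurableEquivRealProd] using this
  rw [h1, Complex.volume_preserving_equiv_real_prod.measure_preimage_equiv,
    Measure.addHaar_image_linearMap, LinearMap.det_prodMap]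
  congr 2
  simp [abs_of_pos hlam]

end TorusAux

theorem torus_area : (torusTS lam hlam).IsArea (volume : Measure Tor) := by
  have hp := prob_circle
  refine ⟨?_, ?_, ENNReal.ofReal lam⁻¹, ?_, ENNReal.ofReal_ne_top, ?_⟩
  · have : (volume : Measure Tor) = (volume : Measure UnitAddCircle).prod volume := rfl
    rw [this]
    infer_instance
  · have : {p : Tor | (torusTS lam hlam).k p ≠ 1} = ∅ := by
      ext p
      simp [torusTS_k]
    rw [this]
    exact measure_empty
  · rw [Ne, ENNReal.ofReal_eq_zero, not_le]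
    positivity
  · intro p _ A hA hAm
    rw [torusTS_source] at hA
    set Φ : ℝ × ℝ → Tor := fun z => (p.1 + (z.1 : UnitAddCircle), p.2 + (z.2 : UnitAddCircle))
      with hΦ
    have hsmall : ∀ z ∈ Φ ⁻¹' A ∩ Sq, |z.1| < 1 / 4 ∧ |z.2| < 1 / 4 := by
      rintro z ⟨hz, hz2⟩
      have h1 := hA hz
      simp only [hΦ, Set.mem_ofPred_eq, add_sub_cancel_left] at h1
      have h2 : |z.1| ≤ 1 / 2 := abs_le.2 ⟨hz2.1.1.le, hz2.1.2⟩
      have h3 : |z.2| ≤ 1 / 2 := abs_le.2 ⟨hz2.2.1.le, hz2.2.2⟩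
      rw [norm_coe h2, norm_coe h3] at h1
      exact h1
    have himg : (torusTS lam hlam).chart p '' A =
        (fun z : ℝ × ℝ => (⟨z.1, lam * z.2⟩ : ℂ)) '' (Φ ⁻¹' A ∩ Sq) := by
      ext w
      constructor
      · rintro ⟨q, hq, rfl⟩
        obtain ⟨a, b, ha, hb, rfl⟩ := rep_of_source (hA hq)
        refine ⟨(a, b), ⟨hq, ?_⟩, ?_⟩
        · rw [abs_lt] at ha hb
          refine ⟨⟨?_, ?_⟩, ⟨?_, ?_⟩⟩ <;> (simp only; linarith)
        · exact (torusTS_chart p ha hb).symm
      · rintro ⟨z, hz, rfl⟩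
        refine ⟨Φ z, hz.1, ?_⟩
        obtain ⟨h1, h2⟩ := hsmall z hz
        exact torusTS_chart p h1 h2
    rw [himg, vol_lin lam hlam, vol_torus p hAm, ← mul_assoc, ← ENNReal.ofReal_mul (by positivity),
      inv_mul_cancel₀ hlam.ne', ENNReal.ofReal_one, one_mul]

theorem torus_orbit (θ : ℝ) (p : Tor) : (torusTS lam hlam).IsOrbit θ
    (fun s : ℝ => (p.1 + ((s * Real.sin θ : ℝ) : UnitAddCircle),
      p.2 + ((s * Real.cos θ / lam : ℝ) : UnitAddCircle))) := by
  have hcoe : Continuous (fun x : ℝ => (x : UnitAddCircle)) := AddCircle.continuous_mk' 1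
  refine ⟨?_, fun s => rfl, ?_⟩
  · have h1 : Continuous fun s : ℝ => ((s * Real.sin θ : ℝ) : UnitAddCircle) :=
      hcoe.comp (by fun_prop)
    have h2 : Continuous fun s : ℝ => ((s * Real.cos θ / lam : ℝ) : UnitAddCircle) :=
      hcoe.comp (by fun_prop)
    exact (continuous_const.add h1).prodMk (continuous_const.add h2)
  · intro s
    have h1 : ∀ᶠ s' in 𝓝 s, |(s' - s) * Real.sin θ| < 1 / 4 := by
      have hc : Continuous fun s' : ℝ => |(s' - s) * Real.sin θ| := by fun_prop
      have := hc.tendsto s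
      simp only [sub_self, zero_mul, abs_zero] at this
      exact this.eventually (gt_mem_nhds (by norm_num))
    have h2 : ∀ᶠ s' in 𝓝 s, |(s' - s) * Real.cos θ / lam| < 1 / 4 := by
      have hc : Continuous fun s' : ℝ => |(s' - s) * Real.cos θ / lam| := by fun_prop
      have := hc.tendsto s
      simp only [sub_self, zero_mul, zero_div, abs_zero] at this
      exact this.eventually (gt_mem_nhds (by norm_num))
    filter_upwards [h1, h2] with s' k1 k2
    have e1 : ((p.1 + ((s' * Real.sin θ : ℝ) : UnitAddCircle),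
        p.2 + ((s' * Real.cos θ / lam : ℝ) : UnitAddCircle)) : Tor) =
        ((p.1 + ((s * Real.sin θ : ℝ) : UnitAddCircle)) +
            (((s' - s) * Real.sin θ : ℝ) : UnitAddCircle),
          (p.2 + ((s * Real.cos θ / lam : ℝ) : UnitAddCircle)) +
            (((s' - s) * Real.cos θ / lam : ℝ) : UnitAddCircle)) := by
      rw [add_assoc, add_assoc, ← AddCircle.coe_add, ← AddCircle.coe_add]
      congr 3
      · ring_nf
      · ring_nf
    rw [e1]
    rw [torusTS_chart (lam := lam) (hlam := hlam) (p.1 + ((s * Real.sin θ : ℝ) : UnitAddCircle),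
      p.2 + ((s * Real.cos θ / lam : ℝ) : UnitAddCircle)) k1 k2]
    have e2 : Complex.I * Complex.exp (-(θ : ℂ) * Complex.I) = ⟨Real.sin θ, Real.cos θ⟩ := by
      rw [Complex.exp_mul_I]
      apply Complex.ext
      · simp [← Complex.ofReal_neg, Complex.sin_ofReal_re, Complex.cos_ofReal_im]
      · simp [← Complex.ofReal_neg, Complex.cos_ofReal_re, Complex.sin_ofReal_im]
    rw [e2]
    apply Complex.ext
    · simp
    · simp
      field_simp

end PFS
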