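import Pool.Agent.PFS.Basic
import Pool.Agent.PFS.Cover
import Pool.Agent.PFS.Torus

/-! # PFS module GFun: the function `G` on the torus defining the double cover -/

open MeasureTheory Topology Filter
open scoped ENNReal

namespace PFS

/-- `chi` as a function on the circle -/
noncomputable def chiC {M : ℕ} (e : Fin M → ℝ) (x : UnitAddCircle) : ℝ :=
  chi e (AddCircle.equivIco 1 0 x : ℝ)

/-- signed distance to the set of endpoints -/
noncomputable def rr {M : ℕ} (e : Fin M → ℝ) (x : UnitAddCircle) : ℝ :=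
  chiC e x * Metric.infDist x (Set.range fun j : Fin M => ((e j : ℝ) : UnitAddCircle))

/-- `G = r(x₁) + 4 max(0, 1/4 - ‖x₂‖) + i λ (‖x₂ - 1/4‖ - 1/4)` -/
noncomputable def GG (lam : ℝ) {M : ℕ} (e : Fin M → ℝ) (p : Tor) : ℂ :=
  ⟨rr e p.1 + 4 * max 0 (1 / 4 - ‖p.2‖), lam * (‖p.2 - ((1 / 4 : ℝ) : UnitAddCircle)‖ - 1 / 4)⟩

/-! auxiliary lemmas -/

private theorem norm_coe_of {t : ℝ} (h : |t| ≤ 1 / 2) : ‖((t : ℝ) : UnitAddCircle)‖ = |t| := by
  rw [AddCircle.norm_coe_eq_abs_iff (1:ℝ) one_ne_zero]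
  simpa using h

private theorem norm_circle_le (x : UnitAddCircle) : ‖x‖ ≤ 1 / 2 := by
  have := AddCircle.norm_le_half_period (1:ℝ) (x := x) one_ne_zero
  simpa using this

private theorem nhds_coe (t : ℝ) :
    𝓝 ((t : ℝ) : UnitAddCircle) = map (fun s : ℝ => (s : UnitAddCircle)) (𝓝 t) :=
  QuotientAddGroup.nhds_eq _ t

private theorem coe_inj {s t : ℝ} (hs : s ∈ Set.Ico (0:ℝ) 1) (ht : t ∈ Set.Ico (0:ℝ) 1) :
    ((s : ℝ) : UnitAddCircle) = ((t : ℝ) : UnitAddCircle) ↔ s = t := by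
  apply AddCircle.coe_eq_coe_iff_of_mem_Ico (a := (0:ℝ))
  · simpa using hs
  · simpa using ht

private theorem one_coe : ((1 : ℝ) : UnitAddCircle) = 0 := AddCircle.coe_period 1

private theorem quarter {z : UnitAddCircle} (h : ‖z - ((1 / 4 : ℝ) : UnitAddCircle)‖ = 1 / 4) :
    z = 0 ∨ z = ((1 / 2 : ℝ) : UnitAddCircle) := by
  obtain ⟨t, ht⟩ := QuotientAddGroup.mk_surjective (z - ((1 / 4 : ℝ) : UnitAddCircle))
  have ht' : ((t : ℝ) : UnitAddCircle) = z - ((1 / 4 : ℝ) : UnitAddCircle) := ht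
  rw [← ht', UnitAddCircle.norm_eq] at h
  have hz : z = ((t : ℝ) : UnitAddCircle) + ((1 / 4 : ℝ) : UnitAddCircle) := by rw [ht']; abel
  have hr : ((t : ℝ) : UnitAddCircle) = ((t - round t : ℝ) : UnitAddCircle) := by
    rw [AddCircle.coe_sub]
    have : (((round t : ℤ) : ℝ) : UnitAddCircle) = 0 := by
      have h1 : ((round t : ℤ) : ℝ) = (round t : ℤ) • (1:ℝ) := by simp
      rw [h1, AddCircle.coe_zsmul, one_coe, smul_zero]
    rw [this, sub_zero]
  rw [hz, hr, ← AddCircle.coe_add]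
  rcases abs_eq (by norm_num : (0:ℝ) ≤ 1 / 4) |>.1 h with h1 | h1
  · right
    rw [h1]; norm_num
  · left
    rw [h1]; norm_num

private theorem chi_fract {M : ℕ} (e : Fin M → ℝ) (x : ℝ) : chi e (Int.fract x) = chi e x := by
  unfold chi
  simp only [Int.fract_fract]

private theorem measurable_chi {M : ℕ} (e : Fin M → ℝ) : Measurable (chi e) := by
  unfold chi
  refine Finset.measurable_prod _ fun j _ => ?_
  exact Measurable.ite (measurableSet_le measurable_const measurable_fract)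
    measurable_const measurable_const

private theorem chi_zero_near {M : ℕ} (hM : Even M) (e : Fin M → ℝ)
    (he : ∀ j, e j ∈ Set.Ioo (0:ℝ) 1) : ∀ᶠ t : ℝ in 𝓝 0, chi e t = 1 := by
  have h1 : ∀ᶠ t : ℝ in 𝓝 0, ∀ j, t < e j ∧ e j < t + 1 := by
    rw [eventually_all]
    intro j
    have h2 : ∀ᶠ t : ℝ in 𝓝 0, t < e j := eventually_lt_nhds (he j).1
    have h3 : ∀ᶠ t : ℝ in 𝓝 0, e j - 1 < t := eventually_gt_nhds (by linarith [(he j).2])
    filter_upwards [h2, h3] with t ht1 ht2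
    exact ⟨ht1, by linarith⟩
  have h4 : ∀ᶠ t : ℝ in 𝓝 0, t < 1 := eventually_lt_nhds one_pos
  have h5 : ∀ᶠ t : ℝ in 𝓝 0, -1 < t := eventually_gt_nhds (by norm_num)
  filter_upwards [h1, h4, h5] with t ht ht1 ht2
  unfold chi
  rcases le_or_gt 0 t with h0 | h0
  · have hf : Int.fract t = t := Int.fract_eq_self.2 ⟨h0, ht1⟩
    rw [hf]
    refine Finset.prod_eq_one fun j _ => ?_
    rw [if_neg (not_le.2 (ht j).1)]
  · have hf : Int.fract t = t + 1 := by
      rw [← Int.fract_add_one t]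
      exact Int.fract_eq_self.2 ⟨by linarith, by linarith⟩
    rw [hf]
    have : ∀ j ∈ Finset.univ, (if e j ≤ t + 1 then (-1:ℝ) else 1) = -1 := fun j _ => by
      rw [if_pos (ht j).2.le]
    rw [Finset.prod_congr rfl this]
    simp [hM.neg_one_pow]

private theorem chi_locConst {M : ℕ} (hM : Even M) (e : Fin M → ℝ)
    (he : ∀ j, e j ∈ Set.Ioo (0:ℝ) 1) {x : ℝ} (hx : x ∈ Set.Ico (0:ℝ) 1)
    (hne : ∀ j, x ≠ e j) : ∀ᶠ t : ℝ in 𝓝 x, chi e t = chi e x := by
  rcases eq_or_lt_of_le hx.1 with h0 | h0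
  · subst h0
    have h1 := chi_zero_near hM e he
    have h2 : chi e 0 = 1 := h1.self_of_nhds
    rw [h2]
    exact h1
  · have h1 : ∀ᶠ t : ℝ in 𝓝 x, ∀ j, (e j ≤ t ↔ e j ≤ x) := by
      rw [eventually_all]
      intro j
      rcases lt_or_gt_of_ne (hne j) with h | h
      · filter_upwards [eventually_lt_nhds h] with t ht
        exact ⟨fun h' => absurd ht (not_lt.2 h'), fun h' => absurd h (not_lt.2 h')⟩
      · filter_upwards [eventually_gt_nhds h] with t ht
        exact ⟨fun _ => h.le, fun _ => ht.le⟩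
    filter_upwards [h1, eventually_lt_nhds hx.2, eventually_gt_nhds h0] with t ht ht1 ht0
    unfold chi
    have hf : Int.fract t = t := Int.fract_eq_self.2 ⟨ht0.le, ht1⟩
    have hf' : Int.fract x = x := Int.fract_eq_self.2 hx
    rw [hf, hf']
    refine Finset.prod_congr rfl fun j _ => ?_
    simp only [ht j]

private theorem exists_rep (x : UnitAddCircle) :
    ∃ t : ℝ, t ∈ Set.Ico (0:ℝ) 1 ∧ ((t : ℝ) : UnitAddCircle) = x := by
  have h := (AddCircle.equivIco (1:ℝ) 0 x).2
  refine ⟨(AddCircle.equivIco (1:ℝ) 0 x : ℝ), by simpa using h, ?_⟩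
  exact (AddCircle.equivIco (1:ℝ) 0).symm_apply_apply x

private theorem range_nonempty {M : ℕ} (hM : 0 < M) (e : Fin M → ℝ) :
    (Set.range fun j : Fin M => ((e j : ℝ) : UnitAddCircle)).Nonempty :=
  ⟨_, ⟨0, hM⟩, rfl⟩

theorem chi_eq {M : ℕ} (e : Fin M → ℝ) (x : ℝ) : chi e x = 1 ∨ chi e x = -1 := by
  unfold chi
  refine Finset.prod_induction _ (fun x : ℝ => x = 1 ∨ x = -1) ?_ (Or.inl rfl) ?_
  · rintro a b (rfl | rfl) (rfl | rfl) <;> simp
  · intro j _
    split_ifs <;> simp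

theorem chiC_coe {M : ℕ} (e : Fin M → ℝ) (x : ℝ) : chiC e (x : UnitAddCircle) = chi e x := by
  unfold chiC
  rw [AddCircle.coe_equivIco_mk_apply, div_one, mul_one, chi_fract]

theorem measurable_chiC {M : ℕ} (e : Fin M → ℝ) : Measurable (chiC e) := by
  have h := (AddCircle.measurableEquivIco (1:ℝ) 0).measurable
  exact (measurable_chi e).comp (measurable_subtype_coe.comp h)

theorem abs_rr_le {M : ℕ} (hM : 0 < M) (e : Fin M → ℝ) (x : UnitAddCircle) : |rr e x| ≤ 1 / 2 := by
  unfold rr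
  rw [abs_mul]
  have h1 : |chiC e x| = 1 := by
    unfold chiC
    rcases chi_eq e (AddCircle.equivIco 1 0 x : ℝ) with h | h <;> rw [h] <;> simp
  rw [h1, one_mul, abs_of_nonneg Metric.infDist_nonneg]
  have hmem : ((e ⟨0, hM⟩ : ℝ) : UnitAddCircle) ∈
      Set.range fun j : Fin M => ((e j : ℝ) : UnitAddCircle) := ⟨⟨0, hM⟩, rfl⟩
  refine (Metric.infDist_le_dist_of_mem hmem).trans ?_
  rw [dist_eq_norm]
  exact norm_circle_le _

/-- away from the endpoints `chiC` is locally constant (this uses that `M` is even) -/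
theorem chiC_locConst {M : ℕ} (hM : Even M) (e : Fin M → ℝ) (he : ∀ j, e j ∈ Set.Ioo (0:ℝ) 1)
    (x : UnitAddCircle) (hx : ∀ j, x ≠ ((e j : ℝ) : UnitAddCircle)) :
    ∀ᶠ y in 𝓝 x, chiC e y = chiC e x := by
  obtain ⟨t, ht, rfl⟩ := exists_rep x
  rw [nhds_coe, eventually_map]
  have hne : ∀ j, t ≠ e j := fun j h => hx j (by rw [h])
  filter_upwards [chi_locConst hM e he ht hne] with s hs
  rw [chiC_coe, chiC_coe, hs]

theorem continuous_rr {M : ℕ} (hM : Even M) (e : Fin M → ℝ) (he : ∀ j, e j ∈ Set.Ioo (0:ℝ) 1) :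
    Continuous (rr e) := by
  rw [continuous_iff_continuousAt]
  intro x
  by_cases hx : ∀ j, x ≠ ((e j : ℝ) : UnitAddCircle)
  · have h1 : (fun y => chiC e x * Metric.infDist y
        (Set.range fun j : Fin M => ((e j : ℝ) : UnitAddCircle))) =ᶠ[𝓝 x] rr e := by
      filter_upwards [chiC_locConst hM e he x hx] with y hy
      unfold rr
      rw [hy]
    refine ContinuousAt.congr ?_ h1
    exact (continuous_const.mul (Metric.continuous_infDist_pt _)).continuousAt
  · push Not at hx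
    obtain ⟨j, hj⟩ := hx
    have hmem : x ∈ Set.range fun j : Fin M => ((e j : ℝ) : UnitAddCircle) := ⟨j, hj.symm⟩
    have h0 : rr e x = 0 := by
      unfold rr
      rw [Metric.infDist_zero_of_mem hmem, mul_zero]
    unfold ContinuousAt
    rw [h0]
    have h1 : Tendsto (fun y => Metric.infDist y
        (Set.range fun j : Fin M => ((e j : ℝ) : UnitAddCircle))) (𝓝 x) (𝓝 0) := by
      have := (Metric.continuous_infDist_pt
        (Set.range fun j : Fin M => ((e j : ℝ) : UnitAddCircle))).tendsto x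
      rwa [Metric.infDist_zero_of_mem hmem] at this
    refine squeeze_zero_norm (fun y => ?_) h1
    unfold rr
    rw [norm_mul, Real.norm_eq_abs, Real.norm_eq_abs, abs_of_nonneg Metric.infDist_nonneg]
    have h2 : |chiC e y| = 1 := by
      unfold chiC
      rcases chi_eq e (AddCircle.equivIco 1 0 y : ℝ) with h | h <;> rw [h] <;> simp
    rw [h2, one_mul]

theorem continuous_GG {M : ℕ} (hM : Even M) (e : Fin M → ℝ) (he : ∀ j, e j ∈ Set.Ioo (0:ℝ) 1)
    (lam : ℝ) : Continuous (GG lam e) := by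
  have h1 : Continuous (fun p : Tor => (rr e p.1 + 4 * max 0 (1 / 4 - ‖p.2‖),
      lam * (‖p.2 - ((1 / 4 : ℝ) : UnitAddCircle)‖ - 1 / 4))) := by
    refine Continuous.prodMk ?_ ?_
    · exact ((continuous_rr hM e he).comp continuous_fst).add
        (continuous_const.mul (continuous_const.max (continuous_const.sub
          (continuous_norm.comp continuous_snd))))
    · exact continuous_const.mul ((continuous_norm.comp
        (continuous_snd.sub continuous_const)).sub continuous_const)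
  exact Complex.equivRealProdCLM.symm.continuous.comp h1

/-- near an endpoint, `rr` is `± (x - e j)` -/
theorem rr_near {M : ℕ} (hM : Even M) (e : Fin M → ℝ) (he : ∀ j, e j ∈ Set.Ioo (0:ℝ) 1)
    (hinj : Function.Injective e) (j : Fin M) :
    ∃ σ : ℝ, (σ = 1 ∨ σ = -1) ∧ ∀ᶠ a : ℝ in 𝓝 0, rr e ((e j + a : ℝ) : UnitAddCircle) = σ * a := by
  classical
  set c : ℝ := ∏ i ∈ Finset.univ.erase j, (if e i ≤ e j then (-1:ℝ) else 1) with hc
  have hcv : c = 1 ∨ c = -1 := by
    rw [hc]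
    refine Finset.prod_induction _ (fun x : ℝ => x = 1 ∨ x = -1) ?_ (Or.inl rfl) ?_
    · rintro a b (rfl | rfl) (rfl | rfl) <;> simp
    · intro j _
      split_ifs <;> simp
  refine ⟨-c, by rcases hcv with h | h <;> rw [h] <;> simp, ?_⟩
  have h1 : ∀ᶠ a : ℝ in 𝓝 0, ∀ i, i ≠ j → ((e i ≤ e j + a ↔ e i ≤ e j) ∧
      |a| ≤ dist ((e j + a : ℝ) : UnitAddCircle) ((e i : ℝ) : UnitAddCircle)) := by
    rw [eventually_all]
    intro i
    by_cases hij : i = j
    · exact Filter.Eventually.of_forall fun a h => absurd hij h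
    have hne : e i ≠ e j := fun h => hij (hinj h)
    have hci : ((e i : ℝ) : UnitAddCircle) ≠ ((e j : ℝ) : UnitAddCircle) := by
      rw [Ne, coe_inj ⟨(he i).1.le, (he i).2⟩ ⟨(he j).1.le, (he j).2⟩]
      exact hne
    have hd : 0 < dist ((e j : ℝ) : UnitAddCircle) ((e i : ℝ) : UnitAddCircle) :=
      dist_pos.2 hci.symm
    have hcont : Continuous (fun a : ℝ =>
        dist ((e j + a : ℝ) : UnitAddCircle) ((e i : ℝ) : UnitAddCircle) - |a|) := by
      refine (Continuous.dist ?_ continuous_const).sub continuous_abs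
      exact (AddCircle.continuous_mk' (1:ℝ)).comp (continuous_const.add continuous_id)
    have h2 : ∀ᶠ a : ℝ in 𝓝 0,
        0 < dist ((e j + a : ℝ) : UnitAddCircle) ((e i : ℝ) : UnitAddCircle) - |a| := by
      have := hcont.tendsto 0
      rw [add_zero, abs_zero, sub_zero] at this
      exact this.eventually_const_lt hd
    have h3 : ∀ᶠ a : ℝ in 𝓝 0, (e i ≤ e j + a ↔ e i ≤ e j) := by
      rcases lt_or_gt_of_ne hne with h | h
      · have : ∀ᶠ a : ℝ in 𝓝 0, e i - e j < a := eventually_gt_nhds (by linarith)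
        filter_upwards [this] with a ha
        exact ⟨fun _ => h.le, fun _ => by linarith⟩
      · have : ∀ᶠ a : ℝ in 𝓝 0, a < e i - e j := eventually_lt_nhds (by linarith)
        filter_upwards [this] with a ha
        exact ⟨fun h' => by linarith, fun h' => by linarith⟩
    filter_upwards [h2, h3] with a ha hb _
    exact ⟨hb, by linarith⟩
  have h4 : ∀ᶠ a : ℝ in 𝓝 0, 0 < e j + a := by
    have : ∀ᶠ a : ℝ in 𝓝 0, -e j < a := eventually_gt_nhds (by linarith [(he j).1])
    filter_upwards [this] with a ha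
    linarith
  have h5 : ∀ᶠ a : ℝ in 𝓝 0, e j + a < 1 := by
    have : ∀ᶠ a : ℝ in 𝓝 0, a < 1 - e j := eventually_lt_nhds (by linarith [(he j).2])
    filter_upwards [this] with a ha
    linarith
  have h6 : ∀ᶠ a : ℝ in 𝓝 0, |a| ≤ 1 / 2 := by
    have : Tendsto (fun a : ℝ => |a|) (𝓝 0) (𝓝 |(0:ℝ)|) := continuous_abs.tendsto 0
    rw [abs_zero] at this
    filter_upwards [this.eventually_lt_const (by norm_num : (0:ℝ) < 1 / 2)] with a ha
    exact ha.le
  filter_upwards [h1, h4, h5, h6] with a ha ha0 ha1 ha2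
  have hdist : Metric.infDist ((e j + a : ℝ) : UnitAddCircle)
      (Set.range fun j : Fin M => ((e j : ℝ) : UnitAddCircle)) = |a| := by
    apply le_antisymm
    · have hmem : ((e j : ℝ) : UnitAddCircle) ∈
        Set.range fun j : Fin M => ((e j : ℝ) : UnitAddCircle) := ⟨j, rfl⟩
      refine (Metric.infDist_le_dist_of_mem hmem).trans ?_
      rw [dist_eq_norm, ← AddCircle.coe_sub, add_sub_cancel_left, norm_coe_of ha2]
    · rw [Metric.le_infDist (⟨_, ⟨j, rfl⟩⟩ :
        (Set.range fun j : Fin M => ((e j : ℝ) : UnitAddCircle)).Nonempty)]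
      rintro _ ⟨i, rfl⟩
      by_cases hij : i = j
      · subst hij
        simp only
        rw [dist_eq_norm, ← AddCircle.coe_sub, add_sub_cancel_left, norm_coe_of ha2]
      · exact (ha i hij).2
  unfold rr
  rw [hdist, chiC_coe]
  have hchi : chi e (e j + a) = (if 0 ≤ a then (-1:ℝ) else 1) * c := by
    unfold chi
    have hf : Int.fract (e j + a) = e j + a := Int.fract_eq_self.2 ⟨ha0.le, ha1⟩
    rw [hf, ← Finset.mul_prod_erase Finset.univ _ (Finset.mem_univ j), hc]
    congr 1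
    · simp only [le_add_iff_nonneg_right]
    · refine Finset.prod_congr rfl fun i hi => ?_
      simp only [(ha i (Finset.ne_of_mem_erase hi)).1]
  rw [hchi]
  split_ifs with h
  · rw [abs_of_nonneg h]; ring
  · rw [abs_of_neg (not_le.1 h)]; ring

theorem GG_eq_zero_iff {M : ℕ} (hM : 0 < M) (e : Fin M → ℝ) {lam : ℝ} (hlam : 0 < lam) (p : Tor) :
    GG lam e p = 0 ↔ p.2 = ((1 / 2 : ℝ) : UnitAddCircle) ∧ ∃ j, p.1 = ((e j : ℝ) : UnitAddCircle) := by
  constructor
  · intro h
    have hre : rr e p.1 + 4 * max 0 (1 / 4 - ‖p.2‖) = 0 := congrArg Complex.re h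
    have him : lam * (‖p.2 - ((1 / 4 : ℝ) : UnitAddCircle)‖ - 1 / 4) = 0 := congrArg Complex.im h
    have h1 : ‖p.2 - ((1 / 4 : ℝ) : UnitAddCircle)‖ = 1 / 4 := by
      rcases mul_eq_zero.1 him with h2 | h2
      · exact absurd h2 hlam.ne'
      · linarith
    rcases quarter h1 with h2 | h2
    · exfalso
      rw [h2, norm_zero, sub_zero, max_eq_right (by norm_num)] at hre
      have h3 := abs_rr_le hM e p.1
      rw [abs_le] at h3
      linarith [h3.1]
    · refine ⟨h2, ?_⟩
      rw [h2, norm_coe_of (by rw [abs_of_pos (by norm_num)]), abs_of_pos (by norm_num),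
        max_eq_left (by norm_num), mul_zero, add_zero] at hre
      unfold rr at hre
      rcases mul_eq_zero.1 hre with h3 | h3
      · exfalso
        unfold chiC at h3
        rcases chi_eq e (AddCircle.equivIco 1 0 p.1 : ℝ) with h | h <;> rw [h] at h3 <;>
          norm_num at h3
      · have hcl : IsClosed (Set.range fun j : Fin M => ((e j : ℝ) : UnitAddCircle)) :=
          (Set.finite_range _).isClosed
        obtain ⟨j, hj⟩ := (hcl.mem_iff_infDist_zero (range_nonempty hM e)).2 h3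
        exact ⟨j, hj.symm⟩
  · rintro ⟨h2, j, hj⟩
    have h3 : rr e p.1 = 0 := by
      have hmem : p.1 ∈ Set.range fun j : Fin M => ((e j : ℝ) : UnitAddCircle) := ⟨j, hj.symm⟩
      unfold rr
      rw [Metric.infDist_zero_of_mem hmem, mul_zero]
    unfold GG
    rw [h3, h2, norm_coe_of (by rw [abs_of_pos (by norm_num)]), abs_of_pos (by norm_num),
      max_eq_left (by norm_num), ← AddCircle.coe_sub,
      norm_coe_of (by rw [abs_of_pos (by norm_num)]; norm_num), abs_of_pos (by norm_num)]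
    apply Complex.ext
    · simp
    · simp only [Complex.zero_im]
      norm_num

/-- off the circle `x₂ = 1/2`, `G` lies in the slit plane -/
theorem GG_slit {M : ℕ} (hM : 0 < M) (e : Fin M → ℝ) {lam : ℝ} (hlam : 0 < lam) (p : Tor)
    (hp : p.2 ≠ ((1 / 2 : ℝ) : UnitAddCircle)) : GG lam e p ∈ Complex.slitPlane := by
  rw [Complex.mem_slitPlane_iff]
  by_cases him : (GG lam e p).im = 0
  · left
    have him' : lam * (‖p.2 - ((1 / 4 : ℝ) : UnitAddCircle)‖ - 1 / 4) = 0 := him
    have h1 : ‖p.2 - ((1 / 4 : ℝ) : UnitAddCircle)‖ = 1 / 4 := by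
      rcases mul_eq_zero.1 him' with h2 | h2
      · exact absurd h2 hlam.ne'
      · linarith
    rcases quarter h1 with h2 | h2
    · show 0 < rr e p.1 + 4 * max 0 (1 / 4 - ‖p.2‖)
      rw [h2, norm_zero, sub_zero, max_eq_right (by norm_num)]
      have h3 := abs_rr_le hM e p.1
      rw [abs_le] at h3
      linarith [h3.1]
    · exact absurd h2 hp
  · right
    exact him

/-- value on the circle `x₂ = 1/2` -/
theorem GG_half {M : ℕ} (e : Fin M → ℝ) (lam : ℝ) (x : UnitAddCircle) :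
    GG lam e (x, ((1 / 2 : ℝ) : UnitAddCircle)) = (rr e x : ℂ) := by
  unfold GG
  simp only
  rw [norm_coe_of (by rw [abs_of_pos (by norm_num)]), abs_of_pos (by norm_num),
      max_eq_left (by norm_num), ← AddCircle.coe_sub,
      norm_coe_of (by rw [abs_of_pos (by norm_num)]; norm_num), abs_of_pos (by norm_num)]
  apply Complex.ext
  · simp
  · simp only [Complex.ofReal_im]
    norm_num

/-- the imaginary part near `x₂ = 1/2` -/
theorem GG_im {M : ℕ} (e : Fin M → ℝ) (lam : ℝ) (x : UnitAddCircle) {b : ℝ} (hb : |b| ≤ 1 / 4) :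
    (GG lam e (x, ((1 / 2 + b : ℝ) : UnitAddCircle))).im = lam * b := by
  unfold GG
  simp only
  have h1 : |(1 / 2 + b - 1 / 4 : ℝ)| = 1 / 4 + b := by
    rw [abs_le] at hb
    rw [abs_of_nonneg (by linarith [hb.1])]; ring
  rw [← AddCircle.coe_sub, norm_coe_of (by rw [h1]; rw [abs_le] at hb; linarith [hb.2]), h1]
  ring

/-- the real part near `x₂ = 1/2` -/
theorem GG_re {M : ℕ} (e : Fin M → ℝ) (lam : ℝ) (x : UnitAddCircle) {b : ℝ} (hb : |b| ≤ 1 / 4) :
    (GG lam e (x, ((1 / 2 + b : ℝ) : UnitAddCircle))).re = rr e x := by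
  have hb' := hb
  rw [abs_le] at hb'
  have h1 : ‖((1 / 2 + b : ℝ) : UnitAddCircle)‖ = 1 / 2 - |b| := by
    rcases le_total b 0 with h | h
    · rw [norm_coe_of (by rw [abs_of_nonneg (by linarith [hb'.1])]; linarith),
        abs_of_nonneg (by linarith [hb'.1]), abs_of_nonpos h]
      ring
    · have h2 : ((1 / 2 + b : ℝ) : UnitAddCircle) = ((-(1 / 2) + b : ℝ) : UnitAddCircle) := by
        have : (1 / 2 + b : ℝ) = (-(1 / 2) + b) + 1 := by ring
        rw [this, AddCircle.coe_add_period]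
      rw [h2, norm_coe_of (by rw [abs_of_nonpos (by linarith [hb'.2])]; linarith),
        abs_of_nonpos (by linarith [hb'.2]), abs_of_nonneg h]
      ring
  unfold GG
  simp only
  rw [h1, max_eq_left (by linarith)]
  ring

theorem niceZeros_GG {M : ℕ} (hM0 : 0 < M) (hM : Even M) (e : Fin M → ℝ)
    (he : ∀ j, e j ∈ Set.Ioo (0:ℝ) 1) (hinj : Function.Injective e) (lam : ℝ) (hlam : 0 < lam) :
    NiceZeros (torusTS lam hlam) (GG lam e) := by
  intro p hp
  refine ⟨rfl, ?_⟩
  obtain ⟨h2, j, hj⟩ := (GG_eq_zero_iff hM0 e hlam p).1 hp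
  obtain ⟨σ, hσ, hnear⟩ := rr_near hM e he hinj j
  have hp' : p = (((e j : ℝ) : UnitAddCircle), ((1 / 2 : ℝ) : UnitAddCircle)) :=
    Prod.ext hj h2
  have hnhds : 𝓝 p = map (fun q : ℝ × ℝ => (((e j + q.1 : ℝ) : UnitAddCircle),
      ((1 / 2 + q.2 : ℝ) : UnitAddCircle))) (𝓝 (0, 0)) := by
    have ha : ∀ c : ℝ, 𝓝 ((c : ℝ) : UnitAddCircle) =
        map (fun a : ℝ => ((c + a : ℝ) : UnitAddCircle)) (𝓝 0) := by
      intro c
      rw [nhds_coe]
      have h1 : 𝓝 c = map (fun a : ℝ => c + a) (𝓝 0) := by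
        have := (map_add_left_nhds c (0:ℝ)).symm
        rwa [add_zero] at this
      rw [h1, Filter.map_map]
      rfl
    rw [hp', nhds_prod_eq, nhds_prod_eq, ha (e j), ha (1 / 2), Filter.prod_map_map_eq]
  have hev : ∀ᶠ q : ℝ × ℝ in 𝓝 (0, 0), rr e ((e j + q.1 : ℝ) : UnitAddCircle) = σ * q.1 ∧
      |q.1| < 1 / 4 ∧ |q.2| < 1 / 4 := by
    have h1 : ∀ᶠ q : ℝ × ℝ in 𝓝 (0, 0), rr e ((e j + q.1 : ℝ) : UnitAddCircle) = σ * q.1 :=
      (continuous_fst.tendsto (0, 0)).eventually hnear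
    have h3 : ∀ᶠ q : ℝ × ℝ in 𝓝 (0, 0), |q.1| < 1 / 4 := by
      have h4 : Continuous (fun q : ℝ × ℝ => |q.1|) := continuous_abs.comp continuous_fst
      have := h4.tendsto (0, 0)
      simp only [abs_zero] at this
      exact this.eventually_lt_const (by norm_num)
    have h5 : ∀ᶠ q : ℝ × ℝ in 𝓝 (0, 0), |q.2| < 1 / 4 := by
      have h4 : Continuous (fun q : ℝ × ℝ => |q.2|) := continuous_abs.comp continuous_snd
      have := h4.tendsto (0, 0)
      simp only [abs_zero] at this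
      exact this.eventually_lt_const (by norm_num)
    filter_upwards [h1, h3, h5] with q hq1 hq2 hq3
    exact ⟨hq1, hq2, hq3⟩
  have hval : ∀ q : ℝ × ℝ, rr e ((e j + q.1 : ℝ) : UnitAddCircle) = σ * q.1 →
      |q.1| < 1 / 4 → |q.2| < 1 / 4 →
      GG lam e (((e j + q.1 : ℝ) : UnitAddCircle), ((1 / 2 + q.2 : ℝ) : UnitAddCircle)) =
        ⟨σ * q.1, lam * q.2⟩ ∧
      (torusTS lam hlam).chart p (((e j + q.1 : ℝ) : UnitAddCircle),
        ((1 / 2 + q.2 : ℝ) : UnitAddCircle)) = ⟨q.1, lam * q.2⟩ := by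
    intro q hq1 hq2 hq3
    constructor
    · apply Complex.ext
      · rw [GG_re e lam _ hq3.le, hq1]
      · rw [GG_im e lam _ hq3.le]
    · have := torusTS_chart (hlam := hlam) p hq2 hq3
      rw [hp'] at this ⊢
      simp only [← AddCircle.coe_add] at this
      exact this
  rcases hσ with rfl | rfl
  · left
    rw [hnhds, eventually_map]
    filter_upwards [hev] with q hq
    obtain ⟨e1, e2⟩ := hval q hq.1 hq.2.1 hq.2.2
    rw [e1, e2, one_mul]
  · right
    rw [hnhds, eventually_map]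
    filter_upwards [hev] with q hq
    obtain ⟨e1, e2⟩ := hval q hq.1 hq.2.1 hq.2.2
    rw [e1, e2]
    apply Complex.ext <;> simp

theorem volume_GG_zero {M : ℕ} (hM : 0 < M) (e : Fin M → ℝ) {lam : ℝ} (hlam : 0 < lam) :
    (volume : Measure Tor) {p | GG lam e p = 0} = 0 := by
  have hsub : {p : Tor | GG lam e p = 0} ⊆
      (Set.univ : Set UnitAddCircle) ×ˢ ({((1 / 2 : ℝ) : UnitAddCircle)} : Set UnitAddCircle) := by
    intro p hp
    exact ⟨Set.mem_univ _, ((GG_eq_zero_iff hM e hlam p).1 hp).1⟩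
  refine measure_mono_null hsub ?_
  rw [Measure.volume_eq_prod, Measure.prod_prod]
  have h0 : (volume : Measure UnitAddCircle) {((1 / 2 : ℝ) : UnitAddCircle)} = 0 := by
    have hcl : MeasurableSet ({((1 / 2 : ℝ) : UnitAddCircle)} : Set UnitAddCircle) :=
      measurableSet_singleton _
    have h := (AddCircle.measurePreserving_mk (1:ℝ) 0).measure_preimage hcl.nullMeasurableSet
    rw [← h]
    rw [Measure.restrict_apply]
    · refine measure_mono_null (t := {(1 / 2 : ℝ), 1}) ?_ (Set.Finite.measure_zero (by simp) _)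
      rintro t ⟨ht1, ht2⟩
      have ht3 : ((t : ℝ) : UnitAddCircle) = ((1 / 2 : ℝ) : UnitAddCircle) := ht1
      rw [zero_add] at ht2
      rcases eq_or_lt_of_le ht2.2 with h1 | h1
      · right; exact h1
      · left
        exact (coe_inj ⟨ht2.1.le, h1⟩ ⟨by norm_num, by norm_num⟩).1 ht3
    · exact (AddCircle.measurable_mk' (a := (1:ℝ))) hcl
  rw [h0, mul_zero]

end PFS
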