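import Pool.Agent.PFS.Defs

/-! # PFS module Orbit: uniqueness of orbits -/

open MeasureTheory Topology Filter
open scoped ENNReal

namespace PFS

namespace TranslationSurface

variable {X : Type} [TopologicalSpace X] {S : TranslationSurface X} {θ : ℝ}

theorem IsOrbit.unique [T2Space X] {γ₁ γ₂ : ℝ → X} (h₁ : S.IsOrbit θ γ₁) (h₂ : S.IsOrbit θ γ₂)
    (h0 : γ₁ 0 = γ₂ 0) : γ₁ = γ₂ := by
  have hclosed : IsClosed {s | γ₁ s = γ₂ s} := isClosed_eq h₁.cont h₂.cont
  have hopen : IsOpen {s | γ₁ s = γ₂ s} := by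
    rw [isOpen_iff_mem_nhds]
    intro s hs
    have hs' : γ₁ s = γ₂ s := hs
    have hsrc : (S.chart (γ₁ s)).source ∈ 𝓝 (γ₁ s) :=
      (S.chart (γ₁ s)).open_source.mem_nhds (S.mem_source _)
    have e1 : ∀ᶠ s' in 𝓝 s, γ₁ s' ∈ (S.chart (γ₁ s)).source :=
      h₁.cont.continuousAt.eventually hsrc
    have e2 : ∀ᶠ s' in 𝓝 s, γ₂ s' ∈ (S.chart (γ₁ s)).source := by
      have : (S.chart (γ₁ s)).source ∈ 𝓝 (γ₂ s) := by
        rw [← hs']
        exact hsrc
      exact h₂.cont.continuousAt.eventually this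
    have l1 := h₁.line s
    have l2 := h₂.line s
    rw [← hs'] at l2
    filter_upwards [e1, e2, l1, l2] with s' m1 m2 k1 k2
    exact (S.chart (γ₁ s)).injOn m1 m2 (k1.trans k2.symm)
  have huniv : {s | γ₁ s = γ₂ s} = Set.univ :=
    IsClopen.eq_univ ⟨hclosed, hopen⟩ ⟨0, h0⟩
  funext s
  have : s ∈ {s | γ₁ s = γ₂ s} := by
    rw [huniv]
    trivial
  exact this

/-- time translates of orbits are orbits -/
theorem IsOrbit.shift {γ : ℝ → X} (h : S.IsOrbit θ γ) (a : ℝ) :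
    S.IsOrbit θ (fun s => γ (a + s)) := by
  refine ⟨h.cont.comp (by fun_prop), fun s => h.regular _, fun s => ?_⟩
  have h1 := h.line (a + s)
  have h2 : Tendsto (fun s' : ℝ => a + s') (𝓝 s) (𝓝 (a + s)) := by
    apply Continuous.tendsto
    fun_prop
  filter_upwards [h2.eventually h1] with s' hs'
  rw [hs']
  congr 2
  ring

theorem IsOrbit.flow_eq [T2Space X] {γ : ℝ → X} (h : S.IsOrbit θ γ) {x : X} (hx : γ 0 = x) (t : ℝ) :
    S.flow θ t x = γ t := by
  have hex : ∃ γ : ℝ → X, S.IsOrbit θ γ ∧ γ 0 = x := ⟨γ, h, hx⟩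
  unfold flow
  rw [dif_pos hex]
  have h1 := hex.choose_spec
  have h2 : hex.choose = γ := IsOrbit.unique h1.1 h (h1.2.trans hx.symm)
  rw [h2]

end TranslationSurface

end PFS
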