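import Pool.Agent.PFS.Basic

/-! # PFS module QStar: best approximation denominators and the near-uniform grid -/

open MeasureTheory Topology Filter
open scoped ENNReal

namespace PFS

private theorem qstar_ex (α : ℝ) {X : ℕ} (hX : 1 ≤ X) :
    ∃ q : ℕ, 1 ≤ q ∧ q ≤ X ∧ nrm (q * α) < 1 / (X : ℝ) := by
  obtain ⟨k, hk0, hkX, hk⟩ := Real.exists_nat_abs_mul_sub_round_le α (n := X) hX
  refine ⟨k, hk0, hkX, ?_⟩
  have hX' : (0 : ℝ) < X := by exact_mod_cast hX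
  unfold nrm
  refine hk.trans_lt ?_
  exact one_div_lt_one_div_of_lt hX' (by linarith)

private theorem qstar_mem (α : ℝ) {X : ℕ} (hX : 1 ≤ X) :
    1 ≤ qstar α X ∧ nrm (qstar α X * α) < 1 / (X : ℝ) := by
  obtain ⟨q, h1, _, h3⟩ := qstar_ex α hX
  have : qstar α X ∈ {q : ℕ | 1 ≤ q ∧ nrm (q * α) < 1 / (X : ℝ)} := Nat.sInf_mem ⟨q, h1, h3⟩
  exact this

theorem qstar_pos (α : ℝ) {X : ℕ} (hX : 1 ≤ X) : 1 ≤ qstar α X := (qstar_mem α hX).1

theorem qstar_nrm (α : ℝ) {X : ℕ} (hX : 1 ≤ X) : nrm (qstar α X * α) < 1 / (X : ℝ) :=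
  (qstar_mem α hX).2

theorem qstar_le (α : ℝ) {X : ℕ} (hX : 1 ≤ X) : qstar α X ≤ X := by
  obtain ⟨q, h1, h2, h3⟩ := qstar_ex α hX
  exact (Nat.sInf_le (show q ∈ {q : ℕ | 1 ≤ q ∧ nrm (q * α) < 1 / (X : ℝ)} from ⟨h1, h3⟩)).trans h2

private theorem qstar_min_nat (α : ℝ) {X : ℕ} {j : ℕ} (hj : 1 ≤ j)
    (hj' : j < qstar α X) : 1 / (X : ℝ) ≤ nrm (j * α) := by
  by_contra hcon
  push Not at hcon
  exact absurd (Nat.sInf_le (show j ∈ {q : ℕ | 1 ≤ q ∧ nrm (q * α) < 1 / (X : ℝ)} from ⟨hj, hcon⟩))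
    (not_le.mpr hj')

/-- minimality, for integers of either sign -/
theorem qstar_min (α : ℝ) {X : ℕ} (hX : 1 ≤ X) {j : ℤ} (hj : j ≠ 0)
    (hj' : |j| < (qstar α X : ℤ)) : 1 / (X : ℝ) ≤ nrm (j * α) := by
  have h1 : 1 ≤ j.natAbs := Nat.one_le_iff_ne_zero.mpr (Int.natAbs_ne_zero.mpr hj)
  have h2 : j.natAbs < qstar α X := by
    have : (j.natAbs : ℤ) < (qstar α X : ℤ) := by rwa [Int.natCast_natAbs]
    exact_mod_cast this
  have h3 := qstar_min_nat α h1 h2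
  rcases Int.natAbs_eq j with h | h
  · have e : (j : ℝ) = (j.natAbs : ℝ) := by
      have := congrArg (fun t : ℤ => (t : ℝ)) h
      simpa using this
    rw [e]
    exact h3
  · have e : (j : ℝ) = -(j.natAbs : ℝ) := by
      have := congrArg (fun t : ℤ => (t : ℝ)) h
      simpa using this
    rw [e, neg_mul, nrm_neg]
    exact h3

private theorem coprime_aux (α : ℝ) {X : ℕ} (hX : 1 ≤ X) :
    IsCoprime (round ((qstar α X : ℝ) * α)) (qstar α X : ℤ) := by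
  set q := qstar α X with hq
  set p : ℤ := round ((q : ℝ) * α) with hp
  have hq1 : 1 ≤ q := qstar_pos α hX
  rw [Int.isCoprime_iff_gcd_eq_one]
  by_contra hne
  set d := Int.gcd p (q : ℤ) with hd
  have hd0 : d ≠ 0 := by
    intro h0
    rw [hd, Int.gcd_eq_zero_iff] at h0
    have := h0.2
    omega
  have hd2 : 2 ≤ d := by omega
  obtain ⟨p', hp'⟩ : (d : ℤ) ∣ p := Int.gcd_dvd_left ..
  obtain ⟨q', hq'⟩ : (d : ℤ) ∣ (q : ℤ) := Int.gcd_dvd_right ..
  have hq'pos : 0 < q' := by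
    have h1 : (0 : ℤ) < (d : ℤ) * q' := by rw [← hq']; exact_mod_cast hq1
    exact pos_of_mul_pos_right h1 (by positivity)
  have hq'lt : q' < (q : ℤ) := by
    rw [hq']
    nlinarith [show (2 : ℤ) ≤ (d : ℤ) by exact_mod_cast hd2]
  have hmin := qstar_min α hX (j := q') hq'pos.ne' (by rw [abs_of_pos hq'pos]; exact hq'lt)
  have hη := qstar_nrm α hX
  have hle := nrm_le_abs_sub_int ((q' : ℝ) * α) p'
  have e : nrm ((q : ℝ) * α) = (d : ℝ) * |(q' : ℝ) * α - p'| := by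
    unfold nrm
    rw [← hp]
    have e1 : ((q : ℕ) : ℝ) = (d : ℝ) * (q' : ℝ) := by exact_mod_cast hq'
    have e2 : (p : ℝ) = (d : ℝ) * (p' : ℝ) := by exact_mod_cast hp'
    rw [e1, e2, show (d : ℝ) * (q' : ℝ) * α - (d : ℝ) * (p' : ℝ) = (d : ℝ) * ((q' : ℝ) * α - p') by ring,
      abs_mul, abs_of_nonneg (by positivity : (0 : ℝ) ≤ (d : ℝ))]
  have hd2' : (2 : ℝ) ≤ d := by exact_mod_cast hd2
  have h0 : 0 ≤ |(q' : ℝ) * α - p'| := abs_nonneg _
  rw [← hq] at hη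
  rw [e] at hη
  nlinarith

/-- among `q` consecutive multiples of `α` at most `2 r q + 3` are within `r` of a given point -/
theorem grid_count (α : ℝ) {X : ℕ} (hX : 1 ≤ X) (a : ℤ) (c r : ℝ) (hr : 0 ≤ r) :
    (((Finset.Ico a (a + (qstar α X : ℤ))).filter (fun i : ℤ => nrm (c + i * α) < r)).card : ℝ)
      ≤ 2 * r * qstar α X + 3 := by
  have hcop := coprime_aux α hX
  have hq1 := qstar_pos α hX
  have hqX := qstar_le α hX
  have hη := qstar_nrm α hX
  set q := qstar α X with hq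
  set p : ℤ := round ((q : ℝ) * α) with hp
  have hq0 : (0 : ℝ) < q := by exact_mod_cast hq1
  have hηq : |(q : ℝ) * α - p| < 1 / (q : ℝ) := by
    refine lt_of_lt_of_le hη ?_
    exact one_div_le_one_div_of_le hq0 (by exact_mod_cast hqX)
  set η : ℝ := (q : ℝ) * α - p with hηdef
  have hα : α = ((p : ℝ) + η) / q := by
    rw [eq_div_iff hq0.ne', hηdef]; ring
  set lo : ℝ := -(q : ℝ) * (c + a * α) - (r * q + 1) with hlo
  set hi : ℝ := -(q : ℝ) * (c + a * α) + (r * q + 1) with hhi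
  set F := (Finset.Ico a (a + (q : ℤ))).filter (fun i : ℤ => nrm (c + i * α) < r) with hF
  have hcard : F.card ≤ (Finset.Icc ⌈lo⌉ ⌊hi⌋).card := by
    apply Finset.card_le_card_of_injOn (fun i : ℤ => (i - a) * p - q * round (c + i * α))
    · intro i hi'
      rw [Finset.mem_coe, hF, Finset.mem_filter, Finset.mem_Ico] at hi'
      obtain ⟨⟨h1, h2⟩, h3⟩ := hi'
      rw [Finset.mem_coe, Finset.mem_Icc, Int.ceil_le, Int.le_floor]
      unfold nrm at h3
      set N : ℤ := round (c + i * α) with hN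
      push_cast
      have h4 : (0 : ℝ) ≤ (i : ℝ) - a := by
        have : (a : ℝ) ≤ i := by exact_mod_cast h1
        linarith
      have h5 : (i : ℝ) - a < q := by
        have : (i : ℝ) < a + q := by exact_mod_cast h2
        linarith
      have h6 : |((i : ℝ) - a) * η| ≤ 1 := by
        rw [abs_mul, abs_of_nonneg h4]
        calc ((i : ℝ) - a) * |η| ≤ q * (1 / q) := by gcongr
          _ = 1 := by field_simp
      have h7 : (((i : ℝ) - a) * p - q * N) + (q : ℝ) * (c + a * α)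
          = q * (c + i * α - N) - ((i : ℝ) - a) * η := by
        rw [hηdef]; ring
      have h8 : |q * (c + i * α - N)| ≤ r * q := by
        rw [abs_mul, abs_of_pos hq0, mul_comm r]
        exact mul_le_mul_of_nonneg_left h3.le hq0.le
      have h9 := abs_le.mp h6
      have h10 := abs_le.mp h8
      constructor
      · rw [hlo]; linarith
      · rw [hhi]; linarith
    · intro i hi₁ j hj₁ hij
      rw [Finset.mem_coe, hF, Finset.mem_filter, Finset.mem_Ico] at hi₁ hj₁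
      have h1 : (q : ℤ) ∣ (i - j) * p := by
        refine ⟨round (c + i * α) - round (c + j * α), ?_⟩
        simp only at hij
        linarith
      have h2 : (q : ℤ) ∣ i - j := (hcop.symm).dvd_of_dvd_mul_right h1
      obtain ⟨t, ht⟩ := h2
      have hq1' : (1 : ℤ) ≤ q := by exact_mod_cast hq1
      have h3 : |i - j| < (q : ℤ) := by
        rw [abs_lt]
        constructor <;> linarith [hi₁.1.1, hi₁.1.2, hj₁.1.1, hj₁.1.2]
      have h4 : i - j = 0 := Int.eq_zero_of_abs_lt_dvd ⟨t, ht⟩ h3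
      linarith
  have hcard2 : ((Finset.Icc ⌈lo⌉ ⌊hi⌋).card : ℝ) ≤ 2 * r * q + 3 := by
    rw [Int.card_Icc]
    have h1 : ((⌊hi⌋ + 1 - ⌈lo⌉ : ℤ) : ℝ) ≤ 2 * r * q + 3 := by
      push_cast
      have := Int.floor_le hi
      have := Int.le_ceil lo
      rw [hhi] at *
      linarith
    have h2 : (0 : ℝ) ≤ 2 * r * q + 3 := by positivity
    rcases le_or_gt 0 (⌊hi⌋ + 1 - ⌈lo⌉) with h | h
    · have h3 : (((⌊hi⌋ + 1 - ⌈lo⌉).toNat : ℤ) : ℝ) = ((⌊hi⌋ + 1 - ⌈lo⌉ : ℤ) : ℝ) := by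
        rw [Int.toNat_of_nonneg h]
      have h4 : (((⌊hi⌋ + 1 - ⌈lo⌉).toNat : ℕ) : ℝ) = ((⌊hi⌋ + 1 - ⌈lo⌉ : ℤ) : ℝ) := by
        rw [← h3]; norm_cast
      rw [h4]
      exact h1
    · rw [Int.toNat_of_nonpos h.le]
      simpa using h2
  calc (F.card : ℝ) ≤ ((Finset.Icc ⌈lo⌉ ⌊hi⌋).card : ℝ) := by exact_mod_cast hcard
    _ ≤ _ := hcard2

/-- every point is within `3/(2q)` of one of the `q` points `-kα`, `1 ≤ k ≤ q` -/
theorem grid_cover (α : ℝ) {X : ℕ} (hX : 1 ≤ X) (x : ℝ) :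
    ∃ k ∈ Finset.Icc 1 (qstar α X), nrm (x + (k : ℕ) * α) ≤ 3 / (2 * (qstar α X : ℝ)) := by
  have hcop := coprime_aux α hX
  have hq1 := qstar_pos α hX
  have hqX := qstar_le α hX
  have hη := qstar_nrm α hX
  set q := qstar α X with hq
  set p : ℤ := round ((q : ℝ) * α) with hp
  have hq0 : (0 : ℝ) < q := by exact_mod_cast hq1
  have hηq : |(q : ℝ) * α - p| < 1 / (q : ℝ) := by
    refine lt_of_lt_of_le hη ?_
    exact one_div_le_one_div_of_le hq0 (by exact_mod_cast hqX)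
  set η : ℝ := (q : ℝ) * α - p with hηdef
  set m : ℤ := round (-(q : ℝ) * x) with hm
  obtain ⟨u, v, huv⟩ := hcop
  -- u * p + v * q = 1
  set k0 : ℤ := (u * m - 1) % (q : ℤ) with hk0
  have hqz : (0 : ℤ) < q := by exact_mod_cast hq1
  have hk0' : 0 ≤ k0 := Int.emod_nonneg _ hqz.ne'
  have hk0'' : k0 < q := Int.emod_lt_of_pos _ hqz
  obtain ⟨k, hk⟩ : ∃ k : ℕ, (k : ℤ) = k0 + 1 := ⟨(k0 + 1).toNat, Int.toNat_of_nonneg (by linarith)⟩
  have hk1 : 1 ≤ k := by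
    have : (1 : ℤ) ≤ (k : ℤ) := by rw [hk]; linarith
    exact_mod_cast this
  have hkq : k ≤ q := by
    have : (k : ℤ) ≤ (q : ℤ) := by rw [hk]; linarith
    exact_mod_cast this
  obtain ⟨t, ht⟩ : ∃ t : ℤ, (k : ℤ) * p = m + q * t := by
    have h1 : (q : ℤ) * ((u * m - 1) / (q : ℤ)) + k0 = u * m - 1 := Int.mul_ediv_add_emod _ _
    refine ⟨-(v * m) - ((u * m - 1) / (q : ℤ)) * p, ?_⟩
    have h2 : (k : ℤ) = u * m - (q : ℤ) * ((u * m - 1) / (q : ℤ)) := by rw [hk]; linarith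
    rw [h2]
    linear_combination m * huv
  refine ⟨k, Finset.mem_Icc.mpr ⟨hk1, hkq⟩, ?_⟩
  have hle := nrm_le_abs_sub_int (x + (k : ℝ) * α) t
  refine hle.trans ?_
  have htR : (k : ℝ) * p = m + q * t := by exact_mod_cast ht
  have h3 : (q : ℝ) * (x + (k : ℝ) * α - t) = -(-(q : ℝ) * x - m) + k * η := by
    rw [hηdef]
    linear_combination htR
  have h4 : |-(q : ℝ) * x - m| ≤ 1 / 2 := abs_sub_round _
  have h5 : |(k : ℝ) * η| ≤ 1 := by
    rw [abs_mul, abs_of_nonneg (by positivity : (0 : ℝ) ≤ (k : ℝ))]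
    calc (k : ℝ) * |η| ≤ q * (1 / q) := by gcongr
      _ = 1 := by field_simp
  have h6 : |(q : ℝ) * (x + (k : ℝ) * α - t)| ≤ 3 / 2 := by
    rw [h3]
    calc _ ≤ |-(-(q : ℝ) * x - m)| + |(k : ℝ) * η| := abs_add_le _ _
      _ ≤ 1 / 2 + 1 := by rw [abs_neg]; exact add_le_add h4 h5
      _ = 3 / 2 := by norm_num
  rw [abs_mul, abs_of_pos hq0] at h6
  rw [le_div_iff₀ (by positivity)]
  linarith

/-! ### level versions -/

theorem qq_pos (α : ℝ) (b : ℕ) : 1 ≤ qq α b := qstar_pos α (one_le_BB_pow b)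

theorem qq_le (α : ℝ) (b : ℕ) : qq α b ≤ BB ^ b := qstar_le α (one_le_BB_pow b)

private theorem AA_pos : 0 < AA := by unfold AA; positivity

/-- if `b' > b` and `b'` is regular then `q_b ≤ q_{b'} / 2^80` -/
theorem qq_ratio (α : ℝ) {b b' : ℕ} (h : b < b') (hb' : Reg α b') :
    2 ^ 80 * qq α b ≤ qq α b' := by
  unfold Reg at hb'
  have h1 := qq_le α b
  have h2 : BB ^ (b + 1) ≤ BB ^ b' := Nat.pow_le_pow_right BB_pos h
  have h3 : AA * 2 ^ 80 = BB := by unfold AA BB; norm_num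
  apply Nat.le_of_mul_le_mul_left _ AA_pos
  calc AA * (2 ^ 80 * qq α b) = (AA * 2 ^ 80) * qq α b := by ring
    _ ≤ BB * BB ^ b := by rw [h3]; exact Nat.mul_le_mul_left _ h1
    _ = BB ^ (b + 1) := by rw [pow_succ]; ring
    _ ≤ BB ^ b' := h2
    _ ≤ AA * qq α b' := hb'

/-- if `b' ≥ b + 3` and `b'` is regular then `q_{b'} ≥ 100 B² q_b` -/
theorem qq_ratio3 (α : ℝ) {b b' : ℕ} (h : b + 3 ≤ b') (hb' : Reg α b') :
    100 * BB ^ 2 * qq α b ≤ qq α b' := by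
  unfold Reg at hb'
  have h1 := qq_le α b
  have h2 : BB ^ (b + 3) ≤ BB ^ b' := Nat.pow_le_pow_right BB_pos h
  have h3 : AA * 100 ≤ BB := by unfold AA BB; norm_num
  apply Nat.le_of_mul_le_mul_left _ AA_pos
  calc AA * (100 * BB ^ 2 * qq α b) = (AA * 100) * (BB ^ 2 * qq α b) := by ring
    _ ≤ BB * (BB ^ 2 * BB ^ b) := Nat.mul_le_mul h3 (Nat.mul_le_mul_left _ h1)
    _ = BB ^ (b + 3) := by ring
    _ ≤ BB ^ b' := h2
    _ ≤ AA * qq α b' := hb'

/-- if `b ≥ 3` is regular then `q_b ≥ 100 B` -/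
theorem qq_large (α : ℝ) {b : ℕ} (h : 3 ≤ b) (hb : Reg α b) : 100 * BB ≤ qq α b := by
  unfold Reg at hb
  have h2 : BB ^ 3 ≤ BB ^ b := Nat.pow_le_pow_right BB_pos h
  have h3 : AA * 100 ≤ BB := by unfold AA BB; norm_num
  apply Nat.le_of_mul_le_mul_left _ AA_pos
  calc AA * (100 * BB) = (AA * 100) * BB := by ring
    _ ≤ BB * BB := Nat.mul_le_mul_right _ h3
    _ ≤ BB ^ 2 * BB := by
        rw [pow_two]
        exact Nat.mul_le_mul_right _ (Nat.le_mul_of_pos_left _ BB_pos)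
    _ = BB ^ 3 := by ring
    _ ≤ BB ^ b := h2
    _ ≤ AA * qq α b := hb

/-- for a regular level, small multiples of `α` stay `1/(A q)` away from the integers -/
theorem reg_sep (α : ℝ) {b : ℕ} (hb : Reg α b) {j : ℤ} (hj : j ≠ 0)
    (hj' : |j| < (qq α b : ℤ)) : 1 / ((AA : ℝ) * qq α b) ≤ nrm (j * α) := by
  unfold Reg at hb
  refine le_trans ?_ (qstar_min α (one_le_BB_pow b) hj hj')
  have h1 : (0 : ℝ) < ((BB ^ b : ℕ) : ℝ) := by exact_mod_cast one_le_BB_pow b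
  apply one_div_le_one_div_of_le h1
  exact_mod_cast hb

end PFS
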