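import Pool.Agent.PFS.GFun
import Pool.Agent.PFS.CoverArea
import Pool.Agent.PFS.Orbit

/-! # PFS module Surface: the `(ℤ/2)²`-cover of the torus -/

open MeasureTheory Topology Filter
open scoped ENNReal

namespace PFS

/-- parameters of the surface -/
structure Par where
  M : ℕ
  lam : ℝ
  e : Fin M → ℝ
  e' : Fin M → ℝ
  hM0 : 0 < M
  hM : Even M
  hlam : 0 < lam
  hinj : Function.Injective e
  hinj' : Function.Injective e'
  he : ∀ j, e j ∈ Set.Ioo (0:ℝ) 1
  he' : ∀ j, e' j ∈ Set.Ioo (0:ℝ) 1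
  hne : ∀ i j, e i ≠ e' j

namespace Par

variable (Q : Par)

/-- first double cover -/
abbrev X1 : Type := Dbl (GG Q.lam Q.e)

/-- the function defining the second double cover -/
noncomputable def G2 (q : Q.X1) : ℂ := GG Q.lam Q.e' q.1.1

/-- the surface -/
abbrev X2 : Type := Dbl Q.G2

noncomputable def S1 : TranslationSurface Q.X1 :=
  coverTS (torusTS Q.lam Q.hlam) (GG Q.lam Q.e) (continuous_GG Q.hM Q.e Q.he Q.lam)
    (niceZeros_GG Q.hM0 Q.hM Q.e Q.he Q.hinj Q.lam Q.hlam)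

theorem continuous_G2 : Continuous Q.G2 :=
  (continuous_GG Q.hM Q.e' Q.he' Q.lam).comp (continuous_fst.comp continuous_subtype_val)

/-- the two functions have no common zero -/
theorem ne_zero_of_zero' {p : Tor} (h : GG Q.lam Q.e' p = 0) : GG Q.lam Q.e p ≠ 0 := by
  intro h'
  obtain ⟨-, i, hi⟩ := (GG_eq_zero_iff Q.hM0 Q.e' Q.hlam p).1 h
  obtain ⟨-, j, hj⟩ := (GG_eq_zero_iff Q.hM0 Q.e Q.hlam p).1 h'
  rw [hi] at hj
  have hinj : Set.InjOn (fun x : ℝ => (x : UnitAddCircle)) (Set.Ico 0 (0 + 1)) := by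
    intro x hx y hy hxy
    exact (AddCircle.coe_eq_coe_iff_of_mem_Ico hx hy).1 hxy
  have h1 : Q.e' i ∈ Set.Ico (0:ℝ) (0 + 1) := by
    have := Q.he' i
    rw [zero_add]
    exact ⟨this.1.le, this.2⟩
  have h2 : Q.e j ∈ Set.Ico (0:ℝ) (0 + 1) := by
    have := Q.he j
    rw [zero_add]
    exact ⟨this.1.le, this.2⟩
  exact Q.hne j i (hinj h1 h2 hj).symm

theorem niceZeros_G2 : NiceZeros Q.S1 Q.G2 := by
  intro q hq
  have hne : GG Q.lam Q.e q.1.1 ≠ 0 := Q.ne_zero_of_zero' hq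
  obtain ⟨h1, h2⟩ := niceZeros_GG Q.hM0 Q.hM Q.e' Q.he' Q.hinj' Q.lam Q.hlam q.1.1 hq
  have hk : Q.S1.k q = 1 := (coverTS_k_of_ne hne).trans h1
  refine ⟨hk, ?_⟩
  have hc : Tendsto (fun q' : Q.X1 => q'.1.1) (𝓝 q) (𝓝 q.1.1) :=
    (continuous_fst.comp continuous_subtype_val).continuousAt
  have hs : ∀ᶠ q' : Q.X1 in 𝓝 q, Q.S1.chart q q' = (torusTS Q.lam Q.hlam).chart q.1.1 q'.1.1 := by
    filter_upwards [(Q.S1.chart q).open_source.mem_nhds (Q.S1.mem_source q)] with q' hq'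
    exact (coverTS_ne hne hq').2
  rcases h2 with h2 | h2
  · left
    filter_upwards [hs, hc.eventually h2] with q' h3 h4
    rw [h3]
    exact h4
  · right
    filter_upwards [hs, hc.eventually h2] with q' h3 h4
    rw [h3]
    exact h4

/-- the translation surface -/
noncomputable def S2 : TranslationSurface Q.X2 := coverTS Q.S1 Q.G2 Q.continuous_G2 Q.niceZeros_G2

/-- its area measure -/
noncomputable def mu1 : Measure Q.X1 := coverMeasure (GG Q.lam Q.e) volume

noncomputable def mu2 : Measure Q.X2 := coverMeasure Q.G2 Q.mu1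

theorem area1 : Q.S1.IsArea Q.mu1 :=
  cover_area torus_area (volume_GG_zero Q.hM0 Q.e Q.hlam)

theorem area2 : Q.S2.IsArea Q.mu2 := by
  refine cover_area Q.area1 ?_
  have h : ∀ᵐ q ∂Q.mu1, Q.G2 q ≠ 0 := by
    refine ae_cover (continuous_GG Q.hM Q.e Q.he Q.lam).measurable volume ?_
    have h0 : ∀ᵐ p : Tor, GG Q.lam Q.e' p ≠ 0 := by
      rw [ae_iff]
      simpa using volume_GG_zero Q.hM0 Q.e' Q.hlam
    filter_upwards [h0] with p hp q hq
    change GG Q.lam Q.e' q.1.1 ≠ 0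
    rw [hq]
    exact hp
  rw [ae_iff] at h
  simpa using h

theorem compact1 : CompactSpace Q.X1 :=
  compactSpace_dbl (continuous_GG Q.hM Q.e Q.he Q.lam)

theorem compact2 : CompactSpace Q.X2 := by
  have := Q.compact1
  exact compactSpace_dbl Q.continuous_G2

/-- projection to the torus -/
def base (q : Q.X2) : Tor := q.1.1.1.1

end Par

end PFS
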